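import Mathlib
import Pool.Agent.Helper669.Forcing

/-!
# Statements about sets of real numbers of the extension

The sentences of the forcing language of a preordered set `P` are the subsets of `P` (the set of
the conditions which force the sentence), see `Pool.Agent.Helper669.Forcing`. A real number of the
extension is named by a name `x : ℕ → ℚ → Set P` of a sequence of rationals `x 0, x 1, …` with
`|x m - x n| ≤ 2 ^ (-m)` for `m ≤ n`; it stands for the limit of the sequence. A set of reals of
the extension is named by a family of such names indexed by a ground model set.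
-/

namespace Pool.Agent.H652R2.Defs

open Pool.Agent.Helper669.Forcing

universe u

variable {P : Type u} [Preorder P]

/-- The relation named by `x` is a sequence of rationals with `|x m - x n| ≤ 2 ^ (-m)` for
`m ≤ n`. -/
def IsReal (x : ℕ → ℚ → Set P) : Set P :=
  fand (IsFun x) (fall fun m : ℕ => fall fun n : ℕ => fall fun _ : m ≤ n => fall fun a : ℚ =>
    fall fun b : ℚ =>
      fimp (fand (meets (x m a)) (meets (x n b))) (fground (|a - b| ≤ (1 / 2) ^ m)))

/-- The real number `x` lies in the open interval `(a, b)`: some approximation `c = x n`, whose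
distance to `x` is at most `2 ^ (-n)`, shows it. -/
def InIoo (x : ℕ → ℚ → Set P) (a b : ℚ) : Set P :=
  fex fun n : ℕ => fex fun c : ℚ =>
    fand (fground (a + (1 / 2) ^ n < c ∧ c + (1 / 2) ^ n < b)) (meets (x n c))

/-- The real number `x + y` lies in the open interval `(a, b)`. -/
def SumInIoo (x y : ℕ → ℚ → Set P) (a b : ℚ) : Set P :=
  fex fun n : ℕ => fex fun c : ℚ => fex fun d : ℚ =>
    fand (fground (a + 2 * (1 / 2) ^ n < c + d ∧ c + d + 2 * (1 / 2) ^ n < b))
      (fand (meets (x n c)) (meets (y n d)))

/-- The real numbers `x` and `y` are equal. -/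
def SameR (x y : ℕ → ℚ → Set P) : Set P :=
  fall fun n : ℕ => fall fun a : ℚ => fall fun b : ℚ =>
    fimp (fand (meets (x n a)) (meets (y n b))) (fground (|a - b| ≤ 2 * (1 / 2) ^ n))

/-- The set of reals `{E y : y ∈ Y}` is contained in the range of a sequence of reals. -/
def IsCountable {Y : Type} (E : Y → ℕ → ℚ → Set P) : Set P :=
  fex fun S : ℕ → ℕ → ℚ → Set P =>
    fand (fall fun n => IsReal (S n)) (fall fun y => fex fun n => SameR (E y) (S n))

/-- The set of reals `{E y : y ∈ Y}` has strong measure zero: for every sequence `ε` of positive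
rationals there are intervals `I n = (a, b)` with rational end points and of length less than
`ε n` which cover the set. -/
def IsSMZ {Y : Type} (E : Y → ℕ → ℚ → Set P) : Set P :=
  fall fun ε : ℕ → ℚ → Set P =>
    fimp (fand (IsFun ε) (fall fun n => fall fun e : ℚ => fimp (meets (ε n e)) (fground (0 < e))))
      (fex fun I : ℕ → ℚ × ℚ → Set P =>
        fand (IsFun I)
          (fand (fall fun n => fall fun e : ℚ => fall fun J : ℚ × ℚ =>
              fimp (fand (meets (ε n e)) (meets (I n J))) (fground (J.2 - J.1 < e)))
            (fall fun y => fex fun n => fex fun J : ℚ × ℚ =>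
              fand (meets (I n J)) (InIoo (E y) J.1 J.2))))

/-- `T` names a sequence of sets of open intervals with rational end points, such that the union
`U k` of the intervals in `T k` is dense for every `k`. -/
def IsCode (T : ℕ → ℚ × ℚ → Set P) : Set P :=
  fall fun k => fall fun a : ℚ => fall fun b : ℚ => fall fun _ : a < b =>
    fex fun J : ℚ × ℚ => fand (fground (max a J.1 < min b J.2)) (meets (T k J))

/-- The real number `x` is not in the intersection of the dense open sets `U k`. -/
def InMeager (x : ℕ → ℚ → Set P) (T : ℕ → ℚ × ℚ → Set P) : Set P :=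
  fex fun k => fnot (fex fun J : ℚ × ℚ => fand (meets (T k J)) (InIoo x J.1 J.2))

/-- The real number `x + y` is not in the intersection of the dense open sets `U k`. -/
def SumInMeager (x y : ℕ → ℚ → Set P) (T : ℕ → ℚ × ℚ → Set P) : Set P :=
  fex fun k => fnot (fex fun J : ℚ × ℚ => fand (meets (T k J)) (SumInIoo x y J.1 J.2))

/-- The set of reals `{E y : y ∈ Y}` is meager-additive: for every meager set of reals
`{M z : z ∈ Z}` the set of all sums `E y + M z` is meager. -/
def IsMeagerAdditive {Y : Type} (E : Y → ℕ → ℚ → Set P) : Set P :=
  fall fun Z : Type => fall fun M : Z → ℕ → ℚ → Set P =>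
    fimp (fand (fall fun z => IsReal (M z))
        (fex fun T : ℕ → ℚ × ℚ → Set P => fand (IsCode T) (fall fun z => InMeager (M z) T)))
      (fex fun T' : ℕ → ℚ × ℚ → Set P =>
        fand (IsCode T') (fall fun y => fall fun z => SumInMeager (E y) (M z) T'))

/-- Every strong measure zero set of reals is meager-additive. -/
def StatementH (P : Type u) [Preorder P] : Set P :=
  fall fun Y : Type => fall fun E : Y → ℕ → ℚ → Set P =>
    fimp (fand (fall fun y => IsReal (E y)) (IsSMZ E)) (IsMeagerAdditive E)

/-- Borel's Conjecture: every strong measure zero set of reals is countable. -/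
def BorelConjecture (P : Type u) [Preorder P] : Set P :=
  fall fun Y : Type => fall fun E : Y → ℕ → ℚ → Set P =>
    fimp (fand (fall fun y => IsReal (E y)) (IsSMZ E)) (IsCountable E)

end Pool.Agent.H652R2.Defs
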