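import Mathlib

/-!
# Finite sequences, infinite sequences and Miller maps
-/

namespace Pool.Agent.H652R2

/-- the initial segment of length `n` -/
def pre (z : ℕ → ℕ) (n : ℕ) : List ℕ := (List.range n).map z

@[simp] theorem length_pre (z : ℕ → ℕ) (n : ℕ) : (pre z n).length = n := by simp [pre]

@[simp] theorem pre_zero (z : ℕ → ℕ) : pre z 0 = [] := by simp [pre]

theorem pre_succ (z : ℕ → ℕ) (n : ℕ) : pre z (n + 1) = pre z n ++ [z n] := by
  simp [pre, List.range_succ]

theorem getD_pre (z : ℕ → ℕ) {n i : ℕ} (h : i < n) : (pre z n).getD i 0 = z i := by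
  rw [List.getD_eq_getElem _ _ (by simpa using h)]
  simp [pre]

theorem pre_prefix (z : ℕ → ℕ) {n m : ℕ} (h : n ≤ m) : pre z n <+: pre z m := by
  induction h with
  | refl => exact List.prefix_rfl
  | step _ ih => rw [pre_succ]; exact ih.trans (List.prefix_append _ _)

theorem pre_congr {z w : ℕ → ℕ} {n : ℕ} (h : ∀ i < n, z i = w i) : pre z n = pre w n := by
  simp only [pre]
  exact List.map_congr_left fun i hi => h i (List.mem_range.1 hi)

/-- `s` is an initial segment of `z` -/
def Pf (s : List ℕ) (z : ℕ → ℕ) : Prop := pre z s.length = s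

theorem Pf.eq {s : List ℕ} {z : ℕ → ℕ} (h : Pf s z) : s = pre z s.length := h.symm

theorem Pf_pre (z : ℕ → ℕ) (n : ℕ) : Pf (pre z n) z := by simp [Pf]

@[simp] theorem Pf_nil (z : ℕ → ℕ) : Pf [] z := by simp [Pf]

theorem Pf.mono {s s' : List ℕ} {z : ℕ → ℕ} (h : Pf s' z) (hs : s <+: s') : Pf s z := by
  have h1 : s = (pre z s'.length).take s.length := by
    rw [h]; exact List.prefix_iff_eq_take.1 hs
  have h2 : pre z s.length = (pre z s'.length).take s.length :=  by
    have := List.prefix_iff_eq_take.1 (pre_prefix z hs.length_le)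
    simpa using this
  unfold Pf; rw [h2, ← h1]

theorem Pf.prefix_of_le {s s' : List ℕ} {z : ℕ → ℕ} (h : Pf s z) (h' : Pf s' z)
    (hl : s.length ≤ s'.length) : s <+: s' := by
  rw [h.eq, h'.eq]; exact pre_prefix z hl

theorem Pf.comparable {s s' : List ℕ} {z : ℕ → ℕ} (h : Pf s z) (h' : Pf s' z) :
    s <+: s' ∨ s' <+: s := by
  rcases le_total s.length s'.length with hl | hl
  · exact Or.inl (h.prefix_of_le h' hl)
  · exact Or.inr (h'.prefix_of_le h hl)

theorem Pf.getD {s : List ℕ} {z : ℕ → ℕ} (h : Pf s z) {i : ℕ} (hi : i < s.length) :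
    s.getD i 0 = z i := by
  rw [h.eq]; exact getD_pre z hi

theorem Pf_of_getD {s : List ℕ} {z : ℕ → ℕ} (h : ∀ i < s.length, s.getD i 0 = z i) : Pf s z := by
  apply List.ext_getElem
  · simp
  · intro i h1 h2
    have := h i h2
    rw [List.getD_eq_getElem _ _ h2] at this
    rw [this]
    simp [pre]

theorem Pf_append_singleton {s : List ℕ} {j : ℕ} {z : ℕ → ℕ} :
    Pf (s ++ [j]) z ↔ Pf s z ∧ z s.length = j := by
  constructor
  · intro h
    refine ⟨h.mono (List.prefix_append _ _), ?_⟩
    have := h.getD (i := s.length) (by simp)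
    rw [← this]; simp
  · rintro ⟨h, rfl⟩
    unfold Pf
    rw [List.length_append, List.length_singleton, pre_succ, h]

theorem Pf_congr {s : List ℕ} {z w : ℕ → ℕ} (h : ∀ i < s.length, z i = w i) :
    Pf s z ↔ Pf s w := by
  unfold Pf; rw [pre_congr h]

/-- prefixes of a list are comparable -/
theorem prefix_comparable {s s' r : List ℕ} (h : s <+: r) (h' : s' <+: r) :
    s <+: s' ∨ s' <+: s := List.prefix_or_prefix_of_prefix h h'

theorem not_prefix_cases {s s' : List ℕ} (h : ¬ s <+: s') :
    ∃ r i, r ++ [i] <+: s ∧ (s' = r ∨ ∃ j, j ≠ i ∧ r ++ [j] <+: s') := by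
  induction s using List.reverseRecOn with
  | nil => exact absurd List.nil_prefix h
  | append_singleton s i ih =>
    by_cases h1 : s <+: s'
    · obtain ⟨l, rfl⟩ := h1
      refine ⟨s, i, List.prefix_rfl, ?_⟩
      cases l with
      | nil => left; simp
      | cons j l =>
        right
        refine ⟨j, ?_, ?_⟩
        · rintro rfl
          exact h ⟨l, by simp⟩
        · exact ⟨l, by simp⟩
    · obtain ⟨r, i', h2, h3⟩ := ih h1
      exact ⟨r, i', h2.trans (List.prefix_append _ _), h3⟩

/-- Miller maps on finite sequences: the images of the immediate successors of a node split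
immediately after the image of that node, in increasing order. -/
def IsM (t : List ℕ → List ℕ) : Prop :=
  ∀ s, ∃ K : ℕ → ℕ, StrictMono K ∧ ∀ j, t s ++ [K j] <+: t (s ++ [j])

/-- the map on infinite sequences induced by a map on finite sequences -/
def Br (t : List ℕ → List ℕ) (z : ℕ → ℕ) (k : ℕ) : ℕ := (t (pre z (k + 1))).getD k 0

theorem IsM.succ_prefix {t : List ℕ → List ℕ} (ht : IsM t) (s : List ℕ) (j : ℕ) :
    t s <+: t (s ++ [j]) := by
  obtain ⟨K, _, hK⟩ := ht s
  exact (List.prefix_append _ _).trans (hK j)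

theorem IsM.mono {t : List ℕ → List ℕ} (ht : IsM t) {s s' : List ℕ} (h : s <+: s') :
    t s <+: t s' := by
  obtain ⟨l, rfl⟩ := h
  induction l using List.reverseRecOn with
  | nil => simp
  | append_singleton l j ih =>
    rw [← List.append_assoc]
    exact ih.trans (ht.succ_prefix _ _)

theorem IsM.length_lt {t : List ℕ → List ℕ} (ht : IsM t) (s : List ℕ) (j : ℕ) :
    (t s).length < (t (s ++ [j])).length := by
  obtain ⟨K, _, hK⟩ := ht s
  have := (hK j).length_le
  simp at this
  omega

theorem IsM.length_le {t : List ℕ → List ℕ} (ht : IsM t) (s : List ℕ) :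
    s.length ≤ (t s).length := by
  induction s using List.reverseRecOn with
  | nil => simp
  | append_singleton s j ih =>
    have := ht.length_lt s j
    simp; omega

theorem IsM.Pf_Br {t : List ℕ → List ℕ} (ht : IsM t) (z : ℕ → ℕ) (n : ℕ) :
    Pf (t (pre z n)) (Br t z) := by
  apply Pf_of_getD
  intro i hi
  unfold Br
  have h1 : i < (t (pre z (i + 1))).length := by
    have := ht.length_le (pre z (i + 1))
    simp at this; omega
  rcases le_total n (i + 1) with h | h
  · have := ht.mono (pre_prefix z h)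
    obtain ⟨l, hl⟩ := this
    rw [← hl, List.getD_append _ _ _ _ hi]
  · have := ht.mono (pre_prefix z h)
    obtain ⟨l, hl⟩ := this
    rw [← hl, List.getD_append _ _ _ _ h1]

theorem IsM.Pf_of_Pf {t : List ℕ → List ℕ} (ht : IsM t) {z : ℕ → ℕ} {s : List ℕ} (h : Pf s z) :
    Pf (t s) (Br t z) := by
  rw [h.eq]; exact ht.Pf_Br z _

/-- uniqueness of the induced map -/
theorem Br_eq {t : List ℕ → List ℕ} (ht : IsM t) {z w : ℕ → ℕ}
    (h : ∀ n, Pf (t (pre z n)) w) : Br t z = w := by
  funext k
  have h1 : k < (t (pre z (k + 1))).length := by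
    have := ht.length_le (pre z (k + 1))
    simp at this; omega
  exact (h (k + 1)).getD h1

theorem IsM.comp {t u : List ℕ → List ℕ} (ht : IsM t) (hu : IsM u) : IsM (fun s => t (u s)) := by
  intro s
  obtain ⟨K, hK1, hK2⟩ := hu s
  obtain ⟨L, hL1, hL2⟩ := ht (u s)
  exact ⟨fun j => L (K j), hL1.comp hK1, fun j => (hL2 (K j)).trans (ht.mono (hK2 j))⟩

theorem Br_comp {t u : List ℕ → List ℕ} (ht : IsM t) (hu : IsM u) (z : ℕ → ℕ) :
    Br (fun s => t (u s)) z = Br t (Br u z) := by
  apply Br_eq (ht.comp hu)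
  intro n
  have h := hu.Pf_Br z n
  rw [h.eq]
  exact ht.Pf_Br _ _

theorem isM_id : IsM fun s => s := fun _ => ⟨fun j => j, strictMono_id, fun _ => List.prefix_rfl⟩

theorem Br_id (z : ℕ → ℕ) : Br (fun s => s) z = z :=
  Br_eq isM_id fun n => Pf_pre z n

theorem IsM.prefix_of_prefix {t : List ℕ → List ℕ} (ht : IsM t) {s s' : List ℕ}
    (h : t s <+: t s') : s <+: s' := by
  by_contra hn
  obtain ⟨r, i, h1, h2⟩ := not_prefix_cases hn
  obtain ⟨K, hK1, hK2⟩ := ht r
  have h3 : t r ++ [K i] <+: t s' := (hK2 i).trans ((ht.mono h1).trans h)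
  rcases h2 with rfl | ⟨j, hj, h2⟩
  · have := h3.length_le
    simp at this
  · have h4 : t r ++ [K j] <+: t s' := (hK2 j).trans (ht.mono h2)
    have h5 := List.prefix_of_prefix_length_le h3 h4 (by simp)
    have h6 := h5.eq_of_length (by simp)
    simp only [List.append_cancel_left_eq, List.cons.injEq, and_true] at h6
    exact hj (hK1.injective h6).symm

theorem IsM.inj {t : List ℕ → List ℕ} (ht : IsM t) {s s' : List ℕ} (h : t s = t s') :
    s = s' := by
  have h1 := ht.prefix_of_prefix (s := s) (s' := s') (by rw [h])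
  have h2 := ht.prefix_of_prefix (s := s') (s' := s) (by rw [h])
  exact h1.eq_of_length (le_antisymm h1.length_le h2.length_le)

theorem IsM.Br_inj {t : List ℕ → List ℕ} (ht : IsM t) {z z' : ℕ → ℕ} (h : Br t z = Br t z') :
    z = z' := by
  funext k
  have h1 := ht.Pf_Br z (k + 1)
  have h2 := ht.Pf_Br z' (k + 1)
  rw [← h] at h2
  have key : pre z (k + 1) <+: pre z' (k + 1) ∨ pre z' (k + 1) <+: pre z (k + 1) := by
    rcases h1.comparable h2 with h3 | h3
    · exact Or.inl (ht.prefix_of_prefix h3)
    · exact Or.inr (ht.prefix_of_prefix h3)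
  have h4 : pre z (k + 1) = pre z' (k + 1) := by
    rcases key with h5 | h5
    · exact h5.eq_of_length (by simp)
    · exact (h5.eq_of_length (by simp)).symm
  rw [← getD_pre z (Nat.lt_succ_self k), h4, getD_pre z' (Nat.lt_succ_self k)]

/-- a common initial segment of all branches is an initial segment of the stem -/
theorem IsM.prefix_stem {t : List ℕ → List ℕ} (ht : IsM t) {s a : List ℕ}
    (h : ∀ z, Pf s z → Pf a (Br t z)) : a <+: t s := by
  obtain ⟨K, hK1, hK2⟩ := ht s
  have key : ∀ j, a <+: t s ++ [K j] ∨ t s ++ [K j] <+: a := by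
    intro j
    let z : ℕ → ℕ := fun n => (s ++ [j]).getD n 0
    have hz : Pf (s ++ [j]) z := Pf_of_getD fun i _ => rfl
    have h1 := h z (hz.mono (List.prefix_append _ _))
    have h2 := (ht.Pf_of_Pf hz).mono (hK2 j)
    exact h1.comparable h2
  by_contra hn
  have key' : ∀ j, t s ++ [K j] <+: a := by
    intro j
    rcases key j with h1 | h1
    · rcases lt_or_ge (t s).length a.length with h2 | h2
      · have h3 : a = t s ++ [K j] := h1.eq_of_length (by
          have := h1.length_le
          simp at this ⊢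
          omega)
        rw [h3]
      · exact absurd (List.prefix_of_prefix_length_le h1 (List.prefix_append _ _) h2) hn
    · exact h1
  have h5 := List.prefix_of_prefix_length_le (key' 0) (key' 1) (by simp)
  have h6 := h5.eq_of_length (by simp)
  simp only [List.append_cancel_left_eq, List.cons.injEq, and_true] at h6
  exact absurd (hK1.injective h6) (by norm_num)

/-- the canonical choice of the splitting values -/
theorem IsM.K_ge {K : ℕ → ℕ} (h : StrictMono K) (j : ℕ) : j ≤ K j := h.le_apply

end Pool.Agent.H652R2
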