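import Mathlib
import Pool.Agent.H652R2.Basic

/-!
# Locally constant functions on the product space, and the monoid of conditions
-/

namespace Pool.Agent.H652R2

set_option linter.unusedSectionVars false
set_option linter.unusedVariables false

universe u v w

/-- the product of `J` many copies of the Baire space -/
abbrev X (J : Type u) := J → ℕ → ℕ

/-- agreement on a finite part -/
def agr {J : Type u} (F : Finset J) (n : ℕ) (x y : X J) : Prop := ∀ γ ∈ F, ∀ k < n, x γ k = y γ k

section
variable {J : Type u} {A : Type v} {B : Type w}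

theorem agr.refl (F : Finset J) (n : ℕ) (x : X J) : agr F n x x := fun _ _ _ _ => rfl

theorem agr.symm {F : Finset J} {n : ℕ} {x y : X J} (h : agr F n x y) : agr F n y x :=
  fun γ hγ k hk => (h γ hγ k hk).symm

theorem agr.trans {F : Finset J} {n : ℕ} {x y z : X J} (h : agr F n x y) (h' : agr F n y z) :
    agr F n x z := fun γ hγ k hk => (h γ hγ k hk).trans (h' γ hγ k hk)

theorem agr.mono {F F' : Finset J} {n n' : ℕ} {x y : X J} (h : agr F n x y) (hF : F' ⊆ F)
    (hn : n' ≤ n) : agr F' n' x y := fun γ hγ k hk => h γ (hF hγ) k (hk.trans_le hn)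

/-- a locally constant function -/
def LC (f : X J → A) : Prop := ∀ x, ∃ (F : Finset J) (n : ℕ), ∀ y, agr F n x y → f y = f x

/-- dependence on countably many coordinates -/
def CS (f : X J → A) : Prop := ∃ S : Set J, S.Countable ∧ ∀ x y, (∀ γ ∈ S, x γ = y γ) → f x = f y

theorem LC.const (a : A) : LC (fun _ : X J => a) := fun _ => ⟨∅, 0, fun _ _ => rfl⟩

theorem CS.const (a : A) : CS (fun _ : X J => a) := ⟨∅, Set.countable_empty, fun _ _ _ => rfl⟩

theorem LC.eval (γ : J) (k : ℕ) : LC (fun x : X J => x γ k) :=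
  fun x => ⟨{γ}, k + 1, fun y h => (h γ (Finset.mem_singleton_self γ) k (Nat.lt_succ_self k)).symm⟩

theorem LC.pre (γ : J) (k : ℕ) : LC (fun x : X J => pre (x γ) k) :=
  fun _ => ⟨{γ}, k, fun _ h =>
    pre_congr fun i hi => (h γ (Finset.mem_singleton_self γ) i hi).symm⟩

theorem LC.map {f : X J → A} (hf : LC f) (g : A → B) : LC (fun x => g (f x)) := fun x => by
  obtain ⟨F, n, h⟩ := hf x
  exact ⟨F, n, fun y hy => congrArg g (h y hy)⟩

theorem LC.bind {f : X J → A} (hf : LC f) {g : A → X J → B} (hg : ∀ a, LC (g a)) :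
    LC (fun x => g (f x) x) := fun x => by
  classical
  obtain ⟨F, n, h⟩ := hf x
  obtain ⟨F', n', h'⟩ := hg (f x) x
  refine ⟨F ∪ F', max n n', fun y hy => ?_⟩
  show g (f y) y = g (f x) x
  rw [h y (hy.mono Finset.subset_union_left (le_max_left _ _)),
    h' y (hy.mono Finset.subset_union_right (le_max_right _ _))]

theorem LC.prod {f : X J → A} {g : X J → B} (hf : LC f) (hg : LC g) :
    LC (fun x => (f x, g x)) :=
  hf.bind (g := fun a x => (a, g x)) fun a => hg.map fun b => (a, b)

theorem CS.map {f : X J → A} (hf : CS f) (g : A → B) : CS (fun x => g (f x)) := by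
  obtain ⟨S, h1, h2⟩ := hf
  exact ⟨S, h1, fun x y h => congrArg g (h2 x y h)⟩

theorem CS.forall {ι : Type*} [Countable ι] {f : ι → X J → A} (hf : ∀ i, CS (f i)) :
    ∃ S : Set J, S.Countable ∧ ∀ i x y, (∀ γ ∈ S, x γ = y γ) → f i x = f i y := by
  choose S h1 h2 using hf
  exact ⟨⋃ i, S i, Set.countable_iUnion h1, fun i x y h =>
    h2 i x y fun γ hγ => h γ (Set.mem_iUnion_of_mem i hγ)⟩

theorem CS.pi {ι : Type*} [Countable ι] {f : ι → X J → A} (hf : ∀ i, CS (f i)) :
    CS (fun x i => f i x) := by
  obtain ⟨S, h1, h2⟩ := CS.forall hf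
  exact ⟨S, h1, fun x y h => funext fun i => h2 i x y h⟩

theorem CS.bind [Countable A] {f : X J → A} (hf : CS f) {g : A → X J → B}
    (hg : ∀ a, CS (g a)) : CS (fun x => g (f x) x) := by
  obtain ⟨S, h1, h2⟩ := hf
  obtain ⟨S', h3, h4⟩ := CS.forall hg
  refine ⟨S ∪ S', h1.union h3, fun x y h => ?_⟩
  show g (f x) x = g (f y) y
  rw [h2 x y fun γ hγ => h γ (Or.inl hγ), h4 (f y) x y fun γ hγ => h γ (Or.inr hγ)]

/-- finitely many locally constant functions -/
theorem LC.finite {ι : Type*} {f : ι → X J → A} (hf : ∀ i, LC (f i)) (I : Finset ι) (x : X J) :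
    ∃ (F : Finset J) (n : ℕ), ∀ y, agr F n x y → ∀ i ∈ I, f i y = f i x := by
  classical
  choose F n h using fun i => hf i x
  refine ⟨I.biUnion F, I.sup n, fun y hy i hi => h i y (hy.mono ?_ ?_)⟩
  · exact Finset.subset_biUnion_of_mem F hi
  · exact Finset.le_sup (f := n) hi

/-- a continuous map of the product space -/
def Cont (h : X J → X J) : Prop := ∀ β k, LC (fun x => h x β k)

theorem Cont.agr {h : X J → X J} (hh : Cont h) (F : Finset J) (n : ℕ) (x : X J) :
    ∃ (F' : Finset J) (n' : ℕ), ∀ y, agr F' n' x y → Pool.Agent.H652R2.agr F n (h x) (h y) := by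
  obtain ⟨F', n', h'⟩ := LC.finite (ι := J × ℕ) (f := fun p x => h x p.1 p.2)
    (fun p => hh p.1 p.2) (F ×ˢ Finset.range n) x
  exact ⟨F', n', fun y hy γ hγ k hk => (h' y hy (γ, k) (by simp [hγ, hk])).symm⟩

theorem LC.comp {f : X J → A} (hf : LC f) {h : X J → X J} (hh : Cont h) :
    LC (fun x => f (h x)) := fun x => by
  obtain ⟨F, n, h1⟩ := hf (h x)
  obtain ⟨F', n', h2⟩ := hh.agr F n x
  exact ⟨F', n', fun y hy => h1 _ (h2 y hy)⟩

end

/-- The conditions: `t β x` is the Miller map at the coordinate `β`, given the part of `x`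
below `β`. -/
structure Cond (J : Type u) [LinearOrder J] where
  t : J → X J → List ℕ → List ℕ
  miller : ∀ β x, IsM (t β x)
  loc : ∀ β x y s, (∀ γ < β, x γ = y γ) → t β x s = t β y s
  lc : ∀ β s, LC fun x => t β x s
  supp : ∃ S : Set J, S.Countable ∧ (∀ β ∉ S, ∀ x s, t β x s = s) ∧
    ∀ β x y s, (∀ γ ∈ S, x γ = y γ) → t β x s = t β y s

namespace Cond

variable {J : Type u} [LinearOrder J]

@[ext] theorem ext' {p q : Cond J} (h : ∀ β x s, p.t β x s = q.t β x s) : p = q := by
  cases p; cases q
  congr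
  funext β x s
  exact h β x s

/-- the map of the product space given by a condition -/
def H (p : Cond J) (x : X J) : X J := fun β => Br (p.t β x) (x β)

theorem H_loc (p : Cond J) {x y : X J} {β : J} (h : ∀ γ ≤ β, x γ = y γ) :
    p.H x β = p.H y β := by
  have : p.t β x = p.t β y := funext fun s => p.loc β x y s fun γ hγ => h γ hγ.le
  simp only [H, this, h β le_rfl]

theorem H_cont (p : Cond J) : Cont p.H := fun β k => by
  have h1 : LC (fun x : X J => pre (x β) (k + 1)) := LC.pre β (k + 1)
  have h2 := h1.bind (g := fun a x => (p.t β x a).getD k 0) fun a =>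
    (p.lc β a).map fun l => l.getD k 0
  exact h2

/-- a countable set supporting the condition -/
noncomputable def S (p : Cond J) : Set J := Classical.choose p.supp

theorem S_countable (p : Cond J) : p.S.Countable := (Classical.choose_spec p.supp).1

theorem t_of_notMem (p : Cond J) {β : J} (h : β ∉ p.S) (x : X J) (s : List ℕ) :
    p.t β x s = s := (Classical.choose_spec p.supp).2.1 β h x s

theorem t_congr (p : Cond J) {β : J} {x y : X J} (s : List ℕ) (h : ∀ γ ∈ p.S, x γ = y γ) :
    p.t β x s = p.t β y s := (Classical.choose_spec p.supp).2.2 β x y s h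

theorem t_congr_of (p : Cond J) {S : Set J} (hS : ∀ β x y s, (∀ γ ∈ S, x γ = y γ) →
    p.t β x s = p.t β y s) {β : J} {x y : X J} (s : List ℕ)
    (h : ∀ γ ∈ S, γ < β → x γ = y γ) : p.t β x s = p.t β y s := by
  classical
  let z : X J := fun γ => if γ < β then y γ else x γ
  have h1 : p.t β x s = p.t β z s := hS _ _ _ _ fun γ hγ => by
    by_cases h2 : γ < β
    · simp only [z, h2, if_true]; exact h γ hγ h2
    · simp only [z, h2, if_false]
  rw [h1]
  refine p.loc _ _ _ _ fun γ hγ => ?_
  simp only [z, hγ, if_true]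

/-- composition -/
def mul (p q : Cond J) : Cond J where
  t β x s := p.t β (q.H x) (q.t β x s)
  miller β x := (p.miller β (q.H x)).comp (q.miller β x)
  loc β x y s h := by
    rw [q.loc β x y s h]
    exact p.loc _ _ _ _ fun γ hγ => q.H_loc fun δ hδ => h δ (hδ.trans_lt hγ)
  lc β s := by
    have h := (q.lc β s).bind (g := fun a x => p.t β (q.H x) a) fun a =>
      (p.lc β a).comp q.H_cont
    exact h
  supp := by
    refine ⟨p.S ∪ q.S, p.S_countable.union q.S_countable, ?_, ?_⟩
    · intro β hβ x s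
      rw [q.t_of_notMem fun h => hβ (Or.inr h), p.t_of_notMem fun h => hβ (Or.inl h)]
    · intro β x y s h
      have h1 : ∀ γ ∈ p.S ∪ q.S, q.H x γ = q.H y γ := by
        intro γ hγ
        have : q.t γ x = q.t γ y := funext fun s => q.t_congr s fun δ hδ => h δ (Or.inr hδ)
        simp only [H, this, h γ hγ]
      rw [q.t_congr s fun γ hγ => h γ (Or.inr hγ)]
      exact p.t_congr _ fun γ hγ => h1 γ (Or.inl hγ)

def one : Cond J where
  t _ _ s := s
  miller _ _ := isM_id
  loc _ _ _ _ _ := rfl
  lc _ _ := LC.const _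
  supp := ⟨∅, Set.countable_empty, fun _ _ _ _ => rfl, fun _ _ _ _ _ => rfl⟩

instance : Mul (Cond J) := ⟨mul⟩
instance : One (Cond J) := ⟨one⟩

theorem mul_t (p q : Cond J) (β : J) (x : X J) (s : List ℕ) :
    (p * q).t β x s = p.t β (q.H x) (q.t β x s) := rfl

@[simp] theorem one_t (β : J) (x : X J) (s : List ℕ) : (1 : Cond J).t β x s = s := rfl

theorem mul_H (p q : Cond J) (x : X J) : (p * q).H x = p.H (q.H x) := by
  funext β
  show Br (fun s => p.t β (q.H x) (q.t β x s)) (x β) = _
  rw [Br_comp (p.miller _ _) (q.miller _ _)]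
  rfl

@[simp] theorem one_H (x : X J) : (1 : Cond J).H x = x := by
  funext β
  exact Br_id _

instance : Monoid (Cond J) where
  mul_assoc p q r := by
    ext1 β x s
    simp only [mul_t, mul_H]
  one_mul p := by
    ext1 β x s
    rfl
  mul_one p := by
    ext1 β x s
    show p.t β ((1 : Cond J).H x) s = _
    rw [one_H]

/-- `q` is stronger than `p` if `q = p * r` for some `r` -/
instance : Preorder (Cond J) where
  le q p := ∃ r, q = p * r
  le_refl p := ⟨1, (mul_one p).symm⟩
  le_trans p q r := by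
    rintro ⟨a, rfl⟩ ⟨b, rfl⟩
    exact ⟨b * a, by rw [mul_assoc]⟩

theorem le_def {p q : Cond J} : q ≤ p ↔ ∃ r, q = p * r := Iff.rfl

theorem mul_le (p r : Cond J) : p * r ≤ p := ⟨r, rfl⟩

theorem mul_le_mul (p : Cond J) {q r : Cond J} (h : q ≤ r) : p * q ≤ p * r := by
  obtain ⟨a, rfl⟩ := h
  exact ⟨a, by rw [mul_assoc]⟩

theorem H_inj [WellFoundedLT J] (p : Cond J) {x y : X J} (h : p.H x = p.H y) : x = y := by
  funext β
  induction β using WellFoundedLT.induction with
  | ind β ih =>
    have h1 : p.t β x = p.t β y := funext fun s => p.loc _ _ _ _ ih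
    have h2 := congrFun h β
    simp only [H, h1] at h2
    exact (p.miller β y).Br_inj h2

theorem Pf_H (p : Cond J) {x : X J} {β : J} {s : List ℕ} (h : Pf s (x β)) :
    Pf (p.t β x s) (p.H x β) := (p.miller β x).Pf_of_Pf h

end Cond

/-! ### Cones -/

section cones

variable {J : Type u} [LinearOrder J]

/-- a finitely supported assignment of finite sequences -/
structure Tup (J : Type u) where
  a : J → List ℕ
  fin : {β | a β ≠ []}.Finite

instance : CoeFun (Tup J) (fun _ => J → List ℕ) := ⟨Tup.a⟩

/-- prepend a finite sequence -/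
def app (s : List ℕ) (z : ℕ → ℕ) (k : ℕ) : ℕ := if k < s.length then s.getD k 0 else z (k - s.length)

/-- remove the first `n` entries -/
def drp (n : ℕ) (z : ℕ → ℕ) (k : ℕ) : ℕ := z (k + n)

@[simp] theorem app_nil (z : ℕ → ℕ) : app [] z = z := by funext k; simp [app]
@[simp] theorem drp_zero (z : ℕ → ℕ) : drp 0 z = z := rfl

@[simp] theorem Pf_app (s : List ℕ) (z : ℕ → ℕ) : Pf s (app s z) :=
  Pf_of_getD fun i hi => by simp [app, hi]

theorem drp_app (s : List ℕ) (z : ℕ → ℕ) : drp s.length (app s z) = z := by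
  funext k; simp [drp, app]

theorem app_drp {s : List ℕ} {z : ℕ → ℕ} (h : Pf s z) : app s (drp s.length z) = z := by
  funext k
  unfold app drp
  split_ifs with hk
  · exact h.getD hk
  · congr 1; omega

theorem pre_app (s : List ℕ) (z : ℕ → ℕ) (n : ℕ) :
    pre (app s z) (s.length + n) = s ++ pre z n := by
  apply List.ext_getElem
  · simp
  · intro i h1 h2
    have h3 : (pre (app s z) (s.length + n))[i] = app s z i := by simp [pre]
    rw [h3, List.getElem_append]
    unfold app
    split_ifs with h4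
    · rw [List.getD_eq_getElem _ _ h4]
    · simp [pre]

theorem isM_app (s : List ℕ) : IsM fun r => s ++ r :=
  fun r => ⟨fun j => j, strictMono_id, fun j => by simp⟩

theorem Br_app (s : List ℕ) (z : ℕ → ℕ) : Br (fun r => s ++ r) z = app s z :=
  Br_eq (isM_app s) fun n => by
    rw [← pre_app]; exact Pf_pre _ _

theorem Pf_app_append {s r : List ℕ} {z : ℕ → ℕ} : Pf (s ++ r) (app s z) ↔ Pf r z := by
  unfold Pf
  rw [List.length_append, pre_app]
  exact List.append_right_inj s

theorem Pf_drp {s r : List ℕ} {z : ℕ → ℕ} (h : Pf (s ++ r) z) : Pf r (drp s.length z) := by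
  have h1 : Pf s z := h.mono (List.prefix_append _ _)
  rw [← app_drp h1] at h
  exact Pf_app_append.1 h

theorem Tup.countable (a : Tup J) : {β | a β ≠ []}.Countable := a.fin.countable

/-- the condition which prepends the sequences of `a` -/
def cone (a : Tup J) : Cond J where
  t β _ s := a β ++ s
  miller β _ := isM_app _
  loc _ _ _ _ _ := rfl
  lc _ _ := LC.const _
  supp := ⟨{β | a β ≠ []}, a.countable, fun β hβ _ s => by
    have : a β = [] := by simpa using hβ
    rw [this]; rfl, fun _ _ _ _ _ => rfl⟩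

@[simp] theorem cone_t (a : Tup J) (β : J) (x : X J) (s : List ℕ) :
    (cone a).t β x s = a β ++ s := rfl

@[simp] theorem cone_H (a : Tup J) (x : X J) (β : J) : (cone a).H x β = app (a β) (x β) :=
  Br_app _ _

/-- the basic open set given by `a` -/
def Tup.box (a : Tup J) : Set (X J) := {x | ∀ β, Pf (a β) (x β)}

theorem cone_H_mem (a : Tup J) (x : X J) : (cone a).H x ∈ a.box := fun β => by
  rw [cone_H]; exact Pf_app _ _

/-- remove the sequences of `a` -/
def strip (a : J → List ℕ) (x : X J) : X J := fun β => drp (a β).length (x β)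

theorem cone_strip (a : Tup J) {x : X J} (h : x ∈ a.box) : (cone a).H (strip a x) = x := by
  funext β; rw [cone_H]; exact app_drp (h β)

theorem strip_cone (a : Tup J) (x : X J) : strip a ((cone a).H x) = x := by
  funext β; simp only [strip, cone_H]; exact drp_app _ _

/-- factorisation through a cone -/
theorem exists_factor (q : Cond J) (a : Tup J) (h : ∀ β x, a β <+: q.t β x []) :
    ∃ r : Cond J, q = cone a * r ∧ ∀ β x s, r.t β x s = (q.t β x s).drop (a β).length := by
  have hp : ∀ β x s, a β <+: q.t β x s := fun β x s =>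
    (h β x).trans ((q.miller β x).mono List.nil_prefix)
  have key : ∀ β x s, a β ++ (q.t β x s).drop (a β).length = q.t β x s := by
    intro β x s
    obtain ⟨l, hl⟩ := hp β x s
    rw [← hl]; simp
  let r : Cond J :=
    { t := fun β x s => (q.t β x s).drop (a β).length
      miller := fun β x s => by
        obtain ⟨K, hK1, hK2⟩ := q.miller β x s
        refine ⟨K, hK1, fun j => ?_⟩
        have h1 := hK2 j
        rw [← key β x s, ← key β x (s ++ [j]), List.append_assoc] at h1
        exact (List.prefix_append_right_inj _).1 h1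
      loc := fun β x y s hxy => by rw [q.loc β x y s hxy]
      lc := fun β s => (q.lc β s).map fun l => l.drop (a β).length
      supp := ⟨q.S ∪ {β | a β ≠ []}, q.S_countable.union a.countable, fun β hβ x s => by
          have h1 : a β = [] := by
            by_contra hc
            exact hβ (Or.inr hc)
          rw [q.t_of_notMem (fun hc => hβ (Or.inl hc)), h1]; rfl,
        fun β x y s hxy => by rw [q.t_congr s fun γ hγ => hxy γ (Or.inl hγ)]⟩ }
  exact ⟨r, Cond.ext' fun β x s => (key β x s).symm, fun _ _ _ => rfl⟩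

theorem prefix_stem_of_box (q : Cond J) (a : Tup J) (h : ∀ x, q.H x ∈ a.box) (β : J) (x : X J) :
    a β <+: q.t β x [] := by
  classical
  apply (q.miller β x).prefix_stem
  intro z _
  have h1 := h (Function.update x β z) β
  have h2 : q.t β (Function.update x β z) = q.t β x := funext fun s =>
    q.loc _ _ _ _ fun γ hγ => Function.update_of_ne hγ.ne _ _
  simp only [Cond.H, h2, Function.update_self] at h1
  exact h1

theorem exists_factor' (q : Cond J) (a : Tup J) (h : ∀ x, q.H x ∈ a.box) :
    ∃ r : Cond J, q = cone a * r ∧ ∀ β x s, r.t β x s = (q.t β x s).drop (a β).length :=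
  exists_factor q a (prefix_stem_of_box q a h)

theorem le_cone (q : Cond J) (a : Tup J) (h : ∀ x, q.H x ∈ a.box) : q ≤ cone a :=
  let ⟨r, hr, _⟩ := exists_factor' q a h
  ⟨r, hr⟩

/-- the tuple of initial segments of length `n` of `x` on `F` -/
noncomputable def tupOf (F : Finset J) (n : ℕ) (x : X J) : Tup J := by
  classical
  exact ⟨fun β => if β ∈ F then pre (x β) n else [], (F.finite_toSet).subset fun β hβ => by
    by_contra hc
    have hc' : β ∉ F := hc
    simp [hc'] at hβ⟩

theorem tupOf_mem (F : Finset J) (n : ℕ) (x : X J) : x ∈ (tupOf F n x).box := fun β => by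
  simp only [tupOf]
  split_ifs
  · exact Pf_pre _ _
  · exact Pf_nil _

theorem agr_of_mem_tupOf {F : Finset J} {n : ℕ} {x y : X J} (h : y ∈ (tupOf F n x).box) :
    agr F n x y := by
  intro γ hγ k hk
  have h1 := h γ
  simp only [tupOf, hγ, if_true] at h1
  have h2 := h1.getD (i := k) (by simpa using hk)
  rw [getD_pre _ hk] at h2
  exact h2

theorem tupOf_agr (F : Finset J) (n : ℕ) (x y : X J) :
    agr F n x ((cone (tupOf F n x)).H y) := agr_of_mem_tupOf (cone_H_mem _ _)

theorem Tup.agr_mem (a : Tup J) : ∃ (F : Finset J) (n : ℕ), (∀ β ∉ F, a β = []) ∧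
    ∀ x y, agr F n x y → (∀ β, Pf (a β) (x β) ↔ Pf (a β) (y β)) := by
  classical
  refine ⟨a.fin.toFinset, a.fin.toFinset.sup fun β => (a β).length, ?_, ?_⟩
  · intro β hβ
    simpa using hβ
  · intro x y h β
    by_cases hβ : a β = []
    · rw [hβ]; simp
    · have hm : β ∈ a.fin.toFinset := by simpa using hβ
      exact Pf_congr fun i hi => h β hm i
        (hi.trans_le (Finset.le_sup (f := fun β => (a β).length) hm))

theorem Tup.box_open (a : Tup J) {x : X J} (hx : x ∈ a.box) :
    ∃ (F : Finset J) (n : ℕ), ∀ y, agr F n x y → y ∈ a.box := by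
  obtain ⟨F, n, _, h⟩ := a.agr_mem
  exact ⟨F, n, fun y hy β => (h x y hy β).1 (hx β)⟩

/-- density of the cones -/
theorem exists_cone_le (r : Cond J) (a : Tup J) {x : X J} (h : r.H x ∈ a.box) :
    ∃ (F : Finset J) (n : ℕ), r * cone (tupOf F n x) ≤ cone a := by
  obtain ⟨F, n, h1⟩ := a.box_open h
  obtain ⟨F', n', h2⟩ := r.H_cont.agr F n x
  refine ⟨F', n', le_cone _ _ fun y => ?_⟩
  rw [Cond.mul_H]
  exact h1 _ (h2 _ (tupOf_agr _ _ _ _))

end cones

end Pool.Agent.H652R2
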