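import Mathlib
import Pool.Agent.H652R2.Cond

/-!
# Local modifications of conditions
-/

namespace Pool.Agent.H652R2

set_option linter.unusedSectionVars false
set_option linter.unusedVariables false

universe u

/-- infinite sequences extending `a` whose next entry is at least `b` -/
def rz (a : List ℕ) (b : ℕ) (z : ℕ → ℕ) : Prop := Pf a z ∧ b ≤ z a.length

/-- finite sequences extending `a` whose next entry, if any, is at least `b` -/
def rs (a : List ℕ) (b : ℕ) (s : List ℕ) : Prop :=
  a <+: s ∧ (a.length < s.length → b ≤ s.getD a.length 0)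

theorem rs_of_Pf {a s : List ℕ} {b : ℕ} {z : ℕ → ℕ} (h : rz a b z) (hs : Pf s z)
    (hl : a.length ≤ s.length) : rs a b s :=
  ⟨h.1.prefix_of_le hs hl, fun h' => by rw [hs.getD h']; exact h.2⟩

/-- the modification of the identity inside the region given by `a` and `b` -/
noncomputable def modt (a : List ℕ) (b : ℕ) (r : List ℕ → List ℕ) (s : List ℕ) : List ℕ := by
  classical
  exact if rs a b s then a ++ r (s.drop a.length) else s

theorem modt_of {a s : List ℕ} {b : ℕ} {r : List ℕ → List ℕ} (h : rs a b s) :
    modt a b r s = a ++ r (s.drop a.length) := by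
  simp [modt, h]

theorem modt_of_not {a s : List ℕ} {b : ℕ} {r : List ℕ → List ℕ} (h : ¬ rs a b s) :
    modt a b r s = s := by
  simp [modt, h]

theorem isM_modt {a : List ℕ} {b : ℕ} {r : List ℕ → List ℕ} (hr : IsM r)
    (hb : b ≠ 0 → r [] = []) : IsM (modt a b r) := by
  intro s
  by_cases hs : rs a b s
  · obtain ⟨s', rfl⟩ := hs.1
    obtain ⟨K, hK1, hK2⟩ := hr s'
    rw [modt_of hs]
    simp only [List.drop_left]
    by_cases hl : s' = []
    · subst hl
      refine ⟨fun j => if b ≤ j then K j else j, ?_, ?_⟩
      · intro i j hij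
        dsimp only
        split_ifs with h1 h2 h2
        · exact hK1 hij
        · omega
        · have := hK1.le_apply (x := j)
          omega
        · exact hij
      · intro j
        by_cases h1 : b ≤ j
        · have h2 : rs a b (a ++ [] ++ [j]) := by
            refine ⟨by simp, fun _ => ?_⟩
            simpa using h1
          rw [modt_of h2]
          simp only [h1, if_true, List.append_nil, List.drop_left]
          rw [List.append_assoc]
          exact (List.prefix_append_right_inj _).2 (hK2 j)
        · have h2 : ¬ rs a b (a ++ [] ++ [j]) := by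
            rintro ⟨_, h3⟩
            have := h3 (by simp)
            simp at this
            exact h1 this
          rw [modt_of_not h2]
          have h3 : b ≠ 0 := by omega
          simp only [h1, if_false, List.append_nil, hb h3]
          exact List.prefix_rfl
    · refine ⟨K, hK1, fun j => ?_⟩
      have hpos : 0 < s'.length := List.length_pos_of_ne_nil hl
      have h2 : rs a b (a ++ s' ++ [j]) := by
        refine ⟨(List.prefix_append _ _).trans (List.prefix_append _ _), fun _ => ?_⟩
        have h3 := hs.2 (by simp; omega)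
        rw [List.getD_append _ _ _ _ (by simp; omega)]
        exact h3
      rw [modt_of h2, List.append_assoc, List.append_assoc, List.drop_left]
      exact (List.prefix_append_right_inj _).2 (hK2 j)
  · refine ⟨fun j => j, strictMono_id, fun j => ?_⟩
    rw [modt_of_not hs]
    by_cases h1 : rs a b (s ++ [j])
    · have h2 : a = s ++ [j] := by
        by_contra hne
        have h3 : a.length < (s ++ [j]).length := by
          refine lt_of_le_of_ne h1.1.length_le fun h => hne (h1.1.eq_of_length h)
        have h4 : a <+: s := by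
          refine List.prefix_of_prefix_length_le h1.1 (List.prefix_append _ _) ?_
          simp at h3; omega
        refine hs ⟨h4, fun h5 => ?_⟩
        have := h1.2 h3
        rwa [List.getD_append _ _ _ _ h5] at this
      rw [modt_of h1, ← h2]
      exact List.prefix_append _ _
    · rw [modt_of_not h1]

theorem modt_pre_of {a : List ℕ} {b : ℕ} {r : List ℕ → List ℕ} {z : ℕ → ℕ} (h : rz a b z)
    (n : ℕ) : modt a b r (pre z (a.length + n)) = a ++ r (pre (drp a.length z) n) := by
  rw [modt_of (rs_of_Pf h (Pf_pre _ _) (by simp))]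
  congr 2
  conv_lhs => rw [← app_drp h.1]
  rw [pre_app, List.drop_left]

theorem Br_modt_of {a : List ℕ} {b : ℕ} {r : List ℕ → List ℕ} (hr : IsM r)
    (hb : b ≠ 0 → r [] = []) {z : ℕ → ℕ} (h : rz a b z) :
    Br (modt a b r) z = app a (Br r (drp a.length z)) := by
  apply Br_eq (isM_modt hr hb)
  intro n
  have h1 := (isM_modt (a := a) hr hb).mono (pre_prefix z (Nat.le_add_left n a.length))
  refine Pf.mono ?_ h1
  rw [modt_pre_of h]
  exact Pf_app_append.2 (hr.Pf_Br _ _)

theorem modt_pre_of_not {a : List ℕ} {b : ℕ} {r : List ℕ → List ℕ}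
    (hb : b ≠ 0 → r [] = []) {z : ℕ → ℕ} (h : ¬ rz a b z) (n : ℕ) :
    modt a b r (pre z n) = pre z n := by
  by_cases h1 : rs a b (pre z n)
  · have h2 : Pf a z := (Pf_pre z n).mono h1.1
    have h3 : ¬ b ≤ z a.length := fun h3 => h ⟨h2, h3⟩
    have h4 : ¬ a.length < n := fun h4 => h3 (by
      have := h1.2 (by simpa using h4)
      rwa [getD_pre _ h4] at this)
    have h5 : a = pre z n := h1.1.eq_of_length (by
      have := h1.1.length_le
      simp at this ⊢; omega)
    rw [modt_of h1, ← h5]
    simp [hb (by omega)]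
  · rw [modt_of_not h1]

theorem Br_modt_of_not {a : List ℕ} {b : ℕ} {r : List ℕ → List ℕ} (hr : IsM r)
    (hb : b ≠ 0 → r [] = []) {z : ℕ → ℕ} (h : ¬ rz a b z) :
    Br (modt a b r) z = z := by
  apply Br_eq (isM_modt hr hb)
  intro n
  rw [modt_pre_of_not hb h]
  exact Pf_pre _ _

variable {J : Type u} [LinearOrder J]

/-- a region: a tuple together with finitely many lower bounds for the next entries -/
structure Rg (J : Type u) extends Tup J where
  b : J → ℕ
  finb : {β | b β ≠ 0}.Finite

/-- the points of the region -/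
def Rg.box (g : Rg J) : Set (X J) := {x | ∀ β, rz (g.a β) (g.b β) (x β)}

/-- the region below a coordinate -/
def Rg.bel (g : Rg J) (β : J) : Set (X J) := {x | ∀ γ < β, rz (g.a γ) (g.b γ) (x γ)}

theorem Rg.agr_rz (g : Rg J) : ∃ (F : Finset J) (n : ℕ), ∀ x y, agr F n x y → ∀ β,
    (rz (g.a β) (g.b β) (x β) ↔ rz (g.a β) (g.b β) (y β)) := by
  classical
  let F := g.fin.toFinset ∪ g.finb.toFinset
  refine ⟨F, (F.sup fun β => (g.a β).length) + 1, ?_⟩
  intro x y h β
  by_cases hm : β ∈ F
  · have hle : (g.a β).length ≤ F.sup fun β => (g.a β).length :=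
      Finset.le_sup (f := fun β => (g.a β).length) hm
    have h1 : ∀ i < (g.a β).length + 1, x β i = y β i := fun i hi =>
      h β hm i (by omega)
    unfold rz
    rw [h1 _ (Nat.lt_succ_self _), Pf_congr fun i hi => h1 i (by omega)]
  · have h1 : g.a β = [] := by
      by_contra hc
      exact hm (Finset.mem_union_left _ (by simpa using hc))
    have h2 : g.b β = 0 := by
      by_contra hc
      exact hm (Finset.mem_union_right _ (by simpa using hc))
    simp [rz, h1, h2]

/-- purity condition needed to localise `R` in the region `g` -/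
def Okm (g : Rg J) (R : Cond J) : Prop := ∀ β, g.b β ≠ 0 → ∀ x, R.t β x [] = []

theorem strip_cont (a : J → List ℕ) : Cont (strip a) := fun β k => LC.eval β _

open Classical in
/-- the condition which acts as `R` in the region `g` and trivially elsewhere -/
noncomputable def locmod (g : Rg J) (R : Cond J) (h : Okm g R) : Cond J where
  t β x s := if x ∈ g.bel β then modt (g.a β) (g.b β) (R.t β (strip g.a x)) s else s
  miller β x := by
    by_cases hx : x ∈ g.bel β
    · simp only [hx, if_true]
      exact isM_modt (R.miller _ _) fun hb => h β hb _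
    · simp only [hx, if_false]
      exact isM_id
  loc β x y s hxy := by
    have h1 : x ∈ g.bel β ↔ y ∈ g.bel β := by
      constructor
      · intro hx γ hγ
        rw [← hxy γ hγ]; exact hx γ hγ
      · intro hx γ hγ
        rw [hxy γ hγ]; exact hx γ hγ
    have h2 : R.t β (strip g.a x) = R.t β (strip g.a y) := funext fun s =>
      R.loc _ _ _ _ fun γ hγ => by simp only [strip, hxy γ hγ]
    simp only [h1, h2]
  lc β s := by
    intro x
    obtain ⟨F, n, h1⟩ := g.agr_rz
    obtain ⟨F', n', h2⟩ := ((R.lc β (s.drop (g.a β).length)).comp (strip_cont g.a)) x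
    refine ⟨F ∪ F', max n n', fun y hy => ?_⟩
    have h3 : y ∈ g.bel β ↔ x ∈ g.bel β := by
      have := h1 x y (hy.mono Finset.subset_union_left (le_max_left _ _))
      constructor
      · intro hx γ hγ; exact (this γ).2 (hx γ hγ)
      · intro hx γ hγ; exact (this γ).1 (hx γ hγ)
    have h4 := h2 y (hy.mono Finset.subset_union_right (le_max_right _ _))
    dsimp only at h4
    by_cases hx : x ∈ g.bel β
    · simp only [h3, hx, if_true, modt, h4]
    · simp only [h3, hx, if_false]
  supp := by
    refine ⟨{β | g.a β ≠ []} ∪ {β | g.b β ≠ 0} ∪ R.S,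
      (g.fin.countable.union g.finb.countable).union R.S_countable, ?_, ?_⟩
    · intro β hβ x s
      have h1 : g.a β = [] := by
        by_contra hc
        exact hβ (Or.inl (Or.inl hc))
      have h2 : R.t β (strip g.a x) s = s := R.t_of_notMem (fun hc => hβ (Or.inr hc)) _ _
      by_cases hx : x ∈ g.bel β
      · simp only [hx, if_true, h1, modt]
        by_cases hr : rs [] (g.b β) s
        · simp only [hr, if_true, List.nil_append, List.length_nil, List.drop_zero, h2]
        · simp only [hr, if_false]
      · simp only [hx, if_false]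
    · intro β x y s hxy
      have h1 : ∀ γ, (rz (g.a γ) (g.b γ) (x γ) ↔ rz (g.a γ) (g.b γ) (y γ)) := by
        intro γ
        by_cases hγ : γ ∈ {β | g.a β ≠ []} ∪ {β | g.b β ≠ 0} ∪ R.S
        · rw [hxy γ hγ]
        · have h1 : g.a γ = [] := by
            by_contra hc
            exact hγ (Or.inl (Or.inl hc))
          have h2 : g.b γ = 0 := by
            by_contra hc
            exact hγ (Or.inl (Or.inr hc))
          simp [rz, h1, h2]
      have h3 : x ∈ g.bel β ↔ y ∈ g.bel β := by
        constructor
        · intro hx γ hγ; exact (h1 γ).1 (hx γ hγ)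
        · intro hx γ hγ; exact (h1 γ).2 (hx γ hγ)
      have h4 : R.t β (strip g.a x) (s.drop (g.a β).length)
          = R.t β (strip g.a y) (s.drop (g.a β).length) :=
        R.t_congr _ fun γ hγ => by simp only [strip, hxy γ (Or.inr hγ)]
      by_cases hx : y ∈ g.bel β
      · simp only [h3, hx, if_true, modt, h4]
      · simp only [h3, hx, if_false]

theorem locmod_t_of {g : Rg J} {R : Cond J} {h : Okm g R} {β : J} {x : X J}
    (hx : x ∈ g.bel β) (s : List ℕ) :
    (locmod g R h).t β x s = modt (g.a β) (g.b β) (R.t β (strip g.a x)) s := by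
  simp [locmod, hx]

theorem locmod_t_of_not {g : Rg J} {R : Cond J} {h : Okm g R} {β : J} {x : X J}
    (hx : x ∉ g.bel β) (s : List ℕ) : (locmod g R h).t β x s = s := by
  simp [locmod, hx]

theorem locmod_H_of {g : Rg J} {R : Cond J} {h : Okm g R} {β : J} {x : X J}
    (hx : x ∈ g.bel β) (hβ : rz (g.a β) (g.b β) (x β)) :
    (locmod g R h).H x β = app (g.a β) (R.H (strip g.a x) β) := by
  have h1 : (locmod g R h).t β x = modt (g.a β) (g.b β) (R.t β (strip g.a x)) :=
    funext fun s => locmod_t_of hx s
  show Br ((locmod g R h).t β x) (x β) = _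
  rw [h1, Br_modt_of (R.miller _ _) (fun hb => h β hb _) hβ]
  rfl

theorem locmod_H_of_not_bel {g : Rg J} {R : Cond J} {h : Okm g R} {β : J} {x : X J}
    (hx : x ∉ g.bel β) : (locmod g R h).H x β = x β := by
  have h1 : (locmod g R h).t β x = fun s => s := funext fun s => locmod_t_of_not hx s
  show Br ((locmod g R h).t β x) (x β) = _
  rw [h1, Br_id]

theorem locmod_H_of_not_rz {g : Rg J} {R : Cond J} {h : Okm g R} {β : J} {x : X J}
    (hβ : ¬ rz (g.a β) (g.b β) (x β)) :
    (locmod g R h).H x β = x β := by
  by_cases hx : x ∈ g.bel β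
  · have h1 : (locmod g R h).t β x = modt (g.a β) (g.b β) (R.t β (strip g.a x)) :=
      funext fun s => locmod_t_of hx s
    show Br ((locmod g R h).t β x) (x β) = _
    rw [h1, Br_modt_of_not (R.miller _ _) (fun hb => h β hb _) hβ]
  · exact locmod_H_of_not_bel hx

/-- inside its region, the local modification is `R` -/
theorem locmod_mul {g : Rg J} {R : Cond J} {h : Okm g R} {w r : Cond J}
    (hw : ∀ x, w.H x ∈ g.box) (hr : w = cone g.toTup * r)
    (hr' : ∀ β x s, r.t β x s = (w.t β x s).drop (g.a β).length) :
    locmod g R h * w = cone g.toTup * (R * r) := by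
  classical
  have hstrip : ∀ x, strip g.a (w.H x) = r.H x := fun x => by
    rw [hr, Cond.mul_H, strip_cone]
  ext1 β x s
  rw [Cond.mul_t, locmod_t_of (fun γ _ => hw x γ)]
  have h1 : rs (g.a β) (g.b β) (w.t β x s) := by
    let y : X J := Function.update x β (app s fun _ => 0)
    have h2 : w.t β y = w.t β x := funext fun s =>
      w.loc _ _ _ _ fun γ hγ => Function.update_of_ne hγ.ne _ _
    have h3 : Pf (w.t β x s) (w.H y β) := by
      rw [← h2]
      apply w.Pf_H
      simp only [y, Function.update_self]
      exact Pf_app _ _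
    have h4 : g.a β <+: w.t β x s := by
      rw [hr, Cond.mul_t]; exact List.prefix_append _ _
    exact rs_of_Pf (hw y β) h3 h4.length_le
  rw [modt_of h1, hstrip, ← hr', Cond.mul_t, cone_t, Cond.mul_t]

/-- the region of a tuple -/
def Tup.rg (a : Tup J) : Rg J := { a with b := fun _ => 0, finb := by simp }

theorem Tup.rg_okm (a : Tup J) (R : Cond J) : Okm a.rg R := fun β hβ => absurd rfl hβ

theorem rz_zero {a : List ℕ} {z : ℕ → ℕ} : rz a 0 z ↔ Pf a z := by simp [rz]

theorem Tup.rg_box (a : Tup J) : a.rg.box = a.box := by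
  ext x
  simp only [Rg.box, Tup.rg, rz_zero, Tup.box, Set.mem_ofPred_eq]

/-- local modification inside a cone -/
noncomputable def cmod (a : Tup J) (R : Cond J) : Cond J := locmod a.rg R (a.rg_okm R)

theorem cmod_mul_cone (a : Tup J) (R : Cond J) : cmod a R * cone a = cone a * R := by
  have h := locmod_mul (g := a.rg) (R := R) (h := a.rg_okm R) (w := cone a) (r := 1)
    (fun x => by rw [Tup.rg_box]; exact cone_H_mem a x) (by rw [mul_one]; rfl) (by simp [Tup.rg])
  rw [mul_one] at h
  exact h

/-- being below `β` in the box of `a` -/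
def Tup.bel (a : Tup J) (β : J) : Set (X J) := {x | ∀ γ < β, Pf (a γ) (x γ)}

theorem cmod_H_of {a : Tup J} {R : Cond J} {β : J} {x : X J} (hx : x ∈ a.bel β)
    (hβ : Pf (a β) (x β)) : (cmod a R).H x β = app (a β) (R.H (strip a x) β) :=
  locmod_H_of (g := a.rg) (fun γ hγ => rz_zero.2 (hx γ hγ)) (rz_zero.2 hβ)

theorem cmod_H_of_not_bel {a : Tup J} {R : Cond J} {β : J} {x : X J} (hx : x ∉ a.bel β) :
    (cmod a R).H x β = x β :=
  locmod_H_of_not_bel (g := a.rg) fun h => hx fun γ hγ => rz_zero.1 (h γ hγ)

theorem cmod_H_of_not_Pf {a : Tup J} {R : Cond J} {β : J} {x : X J} (hx : ¬ Pf (a β) (x β)) :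
    (cmod a R).H x β = x β :=
  locmod_H_of_not_rz (g := a.rg) fun h => hx (rz_zero.1 h)

theorem cmod_t_of {a : Tup J} {R : Cond J} {β : J} {x : X J} {s : List ℕ} (hx : x ∈ a.bel β)
    (hs : a β <+: s) : (cmod a R).t β x s = a β ++ R.t β (strip a x) (s.drop (a β).length) := by
  have h1 := locmod_t_of (g := a.rg) (R := R) (h := a.rg_okm R) (β := β) (x := x)
    (fun γ hγ => rz_zero.2 (hx γ hγ)) s
  have h2 : rs (a.rg.a β) (a.rg.b β) s := ⟨hs, fun _ => Nat.zero_le _⟩
  unfold cmod
  rw [h1, modt_of h2]
  rfl

theorem cmod_t_of_not_bel {a : Tup J} {R : Cond J} {β : J} {x : X J} (hx : x ∉ a.bel β)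
    (s : List ℕ) : (cmod a R).t β x s = s :=
  locmod_t_of_not (g := a.rg) (fun h => hx fun γ hγ => rz_zero.1 (h γ hγ)) s

theorem cmod_t_of_not_prefix {a : Tup J} {R : Cond J} {β : J} {x : X J} {s : List ℕ}
    (hs : ¬ a β <+: s) : (cmod a R).t β x s = s := by
  by_cases hx : x ∈ a.bel β
  · have h1 := locmod_t_of (g := a.rg) (R := R) (h := a.rg_okm R) (β := β) (x := x)
      (fun γ hγ => rz_zero.2 (hx γ hγ)) s
    have h2 : ¬ rs (a.rg.a β) (a.rg.b β) s := fun h => hs h.1
    unfold cmod
    rw [h1, modt_of_not h2]
  · exact cmod_t_of_not_bel hx s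

end Pool.Agent.H652R2
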