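import Mathlib
import Pool.Agent.H652R2.Local

/-!
# Infinite compositions of conditions
-/

namespace Pool.Agent.H652R2

set_option linter.unusedSectionVars false
set_option linter.unusedVariables false

universe u

variable {J : Type u} [LinearOrder J]

/-- the condition `p` is supported by `S` -/
def SuppOn (p : Cond J) (S : Set J) : Prop :=
  (∀ β ∉ S, ∀ x s, p.t β x s = s) ∧ ∀ β x y s, (∀ γ ∈ S, x γ = y γ) → p.t β x s = p.t β y s

theorem suppOn_S (p : Cond J) : SuppOn p p.S :=
  ⟨fun _ h x s => p.t_of_notMem h x s, fun _ _ _ s h => p.t_congr s h⟩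

theorem suppOn_one (S : Set J) : SuppOn (1 : Cond J) S := ⟨fun _ _ _ _ => rfl, fun _ _ _ _ _ => rfl⟩

theorem SuppOn.H_eq {p : Cond J} {S : Set J} (h : SuppOn p S) {β : J} (hβ : β ∉ S) (x : X J) :
    p.H x β = x β := by
  have h1 : p.t β x = fun s => s := funext fun s => h.1 β hβ x s
  show Br (p.t β x) (x β) = _
  rw [h1, Br_id]

theorem SuppOn.H_congr {p : Cond J} {S : Set J} (h : SuppOn p S) {x y : X J}
    (hxy : ∀ γ ∈ S, x γ = y γ) : ∀ γ ∈ S, p.H x γ = p.H y γ := fun γ hγ => by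
  have h1 : p.t γ x = p.t γ y := funext fun s => h.2 γ x y s hxy
  simp only [Cond.H, h1, hxy γ hγ]

theorem SuppOn.mul {p q : Cond J} {S : Set J} (hp : SuppOn p S) (hq : SuppOn q S) :
    SuppOn (p * q) S := by
  refine ⟨fun β hβ x s => ?_, fun β x y s h => ?_⟩
  · rw [Cond.mul_t, hq.1 β hβ, hp.1 β hβ]
  · rw [Cond.mul_t, Cond.mul_t, hq.2 β x y s h]
    exact hp.2 β _ _ _ (hq.H_congr h)

theorem SuppOn.mono {p : Cond J} {S T : Set J} (hp : SuppOn p S) (h : S ⊆ T) : SuppOn p T :=
  ⟨fun β hβ x s => hp.1 β (fun hc => hβ (h hc)) x s,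
    fun β x y s hxy => hp.2 β x y s fun γ hγ => hxy γ (h hγ)⟩

/-- finite compositions -/
noncomputable def P (r : ℕ → Cond J) : ℕ → ℕ → Cond J
  | _, 0 => 1
  | k, m + 1 => r k * P r (k + 1) m

theorem P_supp {r : ℕ → Cond J} {S : Set J} (h : ∀ n, SuppOn (r n) S) :
    ∀ m k, SuppOn (P r k m) S
  | 0, _ => suppOn_one S
  | m + 1, k => (h k).mul (P_supp h m (k + 1))

/-- the data ensuring convergence of an infinite composition -/
structure Fus (r : ℕ → Cond J) where
  E : ℕ → X J → X J → Prop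
  refl : ∀ n x, E n x x
  symm : ∀ n x y, E n x y → E n y x
  trans : ∀ n x y z, E n x y → E n y z → E n x z
  isOpen : ∀ n x, ∃ (F : Finset J) (m : ℕ), ∀ y, agr F m x y → E n x y
  pres : ∀ n m, n ≤ m → ∀ x, E n x ((r m).H x)
  frz : ∀ x β s, ∃ n0, ∀ n, n0 ≤ n → ∀ y, E n0 x y → (r n).t β y s = s

namespace Fus

variable {r : ℕ → Cond J} (f : Fus r)

include f in
theorem P_pres {n : ℕ} : ∀ m k, n ≤ k → ∀ x, f.E n x ((P r k m).H x)
  | 0, k, _, x => by
    show f.E n x ((1 : Cond J).H x)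
    rw [Cond.one_H]; exact f.refl n x
  | m + 1, k, h, x => by
    show f.E n x ((r k * P r (k + 1) m).H x)
    rw [Cond.mul_H]
    exact f.trans _ _ _ _ (P_pres m (k + 1) (by omega) x) (f.pres n k h _)

include f in
theorem P_frz {n0 : ℕ} {x : X J} {β : J} {s : List ℕ}
    (h : ∀ n, n0 ≤ n → ∀ y, f.E n0 x y → (r n).t β y s = s) :
    ∀ m k, n0 ≤ k → ∀ y, f.E n0 x y → (P r k m).t β y s = s
  | 0, k, _, y, _ => rfl
  | m + 1, k, hk, y, hy => by
    show (r k * P r (k + 1) m).t β y s = s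
    rw [Cond.mul_t, P_frz h m (k + 1) (by omega) y hy]
    exact h k hk _ (f.trans _ _ _ _ hy (f.P_pres m (k + 1) (by omega) y))

/-- locally uniform eventual constancy -/
def Conv {A : Type*} (g : ℕ → X J → A) (x : X J) (v : A) : Prop :=
  ∃ (F : Finset J) (N M : ℕ), ∀ m, M ≤ m → ∀ y, agr F N x y → g m y = v

theorem Conv.finite {A ι : Type*} {g : ι → ℕ → X J → A} {x : X J} {v : ι → A} (I : Finset ι)
    (h : ∀ i ∈ I, Conv (g i) x (v i)) :
    ∃ (F : Finset J) (N M : ℕ), ∀ m, M ≤ m → ∀ y, agr F N x y → ∀ i ∈ I, g i m y = v i := by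
  classical
  induction I using Finset.induction_on with
  | empty => exact ⟨∅, 0, 0, fun _ _ _ _ i hi => absurd hi (Finset.notMem_empty i)⟩
  | insert a I ha ih =>
    obtain ⟨F, N, M, h1⟩ := ih fun i hi => h i (Finset.mem_insert_of_mem hi)
    obtain ⟨F', N', M', h2⟩ := h a (Finset.mem_insert_self a I)
    refine ⟨F ∪ F', max N N', max M M', fun m hm y hy i hi => ?_⟩
    rcases Finset.mem_insert.1 hi with rfl | hi
    · exact h2 m (le_trans (le_max_right _ _) hm) y
        (hy.mono Finset.subset_union_right (le_max_right _ _))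
    · exact h1 m (le_trans (le_max_left _ _) hm) y
        (hy.mono Finset.subset_union_left (le_max_left _ _)) i hi

theorem Conv.H {g : ℕ → Cond J} {x : X J} {γ : J}
    (h : ∀ s, ∃ v, Conv (fun m y => (g m).t γ y s) x v) (i : ℕ) :
    ∃ v, Conv (fun m y => (g m).H y γ i) x v := by
  classical
  obtain ⟨v, F, N, M, h1⟩ := h (Pool.Agent.H652R2.pre (x γ) (i + 1))
  refine ⟨v.getD i 0, insert γ F, max N (i + 1), M, fun m hm y hy => ?_⟩
  have h2 := h1 m hm y (hy.mono (Finset.subset_insert _ _) (le_max_left _ _))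
  have h3 : Pool.Agent.H652R2.pre (y γ) (i + 1) = Pool.Agent.H652R2.pre (x γ) (i + 1) :=
    pre_congr fun k hk => (hy γ (Finset.mem_insert_self _ _) k
      (lt_of_lt_of_le hk (le_max_right _ _))).symm
  show ((g m).t γ y (Pool.Agent.H652R2.pre (y γ) (i + 1))).getD i 0 = _
  rw [h3]
  dsimp only at h2
  rw [h2]

variable [WellFoundedLT J]

include f in
theorem conv (β : J) : ∀ (k : ℕ) (s : List ℕ) (x : X J),
    ∃ v, Conv (fun m y => (P r k m).t β y s) x v := by
  classical
  induction β using WellFoundedLT.induction with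
  | ind β ih =>
    intro k s x
    obtain ⟨n0, h0⟩ := f.frz x β s
    by_cases hk : n0 ≤ k
    · obtain ⟨F, N, h1⟩ := f.isOpen n0 x
      exact ⟨s, F, N, 0, fun m _ y hy => f.P_frz h0 m k hk y (h1 y hy)⟩
    · -- downward induction
      push Not at hk
      obtain ⟨d, hd⟩ : ∃ d, d = n0 - k := ⟨_, rfl⟩
      induction d generalizing k with
      | zero => omega
      | succ d ihd =>
        have h2 : ∃ w, Conv (fun m y => (P r (k + 1) m).t β y s) x w := by
          by_cases hk' : n0 ≤ k + 1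
          · obtain ⟨F, N, h1⟩ := f.isOpen n0 x
            exact ⟨s, F, N, 0, fun m _ y hy => f.P_frz h0 m (k + 1) hk' y (h1 y hy)⟩
          · exact ihd (k + 1) (by omega) (by omega)
        obtain ⟨w, hw⟩ := h2
        have h3 : ∀ γ < β, ∀ i, ∃ v, Conv (fun m y => (P r (k + 1) m).H y γ i) x v :=
          fun γ hγ i => Conv.H (fun s => ih γ hγ (k + 1) s x) i
        let z : X J := fun γ i => if h : γ < β then Classical.choose (h3 γ h i) else x γ i
        have hz : ∀ γ, γ < β → ∀ i, Conv (fun m y => (P r (k + 1) m).H y γ i) x (z γ i) := by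
          intro γ hγ i
          have := Classical.choose_spec (h3 γ hγ i)
          simp only [z, hγ, dif_pos]
          exact this
        obtain ⟨F, N, h4⟩ := (r k).lc β w z
        obtain ⟨F', N', M', h5⟩ := Conv.finite (ι := J × ℕ)
          (g := fun p m y => (P r (k + 1) m).H y p.1 p.2) (v := fun p => z p.1 p.2)
          ((F.filter (· < β)) ×ˢ Finset.range N) (fun p hp => hz p.1 (by
            simp only [Finset.mem_product, Finset.mem_filter] at hp
            exact hp.1.2) p.2)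
        obtain ⟨F1, N1, M1, h6⟩ := hw
        refine ⟨(r k).t β z w, F' ∪ F1, max N' N1, max M' M1 + 1, fun m hm y hy => ?_⟩
        obtain ⟨m, rfl⟩ : ∃ m', m = m' + 1 := ⟨m - 1, by omega⟩
        have hm' : max M' M1 ≤ m := by omega
        show (r k * P r (k + 1) m).t β y s = _
        rw [Cond.mul_t]
        have h7 := h6 m (le_trans (le_max_right _ _) hm') y
          (hy.mono Finset.subset_union_right (le_max_right _ _))
        dsimp only at h7
        rw [h7]
        have h8 := h5 m (le_trans (le_max_left _ _) hm') y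
          (hy.mono Finset.subset_union_left (le_max_left _ _))
        let y' : X J := fun γ => if γ < β then (P r (k + 1) m).H y γ else z γ
        have h9 : (r k).t β ((P r (k + 1) m).H y) w = (r k).t β y' w :=
          (r k).loc _ _ _ _ fun γ hγ => by simp only [y', hγ, if_true]
        rw [h9]
        apply h4
        intro γ hγ i hi
        by_cases hlt : γ < β
        · simp only [y', hlt, if_true]
          exact (h8 (γ, i) (by simp [hγ, hlt, hi])).symm
        · simp only [y', hlt, if_false]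

/-- the value of the limit -/
noncomputable def lim (k : ℕ) (β : J) (x : X J) (s : List ℕ) : List ℕ :=
  Classical.choose (f.conv β k s x)

theorem lim_spec (k : ℕ) (β : J) (x : X J) (s : List ℕ) :
    Conv (fun m y => (P r k m).t β y s) x (f.lim k β x s) :=
  Classical.choose_spec (f.conv β k s x)

theorem lim_ev (k : ℕ) (β : J) (x : X J) (s : List ℕ) :
    ∃ M, ∀ m, M ≤ m → (P r k m).t β x s = f.lim k β x s := by
  obtain ⟨F, N, M, h⟩ := f.lim_spec k β x s
  exact ⟨M, fun m hm => h m hm x (agr.refl _ _ _)⟩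

theorem lim_ev₂ (k : ℕ) (β : J) (x y : X J) (s s' : List ℕ) :
    ∃ m, (P r k m).t β x s = f.lim k β x s ∧ (P r k m).t β y s' = f.lim k β y s' := by
  obtain ⟨M, h⟩ := f.lim_ev k β x s
  obtain ⟨M', h'⟩ := f.lim_ev k β y s'
  exact ⟨max M M', h _ (le_max_left _ _), h' _ (le_max_right _ _)⟩

/-- the infinite composition starting at `k` -/
noncomputable def Q (k : ℕ) : Cond J where
  t β x s := f.lim k β x s
  miller β x s := by
    have key : ∀ j, ∃ K, f.lim k β x s ++ [K] <+: f.lim k β x (s ++ [j]) := by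
      intro j
      obtain ⟨m, h1, h2⟩ := f.lim_ev₂ k β x x s (s ++ [j])
      obtain ⟨K, _, hK⟩ := (P r k m).miller β x s
      exact ⟨K j, by rw [← h1, ← h2]; exact hK j⟩
    choose K hK using key
    refine ⟨K, ?_, hK⟩
    intro i j hij
    obtain ⟨M, h0⟩ := f.lim_ev k β x s
    obtain ⟨M1, h1⟩ := f.lim_ev k β x (s ++ [i])
    obtain ⟨M2, h2⟩ := f.lim_ev k β x (s ++ [j])
    let m := max M (max M1 M2)
    have e0 := h0 m (le_max_left _ _)
    have e1 := h1 m (le_trans (le_max_left _ _) (le_max_right _ _))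
    have e2 := h2 m (le_trans (le_max_right _ _) (le_max_right _ _))
    obtain ⟨L, hL1, hL2⟩ := (P r k m).miller β x s
    have a1 := hL2 i
    have a2 := hL2 j
    rw [e0, e1] at a1
    rw [e0, e2] at a2
    have b1 := (List.prefix_of_prefix_length_le a1 (hK i) (by simp)).eq_of_length (by simp)
    have b2 := (List.prefix_of_prefix_length_le a2 (hK j) (by simp)).eq_of_length (by simp)
    simp only [List.append_cancel_left_eq, List.cons.injEq, and_true] at b1 b2
    rw [← b1, ← b2]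
    exact hL1 hij
  loc β x y s h := by
    obtain ⟨m, h1, h2⟩ := f.lim_ev₂ k β x y s s
    rw [← h1, ← h2]
    exact (P r k m).loc _ _ _ _ h
  lc β s x := by
    obtain ⟨F, N, M, h⟩ := f.lim_spec k β x s
    refine ⟨F, N, fun y hy => ?_⟩
    obtain ⟨M', h'⟩ := f.lim_ev k β y s
    show f.lim k β y s = f.lim k β x s
    rw [← h' (max M M') (le_max_right _ _)]
    exact h _ (le_max_left _ _) y hy
  supp := by
    refine ⟨⋃ n, (r n).S, Set.countable_iUnion fun n => (r n).S_countable, ?_, ?_⟩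
    · intro β hβ x s
      obtain ⟨M, h⟩ := f.lim_ev k β x s
      rw [← h M le_rfl]
      exact (P_supp (fun n => (suppOn_S (r n)).mono (Set.subset_iUnion (fun n => (r n).S) n)) M k).1 β hβ x s
    · intro β x y s hxy
      obtain ⟨m, h1, h2⟩ := f.lim_ev₂ k β x y s s
      rw [← h1, ← h2]
      exact (P_supp (fun n => (suppOn_S (r n)).mono (Set.subset_iUnion (fun n => (r n).S) n)) m k).2 β x y s hxy

theorem Q_t (k : ℕ) (β : J) (x : X J) (s : List ℕ) : (f.Q k).t β x s = f.lim k β x s := rfl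

theorem Q_supp {S : Set J} (h : ∀ n, SuppOn (r n) S) (k : ℕ) : SuppOn (f.Q k) S := by
  refine ⟨fun β hβ x s => ?_, fun β x y s hxy => ?_⟩
  · obtain ⟨M, h'⟩ := f.lim_ev k β x s
    rw [Q_t, ← h' M le_rfl]
    exact (P_supp h M k).1 β hβ x s
  · obtain ⟨m, h1, h2⟩ := f.lim_ev₂ k β x y s s
    rw [Q_t, Q_t, ← h1, ← h2]
    exact (P_supp h m k).2 β x y s hxy

theorem Q_H_ev (k : ℕ) (β : J) (x : X J) (i : ℕ) :
    ∃ M, ∀ m, M ≤ m → (P r k m).H x β i = (f.Q k).H x β i := by
  obtain ⟨M, h⟩ := f.lim_ev k β x (Pool.Agent.H652R2.pre (x β) (i + 1))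
  refine ⟨M, fun m hm => ?_⟩
  show ((P r k m).t β x _).getD i 0 = ((f.Q k).t β x _).getD i 0
  rw [h m hm, Q_t]

theorem Q_H_agr (k : ℕ) (F : Finset J) (N : ℕ) (x : X J) :
    ∃ M, ∀ m, M ≤ m → agr F N ((f.Q k).H x) ((P r k m).H x) := by
  classical
  choose M h using fun p : J × ℕ => f.Q_H_ev k p.1 x p.2
  refine ⟨(F ×ˢ Finset.range N).sup M, fun m hm γ hγ i hi => ?_⟩
  exact (h (γ, i) m (le_trans (Finset.le_sup (f := M) (by simp [hγ, hi])) hm)).symm

theorem Q_succ (k : ℕ) : f.Q k = r k * f.Q (k + 1) := by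
  ext1 β x s
  rw [Cond.mul_t, Q_t, Q_t]
  obtain ⟨M, h⟩ := f.lim_ev k β x s
  obtain ⟨M', h'⟩ := f.lim_ev (k + 1) β x s
  obtain ⟨F, N, h1⟩ := (r k).lc β (f.lim (k + 1) β x s) ((f.Q (k + 1)).H x)
  obtain ⟨M'', h''⟩ := f.Q_H_agr (k + 1) F N x
  let m := max M (max M' M'')
  have e1 := h (m + 1) (by have := le_max_left M (max M' M''); omega)
  rw [← e1]
  show (r k * P r (k + 1) m).t β x s = _
  rw [Cond.mul_t, h' m (le_trans (le_max_left _ _) (le_max_right _ _))]
  exact h1 _ (h'' m (le_trans (le_max_right _ _) (le_max_right _ _)))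

theorem Q_pres {n k : ℕ} (h : n ≤ k) (x : X J) : f.E n x ((f.Q k).H x) := by
  obtain ⟨F, N, h1⟩ := f.isOpen n ((f.Q k).H x)
  obtain ⟨M, h2⟩ := f.Q_H_agr k F N x
  exact f.trans _ _ _ _ (f.P_pres M k h x) (f.symm _ _ _ (h1 _ (h2 M le_rfl)))

theorem Q_frz {k : ℕ} {x : X J} {β : J} {s : List ℕ}
    (h : ∀ n, k ≤ n → ∀ y, f.E k x y → (r n).t β y s = s) : (f.Q k).t β x s = s := by
  obtain ⟨M, h1⟩ := f.lim_ev k β x s
  rw [Q_t, ← h1 M le_rfl]
  exact f.P_frz h M k le_rfl x (f.refl _ _)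

theorem Q_eq_mul : ∀ k, f.Q 0 = P r 0 k * f.Q k
  | 0 => by show _ = 1 * _; rw [one_mul]
  | k + 1 => by
    have h1 : ∀ m k, P r k (m + 1) = P r k m * r (k + m) := by
      intro m
      induction m with
      | zero => intro k; show r k * 1 = 1 * r (k + 0); rw [one_mul, mul_one, Nat.add_zero]
      | succ m ih =>
        intro k
        show r k * P r (k + 1) (m + 1) = (r k * P r (k + 1) m) * _
        rw [ih, mul_assoc, show k + 1 + m = k + (m + 1) by omega]
    rw [Q_eq_mul k, f.Q_succ k, h1, ← mul_assoc, Nat.zero_add]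

end Fus

theorem P_succ_right (r : ℕ → Cond J) : ∀ m k, P r k (m + 1) = P r k m * r (k + m)
  | 0, k => by show r k * 1 = 1 * r (k + 0); rw [one_mul, mul_one, Nat.add_zero]
  | m + 1, k => by
    show r k * P r (k + 1) (m + 1) = (r k * P r (k + 1) m) * _
    rw [P_succ_right r m (k + 1), mul_assoc, show k + 1 + m = k + (m + 1) by omega]

end Pool.Agent.H652R2
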