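import Mathlib
import Pool.Agent.H652R2.Lim

/-!
# The clock: the times at which a point is active
-/

namespace Pool.Agent.H652R2

set_option linter.unusedSectionVars false
set_option linter.unusedVariables false

universe u

/-- coding of finite sequences -/
def code (s : List ℕ) : ℕ := Encodable.encode s.reverse

def dec (n : ℕ) : List ℕ := (Denumerable.ofNat (List ℕ) n).reverse

@[simp] theorem dec_code (s : List ℕ) : dec (code s) = s := by
  simp [dec, code]

@[simp] theorem code_dec (n : ℕ) : code (dec n) = n := by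
  simp [dec, code]

theorem code_append (s : List ℕ) (j : ℕ) : code (s ++ [j]) = Nat.pair j (code s) + 1 := by
  simp [code]

@[simp] theorem code_nil : code [] = 0 := by simp [code]

@[simp] theorem dec_zero : dec 0 = [] := by rw [← code_nil, dec_code]

theorem code_lt (s : List ℕ) (j : ℕ) : code s < code (s ++ [j]) := by
  rw [code_append]
  have := Nat.right_le_pair j (code s)
  omega

theorem code_lt_of_lt (s : List ℕ) {i j : ℕ} (h : i < j) : code (s ++ [i]) < code (s ++ [j]) := by
  rw [code_append, code_append]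
  have := Nat.pair_lt_pair_left (code s) h
  omega

theorem le_code_append (s : List ℕ) (j : ℕ) : j < code (s ++ [j]) := by
  rw [code_append]
  have := Nat.left_le_pair j (code s)
  omega

theorem code_mono {s s' : List ℕ} (h : s <+: s') : code s ≤ code s' := by
  obtain ⟨l, rfl⟩ := h
  induction l using List.reverseRecOn with
  | nil => simp
  | append_singleton l j ih =>
    rw [← List.append_assoc]
    exact ih.trans (code_lt _ _).le

theorem length_le_code (s : List ℕ) : s.length ≤ code s := by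
  induction s using List.reverseRecOn with
  | nil => simp
  | append_singleton s j ih =>
    have := code_lt s j
    simp; omega

/-- of two initial segments of the same sequence, the one with smaller code is shorter -/
theorem lt_of_code_lt {s s' : List ℕ} {z : ℕ → ℕ} (h : Pf s z) (h' : Pf s' z)
    (hc : code s < code s') : s.length < s'.length := by
  by_contra hn
  have := code_mono (h'.prefix_of_le h (by omega))
  omega

/-- the position after a coordinate entering at `o`, from the position `m` -/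
def nx (o : WithTop ℕ) (m : ℕ) : ℕ :=
  if o ≤ (m : WithTop ℕ) then o.untopD 0 + (dec (m - o.untopD 0)).length else m

/-- the node of a coordinate entering at `o` at the position `m` -/
def nd (o : WithTop ℕ) (m : ℕ) : List ℕ :=
  if o ≤ (m : WithTop ℕ) then dec (m - o.untopD 0) else []

theorem le_coe_cases {o : WithTop ℕ} {m : ℕ} (h : o ≤ (m : WithTop ℕ)) : ∃ a : ℕ, o = a ∧ a ≤ m := by
  cases o with
  | top => simp at h
  | coe a => exact ⟨a, rfl, WithTop.coe_le_coe.1 h⟩

theorem nx_coe {a m : ℕ} (h : a ≤ m) : nx (a : WithTop ℕ) m = a + (dec (m - a)).length := by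
  have : (a : WithTop ℕ) ≤ (m : WithTop ℕ) := by exact_mod_cast h
  have e : WithTop.untopD 0 ((a : ℕ) : WithTop ℕ) = a := rfl
  simp only [nx, this, if_true, e]

theorem nd_coe {a m : ℕ} (h : a ≤ m) : nd (a : WithTop ℕ) m = dec (m - a) := by
  have : (a : WithTop ℕ) ≤ (m : WithTop ℕ) := by exact_mod_cast h
  have e : WithTop.untopD 0 ((a : ℕ) : WithTop ℕ) = a := rfl
  simp only [nd, this, if_true, e]

theorem nx_not {o : WithTop ℕ} {m : ℕ} (h : ¬ o ≤ (m : WithTop ℕ)) : nx o m = m := by
  simp [nx, h]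

theorem nd_not {o : WithTop ℕ} {m : ℕ} (h : ¬ o ≤ (m : WithTop ℕ)) : nd o m = [] := by
  simp [nd, h]

theorem nx_le (o : WithTop ℕ) (m : ℕ) : nx o m ≤ m := by
  by_cases h : o ≤ (m : WithTop ℕ)
  · obtain ⟨a, rfl, ha⟩ := le_coe_cases h
    rw [nx_coe ha]
    have := length_le_code (dec (m - a))
    rw [code_dec] at this
    omega
  · rw [nx_not h]

theorem nx_lt {o : WithTop ℕ} {m n : ℕ} (hmn : m < n) {z : ℕ → ℕ} (hm : Pf (nd o m) z)
    (hn : Pf (nd o n) z) : nx o m < nx o n := by
  by_cases h : o ≤ (n : WithTop ℕ)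
  · obtain ⟨a, rfl, ha⟩ := le_coe_cases h
    rw [nx_coe ha]
    by_cases h' : a ≤ m
    · rw [nx_coe h']
      rw [nd_coe h'] at hm
      rw [nd_coe ha] at hn
      have := lt_of_code_lt hm hn (by simp; omega)
      omega
    · rw [nx_not (by exact_mod_cast h')]
      omega
  · have h' : ¬ o ≤ (m : WithTop ℕ) := fun h' => h (h'.trans (by exact_mod_cast hmn.le))
    rw [nx_not h, nx_not h']
    exact hmn

section

variable {J : Type u} [LinearOrder J] [WellFoundedLT J] (i : J → WithTop ℕ)

/-- the position after the coordinate `β` at the time `n` -/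
noncomputable def ea (n : ℕ) : J → ℕ :=
  (wellFounded_lt (α := J)).fix fun β rec =>
    nx (i β) (sInf (insert n {k | ∃ γ, ∃ h : γ < β, k = rec γ h}))

/-- the position after the coordinates in `S` -/
noncomputable def es (n : ℕ) (S : Set J) : ℕ := sInf (insert n {k | ∃ γ ∈ S, k = ea i n γ})

theorem ea_eq (n : ℕ) (β : J) : ea i n β = nx (i β) (es i n (Set.Iio β)) := by
  unfold ea
  rw [WellFounded.fix_eq]
  congr 2
  ext k
  simp only [Set.mem_insert_iff, Set.mem_ofPred_eq]
  constructor
  · rintro (h | ⟨γ, h, rfl⟩)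
    · exact Or.inl h
    · exact Or.inr ⟨γ, h, rfl⟩
  · rintro (h | ⟨γ, h, rfl⟩)
    · exact Or.inl h
    · exact Or.inr ⟨γ, h, rfl⟩

theorem es_le_self (n : ℕ) (S : Set J) : es i n S ≤ n := Nat.sInf_le (Set.mem_insert _ _)

theorem es_le_ea {n : ℕ} {S : Set J} {γ : J} (h : γ ∈ S) : es i n S ≤ ea i n γ :=
  Nat.sInf_le (Set.mem_insert_of_mem _ ⟨γ, h, rfl⟩)

theorem es_mem (n : ℕ) (S : Set J) : es i n S = n ∨ ∃ γ ∈ S, es i n S = ea i n γ := by
  have h : es i n S ∈ insert n {k | ∃ γ ∈ S, k = ea i n γ} :=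
    Nat.sInf_mem ⟨n, Set.mem_insert _ _⟩
  exact h

theorem ea_le_es (n : ℕ) (β : J) : ea i n β ≤ es i n (Set.Iio β) := by
  rw [ea_eq]; exact nx_le _ _

theorem es_eq_of {n k : ℕ} {S : Set J} (h1 : es i n S ≤ k) (h2 : k ≤ n)
    (h3 : ∀ γ ∈ S, k ≤ ea i n γ) : es i n S = k := by
  refine le_antisymm h1 ?_
  rcases es_mem i n S with h | ⟨γ, hγ, h⟩
  · rw [h]; exact h2
  · rw [h]; exact h3 γ hγ

/-- the node of `β` in the tuple of time `n` -/
noncomputable def ta (n : ℕ) (β : J) : List ℕ := nd (i β) (es i n (Set.Iio β))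

theorem ta_of_top {n : ℕ} {β : J} (h : i β = ⊤) : ta i n β = [] := by
  unfold ta; rw [h]; exact nd_not (by simp)

variable (hfin : ∀ k : ℕ, {β | i β ≤ (k : WithTop ℕ)}.Finite)

/-- the tuple of time `n` -/
noncomputable def T (n : ℕ) : Tup J :=
  ⟨ta i n, (hfin n).subset fun β hβ => by
    by_contra hc
    apply hβ
    refine nd_not fun h => hc (h.trans ?_)
    exact_mod_cast es_le_self i n _⟩

@[simp] theorem T_a (n : ℕ) (β : J) : (T i hfin n).a β = ta i n β := rfl

variable {i}

theorem es_lt_of {m n : ℕ} (hmn : m < n) {S : Set J} (h : ∀ γ ∈ S, ea i m γ < ea i n γ) :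
    es i m S < es i n S := by
  rcases es_mem i n S with h1 | ⟨γ, hγ, h1⟩
  · rw [h1]; exact (es_le_self i m S).trans_lt hmn
  · rw [h1]; exact (es_le_ea i hγ).trans_lt (h γ hγ)

theorem ea_lt {m n : ℕ} (hmn : m < n) {S : Set J} (hS : IsLowerSet S) {x : X J}
    (hm : ∀ γ ∈ S, Pf (ta i m γ) (x γ)) (hn : ∀ γ ∈ S, Pf (ta i n γ) (x γ)) :
    ∀ γ ∈ S, ea i m γ < ea i n γ := by
  intro γ
  induction γ using WellFoundedLT.induction with
  | ind γ ih =>
    intro hγ
    rw [ea_eq, ea_eq]
    refine nx_lt (es_lt_of hmn fun δ hδ => ih δ hδ (hS hδ.le hγ)) (hm γ hγ) (hn γ hγ)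

/-- positions are strictly increasing along the active times of a point -/
theorem es_lt {m n : ℕ} (hmn : m < n) {S : Set J} (hS : IsLowerSet S) {x : X J}
    (hm : ∀ γ ∈ S, Pf (ta i m γ) (x γ)) (hn : ∀ γ ∈ S, Pf (ta i n γ) (x γ)) :
    es i m S < es i n S := es_lt_of hmn (ea_lt hmn hS hm hn)

theorem exists_time_step {S : Set J} (hS : IsLowerSet S) {x : X J}
    (hfin : ∀ k : ℕ, {β | i β ≤ (k : WithTop ℕ)}.Finite)
    (ih : ∀ γ ∈ S, ∀ k, ∃ n, k ≤ n ∧ (∀ δ < γ, Pf (ta i n δ) (x δ)) ∧ es i n (Set.Iio γ) = k)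
    (k : ℕ) : ∃ n, k ≤ n ∧ (∀ δ ∈ S, Pf (ta i n δ) (x δ)) ∧ es i n S = k := by
  classical
  let A := (hfin k).toFinset.filter (· ∈ S)
  have hA : ∀ γ, γ ∈ A ↔ i γ ≤ (k : WithTop ℕ) ∧ γ ∈ S := fun γ => by simp [A]
  by_cases hne : A.Nonempty
  · set γ := A.max' hne with hγdef
    have hγ : γ ∈ A := A.max'_mem hne
    obtain ⟨hγ1, hγS⟩ := (hA γ).1 hγ
    obtain ⟨a, ha, hak⟩ := le_coe_cases hγ1
    obtain ⟨n, hn1, hn2, hn3⟩ := ih γ hγS (a + code (pre (x γ) (k - a)))
    have hk' : k ≤ a + code (pre (x γ) (k - a)) := by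
      have := length_le_code (pre (x γ) (k - a))
      rw [length_pre] at this
      omega
    have hta : ta i n γ = pre (x γ) (k - a) := by
      unfold ta
      rw [hn3, ha, nd_coe (by omega)]
      rw [Nat.add_sub_cancel_left, dec_code]
    have hea : ea i n γ = k := by
      rw [ea_eq, hn3, ha, nx_coe (by omega), Nat.add_sub_cancel_left, dec_code, length_pre]
      omega
    have hlow : ∀ δ < γ, k ≤ ea i n δ := fun δ hδ => by
      have := es_le_ea i (n := n) (S := Set.Iio γ) (γ := δ) hδ
      rw [hn3] at this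
      omega
    have hup : ∀ δ ∈ S, γ < δ → ea i n δ = k ∧ ta i n δ = [] := by
      intro δ
      induction δ using WellFoundedLT.induction with
      | ind δ ihδ =>
        intro hδS hδ
        have h1 : es i n (Set.Iio δ) = k := by
          refine es_eq_of i ?_ (by omega) ?_
          · have := es_le_ea i (n := n) (S := Set.Iio δ) (γ := γ) hδ
            rw [hea] at this
            exact this
          · intro ε hε
            rcases lt_trichotomy ε γ with h | h | h
            · exact hlow ε h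
            · rw [h, hea]
            · exact (ihδ ε hε (hS (le_of_lt hε) hδS) h).1.ge
        have h2 : ¬ i δ ≤ (k : WithTop ℕ) := fun h2 => by
          have := A.le_max' δ ((hA δ).2 ⟨h2, hδS⟩)
          exact absurd hδ (not_lt.2 this)
        refine ⟨by rw [ea_eq, h1, nx_not h2], by unfold ta; rw [h1, nd_not h2]⟩
    refine ⟨n, by omega, ?_, ?_⟩
    · intro δ hδ
      rcases lt_trichotomy δ γ with h | h | h
      · exact hn2 δ h
      · rw [h, hta]; exact Pf_pre _ _
      · rw [(hup δ hδ h).2]; exact Pf_nil _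
    · refine es_eq_of i ?_ (by omega) ?_
      · have := es_le_ea i (n := n) (S := S) (γ := γ) hγS
        rw [hea] at this
        exact this
      · intro ε hε
        rcases lt_trichotomy ε γ with h | h | h
        · exact hlow ε h
        · rw [h, hea]
        · exact (hup ε hε h).1.ge
  · have hno : ∀ δ ∈ S, ¬ i δ ≤ (k : WithTop ℕ) := fun δ hδ h =>
      hne ⟨δ, (hA δ).2 ⟨h, hδ⟩⟩
    have hup : ∀ δ ∈ S, ea i k δ = k ∧ ta i k δ = [] := by
      intro δ
      induction δ using WellFoundedLT.induction with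
      | ind δ ihδ =>
        intro hδS
        have h1 : es i k (Set.Iio δ) = k :=
          es_eq_of i (es_le_self i _ _) le_rfl fun ε hε =>
            (ihδ ε hε (hS (le_of_lt hε) hδS)).1.ge
        refine ⟨by rw [ea_eq, h1, nx_not (hno δ hδS)], by unfold ta; rw [h1, nd_not (hno δ hδS)]⟩
    refine ⟨k, le_rfl, fun δ hδ => ?_, ?_⟩
    · rw [(hup δ hδ).2]; exact Pf_nil _
    · exact es_eq_of i (es_le_self i _ _) le_rfl fun ε hε => (hup ε hε).1.ge

theorem exists_time_Iio (hfin : ∀ k : ℕ, {β | i β ≤ (k : WithTop ℕ)}.Finite) (x : X J) (β : J) :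
    ∀ k, ∃ n, k ≤ n ∧ (∀ δ < β, Pf (ta i n δ) (x δ)) ∧ es i n (Set.Iio β) = k := by
  induction β using WellFoundedLT.induction with
  | ind β ih =>
    intro k
    exact exists_time_step (isLowerSet_Iio β) hfin (fun γ hγ => ih γ hγ) k

/-- every point has an active time of each position -/
theorem exists_time (hfin : ∀ k : ℕ, {β | i β ≤ (k : WithTop ℕ)}.Finite) {S : Set J}
    (hS : IsLowerSet S) (x : X J) (k : ℕ) :
    ∃ n, k ≤ n ∧ (∀ δ ∈ S, Pf (ta i n δ) (x δ)) ∧ es i n S = k :=
  exists_time_step hS hfin (fun γ _ => exists_time_Iio hfin x γ) k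

/-- having the same history up to time `n` -/
def EE (i : J → WithTop ℕ) (n : ℕ) (x y : X J) : Prop :=
  ∀ m < n, ∀ S : Set J, IsLowerSet S →
    ((∀ γ ∈ S, Pf (ta i m γ) (x γ)) ↔ (∀ γ ∈ S, Pf (ta i m γ) (y γ)))

theorem EE.refl (n : ℕ) (x : X J) : EE i n x x := fun _ _ _ _ => Iff.rfl

theorem EE.symm {n : ℕ} {x y : X J} (h : EE i n x y) : EE i n y x :=
  fun m hm S hS => (h m hm S hS).symm

theorem EE.trans {n : ℕ} {x y z : X J} (h : EE i n x y) (h' : EE i n y z) : EE i n x z :=
  fun m hm S hS => (h m hm S hS).trans (h' m hm S hS)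

include hfin in
theorem EE.isOpen (n : ℕ) (x : X J) :
    ∃ (F : Finset J) (N : ℕ), ∀ y, agr F N x y → EE i n x y := by
  classical
  induction n with
  | zero => exact ⟨∅, 0, fun y _ m hm => absurd hm (Nat.not_lt_zero m)⟩
  | succ n ih =>
    obtain ⟨F, N, h⟩ := ih
    obtain ⟨F', N', _, h'⟩ := (T i hfin n).agr_mem
    refine ⟨F ∪ F', max N N', fun y hy m hm S hS => ?_⟩
    rcases Nat.lt_succ_iff_lt_or_eq.1 hm with hm | rfl
    · exact h y (hy.mono Finset.subset_union_left (le_max_left _ _)) m hm S hS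
    · have := h' x y (hy.mono Finset.subset_union_right (le_max_right _ _))
      exact ⟨fun h γ hγ => (this γ).1 (h γ hγ), fun h γ hγ => (this γ).2 (h γ hγ)⟩

/-- modifications inside the cone of a later time preserve the history -/
theorem EE.pres {n m : ℕ} (hnm : n ≤ m) (R : Cond J) (x : X J) :
    EE i n x ((cmod (T i hfin m) R).H x) := by
  intro k hk S hS
  have hkm : k < m := lt_of_lt_of_le hk hnm
  have hbel : ∀ γ, x ∈ (T i hfin m).bel γ ↔ ∀ δ < γ, Pf (ta i m δ) (x δ) := fun γ => Iff.rfl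
  constructor
  · intro h γ hγ
    by_cases hb : x ∈ (T i hfin m).bel γ
    · by_cases hp : Pf (ta i m γ) (x γ)
      · rw [cmod_H_of hb hp]
        -- both histories are active at `γ`
        have h1 : ea i k γ < ea i m γ := by
          refine ea_lt hkm (S := Set.Iic γ) (isLowerSet_Iic γ) (x := x) ?_ ?_ γ le_rfl
          · intro δ hδ; exact h δ (hS hδ hγ)
          · intro δ hδ
            rcases eq_or_lt_of_le hδ with rfl | hlt
            · exact hp
            · exact hb δ hlt
        have h2 : es i k (Set.Iio γ) < es i m (Set.Iio γ) :=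
          es_lt hkm (isLowerSet_Iio γ) (fun δ hδ => h δ (hS (le_of_lt hδ) hγ)) hb
        by_cases hip : i γ ≤ ((es i k (Set.Iio γ) : ℕ) : WithTop ℕ)
        · obtain ⟨a, ha, ha'⟩ := le_coe_cases hip
          have e1 : ta i k γ = dec (es i k (Set.Iio γ) - a) := by
            unfold ta; rw [ha, nd_coe ha']
          have e2 : ta i m γ = dec (es i m (Set.Iio γ) - a) := by
            unfold ta; rw [ha, nd_coe (by omega)]
          have h3 : (ta i k γ).length < (ta i m γ).length :=
            lt_of_code_lt (h γ hγ) hp (by rw [e1, e2, code_dec, code_dec]; omega)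
          have h4 := (h γ hγ).prefix_of_le hp h3.le
          exact (Pf_app _ _).mono h4
        · have : ta i k γ = [] := nd_not hip
          rw [this]; exact Pf_nil _
      · rw [cmod_H_of_not_Pf hp]; exact h γ hγ
    · rw [cmod_H_of_not_bel hb]; exact h γ hγ
  · intro h γ
    induction γ using WellFoundedLT.induction with
    | ind γ ih =>
      intro hγ
      by_cases hb : x ∈ (T i hfin m).bel γ
      · by_cases hp : Pf (ta i m γ) (x γ)
        · have h0 := h γ hγ
          rw [cmod_H_of hb hp] at h0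
          have h2 : es i k (Set.Iio γ) < es i m (Set.Iio γ) :=
            es_lt hkm (isLowerSet_Iio γ) (fun δ hδ => ih δ hδ (hS (le_of_lt hδ) hγ)) hb
          by_cases hip : i γ ≤ ((es i k (Set.Iio γ) : ℕ) : WithTop ℕ)
          · obtain ⟨a, ha, ha'⟩ := le_coe_cases hip
            have e1 : ta i k γ = dec (es i k (Set.Iio γ) - a) := by
              unfold ta; rw [ha, nd_coe ha']
            have e2 : ta i m γ = dec (es i m (Set.Iio γ) - a) := by
              unfold ta; rw [ha, nd_coe (by omega)]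
            have hp' : Pf (ta i m γ) (app ((T i hfin m).a γ) (R.H (strip (T i hfin m).a x) γ)) :=
              Pf_app _ _
            have h3 : (ta i k γ).length < (ta i m γ).length :=
              lt_of_code_lt h0 hp' (by rw [e1, e2, code_dec, code_dec]; omega)
            have h4 := h0.prefix_of_le hp' h3.le
            exact hp.mono h4
          · have : ta i k γ = [] := nd_not hip
            rw [this]; exact Pf_nil _
        · have h0 := h γ hγ
          rwa [cmod_H_of_not_Pf hp] at h0
      · have h0 := h γ hγ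
        rwa [cmod_H_of_not_bel hb] at h0

/-- nodes are eventually frozen -/
theorem EE.frz (x : X J) (β : J) (s : List ℕ) (hβ : i β ≠ ⊤) :
    ∃ n0, ∀ n, n0 ≤ n → ∀ y, EE i n0 x y → ∀ R, (cmod (T i hfin n) R).t β y s = s := by
  obtain ⟨a, ha0⟩ := WithTop.ne_top_iff_exists.1 hβ
  have ha : i β = (a : WithTop ℕ) := by rw [← ha0]; rfl
  obtain ⟨n1, h1, h2, h3⟩ := exists_time_Iio hfin x β (a + code s + 1)
  refine ⟨n1 + 1, fun n hn y hy R => ?_⟩
  by_cases hb : y ∈ (T i hfin n).bel β
  · apply cmod_t_of_not_prefix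
    intro hpre
    have h4 : ∀ γ ∈ Set.Iio β, Pf (ta i n1 γ) (y γ) :=
      (hy n1 (Nat.lt_succ_self _) (Set.Iio β) (isLowerSet_Iio β)).1 h2
    have h5 := es_lt (m := n1) (n := n) (by omega) (isLowerSet_Iio β) h4 hb
    rw [h3] at h5
    have h6 : (T i hfin n).a β = dec (es i n (Set.Iio β) - a) := by
      show ta i n β = _
      unfold ta
      rw [ha, nd_coe (by omega)]
    rw [h6] at hpre
    have := code_mono hpre
    rw [code_dec] at this
    omega
  · exact cmod_t_of_not_bel hb s

/-- the tuples only depend on the coordinates which are already in play -/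
theorem es_congr {i i' : J → WithTop ℕ} {n : ℕ}
    (h : ∀ β, i β ≤ (n : WithTop ℕ) ∨ i' β ≤ (n : WithTop ℕ) → i β = i' β) {m : ℕ} (hm : m ≤ n) :
    (∀ β, ea i m β = ea i' m β) ∧ (∀ S, es i m S = es i' m S) ∧ ∀ β, ta i m β = ta i' m β := by
  have hstep : ∀ S : Set J, (∀ γ ∈ S, ea i m γ = ea i' m γ) → es i m S = es i' m S := by
    intro S hS
    unfold es
    congr 2
    ext k
    constructor
    · rintro ⟨γ, hγ, rfl⟩; exact ⟨γ, hγ, hS γ hγ⟩
    · rintro ⟨γ, hγ, rfl⟩; exact ⟨γ, hγ, (hS γ hγ).symm⟩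
  have hle : ∀ S, es i' m S ≤ n := fun S => (es_le_self i' m S).trans hm
  have key : ∀ (o o' : WithTop ℕ) (k : ℕ), k ≤ n →
      (o ≤ (n : WithTop ℕ) ∨ o' ≤ (n : WithTop ℕ) → o = o') → nx o k = nx o' k ∧ nd o k = nd o' k := by
    intro o o' k hk ho
    by_cases h1 : o ≤ (n : WithTop ℕ) ∨ o' ≤ (n : WithTop ℕ)
    · rw [ho h1]; exact ⟨rfl, rfl⟩
    · push Not at h1
      have h2 : ¬ o ≤ (k : WithTop ℕ) := fun h => absurd (h.trans (by exact_mod_cast hk)) (not_le.2 h1.1)
      have h3 : ¬ o' ≤ (k : WithTop ℕ) := fun h => absurd (h.trans (by exact_mod_cast hk)) (not_le.2 h1.2)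
      rw [nx_not h2, nx_not h3, nd_not h2, nd_not h3]
      exact ⟨rfl, rfl⟩
  have hea : ∀ β, ea i m β = ea i' m β := by
    intro β
    induction β using WellFoundedLT.induction with
    | ind β ih =>
      rw [ea_eq, ea_eq, hstep (Set.Iio β) fun γ hγ => ih γ hγ]
      exact (key _ _ _ (hle _) (h β)).1
  refine ⟨hea, fun S => hstep S fun γ _ => hea γ, fun β => ?_⟩
  unfold ta
  rw [hstep (Set.Iio β) fun γ _ => hea γ]
  exact (key _ _ _ (hle _) (h β)).2

end

end Pool.Agent.H652R2
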