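import Mathlib
import Pool.Agent.H652R2.Clock

/-!
# The bookkeeping of a fusion
-/

namespace Pool.Agent.H652R2

set_option linter.unusedSectionVars false
set_option linter.unusedVariables false

universe u v

attribute [ext] Tup

variable {J : Type u} [LinearOrder J] [WellFoundedLT J] {K : Type v} [Preorder K]

open Classical in
/-- restriction of the entering times to a set of coordinates -/
noncomputable def rstr (L : Set J) (i : J → WithTop ℕ) (β : J) : WithTop ℕ :=
  if β ∈ L then i β else ⊤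

theorem rstr_of {L : Set J} {i : J → WithTop ℕ} {β : J} (h : β ∈ L) : rstr L i β = i β := by
  simp [rstr, h]

theorem rstr_of_not {L : Set J} {i : J → WithTop ℕ} {β : J} (h : β ∉ L) : rstr L i β = ⊤ := by
  simp [rstr, h]

/-- finitely many coordinates have entered at each time -/
def Fn (i : J → WithTop ℕ) : Prop := ∀ k : ℕ, {β | i β ≤ (k : WithTop ℕ)}.Finite

theorem Fn.rstr {i : J → WithTop ℕ} (h : Fn i) (L : Set J) : Fn (rstr L i) := fun k =>
  (h k).subset fun β hβ => by
    by_cases hL : β ∈ L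
    · simpa [rstr_of hL] using hβ
    · simp [rstr_of_not hL] at hβ

/-- an injection of a countable set into the natural numbers -/
noncomputable def enc (S : Set J) (hS : S.Countable) : J → ℕ :=
  Classical.choose (Set.countable_iff_exists_injOn.1 hS)

theorem enc_inj (S : Set J) (hS : S.Countable) : Set.InjOn (enc S hS) S :=
  Classical.choose_spec (Set.countable_iff_exists_injOn.1 hS)

open Classical in
/-- the new entering times -/
noncomputable def upd (i : J → WithTop ℕ) (n : ℕ) (R : Cond J) (β : J) : WithTop ℕ :=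
  if i β ≠ ⊤ then i β else
    if β ∈ R.S then ((Nat.pair n (enc R.S R.S_countable β) : ℕ) : WithTop ℕ) else ⊤

theorem upd_of_ne {i : J → WithTop ℕ} {n : ℕ} {R : Cond J} {β : J} (h : i β ≠ ⊤) :
    upd i n R β = i β := by simp [upd, h]

theorem upd_of_mem {i : J → WithTop ℕ} {n : ℕ} {R : Cond J} {β : J} (h : i β = ⊤) (h' : β ∈ R.S) :
    upd i n R β = ((Nat.pair n (enc R.S R.S_countable β) : ℕ) : WithTop ℕ) := by
  simp [upd, h, h']

theorem upd_of_not {i : J → WithTop ℕ} {n : ℕ} {R : Cond J} {β : J} (h : i β = ⊤) (h' : β ∉ R.S) :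
    upd i n R β = ⊤ := by
  simp [upd, h, h']

theorem Fn.upd {i : J → WithTop ℕ} (h : Fn i) (n : ℕ) (R : Cond J) :
    Fn (H652R2.upd i n R) := by
  intro k
  have h1 : {β | β ∈ R.S ∧ enc R.S R.S_countable β ≤ k}.Finite := by
    have : Set.Finite (enc R.S R.S_countable '' {β | β ∈ R.S ∧ enc R.S R.S_countable β ≤ k}) :=
      (Set.finite_Iic k).subset (by rintro _ ⟨β, hβ, rfl⟩; exact hβ.2)
    exact Set.Finite.of_finite_image this fun β hβ γ hγ hbg =>
      enc_inj _ R.S_countable hβ.1 hγ.1 hbg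
  refine ((h k).union h1).subset fun β hβ => ?_
  by_cases h2 : i β = ⊤
  · by_cases h3 : β ∈ R.S
    · right
      refine ⟨h3, ?_⟩
      have h4 : H652R2.upd i n R β ≤ (k : WithTop ℕ) := hβ
      rw [upd_of_mem h2 h3] at h4
      have h5 : Nat.pair n (enc R.S R.S_countable β) ≤ k := by exact_mod_cast h4
      exact (Nat.right_le_pair _ _).trans h5
    · have h4 : H652R2.upd i n R β ≤ (k : WithTop ℕ) := hβ
      rw [upd_of_not h2 h3] at h4
      simp at h4
  · left
    have h4 : H652R2.upd i n R β ≤ (k : WithTop ℕ) := hβ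
    rw [upd_of_ne h2] at h4
    exact h4

/-- the entering times before the stage `n` are small, and different for different coordinates -/
def Bd (i : J → WithTop ℕ) (n : ℕ) : Prop :=
  (∀ β (k : ℕ), i β = (k : WithTop ℕ) → (Nat.unpair k).1 ≤ n) ∧
    ∀ β γ, i β = i γ → i β ≠ ⊤ → β = γ

theorem Bd.upd {i : J → WithTop ℕ} {n : ℕ} (h : Bd i n) (R : Cond J) :
    Bd (H652R2.upd i (n + 1) R) (n + 1) := by
  constructor
  · intro β k hk
    by_cases h2 : i β = ⊤
    · by_cases h3 : β ∈ R.S
      · rw [upd_of_mem h2 h3] at hk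
        have h4 : Nat.pair (n + 1) (enc R.S R.S_countable β) = k := by exact_mod_cast hk
        rw [← h4]; simp
      · rw [upd_of_not h2 h3] at hk
        exact absurd hk.symm (WithTop.natCast_ne_top k)
    · rw [upd_of_ne h2] at hk
      exact (h.1 β k hk).trans (Nat.le_succ n)
  · intro β γ hbg hne
    have key : ∀ β γ, i β ≠ ⊤ → i γ = ⊤ → H652R2.upd i (n + 1) R β = H652R2.upd i (n + 1) R γ →
        H652R2.upd i (n + 1) R β ≠ ⊤ → False := by
      intro β γ h1 h2 h3 h4
      rw [upd_of_ne h1] at h3 h4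
      by_cases h5 : γ ∈ R.S
      · rw [upd_of_mem h2 h5] at h3
        have := h.1 β _ h3
        simp at this
      · rw [upd_of_not h2 h5] at h3
        exact h4 h3
    by_cases h1 : i β = ⊤
    · by_cases h2 : i γ = ⊤
      · by_cases h3 : β ∈ R.S
        · by_cases h4 : γ ∈ R.S
          · rw [upd_of_mem h1 h3, upd_of_mem h2 h4] at hbg
            have h5 : Nat.pair (n + 1) (enc R.S R.S_countable β)
                = Nat.pair (n + 1) (enc R.S R.S_countable γ) := by exact_mod_cast hbg
            exact enc_inj _ R.S_countable h3 h4 (Nat.pair_eq_pair.1 h5).2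
          · rw [hbg, upd_of_not h2 h4] at hne
            exact absurd rfl hne
        · rw [upd_of_not h1 h3] at hne
          exact absurd rfl hne
      · exact (key γ β h2 h1 hbg.symm (hbg ▸ hne)).elim
    · by_cases h2 : i γ = ⊤
      · exact (key β γ h1 h2 hbg hne).elim
      · rw [upd_of_ne h1, upd_of_ne h2] at hbg
        exact h.2 β γ hbg h1

/-- the states of a fusion -/
structure St (K : Type v) (J : Type u) [LinearOrder J] where
  c : K
  q : Cond J
  i : J → WithTop ℕ
  fin : Fn i

/-- the tuple of the stage `n` -/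
noncomputable def TL (L : Set J) (i : J → WithTop ℕ) (hi : Fn i) (n : ℕ) : Tup J :=
  T (rstr L i) (hi.rstr L) n

theorem TL_a (L : Set J) (i : J → WithTop ℕ) (hi : Fn i) (n : ℕ) (β : J) :
    (TL L i hi n).a β = ta (rstr L i) n β := rfl

theorem TL_of_notMem {L : Set J} {i : J → WithTop ℕ} {hi : Fn i} {n : ℕ} {β : J} (h : β ∉ L) :
    (TL L i hi n).a β = [] := ta_of_top _ (rstr_of_not h)

/-- the next state -/
noncomputable def St.next (L : Set J) (n : ℕ) (s : St K J) (c' : K) (R : Cond J) : St K J :=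
  ⟨c', s.q * cmod (TL L s.i s.fin n) R, upd s.i (n + 1) R, s.fin.upd _ _⟩

/-- agreement of entering times up to `n` -/
def Ag (n : ℕ) (i i' : J → WithTop ℕ) : Prop :=
  ∀ β, i β ≤ (n : WithTop ℕ) ∨ i' β ≤ (n : WithTop ℕ) → i β = i' β

theorem Ag.rstr {n : ℕ} {i i' : J → WithTop ℕ} (h : Ag n i i') (L : Set J) :
    Ag n (rstr L i) (rstr L i') := fun β hβ => by
  by_cases hL : β ∈ L
  · simp only [rstr_of hL] at hβ ⊢; exact h β hβ
  · simp only [rstr_of_not hL]

theorem Ag.TL {n : ℕ} {i i' : J → WithTop ℕ} (h : Ag n i i') (L : Set J) (hi : Fn i)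
    (hi' : Fn i') : TL L i hi n = TL L i' hi' n := by
  ext1
  funext β
  exact (es_congr (h.rstr L) le_rfl).2.2 β

theorem Ag.es {n : ℕ} {i i' : J → WithTop ℕ} (h : Ag n i i') (L S : Set J) :
    es (H652R2.rstr L i) n S = es (H652R2.rstr L i') n S :=
  (es_congr (h.rstr L) le_rfl).2.1 S

/-- the result of a fusion -/
structure FR (L : Set J) (s0 : St K J) (Inv : ℕ → St K J → Prop)
    (G : ℕ → St K J → K → Cond J → Prop) where
  c : ℕ → K
  R : ℕ → Cond J
  i : J → WithTop ℕ
  fin : Fn i
  c0 : c 0 = s0.c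
  c_le : ∀ n, c (n + 1) ≤ c n
  i_top : ∀ β, i β = ⊤ → ∀ n, β ∉ (R n).S
  i_eq : ∀ β, s0.i β ≠ ⊤ → i β = s0.i β
  inj : ∀ β γ, i β = i γ → i β ≠ ⊤ → β = γ
  st : ∀ n, ∃ s : St K J, s.c = c n ∧
    s.q = s0.q * P (fun m => cmod (TL L i fin m) (R m)) 0 n ∧ Ag n i s.i ∧ Inv n s ∧
    G n s (c (n + 1)) (R n)

theorem exists_FR (L : Set J) (s0 : St K J) (Inv : ℕ → St K J → Prop)
    (G : ℕ → St K J → K → Cond J → Prop) (hb : Bd s0.i 0) (h0 : Inv 0 s0)
    (hstep : ∀ n s, Inv n s → ∃ c' R, c' ≤ s.c ∧ G n s c' R ∧ Inv (n + 1) (s.next L n c' R)) :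
    Nonempty (FR L s0 Inv G) := by
  classical
  have : Nonempty K := ⟨s0.c⟩
  have : Nonempty (Cond J) := ⟨1⟩
  choose! cc RR h1 h2 h3 using hstep
  let sq : ℕ → St K J := fun n => Nat.rec s0 (fun n s => s.next L n (cc n s) (RR n s)) n
  have sq_succ : ∀ n, sq (n + 1) = (sq n).next L n (cc n (sq n)) (RR n (sq n)) := fun _ => rfl
  have hinv : ∀ n, Inv n (sq n) := by
    intro n
    induction n with
    | zero => exact h0
    | succ n ih => rw [sq_succ]; exact h3 n _ ih
  have hi_succ : ∀ n, (sq (n + 1)).i = upd (sq n).i (n + 1) (RR n (sq n)) := fun _ => rfl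
  have hbd : ∀ n, Bd (sq n).i n := by
    intro n
    induction n with
    | zero => exact hb
    | succ n ih => rw [hi_succ]; exact ih.upd _
  have hpers : ∀ n m, n ≤ m → ∀ β, (sq n).i β ≠ ⊤ → (sq m).i β = (sq n).i β := by
    intro n m hnm β hβ
    induction hnm with
    | refl => rfl
    | step _ ih => rw [hi_succ, upd_of_ne (by rw [ih]; exact hβ), ih]
  let i : J → WithTop ℕ := fun β => if h : ∃ n, (sq n).i β ≠ ⊤ then (sq (Nat.find h)).i β else ⊤
  have i_of : ∀ n β, (sq n).i β ≠ ⊤ → i β = (sq n).i β := by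
    intro n β hβ
    have hex : ∃ n, (sq n).i β ≠ ⊤ := ⟨n, hβ⟩
    have : i β = (sq (Nat.find hex)).i β := by simp only [i, hex, dif_pos]
    rw [this]
    exact (hpers _ _ (Nat.find_min' hex hβ) β (Nat.find_spec hex)).symm
  have i_top' : ∀ β, i β = ⊤ → ∀ n, (sq n).i β = ⊤ := by
    intro β hβ n
    by_contra hc
    rw [i_of n β hc] at hβ
    exact hc hβ
  have hag : ∀ n, Ag n i (sq n).i := by
    intro n β hβ
    by_cases h : (sq n).i β = ⊤
    · rw [h]
      rw [h] at hβ
      by_contra hc
      have hle : i β ≤ (n : WithTop ℕ) := by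
        rcases hβ with hβ | hβ
        · exact hβ
        · simp at hβ
      have hex : ∃ n, (sq n).i β ≠ ⊤ := by
        by_contra hno
        exact hc (by simp only [i, hno, dif_neg, not_false_iff])
      have hi : i β = (sq (Nat.find hex)).i β := by simp only [i, hex, dif_pos]
      set m := Nat.find hex with hm
      have hnm : n < m := by
        by_contra hle'
        have := hpers m n (by omega) β (Nat.find_spec hex)
        rw [h] at this
        exact Nat.find_spec hex this.symm
      obtain ⟨m', hm'⟩ : ∃ m', m = m' + 1 := ⟨m - 1, by omega⟩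
      have hprev : (sq m').i β = ⊤ := by
        by_contra hc'
        have := Nat.find_min' hex hc'
        omega
      have hmem : β ∈ (RR m' (sq m')).S := by
        by_contra hno
        have h5 : (sq m).i β = ⊤ := by rw [hm', hi_succ]; exact upd_of_not hprev hno
        exact Nat.find_spec hex h5
      rw [hi, hm', hi_succ, upd_of_mem hprev hmem] at hle
      have h6 : Nat.pair (m' + 1) (enc _ (RR m' (sq m')).S_countable β) ≤ n := by
        exact_mod_cast hle
      have := Nat.left_le_pair (m' + 1) (enc _ (RR m' (sq m')).S_countable β)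
      omega
    · exact i_of n β h
  have hfin : Fn i := fun k => ((sq k).fin k).subset fun β hβ => by
    have h : i β ≤ (k : WithTop ℕ) := hβ
    show (sq k).i β ≤ (k : WithTop ℕ)
    rw [← hag k β (Or.inl h)]; exact h
  refine ⟨⟨fun n => (sq n).c, fun n => RR n (sq n), i, hfin, rfl, fun n => h1 n _ (hinv n), ?_,
    fun β h => i_of 0 β h, ?_, ?_⟩⟩
  · intro β hβ n hmem
    have e1 := i_top' β hβ n
    have e2 := i_top' β hβ (n + 1)
    rw [hi_succ, upd_of_mem e1 hmem] at e2
    exact absurd e2 (WithTop.natCast_ne_top _)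
  · intro β γ hbg hne
    have hne' : i γ ≠ ⊤ := hbg ▸ hne
    have ex : ∀ β, i β ≠ ⊤ → ∃ n, (sq n).i β ≠ ⊤ := by
      intro β hβ
      by_contra hno
      exact hβ (by simp only [i, hno, dif_neg, not_false_iff])
    obtain ⟨n, hn⟩ := ex β hne
    obtain ⟨m, hm⟩ := ex γ hne'
    have e1 := hpers n (max n m) (le_max_left _ _) β hn
    have e2 := hpers m (max n m) (le_max_right _ _) γ hm
    refine (hbd (max n m)).2 β γ ?_ (by rw [e1]; exact hn)
    rw [e1, e2, ← i_of n β hn, ← i_of m γ hm, hbg]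
  · intro n
    refine ⟨sq n, rfl, ?_, hag n, hinv n, h2 n _ (hinv n)⟩
    induction n with
    | zero => show s0.q = s0.q * 1; rw [mul_one]
    | succ n ih =>
      show (sq n).q * cmod (TL L (sq n).i (sq n).fin n) (RR n (sq n)) = _
      rw [ih, P_succ_right, Nat.zero_add, (hag n).TL L hfin (sq n).fin, mul_assoc]

end Pool.Agent.H652R2
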