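import Mathlib
import Pool.Agent.H652R2.Seq
import Pool.Agent.Helper669.Forcing

/-!
# The fusion lemma
-/

namespace Pool.Agent.H652R2

open Pool.Agent.Helper669.Forcing

set_option linter.unusedSectionVars false
set_option linter.unusedVariables false

universe u v

/-- closed under density -/
def Rgl {P : Type u} [Preorder P] (S : Set P) : Prop := ∀ p, (∀ q ≤ p, ∃ r ≤ q, r ∈ S) → p ∈ S

/-- countably closed -/
def SC (K : Type v) [Preorder K] : Prop :=
  ∀ c : ℕ → K, (∀ n, c (n + 1) ≤ c n) → ∃ d, ∀ n, d ≤ c n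

variable {J : Type u} [LinearOrder J] [WellFoundedLT J] {K : Type v} [Preorder K]

theorem cmod_t_of_top {a : Tup J} {R : Cond J} {β : J} (h : a.a β = []) (h' : β ∉ R.S) (x : X J)
    (s : List ℕ) : (cmod a R).t β x s = s := by
  by_cases hx : x ∈ a.bel β
  · rw [cmod_t_of hx (by rw [h]; exact List.nil_prefix), h]
    simp [R.t_of_notMem h']
  · exact cmod_t_of_not_bel hx s

theorem c_le_of_le {c : ℕ → K} (h : ∀ n, c (n + 1) ≤ c n) {m n : ℕ} (hmn : m ≤ n) : c n ≤ c m := by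
  induction hmn with
  | refl => exact le_rfl
  | step _ ih => exact (h _).trans ih

/-- The cones of the fusion. -/
theorem Fus.cone_mul {L : Set J} {i : J → WithTop ℕ} {hi : Fn i} {R : ℕ → Cond J}
    (f : Fus (fun m => cmod (TL L i hi m) (R m)))
    (hE : ∀ n x y, f.E n x y → EE (rstr L i) n x y) (n : ℕ) :
    ∃ w w' : Cond J, f.Q (n + 1) * cone (TL L i hi n) = cone (TL L i hi n) * w ∧
      (∀ β x s, w.t β x s = ((f.Q (n + 1) * cone (TL L i hi n)).t β x s).drop
        ((TL L i hi n).a β).length) ∧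
      f.Q 0 * cone (TL L i hi n) =
        P (fun m => cmod (TL L i hi m) (R m)) 0 n * cone (TL L i hi n) * R n * w := by
  obtain ⟨w, hw, hw'⟩ := exists_factor' (f.Q (n + 1) * cone (TL L i hi n)) (TL L i hi n) (by
    intro x
    rw [Cond.mul_H]
    have h1 := hE _ _ _ (f.Q_pres (n := n + 1) (k := n + 1) le_rfl ((cone (TL L i hi n)).H x))
    have h2 := (h1 n (Nat.lt_succ_self n) Set.univ (fun _ _ _ _ => trivial)).1
      (fun γ _ => cone_H_mem _ _ γ)
    exact fun γ => h2 γ trivial)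
  refine ⟨w, w, hw, hw', ?_⟩
  rw [f.Q_eq_mul n, f.Q_succ n, mul_assoc, mul_assoc, hw, ← mul_assoc (cmod _ _), cmod_mul_cone]
  simp only [mul_assoc]

theorem fuse (hK : SC K) (D : ℕ → Set (K × Cond J)) (hD : ∀ n, Down (D n)) (c : K) (u : Cond J)
    (hd : ∀ n, ∀ p ≤ (c, u), ∃ q ≤ p, q ∈ D n) :
    ∃ c' ≤ c, ∃ (q : Cond J) (a : ℕ → Tup J), (∀ n, (c', u * q * cone (a n)) ∈ D n) ∧
      ∀ x k, ∃ n, k ≤ n ∧ x ∈ (a n).box := by
  let s0 : St K J := ⟨c, 1, fun _ => ⊤, fun k => by simp⟩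
  let Inv : ℕ → St K J → Prop := fun n s => s.c ≤ c
  let G : ℕ → St K J → K → Cond J → Prop := fun n s c' R =>
    (c', u * s.q * cone (TL Set.univ s.i s.fin n) * R) ∈ D n
  obtain ⟨F⟩ := exists_FR Set.univ s0 Inv G ⟨fun β k h => absurd h.symm (WithTop.natCast_ne_top k),
    fun β γ _ h => absurd rfl h⟩ le_rfl (by
      intro n s hs
      obtain ⟨⟨c', v⟩, hv, hvD⟩ := hd n (s.c, u * s.q * cone (TL Set.univ s.i s.fin n))
        ⟨hs, s.q * cone (TL Set.univ s.i s.fin n), by rw [mul_assoc]⟩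
      obtain ⟨h1, R, h2⟩ := hv
      exact ⟨c', R, h1, by rw [show v = _ from h2] at hvD; exact hvD, h1.trans hs⟩)
  let f : Fus (fun m => cmod (TL Set.univ F.i F.fin m) (F.R m)) :=
    { E := EE (rstr Set.univ F.i)
      refl := EE.refl
      symm := fun n x y h => h.symm
      trans := fun n x y z h h' => h.trans h'
      isOpen := EE.isOpen (F.fin.rstr _)
      pres := fun n m h x => EE.pres (F.fin.rstr _) h _ x
      frz := fun x β s => by
        by_cases h : F.i β = ⊤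
        · exact ⟨0, fun n _ y _ => cmod_t_of_top (by
            show ta _ n β = []
            exact ta_of_top _ (by rw [rstr_of (Set.mem_univ β)]; exact h)) (F.i_top β h n) y s⟩
        · obtain ⟨n0, h0⟩ := EE.frz (F.fin.rstr Set.univ) x β s (by rw [rstr_of (Set.mem_univ β)]; exact h)
          exact ⟨n0, fun n hn y hy => h0 n hn y hy _⟩ }
  obtain ⟨c', hc'⟩ := hK F.c F.c_le
  refine ⟨c', (hc' 0).trans F.c0.le, f.Q 0, fun n => TL Set.univ F.i F.fin n, ?_, ?_⟩
  · intro n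
    obtain ⟨w, w', _, _, h2⟩ := f.cone_mul (fun _ _ _ h => h) n
    rw [mul_assoc, h2]
    obtain ⟨s, hs1, hs2, hs3, _, hs5⟩ := F.st n
    change (F.c (n + 1), u * s.q * cone (TL Set.univ s.i s.fin n) * F.R n) ∈ D n at hs5
    rw [← hs3.TL Set.univ F.fin s.fin, hs2] at hs5
    refine hD n _ hs5 _ ⟨hc' (n + 1), w, ?_⟩
    simp only [mul_assoc]
    rw [one_mul]
  · intro x k
    obtain ⟨n, h1, h2, _⟩ := exists_time (F.fin.rstr Set.univ) (S := Set.univ)
      (fun _ _ _ _ => trivial) x k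
    exact ⟨n, h1, fun γ => h2 γ trivial⟩

end Pool.Agent.H652R2
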