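import Mathlib
import Pool.Agent.H652R2.Plain

/-!
# Pure decision
-/

namespace Pool.Agent.H652R2

open Pool.Agent.Helper669.Forcing

set_option linter.unusedSectionVars false
set_option linter.unusedVariables false

universe u v w

section sg
variable {J : Type u} [LinearOrder J]

open Classical in
/-- a tuple with one entry -/
noncomputable def sg (β : J) (s : List ℕ) : Tup J :=
  ⟨fun γ => if γ = β then s else [], (Set.finite_singleton β).subset fun γ hγ => by
    by_contra hc
    have : γ ≠ β := hc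
    simp [this] at hγ⟩

@[simp] theorem sg_self (β : J) (s : List ℕ) : (sg β s).a β = s := by simp [sg]
theorem sg_ne {β γ : J} (h : γ ≠ β) (s : List ℕ) : (sg β s).a γ = [] := by simp [sg, h]

/-- shifting the first entry at a coordinate -/
def shl (l j : ℕ) : List ℕ → List ℕ
  | [] => []
  | k :: s => (if k < l then k else k - l + j) :: s

theorem isM_shl {l j : ℕ} (h : l ≤ j) : IsM (shl l j) := by
  intro s
  cases s with
  | nil =>
    refine ⟨fun k => if k < l then k else k - l + j, ?_, fun k => by simp [shl]⟩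
    intro a b hab
    dsimp only
    split_ifs <;> omega
  | cons k s =>
    refine ⟨fun k => k, strictMono_id, fun k' => ?_⟩
    show (_ :: s) ++ [k'] <+: _ :: (s ++ [k'])
    simp

open Classical in
/-- the condition shifting the first entry at `β` -/
noncomputable def Sh (β : J) (l j : ℕ) (h : l ≤ j) : Cond J where
  t γ _ s := if γ = β then shl l j s else s
  miller γ _ := by
    by_cases hγ : γ = β
    · simp only [hγ, if_true]; exact isM_shl h
    · simp only [hγ, if_false]; exact isM_id
  loc _ _ _ _ _ := rfl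
  lc _ _ := LC.const _
  supp := ⟨{β}, Set.countable_singleton β, fun γ hγ _ s => by
    have : γ ≠ β := hγ
    simp [this], fun _ _ _ _ _ => rfl⟩

theorem Sh_t_self (β : J) {l j : ℕ} (h : l ≤ j) (x : X J) (s : List ℕ) :
    (Sh β l j h).t β x s = shl l j s := by simp [Sh]

theorem Sh_t_ne {β γ : J} (hγ : γ ≠ β) {l j : ℕ} (h : l ≤ j) (x : X J) (s : List ℕ) :
    (Sh β l j h).t γ x s = s := by simp [Sh, hγ]

theorem Sh_mul_cone (β : J) {l j : ℕ} (h : l ≤ j) :
    Sh β l j h * cone (sg β [l]) = cone (sg β [j]) := by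
  ext1 γ x s
  rw [Cond.mul_t]
  by_cases hγ : γ = β
  · subst hγ
    rw [Sh_t_self, cone_t, cone_t, sg_self, sg_self]
    simp [shl]
  · rw [Sh_t_ne hγ, cone_t, cone_t, sg_ne hγ, sg_ne hγ]

theorem Sh_H_first (β : J) {l j : ℕ} (h : l ≤ j) (x : X J) :
    (Sh β l j h).H x β 0 = if x β 0 < l then x β 0 else x β 0 - l + j := by
  show ((Sh β l j h).t β x (pre (x β) 1)).getD 0 0 = _
  rw [Sh_t_self, pre_succ, pre_zero]
  simp [shl]

/-- the stems at the coordinates of `F` are trivial -/
def Pure (F : Finset J) (R : Cond J) : Prop := ∀ β ∈ F, ∀ x, R.t β x [] = []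

theorem Pure.mul {F : Finset J} {p q : Cond J} (hp : Pure F p) (hq : Pure F q) :
    Pure F (p * q) := fun β hβ x => by rw [Cond.mul_t, hq β hβ, hp β hβ]

theorem pure_one (F : Finset J) : Pure F (1 : Cond J) := fun _ _ _ => rfl

theorem Pure.mono {F F' : Finset J} {p : Cond J} (hp : Pure F p) (h : F' ⊆ F) : Pure F' p :=
  fun β hβ => hp β (h hβ)

theorem pure_cone {F : Finset J} {a : Tup J} (h : ∀ β ∈ F, a.a β = []) : Pure F (cone a) :=
  fun β hβ x => by rw [cone_t, h β hβ]; rfl

theorem pure_cmod {F : Finset J} {a : Tup J} {R : Cond J} (h : ∀ β ∈ F, a.a β = [])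
    (hR : Pure F R) : Pure F (cmod a R) := fun β hβ x => by
  by_cases hx : x ∈ a.bel β
  · rw [cmod_t_of hx (by rw [h β hβ]), h β hβ]
    simp [hR β hβ]
  · exact cmod_t_of_not_bel hx _

/-- splitting off the first entry -/
theorem exists_first (W : Cond J) (β : J) (F' : Finset J) (hF' : ∀ γ ∈ F', β < γ)
    (hW : Pure F' W) (x0 : X J) {N : ℕ} (h : ∃ j1, N ≤ j1 ∧ [j1] <+: W.t β x0 []) :
    ∃ (a : Tup J) (j1 : ℕ) (R1 : Cond J), N ≤ j1 ∧ Pure F' R1 ∧
      W * cone a = cone (sg β [j1]) * R1 := by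
  classical
  obtain ⟨j1, h1, h2⟩ := h
  obtain ⟨F0, n0, h3⟩ := W.lc β [] x0
  let F1 := F0.filter (· < β)
  let a := tupOf F1 n0 x0
  have ha : ∀ γ, β ≤ γ → a.a γ = [] := by
    intro γ hγ
    have : γ ∉ F1 := fun h => by
      simp only [F1, Finset.mem_filter] at h
      exact absurd h.2 (not_lt.2 hγ)
    simp only [a, tupOf, this, if_false]
  have hstem : ∀ y, (W * cone a).t β y [] = W.t β x0 [] := by
    intro y
    rw [Cond.mul_t, cone_t, ha β le_rfl]
    let z : X J := fun γ => if γ < β then (cone a).H y γ else x0 γ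
    have e1 : W.t β ((cone a).H y) [] = W.t β z [] :=
      W.loc _ _ _ _ fun γ hγ => by simp only [z, hγ, if_true]
    show W.t β ((cone a).H y) ([] ++ []) = _
    rw [List.append_nil, e1]
    apply h3
    intro γ hγ k hk
    by_cases hlt : γ < β
    · simp only [z, hlt, if_true]
      exact tupOf_agr F1 n0 x0 y γ (by simp [F1, hγ, hlt]) k hk
    · simp only [z, hlt, if_false]
  obtain ⟨R1, hR1, hR1'⟩ := exists_factor (W * cone a) (sg β [j1]) (by
    intro γ y
    by_cases hγ : γ = β
    · subst hγ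
      rw [sg_self, hstem]; exact h2
    · rw [sg_ne hγ]; exact List.nil_prefix)
  refine ⟨a, j1, R1, h1, fun γ hγ x => ?_, hR1⟩
  have hne : γ ≠ β := (hF' γ hγ).ne'
  rw [hR1', sg_ne hne, Cond.mul_t, cone_t, ha γ (hF' γ hγ).le]
  simp [hW γ hγ]

end sg

variable {J : Type u} [LinearOrder J] [WellFoundedLT J] {K : Type v} [Preorder K]

/-- the value `v` cannot be attained from `j` on -/
def Av (β : J) (F' : Finset J) (S : Set (K × Cond J)) (c : K) (u : Cond J) (N : ℕ) : Prop :=
  ∀ j, N ≤ j → ∀ c' ≤ c, ∀ R, Pure F' R → (c', u * cone (sg β [j]) * R) ∉ S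

theorem Av.pers {β : J} {F F' : Finset J} (hβF : β ∈ F) (hFF : F' ⊆ F)
    (hF' : ∀ γ ∈ F', β < γ) {S : Set (K × Cond J)} (hS : Down S) {c : K} {u : Cond J} {N : ℕ}
    (h : Av β F' S c u N) {c' : K} (hc : c' ≤ c) {w : Cond J} (hw : Pure F w) :
    Av β F' S c' (u * w) N := by
  intro j hj c'' hc'' R hR hmem
  let W := w * cone (sg β [j]) * R
  have hW : Pure F' W := by
    refine ((hw.mono hFF).mul (pure_cone fun γ hγ => sg_ne (hF' γ hγ).ne' _)).mul hR
  obtain ⟨a, j1, R1, h1, h2, h3⟩ := exists_first W β F' hF' hW (fun _ _ => 0) (N := N) (by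
    let y : X J := (cone (sg β [j])).H (R.H fun _ _ => 0)
    obtain ⟨Kf, hK1, hK2⟩ := w.miller β y []
    refine ⟨Kf j, hj.trans (hK1.le_apply), ?_⟩
    have h4 := hK2 j
    rw [hw β hβF] at h4
    refine h4.trans ?_
    show _ <+: (w * cone (sg β [j]) * R).t β _ []
    rw [Cond.mul_t, Cond.mul_t, cone_t, sg_self]
    exact (w.miller β _).mono (by simp))
  refine h j1 h1 c'' (hc''.trans hc) R1 h2 ?_
  rw [mul_assoc, ← h3, ← mul_assoc]
  refine hS _ hmem _ ⟨le_rfl, cone a, ?_⟩
  simp only [W, mul_assoc]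

theorem Av.mono {β : J} {F' : Finset J} {S : Set (K × Cond J)} {c : K} {u : Cond J} {N N' : ℕ}
    (h : Av β F' S c u N) (hN : N ≤ N') : Av β F' S c u N' :=
  fun j hj => h j (hN.trans hj)

/-- the value `v` can be attained again and again -/
def Star (β : J) (F F' : Finset J) (S : Set (K × Cond J)) (c : K) (u : Cond J) : Prop :=
  ∀ c' ≤ c, ∀ w, Pure F w → ∀ N, ∃ j, N ≤ j ∧ ∃ c'' ≤ c', ∃ R, Pure F' R ∧
    (c'', u * w * cone (sg β [j]) * R) ∈ S

theorem star_or_av {ι : Type w} {β : J} {F F' : Finset J} (hβF : β ∈ F) (hFF : F' ⊆ F)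
    (hF' : ∀ γ ∈ F', β < γ) {S : ι → Set (K × Cond J)} (hS : ∀ v, Down (S v)) (c : K)
    (u : Cond J) (V : Finset ι) :
    (∃ c' ≤ c, ∃ w, Pure F w ∧ ∃ v ∈ V, Star β F F' (S v) c' (u * w)) ∨
    (∃ c' ≤ c, ∃ w, Pure F w ∧ ∃ N, ∀ v ∈ V, Av β F' (S v) c' (u * w) N) := by
  classical
  induction V using Finset.induction_on with
  | empty => exact Or.inr ⟨c, le_rfl, 1, pure_one _, 0, fun v hv => absurd hv (Finset.notMem_empty v)⟩
  | insert v V hv ih =>
    rcases ih with ⟨c', h1, w, h2, v', h3, h4⟩ | ⟨c', h1, w, h2, N, h3⟩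
    · exact Or.inl ⟨c', h1, w, h2, v', Finset.mem_insert_of_mem h3, h4⟩
    · by_cases hst : Star β F F' (S v) c' (u * w)
      · exact Or.inl ⟨c', h1, w, h2, v, Finset.mem_insert_self _ _, hst⟩
      · unfold Star at hst
        push Not at hst
        obtain ⟨c'', h4, w', h5, N', h6⟩ := hst
        refine Or.inr ⟨c'', h4.trans h1, w * w', h2.mul h5, max N N', fun v' hv' => ?_⟩
        rw [← mul_assoc]
        rcases Finset.mem_insert.1 hv' with rfl | hv'
        · exact Av.mono (fun j hj c3 hc3 R hR => h6 j hj c3 hc3 R hR) (le_max_right _ _)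
        · exact ((h3 v' hv').pers hβF hFF hF' (hS v') h4 h5).mono (le_max_left _ _)

/-- the fusion for pure decision -/
theorem star_fusion (hK : SC K) {β : J} {F F' : Finset J} (hβF : β ∈ F) (hFF : F ⊆ insert β F')
    (hF' : ∀ γ ∈ F', β < γ) {S : Set (K × Cond J)} (hS : Down S) (hR : Rgl S)
    {c : K} {u : Cond J} (h : Star β F F' S c u) : ∃ c' ≤ c, ∃ R, Pure F R ∧ (c', u * R) ∈ S := by
  classical
  have hFβ : ∀ γ ∈ F, β ≤ γ := fun γ hγ => by
    rcases Finset.mem_insert.1 (hFF hγ) with rfl | h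
    · exact le_rfl
    · exact (hF' γ h).le
  set L : Set J := Set.Iio β with hL
  let s0 : St K J := ⟨c, 1, fun _ => ⊤, fun k => by simp⟩
  let Inv : ℕ → St K J → Prop := fun n s => s.c ≤ c ∧ Pure F s.q
  let G : ℕ → St K J → K → Cond J → Prop := fun n s c' R =>
    ∃ (j : ℕ) (hj : es (rstr L s.i) n (Set.Iio β) ≤ j) (R' : Cond J), Pure F' R' ∧
      R = Sh β (es (rstr L s.i) n (Set.Iio β)) j hj * cmod (sg β [es (rstr L s.i) n (Set.Iio β)]) R' ∧
      (c', u * s.q * cone (TL L s.i s.fin n) * cone (sg β [j]) * R') ∈ S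
  have hnL : ∀ γ ∈ F, γ ∉ L := fun γ hγ hγL => absurd hγL (not_lt.2 (hFβ γ hγ))
  have hpureR : ∀ (l j : ℕ) (hj : l ≤ j) (R' : Cond J), Pure F' R' →
      Pure F (Sh β l j hj * cmod (sg β [l]) R') := by
    intro l j hj R' hR' γ hγ x
    rw [Cond.mul_t]
    rcases Finset.mem_insert.1 (hFF hγ) with rfl | hγ'
    · rw [cmod_t_of_not_prefix (by rw [sg_self]; simp), Sh_t_self]; rfl
    · have hne : γ ≠ β := (hF' γ hγ').ne'
      rw [Sh_t_ne hne]
      by_cases hx : x ∈ (sg β [l]).bel γ
      · rw [cmod_t_of hx (by rw [sg_ne hne]), sg_ne hne]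
        simp [hR' γ hγ']
      · exact cmod_t_of_not_bel hx _
  obtain ⟨FF⟩ := exists_FR L s0 Inv G ⟨fun β k h => absurd h.symm (WithTop.natCast_ne_top k),
    fun β γ _ h => absurd rfl h⟩ ⟨le_rfl, pure_one _⟩ (by
      rintro n s ⟨hs1, hs2⟩
      obtain ⟨j, hj, c', hc', R', hR', hmem⟩ := h s.c hs1 (s.q * cone (TL L s.i s.fin n))
        (hs2.mul (pure_cone fun γ hγ => TL_of_notMem (hnL γ hγ)))
        (es (rstr L s.i) n (Set.Iio β))
      refine ⟨c', Sh β _ j hj * cmod (sg β [_]) R', hc', ⟨j, hj, R', hR', rfl, ?_⟩,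
        hc'.trans hs1, ?_⟩
      · simpa only [mul_assoc] using hmem
      · exact hs2.mul (pure_cmod (fun γ hγ => TL_of_notMem (hnL γ hγ)) (hpureR _ _ _ _ hR')))
  set i := FF.i with hi
  have hfin : Fn i := FF.fin
  -- the shape of the modifications
  have hshape : ∀ n, ∃ (j : ℕ) (hj : es (rstr L i) n (Set.Iio β) ≤ j) (R' : Cond J), Pure F' R' ∧
      FF.R n = Sh β (es (rstr L i) n (Set.Iio β)) j hj *
        cmod (sg β [es (rstr L i) n (Set.Iio β)]) R' ∧
      (FF.c (n + 1), u * P (fun m => cmod (TL L i hfin m) (FF.R m)) 0 n *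
        cone (TL L i hfin n) * cone (sg β [j]) * R') ∈ S := by
    intro n
    obtain ⟨s, hs1, hs2, hs3, _, j, hj, R', h1, h2, h3⟩ := FF.st n
    have e1 : es (rstr L i) n (Set.Iio β) = es (rstr L s.i) n (Set.Iio β) := hs3.es L _
    have e2 : TL L s.i s.fin n = TL L i hfin n := (hs3.TL L hfin s.fin).symm
    have e3 : s.q = P (fun m => cmod (TL L i hfin m) (FF.R m)) 0 n := by
      rw [hs2]; exact one_mul _
    rw [e2, e3] at h3
    have hj' : es (rstr L i) n (Set.Iio β) ≤ j := by rw [e1]; exact hj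
    refine ⟨j, hj', R', h1, ?_, h3⟩
    rw [h2]
    congr 1
    · congr 1; exact e1.symm
    · rw [e1]
  choose jj hjj RR hRR1 hRR2 hRR3 using hshape
  have hTβ : ∀ n, (TL L i hfin n).a β = [] := fun n => TL_of_notMem (by simp [hL])
  have hTge : ∀ n γ, β ≤ γ → (TL L i hfin n).a γ = [] := fun n γ hγ =>
    TL_of_notMem (by simpa [hL] using hγ)
  -- the action on the first entry
  have hfirst : ∀ n (x : X J), ((FF.R n).H x) β 0 =
      if x β 0 < es (rstr L i) n (Set.Iio β) then x β 0
        else x β 0 - es (rstr L i) n (Set.Iio β) + jj n := by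
    intro n x
    rw [hRR2, Cond.mul_H, Sh_H_first]
    have : (cmod (sg β [es (rstr L i) n (Set.Iio β)]) (RR n)).H x β 0 = x β 0 := by
      by_cases hx : Pf [es (rstr L i) n (Set.Iio β)] (x β)
      · rw [cmod_H_of (fun γ hγ => by rw [sg_ne hγ.ne]; exact Pf_nil _) (by rw [sg_self]; exact hx),
          sg_self]
        have := hx.getD (i := 0) (by simp)
        simpa [app] using this
      · rw [cmod_H_of_not_Pf (by rw [sg_self]; exact hx)]
    rw [this]
  have hfirst' : ∀ n (x : X J) k, k < es (rstr L i) n (Set.Iio β) →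
      (x β 0 = k ↔ ((FF.R n).H x) β 0 = k) := by
    intro n x k hk
    rw [hfirst]
    have := hjj n
    split_ifs <;> omega
  let E : ℕ → X J → X J → Prop := fun n x y => EE (rstr L i) n x y ∧
    ∀ m < n, (∀ γ < β, Pf (ta (rstr L i) m γ) (x γ)) →
      ∀ k ≤ es (rstr L i) m (Set.Iio β), (x β 0 = k ↔ y β 0 = k)
  have hbelβ : ∀ n (y : X J), y ∈ (TL L i hfin n).bel β ↔ ∀ γ < β, Pf (ta (rstr L i) n γ) (y γ) :=
    fun n y => Iff.rfl
  let f : Fus (fun m => cmod (TL L i hfin m) (FF.R m)) :=
    { E := E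
      refl := fun n x => ⟨EE.refl n x, fun _ _ _ _ _ => Iff.rfl⟩
      symm := fun n x y h => ⟨h.1.symm, fun m hm hact k hk => (h.2 m hm
        ((h.1 m hm (Set.Iio β) (isLowerSet_Iio β)).2 hact) k hk).symm⟩
      trans := fun n x y z h h' => ⟨h.1.trans h'.1, fun m hm hact k hk =>
        (h.2 m hm hact k hk).trans (h'.2 m hm
          ((h.1 m hm (Set.Iio β) (isLowerSet_Iio β)).1 hact) k hk)⟩
      isOpen := fun n x => by
        obtain ⟨F1, N, h1⟩ := EE.isOpen (hfin.rstr L) n x
        refine ⟨insert β F1, max N 1, fun y hy => ⟨h1 y (hy.mono (Finset.subset_insert _ _)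
          (le_max_left _ _)), fun m hm hact k hk => ?_⟩⟩
        rw [hy β (Finset.mem_insert_self _ _) 0 (lt_of_lt_of_le Nat.zero_lt_one (le_max_right _ _))]
      pres := fun n m hnm x => by
        refine ⟨EE.pres (hfin.rstr L) hnm _ x, fun m' hm' hact k hk => ?_⟩
        by_cases hx : x ∈ (TL L i hfin m).bel β
        · have h1 : es (rstr L i) m' (Set.Iio β) < es (rstr L i) m (Set.Iio β) :=
            es_lt (by omega) (isLowerSet_Iio β) hact hx
          rw [cmod_H_of hx (by rw [hTβ]; exact Pf_nil _), hTβ, app_nil]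
          have h2 := hfirst' m (strip (TL L i hfin m).a x) k (by omega)
          have h3 : strip (TL L i hfin m).a x β = x β := by
            simp only [strip, hTβ]; rfl
          rw [h3] at h2
          exact h2
        · rw [cmod_H_of_not_bel hx]
      frz := fun x γ s => by
        rcases lt_trichotomy γ β with hγ | hγ | hγ
        · have hγL : γ ∈ L := hγ
          by_cases ht : i γ = ⊤
          · exact ⟨0, fun n _ y _ => cmod_t_of_top (by
              show ta _ n γ = []
              exact ta_of_top _ (by rw [rstr_of hγL]; exact ht)) (FF.i_top γ ht n) y s⟩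
          · obtain ⟨n0, h0⟩ := EE.frz (hfin.rstr L) x γ s (by rw [rstr_of hγL]; exact ht)
            exact ⟨n0, fun n hn y hy => h0 n hn y hy.1 _⟩
        · subst hγ
          cases s with
          | nil =>
            refine ⟨0, fun n _ y _ => ?_⟩
            exact pure_cmod (fun δ hδ => TL_of_notMem (hnL δ hδ)) (by
              rw [hRR2]; exact hpureR _ _ _ _ (hRR1 n)) γ hβF y
          | cons k s =>
            obtain ⟨n1, _, h2, h3⟩ := exists_time_Iio (hfin.rstr L) x γ k
            refine ⟨n1 + 1, fun n hn y hy => ?_⟩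
            by_cases hb : y ∈ (TL L i hfin n).bel γ
            · have h4 := (hy.1 n1 (Nat.lt_succ_self _) (Set.Iio γ) (isLowerSet_Iio γ)).1 h2
              have h5 : es (rstr L i) n1 (Set.Iio γ) < es (rstr L i) n (Set.Iio γ) :=
                es_lt (by omega) (isLowerSet_Iio γ) h4 hb
              rw [cmod_t_of hb (by rw [hTβ]; exact List.nil_prefix), hTβ, hRR2, Cond.mul_t]
              rw [cmod_t_of_not_prefix (by
                rw [sg_self]
                intro hp
                have : es (rstr L i) n (Set.Iio γ) = k := by simpa using hp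
                omega), Sh_t_self]
              have : k < es (rstr L i) n (Set.Iio γ) := by omega
              simp [shl, this]
            · exact cmod_t_of_not_bel hb _
        · obtain ⟨n1, _, h2, h3⟩ := exists_time_Iio (hfin.rstr L) x β (x β 0)
          refine ⟨n1 + 1, fun n hn y hy => ?_⟩
          by_cases hb : y ∈ (TL L i hfin n).bel γ
          · have h4 := (hy.1 n1 (Nat.lt_succ_self _) (Set.Iio β) (isLowerSet_Iio β)).1 h2
            have hb' : ∀ δ ∈ Set.Iio β, Pf (ta (rstr L i) n δ) (y δ) := fun δ hδ =>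
              hb δ (lt_trans hδ hγ)
            have h5 : es (rstr L i) n1 (Set.Iio β) < es (rstr L i) n (Set.Iio β) :=
              es_lt (by omega) (isLowerSet_Iio β) h4 hb'
            have h6 : y β 0 = x β 0 :=
              (hy.2 n1 (Nat.lt_succ_self _) h2 (x β 0) h3.ge).1 rfl
            rw [cmod_t_of hb (by rw [hTge n γ hγ.le]; exact List.nil_prefix), hTge n γ hγ.le,
              hRR2, Cond.mul_t]
            have h7 : strip (TL L i hfin n).a y β = y β := by
              simp only [strip, hTβ]; rfl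
            rw [cmod_t_of_not_bel (fun hc => by
              have := hc β hγ
              rw [sg_self, h7] at this
              have := this.getD (i := 0) (by simp)
              simp at this
              omega), Sh_t_ne hγ.ne']
            simp
          · exact cmod_t_of_not_bel hb _ }
  obtain ⟨c', hc'⟩ := hK FF.c FF.c_le
  refine ⟨c', (hc' 0).trans FF.c0.le, f.Q 0, ?_, ?_⟩
  · intro γ hγ x
    refine f.Q_frz fun n _ y _ => ?_
    exact pure_cmod (fun δ hδ => TL_of_notMem (hnL δ hδ)) (by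
      rw [hRR2]; exact hpureR _ _ _ _ (hRR1 n)) γ hγ y
  · apply hR
    rintro ⟨c'', p⟩ ⟨hc'', r, hr⟩
    change p = u * f.Q 0 * r at hr
    let x : X J := r.H fun _ _ => 0
    obtain ⟨n, _, hn1, hn2⟩ := exists_time_Iio (hfin.rstr L) x β (x β 0)
    set a : Tup J := ⟨fun γ => if γ = β then [x β 0] else (TL L i hfin n).a γ,
      ((TL L i hfin n).fin.union (Set.finite_singleton β)).subset fun γ hγ => by
        by_cases h : γ = β
        · right; exact h
        · left; simpa [h] using hγ⟩ with ha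
    have hcone : cone a = cone (TL L i hfin n) * cone (sg β [x β 0]) := by
      ext1 γ y s
      rw [Cond.mul_t, cone_t, cone_t, cone_t]
      by_cases hγ : γ = β
      · subst hγ; rw [sg_self, hTβ]; simp [ha]
      · rw [sg_ne hγ]; simp [ha, hγ]
    have hxa : x ∈ a.box := by
      intro γ
      by_cases hγ : γ = β
      · subst hγ
        simp only [ha, if_true]
        have := Pf_pre (x γ) 1
        rwa [pre_succ, pre_zero] at this
      · simp only [ha, hγ, if_false]
        by_cases hlt : γ < β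
        · exact hn1 γ hlt
        · rw [hTge n γ (not_lt.1 hlt)]; exact Pf_nil _
    obtain ⟨F0, N0, hle⟩ := exists_cone_le r a hxa
    refine ⟨(c'', p * cone (tupOf F0 N0 (fun _ _ => 0))), ⟨le_rfl, Cond.mul_le _ _⟩, ?_⟩
    have hmem : (c', u * f.Q 0 * cone a) ∈ S := by
      obtain ⟨w, _, hw1, hw2, hw3⟩ := f.cone_mul (fun _ _ _ h => h.1) n
      obtain ⟨w', hw', _⟩ := exists_factor' (w * cone (sg β [x β 0])) (sg β [x β 0]) (by
        intro y γ
        by_cases hγ : γ = β
        · subst hγ
          rw [sg_self]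
          let z : X J := (cone (TL L i hfin n)).H ((cone (sg γ [x γ 0])).H y)
          have hz1 : ∀ δ < γ, Pf (ta (rstr L i) n δ) (z δ) := fun δ _ =>
            cone_H_mem (TL L i hfin n) _ δ
          have hz2 : z γ 0 = x γ 0 := by
            simp only [z, cone_H, hTβ, app_nil, sg_self]
            simp [app]
          have h1 : ((f.Q (n + 1)).H z) γ 0 = x γ 0 :=
            ((f.Q_pres (n := n + 1) (k := n + 1) le_rfl z).2 n (Nat.lt_succ_self n) hz1 (x γ 0)
              hn2.ge).1 hz2
          have h2 : (f.Q (n + 1)).H z = (cone (TL L i hfin n)).H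
              (w.H ((cone (sg γ [x γ 0])).H y)) := by
            rw [← Cond.mul_H (cone _) w, ← hw1, Cond.mul_H]
          rw [h2, cone_H, hTβ, app_nil] at h1
          rw [Cond.mul_H]
          unfold Pf
          rw [List.length_singleton, pre_succ, pre_zero, h1]
          rfl
        · rw [sg_ne hγ]; exact Pf_nil _)
      have e1 : f.Q 0 * cone a = P (fun m => cmod (TL L i hfin m) (FF.R m)) 0 n *
          cone (TL L i hfin n) * cone (sg β [jj n]) * RR n * w' := by
        rw [hcone, ← mul_assoc, hw3, mul_assoc _ w, hw', hRR2 n]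
        have e2 : cmod (sg β [es (rstr L i) n (Set.Iio β)]) (RR n) * cone (sg β [x β 0]) =
            cone (sg β [x β 0]) * RR n := by rw [← hn2]; exact cmod_mul_cone _ _
        have e3 : Sh β (es (rstr L i) n (Set.Iio β)) (jj n) (hjj n) * cone (sg β [x β 0]) =
            cone (sg β [jj n]) := by
          have h := Sh_mul_cone β (hjj n)
          have h' : cone (sg β [es (rstr L i) n (Set.Iio β)]) = cone (sg β [x β 0]) := by rw [hn2]
          rw [h'] at h
          exact h
        calc _ = P (fun m => cmod (TL L i hfin m) (FF.R m)) 0 n * cone (TL L i hfin n) *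
              (Sh β (es (rstr L i) n (Set.Iio β)) (jj n) (hjj n) *
                (cmod (sg β [es (rstr L i) n (Set.Iio β)]) (RR n) * cone (sg β [x β 0]))) * w' := by
              simp only [mul_assoc]
          _ = P (fun m => cmod (TL L i hfin m) (FF.R m)) 0 n * cone (TL L i hfin n) *
              ((Sh β (es (rstr L i) n (Set.Iio β)) (jj n) (hjj n) * cone (sg β [x β 0])) *
                RR n) * w' := by
              rw [e2]; simp only [mul_assoc]
          _ = _ := by rw [e3]; simp only [mul_assoc]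
      rw [mul_assoc, e1]
      refine hS _ (hRR3 n) _ ⟨hc' (n + 1), w', ?_⟩
      simp only [mul_assoc]
    refine hS _ hmem _ ⟨hc'', ?_⟩
    rw [hr, mul_assoc]
    exact Cond.mul_le_mul _ hle

/-- Pure decision: a name for a member of a finite set can be decided without changing the stems
at finitely many coordinates. -/
theorem pure_decision (hK : SC K) {ι : Type w} (V : Finset ι) (S : ι → Set (K × Cond J))
    (hS : ∀ v, Down (S v)) (hR : ∀ v, Rgl (S v)) : ∀ (n : ℕ) (F : Finset J), F.card = n →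
    ∀ (c : K) (u : Cond J), (∀ p ≤ (c, u), ∃ q ≤ p, ∃ v ∈ V, q ∈ S v) →
    ∃ c' ≤ c, ∃ R, Pure F R ∧ ∃ v ∈ V, (c', u * R) ∈ S v := by
  classical
  intro n
  induction n with
  | zero =>
    intro F hF c u hd
    obtain ⟨⟨c', q⟩, ⟨h1, R, h2⟩, v, hv, hmem⟩ := hd (c, u) le_rfl
    change q = u * R at h2
    subst h2
    have : F = ∅ := Finset.card_eq_zero.1 hF
    exact ⟨c', h1, R, by rw [this]; exact fun β hβ => absurd hβ (Finset.notMem_empty β), v, hv, hmem⟩
  | succ n ih =>
    intro F hF c u hd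
    have hne : F.Nonempty := Finset.card_pos.1 (by omega)
    set β := F.min' hne with hβ
    have hβF : β ∈ F := F.min'_mem hne
    have hcard : (F.erase β).card = n := by rw [Finset.card_erase_of_mem hβF]; omega
    have hF' : ∀ γ ∈ F.erase β, β < γ := fun γ hγ =>
      lt_of_le_of_ne (F.min'_le γ (Finset.mem_of_mem_erase hγ)) (Finset.ne_of_mem_erase hγ).symm
    rcases star_or_av (β := β) (F := F) (F' := F.erase β) hβF (Finset.erase_subset _ _) hF' hS c u V
      with ⟨c', h1, w, h2, v, h3, h4⟩ | ⟨c', h1, w, h2, N, h3⟩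
    · obtain ⟨c'', h5, R, h6, h7⟩ := star_fusion hK hβF (by rw [Finset.insert_erase hβF]) hF'
        (hS v) (hR v) h4
      exact ⟨c'', h5.trans h1, w * R, h2.mul h6, v, h3, by rw [← mul_assoc]; exact h7⟩
    · exfalso
      obtain ⟨c'', h4, R, h5, v, h6, h7⟩ := ih (F.erase β) hcard c' (u * w * cone (sg β [N]))
        (fun p hp => hd p (hp.trans ⟨h1, ⟨w * cone (sg β [N]), by simp only [mul_assoc]⟩⟩))
      exact h3 v h6 N le_rfl c'' h4 R h5 h7

end Pool.Agent.H652R2
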