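import Mathlib
import Pool.Agent.H652R2.Pure

/-!
# The fusion with finitely many values in the tail
-/

namespace Pool.Agent.H652R2

open Pool.Agent.Helper669.Forcing

set_option linter.unusedSectionVars false
set_option linter.unusedVariables false

universe u v w

theorem exists_fb (m : ℕ) (s : List ℕ) : ∃ j, m < code (s ++ [j]) :=
  ⟨m, le_code_append s m⟩

/-- the number of frozen successors of `s` -/
def fb (m : ℕ) (s : List ℕ) : ℕ := Nat.find (exists_fb m s)

theorem fb_le_iff {m : ℕ} {s : List ℕ} {j : ℕ} : fb m s ≤ j ↔ m < code (s ++ [j]) := by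
  constructor
  · intro h
    have h1 := Nat.find_spec (exists_fb m s)
    rcases eq_or_lt_of_le h with rfl | h2
    · exact h1
    · exact h1.trans (code_lt_of_lt s h2)
  · intro h
    exact Nat.find_min' _ h

/-- the length of the last frozen node of `z` -/
def lastf (m : ℕ) (z : ℕ → ℕ) : ℕ := Nat.findGreatest (fun l => code (pre z l) ≤ m) m

theorem lastf_spec (m : ℕ) (z : ℕ → ℕ) : code (pre z (lastf m z)) ≤ m :=
  Nat.findGreatest_spec (P := fun l => code (pre z l) ≤ m) (Nat.zero_le m) (by simp)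

theorem lastf_lt (m : ℕ) (z : ℕ → ℕ) : m < code (pre z (lastf m z + 1)) := by
  by_contra h
  push Not at h
  have h1 : lastf m z + 1 ≤ m := by
    have := length_le_code (pre z (lastf m z + 1))
    rw [length_pre] at this
    omega
  have := Nat.le_findGreatest (P := fun l => code (pre z l) ≤ m) h1 h
  unfold lastf at this
  omega

theorem rz_lastf (m : ℕ) (z : ℕ → ℕ) :
    rz (pre z (lastf m z)) (fb m (pre z (lastf m z))) z := by
  refine ⟨Pf_pre _ _, ?_⟩
  rw [length_pre, fb_le_iff, ← pre_succ]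
  exact lastf_lt m z

/-- if `s` is an initial segment of `z` which has just been frozen, it is the last frozen one -/
theorem lastf_of_Pf {m : ℕ} {z : ℕ → ℕ} {s : List ℕ} (h : Pf s z) (hs : code s = m) :
    pre z (lastf m z) = s := by
  have h1 := lastf_spec m z
  rcases lt_trichotomy (lastf m z) s.length with h2 | h2 | h2
  · exfalso
    have h3 : pre z (lastf m z + 1) <+: s := by
      conv_rhs => rw [h.eq]
      exact pre_prefix z h2
    have := code_mono h3
    have := lastf_lt m z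
    omega
  · rw [h2, h.symm.symm]
  · exfalso
    have h3 : s ++ [z s.length] <+: pre z (lastf m z) := by
      conv_lhs => rw [h.eq, length_pre, ← pre_succ]
      exact pre_prefix z h2
    have h4 := code_mono h3
    have h5 := code_lt s (z s.length)
    omega

variable {J : Type u} [LinearOrder J] [WellFoundedLT J] {K : Type v} [Preorder K]

/-- the part of the tail given by `φ` at the level `l` -/
def Sub (i : J → WithTop ℕ) (L : Set J) (l : ℕ) (φ : ℕ → ℕ) : Set (X J) :=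
  {x | ∀ γ ∉ L, ∀ k ≤ l, i γ = (k : WithTop ℕ) → rz (dec (φ k)) (fb (l - k) (dec (φ k))) (x γ)}

/-- `φ` describes frozen nodes -/
def Valid (l : ℕ) (φ : ℕ → ℕ) : Prop := ∀ k ≤ l, φ k + k ≤ l

/-- the nodes of the tail frozen at the level `l` are fixed by `R` -/
def Frz (i : J → WithTop ℕ) (L : Set J) (l : ℕ) (R : Cond J) : Prop :=
  ∀ γ ∉ L, ∀ (k : ℕ) (s : List ℕ), i γ = (k : WithTop ℕ) → k + code s ≤ l → ∀ x, R.t γ x s = s

theorem Frz.mul {i : J → WithTop ℕ} {L : Set J} {l : ℕ} {p q : Cond J} (hp : Frz i L l p)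
    (hq : Frz i L l q) : Frz i L l (p * q) := fun γ hγ k s hk hs x => by
  rw [Cond.mul_t, hq γ hγ k s hk hs, hp γ hγ k s hk hs]

theorem frz_cone {i : J → WithTop ℕ} {L : Set J} {l : ℕ} {a : Tup J} (ha : ∀ γ ∉ L, a.a γ = []) :
    Frz i L l (cone a) := fun γ hγ k s hk hs x => by
  rw [cone_t, ha γ hγ]; rfl

theorem Frz.sub {i : J → WithTop ℕ} {L : Set J} {l : ℕ} {R : Cond J} (hR : Frz i L l R)
    {φ : ℕ → ℕ} (hφ : Valid l φ) {x : X J} (hx : x ∈ Sub i L l φ) : R.H x ∈ Sub i L l φ := by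
  intro γ hγ k hk hik
  have h1 := hx γ hγ k hk hik
  have h2 : R.t γ x (dec (φ k)) = dec (φ k) :=
    hR γ hγ k _ hik (by rw [code_dec]; have := hφ k hk; omega) x
  obtain ⟨Kf, hK1, hK2⟩ := R.miller γ x (dec (φ k))
  have h3 : Pf (dec (φ k) ++ [x γ (dec (φ k)).length]) (x γ) := Pf_append_singleton.2 ⟨h1.1, rfl⟩
  have h4 := (R.Pf_H h3).mono (hK2 _)
  rw [h2] at h4
  obtain ⟨h5, h6⟩ := Pf_append_singleton.1 h4
  refine ⟨h5, ?_⟩
  rw [h6]
  exact h1.2.trans hK1.le_apply

/-- the decision of `v` on the part `φ` -/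
def DD (i : J → WithTop ℕ) (L : Set J) (l : ℕ) (φ : ℕ → ℕ) (S : Set (K × Cond J)) (c : K)
    (u : Cond J) : Prop :=
  ∀ w : Cond J, (∀ x, w.H x ∈ Sub i L l φ) → (c, u * w) ∈ S

theorem DD.pers {i : J → WithTop ℕ} {L : Set J} {l : ℕ} {φ : ℕ → ℕ} (hφ : Valid l φ)
    {S : Set (K × Cond J)} (hS : Down S) {c : K} {u : Cond J} (h : DD i L l φ S c u) {c' : K}
    (hc : c' ≤ c) {R : Cond J} (hR : Frz i L l R) : DD i L l φ S c' (u * R) := by
  intro w hw
  have h1 := h (R * w) (fun x => by rw [Cond.mul_H]; exact hR.sub hφ (hw x))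
  refine hS _ h1 _ ⟨hc, ?_⟩
  rw [mul_assoc]

open Classical in
/-- the region of `φ` -/
noncomputable def rgφ (i : J → WithTop ℕ) (hi : Fn i) (L : Set J) (l : ℕ) (φ : ℕ → ℕ) : Rg J where
  a γ := if γ ∉ L ∧ i γ ≤ (l : WithTop ℕ) then dec (φ ((i γ).untopD 0)) else []
  fin := (hi l).subset fun γ hγ => by
    by_contra hc
    apply hγ
    have : ¬ i γ ≤ (l : WithTop ℕ) := hc
    simp [this]
  b γ := if γ ∉ L ∧ i γ ≤ (l : WithTop ℕ) then
    fb (l - (i γ).untopD 0) (dec (φ ((i γ).untopD 0))) else 0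
  finb := (hi l).subset fun γ hγ => by
    by_contra hc
    apply hγ
    have : ¬ i γ ≤ (l : WithTop ℕ) := hc
    simp [this]

theorem rgφ_of {i : J → WithTop ℕ} {hi : Fn i} {L : Set J} {l : ℕ} {φ : ℕ → ℕ} {γ : J}
    (hγ : γ ∉ L) {k : ℕ} (hk : i γ = (k : WithTop ℕ)) (hkl : k ≤ l) :
    (rgφ i hi L l φ).a γ = dec (φ k) ∧ (rgφ i hi L l φ).b γ = fb (l - k) (dec (φ k)) := by
  have h1 : i γ ≤ (l : WithTop ℕ) := by rw [hk]; exact_mod_cast hkl
  have h2 : (i γ).untopD 0 = k := by rw [hk]; rfl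
  simp only [rgφ, hγ, h1, h2, not_false_iff, and_self, if_true]

theorem rgφ_of_not {i : J → WithTop ℕ} {hi : Fn i} {L : Set J} {l : ℕ} {φ : ℕ → ℕ} {γ : J}
    (h : ¬ (γ ∉ L ∧ i γ ≤ (l : WithTop ℕ))) :
    (rgφ i hi L l φ).a γ = [] ∧ (rgφ i hi L l φ).b γ = 0 := by
  simp only [rgφ, h, if_false]; simp

theorem rgφ_cases (i : J → WithTop ℕ) (hi : Fn i) (L : Set J) (l : ℕ) (φ : ℕ → ℕ) (γ : J) :
    (γ ∉ L ∧ ∃ k : ℕ, i γ = (k : WithTop ℕ) ∧ k ≤ l) ∨
      ((rgφ i hi L l φ).a γ = [] ∧ (rgφ i hi L l φ).b γ = 0) := by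
  by_cases h : γ ∉ L ∧ i γ ≤ (l : WithTop ℕ)
  · obtain ⟨k, hk, hkl⟩ := le_coe_cases h.2
    exact Or.inl ⟨h.1, k, hk, hkl⟩
  · exact Or.inr (rgφ_of_not h)

theorem rgφ_box {i : J → WithTop ℕ} {hi : Fn i} {L : Set J} {l : ℕ} {φ : ℕ → ℕ} {x : X J} :
    x ∈ (rgφ i hi L l φ).box ↔ x ∈ Sub i L l φ := by
  constructor
  · intro h γ hγ k hk hik
    have := h γ
    rwa [(rgφ_of hγ hik hk).1, (rgφ_of hγ hik hk).2] at this
  · intro h γ
    rcases rgφ_cases i hi L l φ γ with ⟨hγ, k, hik, hk⟩ | ⟨h1, h2⟩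
    · rw [(rgφ_of hγ hik hk).1, (rgφ_of hγ hik hk).2]
      exact h γ hγ k hk hik
    · rw [h1, h2]; exact ⟨Pf_nil _, Nat.zero_le _⟩

/-- one step of the finite decision -/
theorem decide_one (hK : SC K) {ι : Type w} (V : Finset ι) (S : ι → Set (K × Cond J))
    (hS : ∀ v, Down (S v)) (hR : ∀ v, Rgl (S v)) {i : J → WithTop ℕ} (hi : Fn i) {L : Set J}
    {l : ℕ} {φ : ℕ → ℕ} (hφ : Valid l φ) {c : K} {u : Cond J}
    (hd : ∀ p ≤ (c, u * cone (rgφ i hi L l φ).toTup), ∃ q ≤ p, ∃ v ∈ V, q ∈ S v) :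
    ∃ c' ≤ c, ∃ R, Frz i L l R ∧ ∃ v ∈ V, DD i L l φ (S v) c' (u * R) := by
  classical
  set g := rgφ i hi L l φ with hg
  obtain ⟨c', hc', R', hR', v, hv, hmem⟩ := pure_decision hK V S hS hR _ (hi l).toFinset rfl c
    (u * cone g.toTup) hd
  have hin : ∀ γ (k : ℕ), i γ = (k : WithTop ℕ) → k ≤ l → γ ∈ (hi l).toFinset := by
    intro γ k hik hk
    simp only [Set.Finite.mem_toFinset, Set.mem_ofPred_eq, hik]
    exact_mod_cast hk
  have hok : Okm g R' := by
    intro γ hγ x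
    rcases rgφ_cases i hi L l φ γ with ⟨_, k, hik, hk⟩ | ⟨_, h2⟩
    · exact hR' γ (hin γ k hik hk) x
    · exact absurd h2 hγ
  refine ⟨c', hc', locmod g R' hok, ?_, v, hv, ?_⟩
  · intro γ hγ k s hik hks x
    by_cases hx : x ∈ g.bel γ
    · rw [locmod_t_of hx]
      obtain ⟨h1, h2⟩ := rgφ_of (hi := hi) (φ := φ) hγ hik (show k ≤ l by omega)
      rw [← hg] at h1 h2
      by_cases hrs : rs (g.a γ) (g.b γ) s
      · have hlen : s = g.a γ := by
          by_contra hne
          have hlt : (g.a γ).length < s.length :=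
            lt_of_le_of_ne hrs.1.length_le fun h => hne (hrs.1.eq_of_length h).symm
          have h3 := hrs.2 hlt
          rw [h2, fb_le_iff, ← h1] at h3
          have h4 : g.a γ ++ [s.getD (g.a γ).length 0] <+: s := by
            obtain ⟨r, hr⟩ := hrs.1
            cases r with
            | nil => simp at hr; exact absurd hr.symm hne
            | cons j r =>
              rw [← hr]
              simp
          have h5 := code_mono h4
          omega
        rw [modt_of hrs, hlen]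
        simp [hR' γ (hin γ k hik (by omega))]
      · exact modt_of_not hrs
    · exact locmod_t_of_not hx s
  · intro w hw
    have hwb : ∀ x, w.H x ∈ g.box := fun x => rgφ_box.2 (hw x)
    obtain ⟨r, hr, hr'⟩ := exists_factor' w g.toTup fun x β => (hwb x β).1
    have h1 := locmod_mul (g := g) (R := R') (h := hok) hwb hr hr'
    rw [mul_assoc, h1]
    refine hS v _ hmem _ ⟨le_rfl, r, ?_⟩
    simp only [mul_assoc]

/-- the finite decision on all parts -/
theorem decide_all (hK : SC K) {ι : Type w} (V : Finset ι) (S : ι → Set (K × Cond J))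
    (hS : ∀ v, Down (S v)) (hR : ∀ v, Rgl (S v)) {i : J → WithTop ℕ} (hi : Fn i) {L : Set J}
    {l : ℕ} {α : J} (hα : α ∉ L) (hiα : i α = ((0 : ℕ) : WithTop ℕ)) {ι' : Type} (φ : ι' → ℕ → ℕ)
    (A : Finset ι') {c : K} {u : Cond J}
    (hd : ∀ p ≤ (c, u * cone (sg α (dec l))), ∃ q ≤ p, ∃ v ∈ V, q ∈ S v) :
    ∃ c' ≤ c, ∃ R, Frz i L l R ∧ ∀ k ∈ A, Valid l (φ k) → φ k 0 = l →
      ∃ v ∈ V, DD i L l (φ k) (S v) c' (u * R) := by
  classical
  induction A using Finset.induction_on with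
  | empty => exact ⟨c, le_rfl, 1, fun γ _ k s _ _ x => rfl, fun k hk => absurd hk (Finset.notMem_empty k)⟩
  | insert k A hk ih =>
    obtain ⟨c', hc', R, hR1, hR2⟩ := ih
    by_cases hv : Valid l (φ k) ∧ φ k 0 = l
    · obtain ⟨hv1, hv2⟩ := hv
      obtain ⟨c'', hc'', R2, hR3, v, hvV, hDD⟩ := decide_one hK V S hS hR hi (L := L) hv1
        (c := c') (u := u * R) (by
          intro p hp
          apply hd
          refine hp.trans ⟨hc', ?_⟩
          show u * R * cone (rgφ i hi L l (φ k)).toTup ≤ u * cone (sg α (dec l))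
          rw [mul_assoc]
          refine Cond.mul_le_mul _ (le_cone _ _ fun x γ => ?_)
          by_cases hγ : γ = α
          · subst hγ
            rw [sg_self, Cond.mul_H]
            have h1 : R.t γ ((cone (rgφ i hi L l (φ k)).toTup).H x) (dec l) = dec l :=
              hR1 γ hα 0 _ hiα (by rw [code_dec]; omega) _
            rw [← h1]
            apply R.Pf_H
            rw [cone_H]
            have h2 := (rgφ_of (hi := hi) (φ := φ k) hα hiα (Nat.zero_le l)).1
            rw [hv2] at h2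
            rw [h2]
            exact Pf_app _ _
          · rw [sg_ne hγ]; exact Pf_nil _)
      refine ⟨c'', hc''.trans hc', R * R2, hR1.mul hR3, fun k' hk' h1 h2 => ?_⟩
      rw [← mul_assoc]
      rcases Finset.mem_insert.1 hk' with rfl | hk'
      · exact ⟨v, hvV, hDD⟩
      · obtain ⟨v', hv', h3⟩ := hR2 k' hk' h1 h2
        exact ⟨v', hv', h3.pers h1 (hS v') hc'' hR3⟩
    · refine ⟨c', hc', R, hR1, fun k' hk' h1 h2 => ?_⟩
      rcases Finset.mem_insert.1 hk' with rfl | hk'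
      · exact absurd ⟨h1, h2⟩ hv
      · exact hR2 k' hk' h1 h2

/-- extending a function on `{0, …, l}` -/
def extφ (l : ℕ) (φ : Fin (l + 1) → Fin (l + 1)) (k : ℕ) : ℕ :=
  if h : k < l + 1 then φ ⟨k, h⟩ else 0

/-- The fusion below `α` with finitely many values at each level in the tail. -/
theorem tail_fusion (hK : SC K) {ι : Type w} (S : ℕ → ι → Set (K × Cond J))
    (hS : ∀ l v, Down (S l v)) (hR : ∀ l v, Rgl (S l v)) (α : J) (c : K)
    (Θ : ℕ → Cond J → ι → Prop)
    (hΘ : ∀ l u R v, (∀ x, R.t α x (dec l) = dec l) → Θ l u v → Θ l (u * R) v)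
    (hyp : ∀ l, ∀ c' ≤ c, ∀ u : Cond J, ∃ (a : Tup J) (V : Finset ι), (∀ γ, α ≤ γ → a.a γ = []) ∧
      (∀ v ∈ V, Θ l (u * cone a) v) ∧
      ∀ p ≤ (c', u * cone a * cone (sg α (dec l))), ∃ q ≤ p, ∃ v ∈ V, q ∈ S l v) :
    ∃ c' ≤ c, ∃ (q : Cond J) (i : J → WithTop ℕ) (a : ℕ → Tup J) (lv : ℕ → ℕ),
      Fn i ∧ i α = ((0 : ℕ) : WithTop ℕ) ∧ (∀ β γ, i β = i γ → i β ≠ ⊤ → β = γ) ∧
      (∀ x, q.t α x [] = []) ∧ (∀ n γ, α ≤ γ → (a n).a γ = []) ∧
      (∀ x l, ∃ n, lv n = l ∧ x ∈ (a n).box) ∧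
      ∀ n, ∀ φ : Fin (lv n + 1) → Fin (lv n + 1), Valid (lv n) (extφ _ φ) →
        extφ _ φ 0 = lv n →
        ∃ v, Θ (lv n) (q * cone (a n)) v ∧
          DD i (Set.Iio α) (lv n) (extφ _ φ) (S (lv n) v) c' (q * cone (a n)) := by
  classical
  set L : Set J := Set.Iio α with hL
  have hαL : α ∉ L := by simp [hL]
  have hnL : ∀ γ, γ ∉ L ↔ α ≤ γ := fun γ => by simp [hL]
  let s0 : St K J := ⟨c, 1, fun γ => if γ = α then ((0 : ℕ) : WithTop ℕ) else ⊤, fun k =>
    (Set.finite_singleton α).subset fun γ hγ => by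
      by_contra hc
      have hc' : γ ≠ α := hc
      have hγ' : (if γ = α then ((0 : ℕ) : WithTop ℕ) else ⊤) ≤ (k : WithTop ℕ) := hγ
      simp [hc'] at hγ'⟩
  have hs0α : s0.i α = ((0 : ℕ) : WithTop ℕ) := by simp [s0]
  have hs0 : ∀ γ, γ ≠ α → s0.i γ = ⊤ := fun γ hγ => by simp [s0, hγ]
  let Inv : ℕ → St K J → Prop := fun n s => s.c ≤ c ∧ s.i α = ((0 : ℕ) : WithTop ℕ)
  let G : ℕ → St K J → K → Cond J → Prop := fun n s c' R =>
    Frz s.i L (es (rstr L s.i) n (Set.Iio α)) R ∧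
    ∀ φ : Fin (es (rstr L s.i) n (Set.Iio α) + 1) → Fin (es (rstr L s.i) n (Set.Iio α) + 1),
      Valid (es (rstr L s.i) n (Set.Iio α)) (extφ _ φ) →
      extφ _ φ 0 = es (rstr L s.i) n (Set.Iio α) →
      ∃ v, Θ (es (rstr L s.i) n (Set.Iio α)) (s.q * cone (TL L s.i s.fin n) * R) v ∧
        DD s.i L (es (rstr L s.i) n (Set.Iio α)) (extφ _ φ)
        (S (es (rstr L s.i) n (Set.Iio α)) v) c' (s.q * cone (TL L s.i s.fin n) * R)
  obtain ⟨FF⟩ := exists_FR L s0 Inv G (by
      constructor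
      · intro β k h
        by_cases hβ : β = α
        · rw [hβ, hs0α] at h
          have : 0 = k := by exact_mod_cast h
          rw [← this]; simp
        · rw [hs0 β hβ] at h
          exact absurd h.symm (WithTop.natCast_ne_top k)
      · intro β γ h1 h2
        have hβ : β = α := by
          by_contra hc
          exact h2 (hs0 β hc)
        have hγ : γ = α := by
          by_contra hc
          rw [hs0 γ hc] at h1
          exact h2 h1
        rw [hβ, hγ]) ⟨le_rfl, hs0α⟩ (by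
      rintro n s ⟨hs1, hs2⟩
      set l := es (rstr L s.i) n (Set.Iio α) with hl
      obtain ⟨a, V, ha, hΘV, hd⟩ := hyp l s.c hs1 (s.q * cone (TL L s.i s.fin n))
      obtain ⟨c', hc', R, hR1, hR2⟩ := decide_all hK V (S l) (hS l) (hR l) s.fin (L := L) hαL hs2
        (fun φ : Fin (l + 1) → Fin (l + 1) => extφ l φ) Finset.univ
        (c := s.c) (u := s.q * cone (TL L s.i s.fin n) * cone a) hd
      refine ⟨c', cone a * R, hc', ⟨?_, ?_⟩, hc'.trans hs1, ?_⟩
      · exact (frz_cone fun γ hγ => ha γ ((hnL γ).1 hγ)).mul hR1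
      · intro φ hφ1 hφ2
        obtain ⟨v, hvV, hv⟩ := hR2 φ (Finset.mem_univ _) hφ1 hφ2
        refine ⟨v, ?_, by simpa only [mul_assoc] using hv⟩
        have h3 := hΘ l _ R v (fun x => hR1 α hαL 0 (dec l) hs2 (by rw [code_dec]; omega) x)
          (hΘV v hvV)
        simpa only [mul_assoc] using h3
      · show upd s.i (n + 1) _ α = _
        rw [upd_of_ne (by rw [hs2]; exact WithTop.natCast_ne_top 0), hs2])
  set i := FF.i with hi
  have hfin : Fn i := FF.fin
  have hiα : i α = ((0 : ℕ) : WithTop ℕ) := by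
    rw [hi, FF.i_eq α (by rw [hs0α]; exact WithTop.natCast_ne_top 0), hs0α]
  have hTge : ∀ n γ, α ≤ γ → (TL L i hfin n).a γ = [] := fun n γ hγ =>
    TL_of_notMem ((hnL γ).2 hγ)
  have hshape : ∀ n, Frz i L (es (rstr L i) n (Set.Iio α)) (FF.R n) ∧
    ∀ φ : Fin (es (rstr L i) n (Set.Iio α) + 1) → Fin (es (rstr L i) n (Set.Iio α) + 1),
      Valid (es (rstr L i) n (Set.Iio α)) (extφ _ φ) →
      extφ _ φ 0 = es (rstr L i) n (Set.Iio α) →
      ∃ v, Θ (es (rstr L i) n (Set.Iio α))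
        (P (fun m => cmod (TL L i hfin m) (FF.R m)) 0 n * cone (TL L i hfin n) * FF.R n) v ∧
        DD i L (es (rstr L i) n (Set.Iio α)) (extφ _ φ)
        (S (es (rstr L i) n (Set.Iio α)) v) (FF.c (n + 1))
        (P (fun m => cmod (TL L i hfin m) (FF.R m)) 0 n * cone (TL L i hfin n) * FF.R n) := by
    intro n
    obtain ⟨s, hs1, hs2, hs3, _, h1, h2⟩ := FF.st n
    have e1 : es (rstr L i) n (Set.Iio α) = es (rstr L s.i) n (Set.Iio α) := hs3.es L _
    have e2 : TL L s.i s.fin n = TL L i hfin n := (hs3.TL L hfin s.fin).symm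
    have e3 : s.q = P (fun m => cmod (TL L i hfin m) (FF.R m)) 0 n := by
      rw [hs2]; exact one_mul _
    have hle : es (rstr L i) n (Set.Iio α) ≤ n := es_le_self _ _ _
    have e4 : ∀ γ (k : ℕ), k ≤ n → (i γ = (k : WithTop ℕ) ↔ s.i γ = (k : WithTop ℕ)) := by
      intro γ k hk
      constructor
      · intro h
        rw [← hs3 γ (Or.inl (by rw [← hi, h]; exact_mod_cast hk))]; exact h
      · intro h
        have := hs3 γ (Or.inr (by rw [h]; exact_mod_cast hk))
        rw [hi, this]; exact h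
    rw [e2, e3] at h2
    rw [← e1] at h1 h2
    refine ⟨fun γ hγ k t hk hkt x => h1 γ hγ k t ((e4 γ k (by omega)).1 hk) hkt x, ?_⟩
    intro φ hφ1 hφ2
    obtain ⟨v, hv0, hv⟩ := h2 φ hφ1 hφ2
    refine ⟨v, hv0, fun w hw => hv w fun x γ hγ k hk hik => hw x γ hγ k hk
      ((e4 γ k (by omega)).2 hik)⟩
  let f : Fus (fun m => cmod (TL L i hfin m) (FF.R m)) :=
    { E := EE (rstr L i)
      refl := EE.refl
      symm := fun n x y h => h.symm
      trans := fun n x y z h h' => h.trans h'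
      isOpen := EE.isOpen (hfin.rstr _)
      pres := fun n m h x => EE.pres (hfin.rstr _) h _ x
      frz := fun x γ s => by
        by_cases ht : i γ = ⊤
        · exact ⟨0, fun n _ y _ => cmod_t_of_top (by
            show ta _ n γ = []
            refine ta_of_top _ ?_
            by_cases hγ : γ ∈ L
            · rw [rstr_of hγ]; exact ht
            · exact rstr_of_not hγ) (FF.i_top γ ht n) y s⟩
        · by_cases hγ : γ ∈ L
          · obtain ⟨n0, h0⟩ := EE.frz (hfin.rstr L) x γ s (by rw [rstr_of hγ]; exact ht)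
            exact ⟨n0, fun n hn y hy => h0 n hn y hy _⟩
          · obtain ⟨k, hk0⟩ := WithTop.ne_top_iff_exists.1 ht
            have hk : i γ = (k : WithTop ℕ) := by rw [← hk0]; rfl
            have hγ' : α ≤ γ := (hnL γ).1 hγ
            obtain ⟨n1, _, h2, h3⟩ := exists_time_Iio (hfin.rstr L) x α (k + code s)
            refine ⟨n1 + 1, fun n hn y hy => ?_⟩
            by_cases hb : y ∈ (TL L i hfin n).bel γ
            · have h4 := (hy n1 (Nat.lt_succ_self _) (Set.Iio α) (isLowerSet_Iio α)).1 h2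
              have hb' : ∀ δ ∈ Set.Iio α, Pf (ta (rstr L i) n δ) (y δ) := fun δ hδ =>
                hb δ (lt_of_lt_of_le hδ hγ')
              have h5 : es (rstr L i) n1 (Set.Iio α) < es (rstr L i) n (Set.Iio α) :=
                es_lt (by omega) (isLowerSet_Iio α) h4 hb'
              rw [cmod_t_of hb (by rw [hTge n γ hγ']; exact List.nil_prefix), hTge n γ hγ']
              simp only [List.nil_append, List.length_nil, List.drop_zero]
              exact (hshape n).1 γ hγ k s hk (by omega) _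
            · exact cmod_t_of_not_bel hb _ }
  obtain ⟨c', hc'⟩ := hK FF.c FF.c_le
  refine ⟨c', (hc' 0).trans FF.c0.le, f.Q 0, i, fun n => TL L i hfin n,
    fun n => es (rstr L i) n (Set.Iio α), hfin, hiα, FF.inj, ?_, hTge, ?_, ?_⟩
  · intro x
    refine f.Q_frz fun n _ y _ => ?_
    by_cases hb : y ∈ (TL L i hfin n).bel α
    · rw [cmod_t_of hb (by rw [hTge n α le_rfl]), hTge n α le_rfl]
      simp only [List.nil_append, List.length_nil, List.drop_zero]
      exact (hshape n).1 α hαL 0 [] hiα (by simp) _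
    · exact cmod_t_of_not_bel hb _
  · intro x l
    obtain ⟨n, _, h2, h3⟩ := exists_time_Iio (hfin.rstr L) x α l
    refine ⟨n, h3, fun γ => ?_⟩
    by_cases hγ : γ < α
    · exact h2 γ hγ
    · rw [hTge n γ (not_lt.1 hγ)]; exact Pf_nil _
  · intro n φ hφ1 hφ2
    obtain ⟨v, hv0, hv⟩ := (hshape n).2 φ hφ1 hφ2
    obtain ⟨w, _, hw1, hw2, hw3⟩ := f.cone_mul (fun _ _ _ h => h) n
    rw [hw3]
    have hfr : Frz i L (es (rstr L i) n (Set.Iio α)) w := ?_
    · refine ⟨v, hΘ _ _ w v (fun x => hfr α hαL 0 _ hiα (by rw [code_dec, Nat.zero_add]) x) hv0,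
        hv.pers hφ1 (hS _ v) (hc' (n + 1)) hfr⟩
    intro γ hγ k s hk hks0 x
    have hks : k + code s ≤ es (rstr L i) n (Set.Iio α) := hks0
    have hγ' : α ≤ γ := (hnL γ).1 hγ
    rw [hw2, hTge n γ hγ', Cond.mul_t, cone_t, hTge n γ hγ']
    simp only [List.nil_append, List.length_nil, List.drop_zero]
    apply f.Q_frz
    intro m hm y hy
    by_cases hb : y ∈ (TL L i hfin m).bel γ
    · have h4 := (hy n (Nat.lt_succ_self _) (Set.Iio α) (isLowerSet_Iio α)).1
        (fun δ _ => cone_H_mem (TL L i hfin n) x δ)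
      have hb' : ∀ δ ∈ Set.Iio α, Pf (ta (rstr L i) m δ) (y δ) := fun δ hδ =>
        hb δ (lt_of_lt_of_le hδ hγ')
      have h5 : es (rstr L i) n (Set.Iio α) < es (rstr L i) m (Set.Iio α) :=
        es_lt (by omega) (isLowerSet_Iio α) h4 hb'
      rw [cmod_t_of hb (by rw [hTge m γ hγ']; exact List.nil_prefix), hTge m γ hγ']
      simp only [List.nil_append, List.length_nil, List.drop_zero]
      exact (hshape m).1 γ hγ k s hk (by omega) _
    · exact cmod_t_of_not_bel hb _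

end Pool.Agent.H652R2
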