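import Mathlib
import Pool.Agent.H652R2.Tail

/-!
# Names and continuous functions
-/

namespace Pool.Agent.H652R2

open Pool.Agent.Helper669.Forcing

set_option linter.unusedSectionVars false
set_option linter.unusedVariables false

universe u v w

/-! ### closure under density -/

section
variable {P : Type u} [Preorder P]

theorem rgl_meets (N : Set P) : Rgl (meets N) := by
  intro p h q hq
  obtain ⟨r, hr, hr'⟩ := h q hq
  obtain ⟨r', h1, s, hs, h2⟩ := hr' r le_rfl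
  exact ⟨r', h1.trans hr, s, hs, h2⟩

theorem rgl_fnot {φ : Set P} (hφ : Down φ) : Rgl (fnot φ) := by
  intro p h q hq hmem
  obtain ⟨r, hr, hr'⟩ := h q hq
  exact hr' r le_rfl (hφ q hmem r hr)

theorem rgl_fand {φ ψ : Set P} (h : Rgl φ) (h' : Rgl ψ) : Rgl (fand φ ψ) := fun p hp =>
  ⟨h p fun q hq => let ⟨r, hr, h1⟩ := hp q hq; ⟨r, hr, h1.1⟩,
    h' p fun q hq => let ⟨r, hr, h1⟩ := hp q hq; ⟨r, hr, h1.2⟩⟩

theorem rgl_fall {ι : Sort v} {φ : ι → Set P} (h : ∀ i, Rgl (φ i)) : Rgl (fall φ) :=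
  fun p hp i => h i p fun q hq => let ⟨r, hr, h1⟩ := hp q hq; ⟨r, hr, h1 i⟩

theorem rgl_fex {ι : Sort v} (φ : ι → Set P) : Rgl (fex φ) :=
  rgl_fnot (down_fall fun _ => down_fnot _)

theorem rgl_fimp {φ ψ : Set P} (h : Down φ) : Rgl (fimp φ ψ) :=
  rgl_fnot (down_fand h (down_fnot _))

theorem rgl_fground (h : Prop) : Rgl (fground (P := P) h) := fun p hp =>
  let ⟨_, _, h1⟩ := hp p le_rfl; h1

theorem down_fimp' (φ ψ : Set P) : Down (fimp φ ψ) := down_fnot _

/-- using an implication with a closed conclusion -/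
theorem mem_of_fimp {φ ψ : Set P} {p : P} (h : p ∈ fimp φ ψ) (hφ : Down φ) (hψ : Rgl ψ)
    (hp : p ∈ φ) : p ∈ ψ := hψ p fun q hq => mem_fimp.1 h q hq (hφ p hp q hq)

theorem fimp_of {φ ψ : Set P} {p : P} (h : ∀ q ≤ p, q ∈ φ → q ∈ ψ) : p ∈ fimp φ ψ :=
  mem_fimp.2 fun q hq hφ => ⟨q, le_rfl, h q hq hφ⟩

theorem ground_of_fimp {φ : Set P} {h : Prop} {p : P} (hp : p ∈ fimp φ (fground h))
    (hp' : p ∈ φ) : h := by
  obtain ⟨_, _, h1⟩ := mem_fimp.1 hp p le_rfl hp'
  exact h1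

end

section find
variable {J : Type u}

theorem LC.find {p : ℕ → X J → Prop} (hp : ∀ n, LC (p n)) (h : ∀ x, ∃ n, p n x)
    [∀ x, DecidablePred fun n => p n x] : LC (fun x => Nat.find (h x)) := by
  classical
  intro x
  obtain ⟨F, N, h1⟩ := LC.finite hp (Finset.range (Nat.find (h x) + 1)) x
  refine ⟨F, N, fun y hy => ?_⟩
  have h2 := h1 y hy
  rw [Nat.find_eq_iff]
  refine ⟨?_, fun n hn hc => ?_⟩
  · have := h2 (Nat.find (h x)) (Finset.mem_range.2 (Nat.lt_succ_self _))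
    rw [this]; exact Nat.find_spec (h x)
  · have hn' : n < Nat.find (h x) := hn
    have h3 := h2 n (Finset.mem_range.2 (by omega))
    rw [h3] at hc
    exact Nat.find_min (h x) hn hc

theorem CS.find {p : ℕ → X J → Prop} (hp : ∀ n, CS (p n)) (h : ∀ x, ∃ n, p n x)
    [∀ x, DecidablePred fun n => p n x] : CS (fun x => Nat.find (h x)) := by
  obtain ⟨S, h1, h2⟩ := CS.forall hp
  refine ⟨S, h1, fun x y hxy => ?_⟩
  have : ∀ n, p n x = p n y := fun n => h2 n x y hxy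
  show Nat.find (h x) = Nat.find (h y)
  rw [Nat.find_eq_iff]
  refine ⟨?_, fun n hn hc => ?_⟩
  · rw [this]; exact Nat.find_spec (h y)
  · rw [this] at hc; exact Nat.find_min (h y) hn hc

theorem LC.box [LinearOrder J] (a : Tup J) : LC (fun x : X J => x ∈ a.box) := by
  intro x
  obtain ⟨F, n, _, h⟩ := a.agr_mem
  refine ⟨F, n, fun y hy => propext ⟨fun h' β => (h x y hy β).2 (h' β),
    fun h' β => (h x y hy β).1 (h' β)⟩⟩

theorem CS.box [LinearOrder J] (a : Tup J) : CS (fun x : X J => x ∈ a.box) := by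
  refine ⟨{β | a.a β ≠ []}, a.countable, fun x y h => propext ?_⟩
  have : ∀ β, Pf (a.a β) (x β) ↔ Pf (a.a β) (y β) := by
    intro β
    by_cases hβ : a.a β = []
    · rw [hβ]; simp
    · rw [h β hβ]
  exact ⟨fun h' β => (this β).1 (h' β), fun h' β => (this β).2 (h' β)⟩

end find

variable {J : Type u} [LinearOrder J] [WellFoundedLT J] {K : Type v} [Preorder K]

theorem le_iff {c c' : K} {u u' : Cond J} :
    ((c', u') : K × Cond J) ≤ (c, u) ↔ c' ≤ c ∧ ∃ r, u' = u * r := Iff.rfl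

theorem le_mk {c c' : K} {u r : Cond J} (h : c' ≤ c) : ((c', u * r) : K × Cond J) ≤ (c, u) :=
  ⟨h, r, rfl⟩

/-- the constant zero point -/
def x0 : X J := fun _ _ => 0

/-- it suffices to look at cones -/
theorem mem_of_cones {S : Set (K × Cond J)} (hS : Down S) (hR : Rgl S) {c : K} {u r : Cond J}
    (h : ∀ x, ∃ a : Tup J, r.H x ∈ a.box ∧ (c, u * cone a) ∈ S) : (c, u * r) ∈ S := by
  apply hR
  rintro ⟨c'', p⟩ ⟨hc'', r', hr'⟩
  change p = u * r * r' at hr'
  obtain ⟨a, ha1, ha2⟩ := h (r'.H x0)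
  rw [← Cond.mul_H] at ha1
  obtain ⟨F, N, hle⟩ := exists_cone_le (r * r') a ha1
  refine ⟨(c'', p * cone (tupOf F N x0)), ⟨le_rfl, Cond.mul_le _ _⟩, hS _ ha2 _ ⟨hc'', ?_⟩⟩
  show p * cone (tupOf F N x0) ≤ u * cone a
  rw [hr', mul_assoc u r r', mul_assoc]
  exact Cond.mul_le_mul _ hle

/-- localisation of a locally constant function -/
theorem exists_tupOf {A : Type w} {f : X J → A} (hf : LC f) (x : X J) :
    ∃ (F : Finset J) (N : ℕ), ∀ y, f ((cone (tupOf F N x)).H y) = f x := by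
  obtain ⟨F, N, h⟩ := hf x
  exact ⟨F, N, fun y => h _ (tupOf_agr _ _ _ _)⟩

/-- the name for the value of `f`, relative to the condition `u` -/
def nm {A : Type w} (u : Cond J) (f : X J → A) (a : A) : Set (K × Cond J) :=
  {p | ∃ r, p.2 = u * r ∧ ∀ x, f (r.H x) = a}

theorem mem_meets_nm {A : Type w} {u : Cond J} {f : X J → A} (hf : LC f) {a : A} {c : K}
    {r : Cond J} : (c, u * r) ∈ meets (nm (K := K) u f a) ↔ ∀ x, f (r.H x) = a := by
  constructor
  · intro h x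
    obtain ⟨F, N, h1⟩ := exists_tupOf (hf.comp r.H_cont) x
    obtain ⟨⟨c', p'⟩, ⟨_, w, hw⟩, ⟨c'', s⟩, ⟨r1, hr1, hr1'⟩, ⟨_, w1, hw1⟩⟩ :=
      h (c, u * r * cone (tupOf F N x)) ⟨le_rfl, Cond.mul_le _ _⟩
    change p' = u * r * cone (tupOf F N x) * w at hw
    change s = u * r1 at hr1
    change p' = s * w1 at hw1
    have h2 : u.H (r.H ((cone (tupOf F N x)).H (w.H x0))) = u.H (r1.H (w1.H x0)) := by
      simp only [← Cond.mul_H, ← mul_assoc]
      rw [← hw, hw1, hr1]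
    have h3 := u.H_inj h2
    rw [← h1 (w.H x0), h3, hr1']
  · intro h
    exact meets_of_mem ⟨r, rfl, h⟩

theorem isFun_nm {ι A : Type*} {u : Cond J} {f : ι → X J → A} (hf : ∀ i, LC (f i)) {c : K}
    {r : Cond J} : (c, u * r) ∈ IsFun (fun i a => nm (K := K) u (f i) a) := by
  refine ⟨fun i => mem_fex.2 ?_, fun i a a' => fimp_of ?_⟩
  · rintro ⟨c', p⟩ ⟨_, w, hw⟩
    change p = u * r * w at hw
    obtain ⟨F, N, h1⟩ := exists_tupOf ((hf i).comp (r * w).H_cont) x0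
    refine ⟨(c', p * cone (tupOf F N x0)), ⟨le_rfl, Cond.mul_le _ _⟩, f i ((r * w).H x0), ?_⟩
    rw [hw, mul_assoc u, mul_assoc, mem_meets_nm (hf i)]
    intro x
    rw [Cond.mul_H]
    exact h1 x
  · rintro ⟨c', p⟩ ⟨_, w, hw⟩ ⟨h1, h2⟩
    change p = u * r * w at hw
    rw [hw, mul_assoc u] at h1 h2
    rw [mem_meets_nm (hf i)] at h1 h2
    show a = a'
    rw [← h1 x0, h2 x0]

/-- reading names continuously -/
theorem read (hK : SC K) {ι : Type*} [Countable ι] {A : ι → Type w}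
    (D : ∀ i, A i → Set (K × Cond J)) (hD : ∀ i a, Down (D i a)) (hR : ∀ i a, Rgl (D i a))
    (c : K) (u : Cond J) (hd : ∀ i, ∀ p ≤ (c, u), ∃ q ≤ p, ∃ a, q ∈ D i a) :
    ∃ c' ≤ c, ∃ (q : Cond J) (f : ∀ i, X J → A i), (∀ i, LC (f i)) ∧ (∀ i, CS (f i)) ∧
      ∀ i r a, (∀ x, f i (r.H x) = a) → (c', u * q * r) ∈ D i a := by
  classical
  rcases isEmpty_or_nonempty ι with hι | hι
  · exact ⟨c, le_rfl, 1, fun i => (hι.false i).elim, fun i => (hι.false i).elim,
      fun i => (hι.false i).elim, fun i => (hι.false i).elim⟩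
  obtain ⟨g, hg⟩ := exists_surjective_nat ι
  let D' : ℕ → Set (K × Cond J) := fun n => {p | ∀ m ≤ n, ∃ a, p ∈ D (g m) a}
  have hD' : ∀ n, Down (D' n) := fun n p hp q hq m hm => by
    obtain ⟨a, ha⟩ := hp m hm
    exact ⟨a, hD _ a p ha q hq⟩
  have hdense : ∀ n, ∀ p ≤ (c, u), ∃ q ≤ p, q ∈ D' n := by
    intro n
    induction n with
    | zero =>
      intro p hp
      obtain ⟨q, hq, a, ha⟩ := hd (g 0) p hp
      exact ⟨q, hq, fun m hm => by
        obtain rfl : m = 0 := by omega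
        exact ⟨a, ha⟩⟩
    | succ n ih =>
      intro p hp
      obtain ⟨q, hq, h1⟩ := ih p hp
      obtain ⟨q', hq', a, ha⟩ := hd (g (n + 1)) q (hq.trans hp)
      refine ⟨q', hq'.trans hq, fun m hm => ?_⟩
      rcases Nat.lt_or_ge n m with h2 | h2
      · obtain rfl : m = n + 1 := by omega
        exact ⟨a, ha⟩
      · exact hD' n q h1 q' hq' m h2
  obtain ⟨c', hc', q, a, h1, h2⟩ := fuse hK D' hD' c u hdense
  choose m hm using fun i => hg i
  have hex : ∀ i x, ∃ n, m i ≤ n ∧ x ∈ (a n).box := fun i x => h2 x (m i)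
  have hlab : ∀ i n, m i ≤ n → ∃ b : A i, (c', u * q * cone (a n)) ∈ D i b := by
    intro i n hn
    obtain ⟨b, hb⟩ := h1 n (m i) hn
    have : ∀ j, j = i → (∃ b, (c', u * q * cone (a n)) ∈ D j b) →
        ∃ b : A i, (c', u * q * cone (a n)) ∈ D i b := by
      rintro j rfl h; exact h
    exact this _ (hm i) ⟨b, hb⟩
  let lab : ∀ i, ℕ → A i := fun i n => if h : m i ≤ n then Classical.choose (hlab i n h)
    else Classical.choose (hlab i (m i) le_rfl)
  have hlab' : ∀ i n, m i ≤ n → (c', u * q * cone (a n)) ∈ D i (lab i n) := by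
    intro i n hn
    simp only [lab, hn, dif_pos]
    exact Classical.choose_spec (hlab i n hn)
  have hlc : ∀ i n, LC (fun x : X J => m i ≤ n ∧ x ∈ (a n).box) := fun i n =>
    (LC.box (a n)).map fun p => m i ≤ n ∧ p
  have hcs : ∀ i n, CS (fun x : X J => m i ≤ n ∧ x ∈ (a n).box) := fun i n =>
    (CS.box (a n)).map fun p => m i ≤ n ∧ p
  refine ⟨c', hc', q, fun i x => lab i (Nat.find (hex i x)), fun i => ?_, fun i => ?_, ?_⟩
  · exact (LC.find (hlc i) (hex i)).map (lab i)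
  · exact (CS.find (hcs i) (hex i)).map (lab i)
  · intro i r b hb
    refine mem_of_cones (hD i b) (hR i b) fun x => ?_
    obtain ⟨h3, h4⟩ := Nat.find_spec (hex i (r.H x))
    refine ⟨a (Nat.find (hex i (r.H x))), h4, ?_⟩
    rw [← hb x]
    exact hlab' i _ h3

end Pool.Agent.H652R2
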