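import Mathlib
import Pool.Agent.H652R2.Names

/-!
# Translating captured sets into meager sums
-/

namespace Pool.Agent.H652R2

set_option linter.unusedSectionVars false
set_option linter.unusedVariables false

universe u v

/-- codes: the answer to `(k, a, b)` is an interval meeting `(a, b)` -/
abbrev TC := ℕ × ℚ × ℚ → ℚ × ℚ

def TC.Ok (T : TC) : Prop := ∀ k a b, a < b → max a (T (k, a, b)).1 < min b (T (k, a, b)).2

/-- the refined interval -/
def ref (T : TC) (k : ℕ) (p : ℚ × ℚ) : ℚ × ℚ :=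
  (max p.1 (T (k, p.1, p.2)).1, min p.2 (T (k, p.1, p.2)).2)

/-- the closed nowhere dense set of the code -/
def Fc (T : TC) (k : ℕ) : Set ℝ :=
  {v | ∀ a b : ℚ, a < b → ¬ (((T (k, a, b)).1 : ℝ) < v ∧ v < ((T (k, a, b)).2 : ℝ))}

theorem ref_ok {T : TC} (hT : T.Ok) (k : ℕ) {p : ℚ × ℚ} (hp : p.1 < p.2) :
    p.1 ≤ (ref T k p).1 ∧ (ref T k p).1 < (ref T k p).2 ∧ (ref T k p).2 ≤ p.2 :=
  ⟨le_max_left _ _, hT k _ _ hp, min_le_left _ _⟩

theorem ref_avoid {T : TC} {k : ℕ} {p : ℚ × ℚ} (hp : p.1 < p.2) {v : ℝ} (hv : v ∈ Fc T k) :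
    ¬ (((ref T k p).1 : ℝ) < v ∧ v < ((ref T k p).2 : ℝ)) := by
  rintro ⟨h1, h2⟩
  refine hv p.1 p.2 hp ⟨lt_of_le_of_lt ?_ h1, lt_of_lt_of_le h2 ?_⟩
  · exact_mod_cast le_max_right _ _
  · exact_mod_cast min_le_right _ _

/-- iterated refinement -/
def it (T : TC) : ℕ → ℚ × ℚ → ℚ × ℚ
  | 0, p => ref T 0 p
  | n + 1, p => ref T (n + 1) (it T n p)

theorem it_ok {T : TC} (hT : T.Ok) {p : ℚ × ℚ} (hp : p.1 < p.2) : ∀ n,
    p.1 ≤ (it T n p).1 ∧ (it T n p).1 < (it T n p).2 ∧ (it T n p).2 ≤ p.2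
  | 0 => ref_ok hT 0 hp
  | n + 1 => by
    obtain ⟨h1, h2, h3⟩ := it_ok hT hp n
    obtain ⟨h4, h5, h6⟩ := ref_ok hT (n + 1) h2
    exact ⟨h1.trans h4, h5, h6.trans h3⟩

theorem it_avoid {T : TC} (hT : T.Ok) {p : ℚ × ℚ} (hp : p.1 < p.2) {k : ℕ} {v : ℝ}
    (hv : v ∈ Fc T k) : ∀ n, k ≤ n → ¬ (((it T n p).1 : ℝ) < v ∧ v < ((it T n p).2 : ℝ))
  | 0, h => by
    obtain rfl : k = 0 := by omega
    exact ref_avoid hp hv
  | n + 1, h => by
    rcases Nat.lt_or_ge n k with h1 | h1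
    · obtain rfl : k = n + 1 := by omega
      exact ref_avoid (it_ok hT hp n).2.1 hv
    · rintro ⟨h2, h3⟩
      obtain ⟨h4, _, h6⟩ := ref_ok hT (n + 1) (it_ok hT hp n).2.1
      refine it_avoid hT hp hv n h1 ⟨lt_of_le_of_lt ?_ h2, lt_of_lt_of_le h3 ?_⟩
      · exact_mod_cast h4
      · exact_mod_cast h6

/-- the grid interval -/
def cell (δ : ℚ) (g : ℤ) : ℚ × ℚ := (g * (δ / 2), (g + 1) * (δ / 2))

theorem cell_lt {δ : ℚ} (hδ : 0 < δ) (g : ℤ) : (cell δ g).1 < (cell δ g).2 := by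
  simp only [cell]; nlinarith

/-- the number of relevant grid intervals -/
def bnd (n : ℕ) (δ : ℚ) : ℤ := ⌈((n : ℚ) + 2) / (δ / 2)⌉

def wd (T : TC) (n : ℕ) (δ : ℚ) (g : ℤ) : ℚ :=
  ((it T n (cell δ g)).2 - (it T n (cell δ g)).1) / 3

/-- the new length -/
noncomputable def dl (T : TC) (n : ℕ) (δ : ℚ) : ℚ :=
  (Finset.Icc (-bnd n δ) (bnd n δ)).fold min (min 1 (δ / 2)) (wd T n δ)

theorem wd_pos {T : TC} (hT : T.Ok) (n : ℕ) {δ : ℚ} (hδ : 0 < δ) (g : ℤ) : 0 < wd T n δ g := by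
  have := (it_ok hT (cell_lt hδ g) n).2.1
  unfold wd; linarith

theorem dl_pos {T : TC} (hT : T.Ok) (n : ℕ) {δ : ℚ} (hδ : 0 < δ) : 0 < dl T n δ := by
  unfold dl
  rw [Finset.lt_fold_min]
  exact ⟨lt_min one_pos (by linarith), fun g _ => wd_pos hT n hδ g⟩

theorem dl_le_one (T : TC) (n : ℕ) (δ : ℚ) : dl T n δ ≤ 1 := by
  unfold dl
  rw [Finset.fold_min_le]
  exact Or.inl (min_le_left _ _)

theorem dl_le_half (T : TC) (n : ℕ) (δ : ℚ) : dl T n δ ≤ δ / 2 := by
  unfold dl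
  rw [Finset.fold_min_le]
  exact Or.inl (min_le_right _ _)

theorem dl_le_wd (T : TC) (n : ℕ) (δ : ℚ) {g : ℤ} (hg : g ∈ Finset.Icc (-bnd n δ) (bnd n δ)) :
    dl T n δ ≤ wd T n δ g := by
  unfold dl
  rw [Finset.fold_min_le]
  exact Or.inr ⟨g, hg, le_rfl⟩

/-- the choice of the new interval -/
noncomputable def sel (T : TC) (n : ℕ) (δ : ℚ) (p : ℚ × ℚ) (u : ℚ) : ℚ × ℚ :=
  let g : ℤ := ⌈(p.1 - u) / (δ / 2)⌉
  if g ∈ Finset.Icc (-bnd n δ) (bnd n δ) then
    ((it T n (cell δ g)).1 + wd T n δ g + u, (it T n (cell δ g)).2 - wd T n δ g + u)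
  else ((cell δ g).1 + u, (cell δ g).2 + u)

theorem sel_spec {T : TC} (hT : T.Ok) (n : ℕ) {δ : ℚ} (hδ : 0 < δ) {p : ℚ × ℚ}
    (hp : δ ≤ p.2 - p.1) (u : ℚ) :
    p.1 ≤ (sel T n δ p u).1 ∧ (sel T n δ p u).2 ≤ p.2 ∧
    dl T n δ ≤ (sel T n δ p u).2 - (sel T n δ p u).1 ∧
    ∀ v : ℝ, ((sel T n δ p u).1 : ℝ) < v → v < ((sel T n δ p u).2 : ℝ) → ∀ k ≤ n,
      ∀ f ∈ Fc T k, |f| ≤ (n : ℝ) → ((dl T n δ : ℚ) : ℝ) ≤ |v - (u + f)| := by
  have hμ : 0 < δ / 2 := by linarith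
  have hceil := Int.le_ceil ((p.1 - u) / (δ / 2))
  have hceil' := Int.ceil_lt_add_one ((p.1 - u) / (δ / 2))
  obtain ⟨g, hg⟩ : ∃ g : ℤ, g = ⌈(p.1 - u) / (δ / 2)⌉ := ⟨_, rfl⟩
  have hs : sel T n δ p u = if g ∈ Finset.Icc (-bnd n δ) (bnd n δ) then
    ((it T n (cell δ g)).1 + wd T n δ g + u, (it T n (cell δ g)).2 - wd T n δ g + u)
    else ((cell δ g).1 + u, (cell δ g).2 + u) := by
    subst hg; rfl
  rw [← hg] at hceil hceil'
  have h1 : p.1 - u ≤ g * (δ / 2) := by rwa [div_le_iff₀ hμ] at hceil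
  have h2 : (g : ℚ) * (δ / 2) < p.1 - u + δ / 2 := by
    have : ((g : ℚ) - 1) < (p.1 - u) / (δ / 2) := by linarith
    rw [lt_div_iff₀ hμ] at this
    linarith
  have hc1 : (cell δ g).1 = g * (δ / 2) := rfl
  have hc2 : (cell δ g).2 = (g + 1) * (δ / 2) := rfl
  have hc1' : p.1 ≤ (cell δ g).1 + u := by rw [hc1]; linarith
  have hc2' : (cell δ g).2 + u ≤ p.2 := by rw [hc2]; linarith
  by_cases hin : g ∈ Finset.Icc (-bnd n δ) (bnd n δ)
  · rw [hs, if_pos hin]
    obtain ⟨h3, h4, h5⟩ := it_ok hT (cell_lt hδ g) n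
    have hw := dl_le_wd T n δ hin
    have hwp := wd_pos hT n hδ g
    have hwe : wd T n δ g * 3 = (it T n (cell δ g)).2 - (it T n (cell δ g)).1 := by
      unfold wd; ring
    refine ⟨by dsimp only; linarith, by dsimp only; linarith, by dsimp only; linarith, ?_⟩
    intro v hv1 hv2 k hk f hf hfn
    dsimp only at hv1 hv2
    push_cast at hv1 hv2
    have hav := it_avoid hT (cell_lt hδ g) hf n hk
    have hw' : ((dl T n δ : ℚ) : ℝ) ≤ ((wd T n δ g : ℚ) : ℝ) := by exact_mod_cast hw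
    by_cases h6 : ((it T n (cell δ g)).1 : ℝ) < f
    · have h7 : ((it T n (cell δ g)).2 : ℝ) ≤ f := by
        by_contra h8; exact hav ⟨h6, not_le.1 h8⟩
      rw [abs_sub_comm]
      refine le_trans ?_ (le_abs_self _)
      linarith
    · refine le_trans ?_ (le_abs_self _)
      push Not at h6
      linarith
  · rw [hs, if_neg hin]
    have h3 : (cell δ g).2 - (cell δ g).1 = δ / 2 := by rw [hc1, hc2]; ring
    refine ⟨hc1', hc2', ?_, ?_⟩
    · have := dl_le_half T n δ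
      dsimp only; linarith
    · intro v hv1 hv2 k hk f hf hfn
      dsimp only at hv1 hv2
      push_cast at hv1 hv2
      have h1' : ((dl T n δ : ℚ) : ℝ) ≤ 1 := by exact_mod_cast dl_le_one T n δ
      have hB : ((n : ℚ) + 2) ≤ bnd n δ * (δ / 2) := by
        have := Int.le_ceil (((n : ℚ) + 2) / (δ / 2))
        rwa [div_le_iff₀ hμ] at this
      have habs := abs_le.1 hfn
      rw [Finset.mem_Icc, not_and_or, not_le, not_le] at hin
      rcases hin with hin | hin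
      · have h4 : (g + 1 : ℚ) ≤ -bnd n δ := by exact_mod_cast (show g + 1 ≤ -bnd n δ by omega)
        have h5 : (cell δ g).2 ≤ -((n : ℚ) + 2) := by rw [hc2]; nlinarith
        have h5' : ((cell δ g).2 : ℝ) ≤ -((n : ℝ) + 2) := by exact_mod_cast h5
        rw [abs_sub_comm]
        refine le_trans ?_ (le_abs_self _)
        linarith
      · have h4 : (bnd n δ : ℚ) + 1 ≤ g := by exact_mod_cast (show bnd n δ + 1 ≤ g by omega)
        have h5 : ((n : ℚ) + 2) ≤ (cell δ g).1 := by rw [hc1]; nlinarith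
        have h5' : ((n : ℝ) + 2) ≤ ((cell δ g).1 : ℝ) := by exact_mod_cast h5
        refine le_trans ?_ (le_abs_self _)
        linarith

/-- the sequence of lengths -/
noncomputable def ds (T : TC) : ℕ → ℚ
  | 0 => 1
  | n + 1 => dl T n (ds T n)

theorem ds_pos {T : TC} (hT : T.Ok) : ∀ n, 0 < ds T n
  | 0 => one_pos
  | n + 1 => dl_pos hT n (ds_pos hT n)

theorem ds_succ_le (T : TC) (n : ℕ) : ds T (n + 1) ≤ ds T n / 2 := dl_le_half T n _

theorem ds_le (T : TC) : ∀ n, ds T n ≤ (1 / 2) ^ n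
  | 0 => by simp [ds]
  | n + 1 => by
    have := ds_le T n
    have := ds_succ_le T n
    rw [pow_succ]; linarith

theorem ds_anti {T : TC} (hT : T.Ok) {m n : ℕ} (h : m ≤ n) : ds T n ≤ ds T m := by
  induction h with
  | refl => exact le_rfl
  | @step n _ ih =>
    have := ds_succ_le T n
    have := ds_pos hT n
    have h2 : ds T (n + 1) ≤ ds T n := by linarith
    exact h2.trans ih

/-- the allowed radii -/
noncomputable def eps (T : TC) (n : ℕ) : ℚ := ds T (n + 1) / 2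

theorem eps_pos {T : TC} (hT : T.Ok) (n : ℕ) : 0 < eps T n := by
  have := ds_pos hT (n + 1)
  unfold eps; linarith

theorem eps_anti {T : TC} (hT : T.Ok) {m n : ℕ} (h : m ≤ n) : eps T n ≤ eps T m := by
  have := ds_anti hT (show m + 1 ≤ n + 1 by omega)
  unfold eps; linarith

theorem eps_le (T : TC) (n : ℕ) : eps T n ≤ (1 / 2) ^ n := by
  have h1 := ds_le T (n + 1)
  have h2 : (0 : ℚ) < (1 / 2) ^ n := by positivity
  rw [pow_succ] at h1
  unfold eps; linarith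

/-- capturing data: blocks of intervals given by centre and radius -/
abbrev Cap := ℕ → List (ℚ × ℚ)

def off (cap : Cap) (b : ℕ) : ℕ := ∑ i ∈ Finset.range b, (cap i).length

def Small (T : TC) (cap : Cap) : Prop :=
  ∀ b t, t < (cap b).length → ((cap b).getD t (0, 0)).2 ≤ eps T (off cap b + t)

/-- the real number `e` is in some interval of almost all blocks -/
def Cpt (cap : Cap) (e : ℝ) : Prop :=
  ∃ B, ∀ b, B ≤ b → ∃ I ∈ cap b, |e - (I.1 : ℝ)| ≤ (I.2 : ℝ)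

theorem le_off {cap : Cap} (h : ∀ b, cap b ≠ []) : ∀ b, b ≤ off cap b
  | 0 => Nat.zero_le _
  | b + 1 => by
    have h1 := le_off h b
    have h2 : 0 < (cap b).length := List.length_pos_of_ne_nil (h b)
    unfold off at *
    rw [Finset.sum_range_succ]; omega

/-- processing a block -/
noncomputable def blk (T : TC) : ℕ → List (ℚ × ℚ) → ℚ × ℚ → ℚ × ℚ
  | _, [], p => p
  | n, I :: l, p => blk T (n + 1) l (sel T n (ds T n) p I.1)

theorem blk_spec {T : TC} (hT : T.Ok) : ∀ (l : List (ℚ × ℚ)) (n : ℕ) (p : ℚ × ℚ),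
    ds T n ≤ p.2 - p.1 → (∀ t, t < l.length → (l.getD t (0, 0)).2 ≤ eps T (n + t)) →
    p.1 ≤ (blk T n l p).1 ∧ (blk T n l p).2 ≤ p.2 ∧ (blk T n l p).1 < (blk T n l p).2 ∧
    ∀ v : ℝ, ((blk T n l p).1 : ℝ) < v → v < ((blk T n l p).2 : ℝ) → ∀ I ∈ l, ∀ e : ℝ,
      |e - (I.1 : ℝ)| ≤ (I.2 : ℝ) → ∀ k ≤ n, ∀ f ∈ Fc T k, |f| ≤ (n : ℝ) → v ≠ e + f
  | [], n, p, hp, _ => by
    have := ds_pos hT n
    refine ⟨le_rfl, le_rfl, by simp only [blk]; linarith, fun v _ _ I hI => ?_⟩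
    exact absurd hI (List.not_mem_nil)
  | I :: l, n, p, hp, hl => by
    obtain ⟨h1, h2, h3, h4⟩ := sel_spec hT n (ds_pos hT n) hp I.1
    obtain ⟨h5, h6, h7, h8⟩ := blk_spec hT l (n + 1) (sel T n (ds T n) p I.1) h3 (by
      intro t ht
      have := hl (t + 1) (by simp; omega)
      simpa [show n + (t + 1) = n + 1 + t by omega] using this)
    refine ⟨h1.trans h5, h6.trans h2, h7, ?_⟩
    intro v hv1 hv2 I' hI' e he k hk f hf hfn
    simp only [blk] at hv1 hv2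
    rcases List.mem_cons.1 hI' with rfl | hI'
    · have h9 : ((sel T n (ds T n) p I'.1).1 : ℝ) < v := lt_of_le_of_lt (by exact_mod_cast h5) hv1
      have h10 : v < ((sel T n (ds T n) p I'.1).2 : ℝ) :=
        lt_of_lt_of_le hv2 (by exact_mod_cast h6)
      have h11 := h4 v h9 h10 k hk f hf hfn
      intro hve
      have h12 : (I'.2 : ℝ) ≤ ((eps T n : ℚ) : ℝ) := by
        have := hl 0 (by simp)
        have h13 : I'.2 ≤ eps T n := by simpa using this
        exact_mod_cast h13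
      have h14 : ((eps T n : ℚ) : ℝ) * 2 = ((dl T n (ds T n) : ℚ) : ℝ) := by
        have : eps T n * 2 = dl T n (ds T n) := by unfold eps; simp [ds]
        exact_mod_cast this
      have h15 : (0 : ℝ) < ((eps T n : ℚ) : ℝ) := by exact_mod_cast eps_pos hT n
      have h16 : |v - ((I'.1 : ℝ) + f)| = |e - (I'.1 : ℝ)| := by
        rw [hve]; congr 1; ring
      rw [h16] at h11
      linarith
    · refine h8 v hv1 hv2 I' hI' e he k (by omega) f hf ?_
      push_cast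
      linarith

open Classical in
/-- the new code -/
noncomputable def newT (T : TC) (cap : Cap) : TC := fun kab =>
  if h : ∃ b0, kab.1 ≤ b0 ∧ ds T (off cap b0) ≤ kab.2.2 - kab.2.1 then
    blk T (off cap (Nat.find h)) (cap (Nat.find h)) kab.2
  else kab.2

theorem newT_ex {T : TC} {cap : Cap} (hcap : ∀ b, cap b ≠ []) (k : ℕ) {a b : ℚ} (hab : a < b) :
    ∃ b0, k ≤ b0 ∧ ds T (off cap b0) ≤ b - a := by
  obtain ⟨n, hn⟩ := exists_pow_lt_of_lt_one (show (0 : ℚ) < b - a by linarith)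
    (show (1 / 2 : ℚ) < 1 by norm_num)
  refine ⟨max k n, le_max_left _ _, ?_⟩
  have h1 := ds_le T (off cap (max k n))
  have h2 : (1 / 2 : ℚ) ^ (off cap (max k n)) ≤ (1 / 2) ^ n :=
    pow_le_pow_of_le_one (by norm_num) (by norm_num)
      ((le_max_right k n).trans (le_off hcap _))
  linarith

theorem newT_spec {T : TC} (hT : T.Ok) {cap : Cap} (hcap : ∀ b, cap b ≠ []) (hs : Small T cap)
    (k : ℕ) {a b : ℚ} (hab : a < b) :
    a ≤ (newT T cap (k, a, b)).1 ∧ (newT T cap (k, a, b)).2 ≤ b ∧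
      (newT T cap (k, a, b)).1 < (newT T cap (k, a, b)).2 ∧
    ∀ e : ℝ, (∀ b, k ≤ b → ∃ I ∈ cap b, |e - (I.1 : ℝ)| ≤ (I.2 : ℝ)) → ∀ k0 ≤ k,
      ∀ f ∈ Fc T k0, |f| ≤ (k : ℝ) →
      ¬ (((newT T cap (k, a, b)).1 : ℝ) < e + f ∧ e + f < ((newT T cap (k, a, b)).2 : ℝ)) := by
  classical
  have hex := newT_ex (T := T) hcap k hab
  have hdef : newT T cap (k, a, b) = blk T (off cap (Nat.find hex)) (cap (Nat.find hex)) (a, b) := by
    simp only [newT, hex, dif_pos]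
  obtain ⟨h1, h2⟩ := Nat.find_spec hex
  set b0 := Nat.find hex
  obtain ⟨h3, h4, h5, h6⟩ := blk_spec hT (cap b0) (off cap b0) (a, b) h2 (hs b0)
  rw [hdef]
  refine ⟨h3, h4, h5, ?_⟩
  rintro e he k0 hk0 f hf hfk ⟨h7, h8⟩
  obtain ⟨I, hI, hI'⟩ := he b0 h1
  have h9 : b0 ≤ off cap b0 := le_off hcap b0
  have h10 : (k : ℝ) ≤ (off cap b0 : ℝ) := by exact_mod_cast h1.trans h9
  exact h6 (e + f) h7 h8 I hI e hI' k0 (hk0.trans (h1.trans h9)) f hf (hfk.trans h10) rfl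

theorem newT_ok {T : TC} (hT : T.Ok) {cap : Cap} (hcap : ∀ b, cap b ≠ []) (hs : Small T cap) :
    (newT T cap).Ok := fun k a b hab => by
  obtain ⟨h1, h2, h3, _⟩ := newT_spec hT hcap hs k hab
  exact max_lt (lt_min hab (by linarith)) (lt_min (by linarith) h3)

/-- sums of captured points and points of the meager set are in the new meager set -/
theorem newT_avoid {T : TC} (hT : T.Ok) {cap : Cap} (hcap : ∀ b, cap b ≠ []) (hs : Small T cap)
    {e f : ℝ} (he : Cpt cap e) {k0 : ℕ} (hf : f ∈ Fc T k0) : ∃ k, ∀ a b : ℚ, a < b →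
      ¬ (((newT T cap (k, a, b)).1 : ℝ) < e + f ∧ e + f < ((newT T cap (k, a, b)).2 : ℝ)) := by
  obtain ⟨B, hB⟩ := he
  obtain ⟨m, hm⟩ := exists_nat_ge |f|
  let k := max B (max k0 m)
  refine ⟨k, fun a b hab => ?_⟩
  refine (newT_spec hT hcap hs k hab).2.2.2 e (fun b hb => hB b ((le_max_left _ _).trans hb)) k0
    ((le_max_left _ _).trans (le_max_right _ _)) f hf (hm.trans ?_)
  exact_mod_cast (le_max_right _ _).trans (le_max_right B (max k0 m))

/-! ### Local constancy -/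

section LC
variable {J : Type u} {T : X J → TC} (hT : ∀ i, LC fun x => T x i)
include hT

theorem lc_ref (k : ℕ) (p : ℚ × ℚ) : LC fun x => ref (T x) k p :=
  (hT (k, p.1, p.2)).map fun t => (max p.1 t.1, min p.2 t.2)

theorem lc_it (p : ℚ × ℚ) : ∀ n, LC fun x => it (T x) n p
  | 0 => lc_ref hT 0 p
  | n + 1 => (lc_it p n).bind (g := fun q x => ref (T x) (n + 1) q) fun q => lc_ref hT (n + 1) q

theorem lc_wd (n : ℕ) (δ : ℚ) (g : ℤ) : LC fun x => wd (T x) n δ g :=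
  (lc_it hT (cell δ g) n).map fun q => (q.2 - q.1) / 3

theorem lc_dl (n : ℕ) (δ : ℚ) : LC fun x => dl (T x) n δ := by
  classical
  unfold dl
  induction Finset.Icc (-bnd n δ) (bnd n δ) using Finset.induction_on with
  | empty => simp only [Finset.fold_empty]; exact LC.const _
  | insert g s hg ih =>
    simp only [Finset.fold_insert hg]
    exact ((lc_wd hT n δ g).prod ih).map fun p => min p.1 p.2

theorem lc_ds : ∀ n, LC fun x => ds (T x) n
  | 0 => LC.const _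
  | n + 1 => (lc_ds n).bind (g := fun δ x => dl (T x) n δ) fun δ => lc_dl hT n δ

theorem lc_eps (n : ℕ) : LC fun x => eps (T x) n := (lc_ds hT (n + 1)).map fun d => d / 2

theorem lc_sel (n : ℕ) (p : ℚ × ℚ) (u : ℚ) : LC fun x => sel (T x) n (ds (T x) n) p u := by
  refine (lc_ds hT n).bind (g := fun δ x => sel (T x) n δ p u) fun δ => ?_
  unfold sel
  dsimp only
  split_ifs with h
  · refine ((lc_it hT (cell δ ⌈(p.1 - u) / (δ / 2)⌉) n).prod
      (lc_wd hT n δ ⌈(p.1 - u) / (δ / 2)⌉)).map fun q => (q.1.1 + q.2 + u, q.1.2 - q.2 + u)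
  · exact LC.const _

theorem lc_blk : ∀ (l : List (ℚ × ℚ)) (n : ℕ) (p : ℚ × ℚ), LC fun x => blk (T x) n l p
  | [], n, p => LC.const _
  | I :: l, n, p => (lc_sel hT n p I.1).bind (g := fun q x => blk (T x) (n + 1) l q) fun q =>
    lc_blk l (n + 1) q

omit hT in
theorem lc_off {cap : X J → Cap} (hc : ∀ b, LC fun x => cap x b) : ∀ b, LC fun x => off (cap x) b
  | 0 => by
    have : (fun x => off (cap x) 0) = fun _ => 0 := by funext x; simp [off]
    rw [this]; exact LC.const _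
  | b + 1 => by
    have : (fun x => off (cap x) (b + 1)) = fun x => off (cap x) b + (cap x b).length := by
      funext x; simp [off, Finset.sum_range_succ]
    rw [this]
    exact ((lc_off hc b).prod (hc b)).map fun p => p.1 + p.2.length

theorem lc_newT {cap : X J → Cap} (hc : ∀ b, LC fun x => cap x b) (hcap : ∀ x b, cap x b ≠ [])
    (hok : ∀ x, (T x).Ok) (kab : ℕ × ℚ × ℚ) : LC fun x => newT (T x) (cap x) kab := by
  classical
  obtain ⟨k, a, b⟩ := kab
  by_cases hab : a < b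
  · have hex : ∀ x, ∃ b0, k ≤ b0 ∧ ds (T x) (off (cap x) b0) ≤ b - a := fun x =>
      newT_ex (hcap x) k hab
    have heq : (fun x => newT (T x) (cap x) (k, a, b)) = fun x =>
        blk (T x) (off (cap x) (Nat.find (hex x))) (cap x (Nat.find (hex x))) (a, b) := by
      funext x
      have := hex x
      simp only [newT, this, dif_pos]
    rw [heq]
    have h1 : ∀ n, LC fun x => k ≤ n ∧ ds (T x) (off (cap x) n) ≤ b - a := fun n =>
      ((lc_off hc n).bind (g := fun m x => ds (T x) m) fun m => lc_ds hT m).map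
        fun d => k ≤ n ∧ d ≤ b - a
    refine (LC.find h1 hex).bind
      (g := fun b0 x => blk (T x) (off (cap x) b0) (cap x b0) (a, b)) fun b0 => ?_
    refine ((lc_off hc b0).prod (hc b0)).bind
      (g := fun q x => blk (T x) q.1 q.2 (a, b)) fun q => lc_blk hT q.2 q.1 (a, b)
  · have heq : (fun x => newT (T x) (cap x) (k, a, b)) = fun _ => (a, b) := by
      funext x
      have : ¬ ∃ b0, k ≤ b0 ∧ ds (T x) (off (cap x) b0) ≤ b - a := by
        rintro ⟨b0, _, h⟩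
        have := ds_pos (hok x) (off (cap x) b0)
        linarith
      simp only [newT, this, dif_neg, not_false_iff]
    rw [heq]
    exact LC.const _

end LC

end Pool.Agent.H652R2
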