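import Mathlib
import Pool.Agent.H652R2.Real
import Pool.Agent.H652R2.Defs

/-!
# Reading real numbers; points which are not captured
-/

namespace Pool.Agent.H652R2

open Pool.Agent.Helper669.Forcing Pool.Agent.H652R2.Defs

set_option linter.unusedSectionVars false
set_option linter.unusedVariables false

universe u v w

/-- fast Cauchy sequences -/
def IsR (e : ℕ → ℚ) : Prop := ∀ m n, m ≤ n → |e m - e n| ≤ (1 / 2) ^ m

theorem exists_val {e : ℕ → ℚ} (h : IsR e) : ∃ v : ℝ, ∀ n, |v - (e n : ℝ)| ≤ (1 / 2) ^ n := by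
  have hc : CauchySeq (fun n => (e n : ℝ)) := by
    refine cauchySeq_of_le_geometric (1 / 2) 1 (by norm_num) fun n => ?_
    rw [Real.dist_eq, one_mul]
    have := (Rat.cast_le (K := ℝ)).2 (h n (n + 1) (Nat.le_succ n))
    push_cast at this
    exact this
  obtain ⟨v, hv⟩ := cauchySeq_tendsto_of_complete hc
  refine ⟨v, fun n => ?_⟩
  have h1 : Filter.Tendsto (fun m => |(e m : ℝ) - (e n : ℝ)|) Filter.atTop
      (nhds |v - (e n : ℝ)|) := (hv.sub_const _).abs
  refine le_of_tendsto h1 (Filter.eventually_atTop.2 ⟨n, fun m hm => ?_⟩)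
  rw [abs_sub_comm]
  have := (Rat.cast_le (K := ℝ)).2 (h n m hm)
  push_cast at this
  exact this

open Classical in
/-- the real number named by a fast Cauchy sequence -/
noncomputable def val (e : ℕ → ℚ) : ℝ := if h : IsR e then Classical.choose (exists_val h) else 0

theorem val_spec {e : ℕ → ℚ} (h : IsR e) (n : ℕ) : |val e - (e n : ℝ)| ≤ (1 / 2) ^ n := by
  simp only [val, h, dif_pos]
  exact Classical.choose_spec (exists_val h) n

theorem val_congr {e e' : ℕ → ℚ} (h : e = e') : val e = val e' := by rw [h]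

/-- an interval containing the value is seen from an approximation -/
theorem exists_approx {e : ℕ → ℚ} (h : IsR e) {a b : ℚ} (h1 : (a : ℝ) < val e)
    (h2 : val e < (b : ℝ)) : ∃ n, a + (1 / 2) ^ n < e n ∧ e n + (1 / 2) ^ n < b := by
  have hpos : 0 < min (val e - a) (b - val e) / 2 := by
    have := lt_min (sub_pos.2 h1) (sub_pos.2 h2)
    linarith
  obtain ⟨n, hn⟩ := exists_pow_lt_of_lt_one hpos (show (1 / 2 : ℝ) < 1 by norm_num)
  have h3 := min_le_left (val e - a) (b - val e)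
  have h4 := min_le_right (val e - a) (b - val e)
  have h5 := abs_le.1 (val_spec h n)
  refine ⟨n, ?_, ?_⟩
  · have : ((a + (1 / 2) ^ n : ℚ) : ℝ) < ((e n : ℚ) : ℝ) := by push_cast; linarith
    exact_mod_cast this
  · have : ((e n + (1 / 2) ^ n : ℚ) : ℝ) < ((b : ℚ) : ℝ) := by push_cast; linarith
    exact_mod_cast this

variable {J : Type u} [LinearOrder J] [WellFoundedLT J] {K : Type v} [Preorder K]

/-- the name `R` is read by the functions `e` -/
def Reads {A : Type w} (c : K) (u : Cond J) (R : ℕ → A → Set (K × Cond J)) (e : ℕ → X J → A) :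
    Prop := ∀ n r a, (∀ x, e n (r.H x) = a) → (c, u * r) ∈ meets (R n a)

theorem Reads.unique {A : Type w} {c : K} {u : Cond J} {R : ℕ → A → Set (K × Cond J)}
    {e : ℕ → X J → A} (h : Reads c u R e) {c' : K} (hc : c' ≤ c) {r : Cond J}
    (hR : (c', u * r) ∈ IsFun R) {n : ℕ} (he : LC (e n)) {a : A}
    (hm : (c', u * r) ∈ meets (R n a)) (x : X J) : e n (r.H x) = a := by
  obtain ⟨F, N, h1⟩ := exists_tupOf (he.comp r.H_cont) x
  have h2 : (c, u * (r * cone (tupOf F N x))) ∈ meets (R n (e n (r.H x))) :=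
    h n _ _ fun y => by rw [Cond.mul_H]; exact h1 y
  have hle : ((c', u * (r * cone (tupOf F N x))) : K × Cond J) ≤ (c', u * r) :=
    ⟨le_rfl, by rw [← mul_assoc]; exact Cond.mul_le _ _⟩
  have h3 := down_meets _ _ h2 (c', u * (r * cone (tupOf F N x))) ⟨hc, le_rfl⟩
  have h4 := down_meets _ _ hm _ hle
  exact IsFun.unique (down_IsFun _ _ hR _ hle) h3 h4

theorem Reads.mono {A : Type w} {c : K} {u : Cond J} {R : ℕ → A → Set (K × Cond J)}
    {e : ℕ → X J → A} (h : Reads c u R e) {c' : K} (hc : c' ≤ c) (w : Cond J) :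
    Reads c' (u * w) R (fun n x => e n (w.H x)) := by
  intro n r a ha
  have := h n (w * r) a fun x => by rw [Cond.mul_H]; exact ha x
  rw [mul_assoc]
  exact down_meets _ _ this _ ⟨hc, le_rfl⟩

theorem Reads.isR {c : K} {u : Cond J} {R : ℕ → ℚ → Set (K × Cond J)} {e : ℕ → X J → ℚ}
    (h : Reads c u R e) (hR : (c, u) ∈ IsReal R) (he : ∀ n, LC (e n)) (x : X J) :
    IsR fun n => e n x := by
  intro m n hmn
  obtain ⟨F, N, h1⟩ := exists_tupOf ((he m).prod (he n)) x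
  have hm : (c, u * cone (tupOf F N x)) ∈ meets (R m (e m x)) :=
    h m _ _ fun y => congrArg Prod.fst (h1 y)
  have hn : (c, u * cone (tupOf F N x)) ∈ meets (R n (e n x)) :=
    h n _ _ fun y => congrArg Prod.snd (h1 y)
  have h2 := hR.2 m n hmn (e m x) (e n x)
  exact ground_of_fimp (down_fimp _ _ _ h2 (c, u * cone (tupOf F N x)) ⟨le_rfl, Cond.mul_le _ _⟩)
    ⟨hm, hn⟩

theorem down_IsReal {P : Type u} [Preorder P] (x : ℕ → ℚ → Set P) : Down (IsReal x) :=
  down_fand (down_IsFun _) (down_fall fun _ => down_fall fun _ => down_fall fun _ =>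
    down_fall fun _ => down_fall fun _ => down_fimp _ _)

theorem down_InIoo {P : Type u} [Preorder P] (x : ℕ → ℚ → Set P) (a b : ℚ) :
    Down (InIoo x a b) := down_fex _

theorem not_rgl {P : Type u} [Preorder P] {S : Set P} (h : Rgl S) {p : P} (hp : p ∉ S) :
    ∃ q ≤ p, ∀ r ≤ q, r ∉ S := by
  by_contra hc
  push Not at hc
  exact hp (h p hc)

/-- the labels used to read the data below -/
abbrev Lab := ℚ × (ℚ × ℚ) × ℕ × (ℚ × ℚ) × (ℚ × ℚ)

theorem stepR (hK : SC K) {c0 : K} {p0 : Cond J} {Y Z : Type}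
    {E : Y → ℕ → ℚ → Set (K × Cond J)} {M : Z → ℕ → ℚ → Set (K × Cond J)}
    {T : ℕ → ℚ × ℚ → Set (K × Cond J)} (Tf : ℕ × ℚ × ℚ → X J → ℚ × ℚ)
    (hTlc : ∀ i, LC (Tf i)) (hTok : ∀ x, TC.Ok fun i => Tf i x)
    (hTD : ∀ k a b r I, a < b → (∀ x, Tf (k, a, b) (r.H x) = I) → (c0, p0 * r) ∈ meets (T k I))
    (hE : ∀ y, (c0, p0) ∈ IsReal (E y)) (hM : ∀ z, (c0, p0) ∈ IsReal (M z))
    (hMT : ∀ z, (c0, p0) ∈ InMeager (M z) T)
    (hno : ∀ p ≤ (c0, p0), ∀ T', p ∉ fand (IsCode T')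
      (fall fun y => fall fun z => SumInMeager (E y) (M z) T'))
    {c' : K} (hc' : c' ≤ c0) (w : Cond J) (cap : X J → Cap) (hcl : ∀ b, LC fun x => cap x b)
    (hne : ∀ x b, cap x b ≠ []) (hsm : ∀ x, Small (fun i => Tf i (w.H x)) (cap x)) :
    ∃ c'' ≤ c', ∃ (r : Cond J) (y : Y) (e : ℕ → X J → ℚ), (∀ n, LC (e n)) ∧ (∀ n, CS (e n)) ∧
      Reads c'' (p0 * w * r) (E y) e ∧ (∀ x, IsR fun n => e n x) ∧
      ∀ x, ¬ Cpt (cap (r.H x)) (val fun n => e n x) := by
  classical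
  let nT : X J → TC := fun x => newT (fun i => Tf i (w.H x)) (cap x)
  have hok : ∀ x, TC.Ok fun i => Tf i (w.H x) := fun x => hTok _
  have hnlc : ∀ kab, LC fun x => nT x kab := fun kab =>
    lc_newT (T := fun x i => Tf i (w.H x)) (fun i => (hTlc i).comp w.H_cont) hcl hne hok kab
  have hnok : ∀ x, (nT x).Ok := fun x => newT_ok (hok x) (hne x) (hsm x)
  let T' : ℕ → ℚ × ℚ → Set (K × Cond J) := fun k I =>
    {p | ∃ a b : ℚ, a < b ∧ p ∈ nm (p0 * w) (fun x => nT x (k, a, b)) I}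
  have hcode : ((c', p0 * w) : K × Cond J) ∈ IsCode T' := by
    intro k a b hab
    refine mem_fex.2 ?_
    rintro ⟨c2, q⟩ ⟨_, r2, hr2⟩
    change q = p0 * w * r2 at hr2
    obtain ⟨F, N, h1⟩ := exists_tupOf ((hnlc (k, a, b)).comp r2.H_cont) x0
    refine ⟨(c2, q * cone (tupOf F N x0)), ⟨le_rfl, Cond.mul_le _ _⟩,
      nT (r2.H x0) (k, a, b), hnok _ k a b hab, meets_of_mem ⟨a, b, hab, r2 * cone (tupOf F N x0),
        by rw [hr2, mul_assoc (p0 * w)], fun x => by rw [Cond.mul_H]; exact h1 x⟩⟩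
  have hle0 : ((c', p0 * w) : K × Cond J) ≤ (c0, p0) := le_mk hc'
  have hex : ∃ y z, ((c', p0 * w) : K × Cond J) ∉ SumInMeager (E y) (M z) T' := by
    by_contra hc
    push Not at hc
    exact hno _ hle0 T' ⟨hcode, fun y z => hc y z⟩
  obtain ⟨y, z, hyz⟩ := hex
  obtain ⟨p, hp, hp'⟩ := not_rgl (rgl_fex _) hyz
  have hφ : ∀ k, p ∈ fex fun I : ℚ × ℚ => fand (meets (T' k I))
      (SumInIoo (E y) (M z) I.1 I.2) := by
    intro k
    apply rgl_fex
    intro q hq
    by_contra hc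
    push Not at hc
    exact hp' q hq (mem_fex_of_mem k (down_fnot _) hc)
  obtain ⟨p2, hp2, k0, hk0⟩ := mem_fex.1 (hMT z) p (hp.trans hle0)
  obtain ⟨c2, u2⟩ := p2
  obtain ⟨hc2, r2, hr2⟩ := hp2.trans hp
  change c2 ≤ c' at hc2
  change u2 = p0 * w * r2 at hr2
  let D : ℕ ⊕ ℕ ⊕ ℕ → Lab → Set (K × Cond J) := Sum.elim (fun n lab => meets (E y n lab.1))
    (Sum.elim (fun n lab => meets (M z n lab.1)) (fun k lab =>
      fand (fground (lab.2.1.1 < lab.2.1.2 ∧
        (lab.2.2.2.1.1 + 2 * (1 / 2) ^ lab.2.2.1 < lab.2.2.2.2.1 + lab.2.2.2.2.2 ∧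
          lab.2.2.2.2.1 + lab.2.2.2.2.2 + 2 * (1 / 2) ^ lab.2.2.1 < lab.2.2.2.1.2)))
      (fand (meets (nm (p0 * w) (fun x => nT x (k, lab.2.1.1, lab.2.1.2)) lab.2.2.2.1))
        (fand (meets (E y lab.2.2.1 lab.2.2.2.2.1)) (meets (M z lab.2.2.1 lab.2.2.2.2.2))))))
  have hDd : ∀ i a, Down (D i a) := by
    rintro (n | n | n) a
    · exact down_meets _
    · exact down_meets _
    · exact down_fand (down_fground _) (down_fand (down_meets _) (down_fand (down_meets _)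
        (down_meets _)))
  have hDr : ∀ i a, Rgl (D i a) := by
    rintro (n | n | n) a
    · exact rgl_meets _
    · exact rgl_meets _
    · exact rgl_fand (rgl_fground _) (rgl_fand (rgl_meets _) (rgl_fand (rgl_meets _)
        (rgl_meets _)))
  obtain ⟨c3, hc3, q3, f, hf1, hf2, hf3⟩ := read hK (A := fun _ => Lab) D hDd hDr c2 (p0 * w * r2) (by
    have hbase : ((c2, p0 * w * r2) : K × Cond J) ≤ (c0, p0) := by
      rw [← hr2]; exact (hp2.trans hp).trans hle0
    rintro (n | n | n) q hq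
    · obtain ⟨q', hq', a, ha⟩ := IsFun.total (down_IsReal _ _ (hE y) q (hq.trans hbase)).1 n
      exact ⟨q', hq', (a, (0, 0), 0, (0, 0), (0, 0)), ha⟩
    · obtain ⟨q', hq', a, ha⟩ := IsFun.total (down_IsReal _ _ (hM z) q (hq.trans hbase)).1 n
      exact ⟨q', hq', (a, (0, 0), 0, (0, 0), (0, 0)), ha⟩
    · have h1 : q ≤ p := by
        refine hq.trans ?_
        rw [← hr2]; exact hp2
      obtain ⟨q1, hq1, I, h2, h3⟩ := mem_fex.1 (hφ n) q h1
      obtain ⟨q2, hq2, N, h4⟩ := mem_fex.1 h3 q1 le_rfl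
      obtain ⟨q3, hq3, cc, h5⟩ := mem_fex.1 h4 q2 le_rfl
      obtain ⟨q4, hq4, dd, h6, h7, h8⟩ := mem_fex.1 h5 q3 le_rfl
      obtain ⟨q5, hq5, s, ⟨a, b, hab, hs⟩, hq5s⟩ := h2 q4 (hq4.trans (hq3.trans hq2))
      refine ⟨q5, hq5.trans (hq4.trans (hq3.trans (hq2.trans hq1))),
        (0, (a, b), N, I, (cc, dd)), ⟨hab, h6⟩, ?_, down_meets _ _ h7 _ hq5,
        down_meets _ _ h8 _ hq5⟩
      exact down_meets _ _ (meets_of_mem hs) _ hq5s)
  -- localisation of a label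
  have hloc : ∀ i x, ∃ (F : Finset J) (N : ℕ), (c3, p0 * w * r2 * q3 * cone (tupOf F N x)) ∈
      D i (f i x) := by
    intro i x
    obtain ⟨F, N, h1⟩ := exists_tupOf (hf1 i) x
    exact ⟨F, N, hf3 i _ _ h1⟩
  let e : ℕ → X J → ℚ := fun n x => (f (Sum.inl n) x).1
  let m : ℕ → X J → ℚ := fun n x => (f (Sum.inr (Sum.inl n)) x).1
  have he : ∀ n, LC (e n) := fun n => (hf1 _).map fun l => l.1
  have hm : ∀ n, LC (m n) := fun n => (hf1 _).map fun l => l.1
  have hmix : ∀ (i : ℕ ⊕ ℕ ⊕ ℕ) (R : ℚ → Set (K × Cond J)), (∀ lab, D i lab = meets (R lab.1)) →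
      ∀ r a, (∀ x, (f i (r.H x)).1 = a) → (c3, p0 * w * r2 * q3 * r) ∈ meets (R a) := by
    intro i R hR r a ha
    refine mem_of_cones (down_meets _) (rgl_meets _) fun x => ?_
    obtain ⟨F, N, h1⟩ := hloc i (r.H x)
    refine ⟨tupOf F N (r.H x), tupOf_mem _ _ _, ?_⟩
    rw [hR, ha x] at h1
    exact h1
  have hRe : Reads c3 (p0 * w * r2 * q3) (E y) e := fun n r a ha =>
    hmix (Sum.inl n) (E y n) (fun _ => rfl) r a ha
  have hRm : Reads c3 (p0 * w * r2 * q3) (M z) m := fun n r a ha =>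
    hmix (Sum.inr (Sum.inl n)) (M z n) (fun _ => rfl) r a ha
  have hbase : ((c3, p0 * w * r2 * q3) : K × Cond J) ≤ (c0, p0) :=
    ⟨hc3.trans (hc2.trans hc'), w * (r2 * q3), by simp only [mul_assoc]⟩
  have hEr := down_IsReal _ _ (hE y) _ hbase
  have hMr := down_IsReal _ _ (hM z) _ hbase
  have heR := hRe.isR hEr he
  have hmR := hRm.isR hMr hm
  refine ⟨c3, hc3.trans hc2, r2 * q3, y, e, he, fun n => (hf2 _).map fun l => l.1, ?_, heR, ?_⟩
  · rw [← mul_assoc]; exact hRe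
  intro x hcpt
  set x' : X J := (r2 * q3).H x with hx'
  -- the value of `M z` is in the nowhere dense set
  have hmF : val (fun n => m n x) ∈ Fc (fun i => Tf i (w.H x')) k0 := by
    rintro a b hab ⟨h1, h2⟩
    obtain ⟨n, h3, h4⟩ := exists_approx (hmR x) h1 h2
    obtain ⟨F, N, h5⟩ := exists_tupOf (((hTlc (k0, a, b)).comp (w * (r2 * q3)).H_cont).prod (hm n)) x
    have h6 : (c3, p0 * w * r2 * q3 * cone (tupOf F N x)) ∈ meets (T k0 (Tf (k0, a, b) (w.H x'))) := by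
      have := hTD k0 a b (w * (r2 * q3) * cone (tupOf F N x)) (Tf (k0, a, b) (w.H x')) hab
        (fun y => by
          rw [Cond.mul_H]
          have := congrArg Prod.fst (h5 y)
          dsimp only at this
          rw [this, Cond.mul_H])
      refine down_meets _ _ this _ ⟨hc3.trans (hc2.trans hc'), ?_⟩
      simp only [mul_assoc]
      exact le_rfl
    have h7 : (c3, p0 * w * r2 * q3 * cone (tupOf F N x)) ∈ meets (M z n (m n x)) :=
      hRm n _ _ fun y => congrArg Prod.snd (h5 y)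
    refine hk0 (c3, p0 * w * r2 * q3 * cone (tupOf F N x)) ?_ ?_
    · refine ⟨hc3, ?_⟩
      show _ ≤ u2
      rw [hr2, mul_assoc (p0 * w * r2)]
      exact Cond.mul_le _ _
    · refine mem_fex_of_mem (Tf (k0, a, b) (w.H x')) (down_fand (down_meets _) (down_InIoo _ _ _))
        ⟨h6, ?_⟩
      refine mem_fex_of_mem n (down_fex _) (mem_fex_of_mem (m n x)
        (down_fand (down_fground _) (down_meets _)) ⟨⟨h3, h4⟩, h7⟩)
  obtain ⟨k, hk⟩ := newT_avoid (hok x') (hne x') (hsm x') hcpt hmF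
  obtain ⟨F, N, h1⟩ := hloc (Sum.inr (Sum.inr k)) x
  obtain ⟨⟨h2, h3, h3'⟩, h4, h5, h6⟩ := h1
  set lab := f (Sum.inr (Sum.inr k)) x with hlab
  -- the facts at `x`
  have h7 : ((c3, p0 * w * (r2 * q3 * cone (tupOf F N x))) : K × Cond J) ∈
      meets (nm (p0 * w) (fun x => nT x (k, lab.2.1.1, lab.2.1.2)) lab.2.2.2.1) := by
    simpa only [mul_assoc] using h4
  rw [mem_meets_nm (hnlc _)] at h7
  obtain ⟨x1, hx1⟩ : ∃ x1, (cone (tupOf F N x)).H x1 = x := ⟨strip (tupOf F N x).a x,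
    cone_strip _ (tupOf_mem _ _ _)⟩
  have h8 := h7 x1
  rw [Cond.mul_H, hx1, ← hx'] at h8
  have h9 : e lab.2.2.1 x = lab.2.2.2.2.1 := by
    have := hRe.unique (c' := c3) le_rfl (r := cone (tupOf F N x))
      (down_IsFun _ _ hEr.1 _ ⟨le_rfl, Cond.mul_le _ _⟩) (he _) h5 x1
    rwa [hx1] at this
  have h10 : m lab.2.2.1 x = lab.2.2.2.2.2 := by
    have := hRm.unique (c' := c3) le_rfl (r := cone (tupOf F N x))
      (down_IsFun _ _ hMr.1 _ ⟨le_rfl, Cond.mul_le _ _⟩) (hm _) h6 x1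
    rwa [hx1] at this
  have h11 := abs_le.1 (val_spec (heR x) lab.2.2.1)
  have h12 := abs_le.1 (val_spec (hmR x) lab.2.2.1)
  rw [h9] at h11
  rw [h10] at h12
  refine hk lab.2.1.1 lab.2.1.2 h2 ?_
  change nT x' (k, lab.2.1.1, lab.2.1.2) = lab.2.2.2.1 at h8
  have h8' : newT (fun i => Tf i (w.H x')) (cap x') (k, lab.2.1.1, lab.2.1.2) = lab.2.2.2.1 := h8
  rw [h8']
  have h3r := (Rat.cast_lt (K := ℝ)).2 h3
  have h3r' := (Rat.cast_lt (K := ℝ)).2 h3'
  push_cast at h3r h3r'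
  constructor
  · linarith
  · linarith

end Pool.Agent.H652R2
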