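import Mathlib
import Pool.Agent.H652R2.StepR

/-!
# Reflection
-/

namespace Pool.Agent.H652R2

open Cardinal Set

set_option linter.unusedSectionVars false
set_option linter.unusedVariables false

/-- long well-orders -/
structure Big (J : Type) [LinearOrder J] : Prop where
  bd : ∀ A : Set J, #A ≤ 2 ^ 𝔠 → ∃ b, ∀ a ∈ A, a < b
  small : ∀ b : J, #(Iio b) ≤ 2 ^ 𝔠
  unc : ∃ ξ : J, ¬ (Iio ξ).Countable

/-- the index set -/
abbrev JJ : Type := (Order.succ ((2 : Cardinal.{0}) ^ 𝔠)).ord.ToType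

theorem aleph0_le_two_c : ℵ₀ ≤ (2 : Cardinal.{0}) ^ 𝔠 :=
  aleph0_le_continuum.trans (cantor _).le

theorem big_JJ : Big JJ := by
  have hreg : Cardinal.IsRegular (Order.succ ((2 : Cardinal.{0}) ^ 𝔠)) :=
    isRegular_succ aleph0_le_two_c
  have hcof : Order.cof JJ = Order.succ ((2 : Cardinal.{0}) ^ 𝔠) := by
    have := hreg.cof_ord
    rwa [← Ordinal.cof_toType] at this
  have hbd : ∀ A : Set JJ, #A ≤ 2 ^ 𝔠 → ∃ b, ∀ a ∈ A, a < b := by
    intro A hA
    by_contra hc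
    push Not at hc
    have h1 : IsCofinal A := fun b => by
      obtain ⟨a, ha, hb⟩ := hc b
      exact ⟨a, ha, hb⟩
    have h2 := Order.cof_le h1
    rw [hcof] at h2
    exact absurd (h2.trans hA) (not_le.2 (Order.lt_succ _))
  refine ⟨hbd, fun b => ?_, ?_⟩
  · have h1 : #(Iio b) < #JJ := mk_Iio_lt b (by simp)
    rw [mk_toType, card_ord] at h1
    exact Order.lt_succ_iff.1 h1
  · have h1 : ℵ₁ ≤ #JJ := by
      rw [mk_toType, card_ord]
      refine le_trans ?_ (Order.le_succ _)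
      rw [← succ_aleph0]
      exact Order.succ_le_of_lt ((aleph0_le_continuum).trans_lt (cantor _))
    obtain ⟨A, hA⟩ := le_mk_iff_exists_set.1 h1
    obtain ⟨ξ, hξ⟩ := hbd A (by
      rw [hA, ← succ_aleph0]
      exact Order.succ_le_of_lt ((aleph0_le_continuum).trans_lt (cantor _)))
    refine ⟨ξ, fun hc => ?_⟩
    have h2 : A.Countable := hc.mono hξ
    have h3 := le_aleph0_iff_set_countable.2 h2
    rw [hA] at h3
    exact absurd h3 (not_le.2 aleph0_lt_aleph_one)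

/-- dependence on the coordinates in `S` -/
def DepOn {J : Type} {A : Type*} (f : X J → A) (S : Set J) : Prop :=
  ∀ x y, (∀ γ ∈ S, x γ = y γ) → f x = f y

theorem DepOn.mono {J : Type} {A : Type*} {f : X J → A} {S T : Set J} (h : DepOn f S)
    (hST : S ⊆ T) : DepOn f T := fun x y hxy => h x y fun γ hγ => hxy γ (hST hγ)

section

variable {J : Type} [LinearOrder J] [WellFoundedLT J]

open Classical in
/-- extend a function defined on the range of `s` -/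
noncomputable def ext (s : ℕ → J) (z : ℕ → ℕ → ℕ) : X J := fun γ =>
  if h : ∃ n, s n = γ then z (Nat.find h) else fun _ => 0

theorem ext_spec (s : ℕ → J) (x : X J) : ∀ γ ∈ range s, ext s (fun n => x (s n)) γ = x γ := by
  classical
  rintro _ ⟨n, rfl⟩
  have h : ∃ m, s m = s n := ⟨n, rfl⟩
  simp only [ext, h, dif_pos]
  rw [Nat.find_spec h]

theorem card_tasks {K : Type} (hK : #K ≤ 2 ^ 𝔠) {β : J} (hβ : #(Iio β) ≤ 2 ^ 𝔠) :
    #{t : K × Cond J × (X J → Cap) | ∃ s : ℕ → J, (∀ n, s n < β) ∧ SuppOn t.2.1 (range s) ∧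
      DepOn t.2.2 (range s)} ≤ 2 ^ 𝔠 := by
  classical
  set T : Set (K × Cond J × (X J → Cap)) := {t | ∃ s : ℕ → J, (∀ n, s n < β) ∧
    SuppOn t.2.1 (range s) ∧ DepOn t.2.2 (range s)} with hT
  have hch : ∀ t : T, ∃ s : ℕ → J, (∀ n, s n < β) ∧ SuppOn t.1.2.1 (range s) ∧
      DepOn t.1.2.2 (range s) := fun t => t.2
  choose s hs1 hs2 hs3 using hch
  let F : T → K × (ℕ → Iio β) × ((ℕ → ℕ → ℕ) → ℕ → List ℕ → List ℕ) × ((ℕ → ℕ → ℕ) → Cap) :=
    fun t => (t.1.1, fun n => ⟨s t n, hs1 t n⟩, fun z n l => t.1.2.1.t (s t n) (ext (s t) z) l,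
      fun z => t.1.2.2 (ext (s t) z))
  have hF : Function.Injective F := by
    intro t t' h
    have h1 : t.1.1 = t'.1.1 := by
      have := congrArg (fun p => p.1) h
      exact this
    have h2 : ∀ n, s t n = s t' n := fun n =>
      congrArg Subtype.val (congrFun (congrArg (fun p => p.2.1) h) n)
    have h2' : s t = s t' := funext h2
    have h3 : ∀ z n l, t.1.2.1.t (s t n) (ext (s t) z) l = t'.1.2.1.t (s t' n) (ext (s t') z) l :=
      fun z n l => congrFun (congrFun (congrFun (congrArg (fun p => p.2.2.1) h) z) n) l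
    have h4 : ∀ z, t.1.2.2 (ext (s t) z) = t'.1.2.2 (ext (s t') z) :=
      fun z => congrFun (congrArg (fun p => p.2.2.2) h) z
    have e1 : t.1.2.1 = t'.1.2.1 := by
      apply Cond.ext'
      intro γ x l
      by_cases hγ : γ ∈ range (s t)
      · obtain ⟨n, rfl⟩ := hγ
        have h5 := h3 (fun n => x (s t n)) n l
        rw [(hs2 t).2 _ _ _ _ (ext_spec (s t) x)] at h5
        rw [h5, ← h2', ]
        exact (hs2 t').2 _ _ _ _ (by rw [← h2']; exact ext_spec (s t) x)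
      · rw [(hs2 t).1 γ hγ, (hs2 t').1 γ (by rw [← h2']; exact hγ)]
    have e2 : t.1.2.2 = t'.1.2.2 := by
      funext x
      have h5 := h4 fun n => x (s t n)
      rw [hs3 t _ _ (ext_spec (s t) x)] at h5
      rw [h5, ← h2']
      exact hs3 t' _ _ (by rw [← h2']; exact ext_spec (s t) x)
    exact Subtype.ext (Prod.ext h1 (Prod.ext e1 e2))
  refine (mk_le_of_injective hF).trans ?_
  have hc : (2 : Cardinal.{0}) ^ 𝔠 * 2 ^ 𝔠 = 2 ^ 𝔠 := mul_eq_self aleph0_le_two_c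
  have hcc : 𝔠 ^ 𝔠 = 2 ^ 𝔠 := power_self_eq aleph0_le_continuum
  have hm : #(ℕ → ℕ → ℕ) = 𝔠 := by simp
  have e1 : #(ℕ → Iio β) ≤ 2 ^ 𝔠 := by
    rw [← power_def, mk_nat]
    refine (power_le_power_right hβ).trans ?_
    rw [← power_mul, continuum_mul_aleph0]
  have e2 : #((ℕ → ℕ → ℕ) → ℕ → List ℕ → List ℕ) ≤ 2 ^ 𝔠 := by
    rw [← power_def, hm, ← hcc]
    refine power_le_power_right ?_
    simp
  have e3 : #((ℕ → ℕ → ℕ) → Cap) ≤ 2 ^ 𝔠 := by
    rw [← power_def, hm, ← hcc]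
    refine power_le_power_right ?_
    have : #(ℕ → List (ℚ × ℚ)) ≤ 𝔠 := by simp
    exact this
  rw [mk_prod, mk_prod, mk_prod]
  simp only [Cardinal.lift_id]
  calc _ ≤ (2 : Cardinal.{0}) ^ 𝔠 * (2 ^ 𝔠 * (2 ^ 𝔠 * 2 ^ 𝔠)) :=
        mul_le_mul' hK (mul_le_mul' e1 (mul_le_mul' e2 e3))
    _ = 2 ^ 𝔠 := by rw [hc, hc, hc]

theorem reflect (hJ : Big J) {K : Type} (hK : #K ≤ 2 ^ 𝔠)
    (Q : K → Cond J → (X J → Cap) → Set J → Prop)
    (hQ : ∀ c w cap S, S.Countable → SuppOn w S → DepOn cap S →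
      ∃ S' : Set J, S'.Countable ∧ Q c w cap S')
    (S0 : Set J) (hS0 : S0.Countable) : ∃ α, S0 ⊆ Iio α ∧ ∀ c w cap S, S.Countable →
      S ⊆ Iio α → SuppOn w S → DepOn cap S → ∃ S' ⊆ Iio α, S'.Countable ∧ Q c w cap S' := by
  classical
  obtain ⟨j0, -⟩ := hJ.bd ∅ (by simp)
  let Tk : J → Set (K × Cond J × (X J → Cap)) := fun β => {t | ∃ s : ℕ → J, (∀ n, s n < β) ∧
    SuppOn t.2.1 (range s) ∧ DepOn t.2.2 (range s)}
  have hsol : ∀ t : K × Cond J × (X J → Cap), ∃ S' : Set J, S'.Countable ∧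
      ((∃ s : ℕ → J, SuppOn t.2.1 (range s) ∧ DepOn t.2.2 (range s)) → Q t.1 t.2.1 t.2.2 S') := by
    intro t
    by_cases h : ∃ s : ℕ → J, SuppOn t.2.1 (range s) ∧ DepOn t.2.2 (range s)
    · obtain ⟨s, h1, h2⟩ := h
      obtain ⟨S', h3, h4⟩ := hQ t.1 t.2.1 t.2.2 (range s) (countable_range s) h1 h2
      exact ⟨S', h3, fun _ => h4⟩
    · exact ⟨∅, countable_empty, fun h' => absurd h' h⟩
  choose F hF1 hF2 using hsol
  have hg : ∀ β : J, ∃ b, β < b ∧ ∀ t ∈ Tk β, ∀ γ ∈ F t, γ < b := by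
    intro β
    have h1 : #(⋃ t : Tk β, F t.1 : Set J) ≤ 2 ^ 𝔠 := by
      refine (mk_iUnion_le _).trans ?_
      refine (mul_le_mul' (card_tasks hK (hJ.small β)) (ciSup_le' fun t : Tk β =>
        (le_aleph0_iff_set_countable.2 (hF1 t.1)).trans aleph0_le_two_c)).trans ?_
      rw [mul_eq_self aleph0_le_two_c]
    obtain ⟨b1, hb1⟩ := hJ.bd _ h1
    obtain ⟨b2, hb2⟩ := hJ.bd {β} (by
      rw [mk_singleton]; exact one_le_aleph0.trans aleph0_le_two_c)
    refine ⟨max b1 b2, lt_of_lt_of_le (hb2 β rfl) (le_max_right _ _), fun t ht γ hγ => ?_⟩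
    exact lt_of_lt_of_le (hb1 γ (mem_iUnion.2 ⟨⟨t, ht⟩, hγ⟩)) (le_max_left _ _)
  choose g hg1 hg2 using hg
  -- the chain
  have hstep : ∀ (ξ : J) (rec : ∀ η, η < ξ → J), ∃ b, j0 < b ∧ (∀ γ ∈ S0, γ < b) ∧
      ∀ η (h : η < ξ), g (rec η h) < b := by
    intro ξ rec
    have h1 : #(Set.range fun η : Iio ξ => g (rec η.1 η.2)) ≤ 2 ^ 𝔠 :=
      mk_range_le.trans (hJ.small ξ)
    obtain ⟨b1, hb1⟩ := hJ.bd _ h1
    obtain ⟨b2, hb2⟩ := hJ.bd (insert j0 S0) ((le_aleph0_iff_set_countable.2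
      (hS0.insert j0)).trans aleph0_le_two_c)
    refine ⟨max b1 b2, lt_of_lt_of_le (hb2 j0 (mem_insert _ _)) (le_max_right _ _),
      fun γ hγ => lt_of_lt_of_le (hb2 γ (mem_insert_of_mem _ hγ)) (le_max_right _ _),
      fun η h => lt_of_lt_of_le (hb1 _ ⟨⟨η, h⟩, rfl⟩) (le_max_left _ _)⟩
  choose step hst1 hst2 hst3 using hstep
  let h : J → J := (wellFounded_lt (α := J)).fix step
  have hfix : ∀ ξ, h ξ = step ξ fun η _ => h η := fun ξ => WellFounded.fix_eq _ _ _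
  have hh1 : ∀ ξ, j0 < h ξ := fun ξ => by rw [hfix]; exact hst1 _ _
  have hh2 : ∀ ξ, ∀ γ ∈ S0, γ < h ξ := fun ξ => by rw [hfix]; exact hst2 _ _
  have hh3 : ∀ ξ η, η < ξ → g (h η) < h ξ := fun ξ η hη => by
    have := hst3 ξ (fun η _ => h η) η hη
    rwa [← hfix] at this
  -- the first element with uncountably many predecessors
  obtain ⟨ξ, hξ1, hξ2⟩ : ∃ ξ : J, ¬ (Iio ξ).Countable ∧ ∀ η < ξ, (Iio η).Countable := by
    have hne : ({ξ | ¬ (Iio ξ).Countable} : Set J).Nonempty := hJ.unc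
    have h1 := WellFounded.min_mem (wellFounded_lt (α := J)) _ hne
    refine ⟨(wellFounded_lt (α := J)).min _ hne, h1, fun η hη => ?_⟩
    by_contra hc
    exact WellFounded.not_lt_min (wellFounded_lt (α := J)) _
      (show η ∈ {ξ | ¬ (Iio ξ).Countable} from hc) hη
  obtain ⟨α, hα1, hα2⟩ : ∃ α : J, (∀ η < ξ, h η < α) ∧ ∀ γ < α, ∃ η < ξ, γ ≤ h η := by
    have hne : ({b | ∀ η < ξ, h η < b} : Set J).Nonempty := by
      obtain ⟨b, hb⟩ := hJ.bd (Set.range fun η : Iio ξ => h η.1) (mk_range_le.trans (hJ.small ξ))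
      exact ⟨b, fun η hη => hb _ ⟨⟨η, hη⟩, rfl⟩⟩
    have h1 := WellFounded.min_mem (wellFounded_lt (α := J)) _ hne
    refine ⟨(wellFounded_lt (α := J)).min _ hne, h1, fun γ hγ => ?_⟩
    by_contra hc
    push Not at hc
    exact WellFounded.not_lt_min (wellFounded_lt (α := J)) _
      (show γ ∈ {b | ∀ η < ξ, h η < b} from hc) hγ
  have hcof : ∀ S : Set J, S.Countable → S ⊆ Iio α → ∃ η < ξ, ∀ γ ∈ S, γ < h η := by
    intro S hS hSα
    have h1 : ∀ γ : S, ∃ η < ξ, γ.1 ≤ h η := fun γ => hα2 γ.1 (hSα γ.2)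
    choose η hη1 hη2 using h1
    have : Countable S := hS.to_subtype
    have h2 : (⋃ γ : S, Iic (η γ)).Countable := countable_iUnion fun γ => by
      rw [← Iio_insert]
      exact (hξ2 _ (hη1 γ)).insert _
    have h3 : ∃ δ < ξ, δ ∉ ⋃ γ : S, Iic (η γ) := by
      by_contra hc
      push Not at hc
      exact hξ1 (h2.mono hc)
    obtain ⟨δ, hδ1, hδ2⟩ := h3
    refine ⟨δ, hδ1, fun γ hγ => ?_⟩
    have h4 : η ⟨γ, hγ⟩ < δ := by
      by_contra hc
      exact hδ2 (mem_iUnion.2 ⟨⟨γ, hγ⟩, not_lt.1 hc⟩)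
    exact lt_of_le_of_lt (hη2 ⟨γ, hγ⟩) ((hg1 _).trans (hh3 _ _ h4))
  have hne : (Iio ξ).Nonempty := by
    by_contra hc
    rw [not_nonempty_iff_eq_empty] at hc
    rw [hc] at hξ1
    exact hξ1 countable_empty
  have hsucc : ∀ η < ξ, ∃ η' < ξ, η < η' := by
    intro η hη
    by_contra hc
    push Not at hc
    refine hξ1 (((hξ2 η hη).insert η).mono fun η' hη' => ?_)
    exact (hc η' hη').eq_or_lt.imp id id
  refine ⟨α, ?_, ?_⟩
  · obtain ⟨η, hη⟩ := hne
    exact fun γ hγ => (hh2 η γ hγ).trans (hα1 η hη)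
  · intro c w cap S hS hSα hw hcap
    obtain ⟨η, hη, h1⟩ := hcof S hS hSα
    obtain ⟨η', hη', h2⟩ := hsucc η hη
    have hins : (insert j0 S).Countable := hS.insert j0
    obtain ⟨s, hs⟩ := hins.exists_eq_range ⟨j0, mem_insert _ _⟩
    have hsub : S ⊆ range s := by rw [← hs]; exact subset_insert _ _
    have hw' := hw.mono hsub
    have hcap' := hcap.mono hsub
    have hmem : (c, w, cap) ∈ Tk (h η) := by
      refine ⟨s, fun n => ?_, hw', hcap'⟩
      have : s n ∈ insert j0 S := by rw [hs]; exact mem_range_self n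
      rcases this with h3 | h3
      · rw [h3]; exact hh1 η
      · exact h1 _ h3
    refine ⟨F (c, w, cap), fun γ hγ => ?_, hF1 _, hF2 (c, w, cap) ⟨s, hw', hcap'⟩⟩
    exact ((hg2 _ _ hmem γ hγ).trans (hh3 _ _ h2)).trans (hα1 η' hη')

end

end Pool.Agent.H652R2
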