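import Mathlib
import Pool.Agent.H652R2.Refl

/-!
# Combining blocks; the arithmetic of the main argument
-/

namespace Pool.Agent.H652R2

set_option linter.unusedSectionVars false
set_option linter.unusedVariables false

universe u

/-! ### combining blocks -/

/-- the concatenation of blocks for all `c' ≤ c` -/
def seg (S : ℕ → ℕ → List (ℚ × ℚ)) (len b : ℕ) : ℕ → List (ℚ × ℚ)
  | 0 => S 0 (len + b)
  | c + 1 => seg S len b c ++ S (c + 1) (len + (seg S len b c).length + b)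

def tot (S : ℕ → ℕ → List (ℚ × ℚ)) : ℕ → ℕ
  | 0 => 0
  | b + 1 => tot S b + (seg S (tot S b) b b).length

def comb (S : ℕ → ℕ → List (ℚ × ℚ)) : Cap := fun b => seg S (tot S b) b b

theorem off_comb (S : ℕ → ℕ → List (ℚ × ℚ)) : ∀ b, off (comb S) b = tot S b
  | 0 => by simp [off, tot]
  | b + 1 => by
    have := off_comb S b
    unfold off at *
    rw [Finset.sum_range_succ, this]
    rfl

theorem seg_small {S : ℕ → ℕ → List (ℚ × ℚ)} {T : TC} (hT : T.Ok)
    (h : ∀ c j, c ≤ j → ∀ t, t < (S c j).length → ((S c j).getD t (0, 0)).2 ≤ eps T (j + t))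
    (len b : ℕ) : ∀ c, c ≤ b → ∀ t, t < (seg S len b c).length →
      ((seg S len b c).getD t (0, 0)).2 ≤ eps T (len + t)
  | 0, hc, t, ht => (h 0 (len + b) (Nat.zero_le _) t ht).trans (eps_anti hT (by omega))
  | c + 1, hc, t, ht => by
    have ih := seg_small hT h len b c (by omega)
    simp only [seg] at ht ⊢
    by_cases h1 : t < (seg S len b c).length
    · rw [List.getD_append _ _ _ _ h1]
      exact ih t h1
    · rw [List.getD_append_right _ _ _ _ (by omega)]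
      rw [List.length_append] at ht
      refine (h (c + 1) _ (by omega) (t - (seg S len b c).length) (by omega)).trans
        (eps_anti hT (by omega))

theorem comb_small {S : ℕ → ℕ → List (ℚ × ℚ)} {T : TC} (hT : T.Ok)
    (h : ∀ c j, c ≤ j → ∀ t, t < (S c j).length → ((S c j).getD t (0, 0)).2 ≤ eps T (j + t)) :
    Small T (comb S) := fun b t ht => by
  rw [off_comb]
  exact seg_small hT h _ _ b le_rfl t ht

theorem seg_ne {S : ℕ → ℕ → List (ℚ × ℚ)} (h : ∀ j, S 0 j ≠ []) (len b : ℕ) :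
    ∀ c, seg S len b c ≠ []
  | 0 => h _
  | c + 1 => by
    have := seg_ne h len b c
    simp [seg, this]

theorem comb_ne {S : ℕ → ℕ → List (ℚ × ℚ)} (h : ∀ j, S 0 j ≠ []) (b : ℕ) : comb S b ≠ [] :=
  seg_ne h _ _ _

theorem seg_sub (S : ℕ → ℕ → List (ℚ × ℚ)) (len b c : ℕ) : ∀ c', c ≤ c' →
    ∃ j, b ≤ j ∧ ∀ I ∈ S c j, I ∈ seg S len b c'
  | 0, h => by
    obtain rfl : c = 0 := by omega
    exact ⟨len + b, by omega, fun I hI => hI⟩
  | c' + 1, h => by
    rcases Nat.lt_or_ge c (c' + 1) with h1 | h1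
    · obtain ⟨j, h2, h3⟩ := seg_sub S len b c c' (by omega)
      exact ⟨j, h2, fun I hI => List.mem_append_left _ (h3 I hI)⟩
    · obtain rfl : c = c' + 1 := by omega
      exact ⟨_, Nat.le_add_left b (len + (seg S len b c').length),
        fun I hI => List.mem_append_right _ hI⟩

theorem comb_cpt {S : ℕ → ℕ → List (ℚ × ℚ)} {e : ℝ} {c : ℕ}
    (h : ∃ j0, ∀ j, j0 ≤ j → ∃ I ∈ S c j, |e - (I.1 : ℝ)| ≤ (I.2 : ℝ)) : Cpt (comb S) e := by
  obtain ⟨j0, h⟩ := h
  refine ⟨max c j0, fun b hb => ?_⟩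
  obtain ⟨j, h2, h3⟩ := seg_sub S (tot S b) b c b ((le_max_left _ _).trans hb)
  obtain ⟨I, hI, hI'⟩ := h j (((le_max_right _ _).trans hb).trans h2)
  exact ⟨I, h3 I hI, hI'⟩

section LC
variable {J : Type u} {S : X J → ℕ → ℕ → List (ℚ × ℚ)} (hS : ∀ c j, LC fun x => S x c j)
include hS

theorem lc_seg (len b : ℕ) : ∀ c, LC fun x => seg (S x) len b c
  | 0 => hS _ _
  | c + 1 => (lc_seg len b c).bind (g := fun l x => l ++ S x (c + 1) (len + l.length + b))
      fun l => (hS _ _).map fun r => l ++ r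

theorem lc_tot : ∀ b, LC fun x => tot (S x) b
  | 0 => LC.const _
  | b + 1 => (lc_tot b).bind (g := fun m x => m + (seg (S x) m b b).length) fun m =>
      (lc_seg hS m b b).map fun l => m + l.length

theorem lc_comb (b : ℕ) : LC fun x => comb (S x) b :=
  (lc_tot hS b).bind (g := fun m x => seg (S x) m b b) fun m => lc_seg hS m b b

end LC

/-! ### lists of locally constant functions -/

section
variable {J : Type u}

theorem LC.rangeMap {A : Type*} {f : ℕ → X J → A} (hf : ∀ n, LC (f n)) :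
    ∀ m, LC fun x => (List.range m).map fun n => f n x
  | 0 => LC.const _
  | m + 1 => by
    have h := ((LC.rangeMap hf m).prod (hf m)).map fun p => p.1 ++ [p.2]
    have he : (fun x => (List.range (m + 1)).map fun n => f n x) =
        fun x => ((List.range m).map fun n => f n x) ++ [f m x] := by
      funext x
      rw [List.range_succ, List.map_append]
      rfl
    rw [he]; exact h

theorem LC.ballList {A : Type*} {p : A → X J → Prop} (hp : ∀ a, LC (p a)) :
    ∀ l : List A, LC fun x => ∀ a ∈ l, p a x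
  | [] => by
    have he : (fun x : X J => ∀ a ∈ ([] : List A), p a x) = fun _ => True := by
      funext x; simp
    rw [he]; exact LC.const _
  | b :: l => by
    have h := ((hp b).prod (LC.ballList hp l)).map fun q => q.1 ∧ q.2
    have he : (fun x : X J => ∀ a ∈ b :: l, p a x) = fun x => p b x ∧ ∀ a ∈ l, p a x := by
      funext x; simp
    rw [he]; exact h

end

/-! ### arithmetic -/

def Sg (z : ℕ → ℕ) (n : ℕ) : ℕ := ∑ i ∈ Finset.range (n + 1), (z i + 1)

def SgL (l : List ℕ) (n : ℕ) : ℕ := ∑ i ∈ Finset.range (n + 1), (l.getD i 0 + 1)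

theorem Sg_eq {l : List ℕ} {z : ℕ → ℕ} (h : Pf l z) {n : ℕ} (hn : n < l.length) :
    Sg z n = SgL l n := by
  unfold Sg SgL
  refine Finset.sum_congr rfl fun i hi => ?_
  rw [h.getD (by have := Finset.mem_range.1 hi; omega)]

theorem lc_Sg {J : Type u} (α : J) (n : ℕ) : LC fun x : X J => Sg (x α) n := by
  have h := (LC.pre (J := J) α (n + 1)).map fun l => SgL l n
  have he : (fun x : X J => Sg (x α) n) = fun x => SgL (pre (x α) (n + 1)) n := by
    funext x; exact Sg_eq (Pf_pre _ _) (by simp)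
  rw [he]; exact h

theorem le_Sg {z : ℕ → ℕ} {k n : ℕ} (h : k ≤ n) : n + 1 + z k ≤ Sg z n := by
  unfold Sg
  rw [Finset.sum_add_distrib]
  have h1 : z k ≤ ∑ i ∈ Finset.range (n + 1), z i :=
    Finset.single_le_sum (f := z) (fun _ _ => Nat.zero_le _) (Finset.mem_range.2 (by omega))
  simp
  omega

/-- the number of parts of the level `l` -/
def Nn (l : ℕ) : ℕ := (l + 1) ^ (l + 1)

theorem Nn_pos (l : ℕ) : 0 < Nn l := by unfold Nn; positivity

def Gp (j : ℕ) : ℕ := ∑ i ∈ Finset.range (j + 1), ∑ c ∈ Finset.range (i + 1), Nn (code (dec c ++ [i]))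

theorem Gp_mono {i j : ℕ} (h : i ≤ j) : Gp i ≤ Gp j :=
  Finset.sum_le_sum_of_subset (Finset.range_subset_range.2 (by omega))

theorem Nn_le_Gp {c j : ℕ} (h : c ≤ j) : Nn (code (dec c ++ [j])) ≤ Gp j := by
  unfold Gp
  refine le_trans ?_ (Finset.single_le_sum
    (f := fun i => ∑ c ∈ Finset.range (i + 1), Nn (code (dec c ++ [i])))
    (fun _ _ => Nat.zero_le _) (Finset.mem_range.2 (Nat.lt_succ_self j)))
  exact Finset.single_le_sum (f := fun c => Nn (code (dec c ++ [j])))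
    (fun _ _ => Nat.zero_le _) (Finset.mem_range.2 (by omega))

def Ff (k : ℕ) : ℕ := k * (1 + Gp k)

theorem le_Ff {c j m k t a0 : ℕ} (hc : c ≤ j) (hk : m + 1 + j ≤ k)
    (hm : m = a0 + t / Nn (code (dec c ++ [j]))) : j + t ≤ Ff k := by
  have h1 : t < (t / Nn (code (dec c ++ [j])) + 1) * Nn (code (dec c ++ [j])) := by
    exact Nat.lt_mul_of_div_lt (Nat.lt_succ_self _) (Nn_pos _)
  have h2 : (t / Nn (code (dec c ++ [j])) + 1) * Nn (code (dec c ++ [j])) ≤ (m + 1) * Gp j :=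
    Nat.mul_le_mul (by omega) (Nn_le_Gp hc)
  have h3 : (m + 1) * Gp j ≤ k * Gp k := Nat.mul_le_mul (by omega) (Gp_mono (by omega))
  unfold Ff
  rw [mul_add, mul_one]
  omega

/-- the parts of the level `l`, enumerated -/
noncomputable def fnm (l t : ℕ) : ℕ → ℕ :=
  if h : t < Nn l then extφ l (finFunctionFinEquiv.symm ⟨t, h⟩) else fun _ => 0

theorem exists_fnm (l : ℕ) (φ : Fin (l + 1) → Fin (l + 1)) :
    ∃ t < Nn l, fnm l t = extφ l φ := by
  refine ⟨(finFunctionFinEquiv φ).1, (finFunctionFinEquiv φ).2, ?_⟩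
  have h := (finFunctionFinEquiv φ).2
  have h' : (finFunctionFinEquiv φ).1 < Nn l := h
  simp only [fnm, h', dif_pos]
  congr 1
  exact finFunctionFinEquiv.symm_apply_apply φ

theorem fnm_eq {l t : ℕ} (h : t < Nn l) : ∃ φ : Fin (l + 1) → Fin (l + 1), fnm l t = extφ l φ :=
  ⟨finFunctionFinEquiv.symm ⟨t, h⟩, by simp only [fnm, h, dif_pos]⟩

/-- the bound for the positions -/
def Bz (δ : ℚ) : ℤ := ⌈1 / (δ * δ)⌉

/-- the position of `a` in the grid of width `δ`, cut off -/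
def zc (δ a : ℚ) : ℤ := max (-Bz δ) (min (Bz δ) ⌊a / δ⌋)

theorem zc_mem {δ : ℚ} (hδ : 0 < δ) (a : ℚ) : zc δ a ∈ Finset.Icc (-Bz δ) (Bz δ) := by
  have h : 0 ≤ Bz δ := by
    unfold Bz
    exact Int.ceil_nonneg (by positivity)
  rw [Finset.mem_Icc]
  unfold zc
  refine ⟨le_max_left _ _, max_le (by omega) (min_le_left _ _)⟩

/-- an index of an approximation -/
theorem exists_half {δ : ℚ} (h : 0 < δ) : ∃ N : ℕ, (1 / 2 : ℚ) ^ N ≤ δ := by
  obtain ⟨N, hN⟩ := exists_pow_lt_of_lt_one h (show (1 / 2 : ℚ) < 1 by norm_num)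
  exact ⟨N, hN.le⟩

open Classical in
noncomputable def Nof (δ : ℚ) : ℕ := if h : 0 < δ then Nat.find (exists_half h) else 0

theorem Nof_spec {δ : ℚ} (h : 0 < δ) : (1 / 2 : ℚ) ^ Nof δ ≤ δ := by
  classical
  simp only [Nof, h, dif_pos]
  exact Nat.find_spec (exists_half h)

/-- the interval given by `I` is avoided by the real number with approximations `e`,
`e 0 = e0`, `e (Nof (I.2 / 3)) = eN` -/
def gd (e : ℕ → ℚ) (I : ℚ × ℚ) : Prop :=
  0 < I.2 → |e 0| + 3 ≤ 3 / I.2 ∧ 2 * (I.2 / 3) < |e (Nof (I.2 / 3)) - I.1|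

theorem gd_of {e : ℕ → ℚ} (he : IsR e) {I : ℚ × ℚ} (h : (I.2 : ℝ) < |val e - (I.1 : ℝ)|)
    (h0 : 0 < I.2 → |e 0| + 3 ≤ 3 / I.2) : gd e I := by
  intro hI
  refine ⟨h0 hI, ?_⟩
  have h1 := val_spec he (Nof (I.2 / 3))
  have h2 := (Rat.cast_le (K := ℝ)).2 (Nof_spec (show 0 < I.2 / 3 by linarith))
  push_cast at h2
  have h3 : |val e - (I.1 : ℝ)| ≤ |val e - (e (Nof (I.2 / 3)) : ℝ)|
      + |(e (Nof (I.2 / 3)) : ℝ) - (I.1 : ℝ)| := abs_sub_le _ _ _
  have h4 : 2 * ((I.2 : ℝ) / 3) < |(e (Nof (I.2 / 3)) : ℝ) - (I.1 : ℝ)| := by linarith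
  have h5 : (((2 * (I.2 / 3) : ℚ)) : ℝ) < ((|e (Nof (I.2 / 3)) - I.1| : ℚ) : ℝ) := by
    push_cast; exact h4
  exact_mod_cast h5

/-- the final contradiction -/
theorem gd_false {e : ℕ → ℚ} (he : IsR e) {δ : ℚ} (hδ : 0 < δ) {z : ℤ} {a b : ℚ}
    (hg : gd e ((z + 1) * δ, 3 * δ)) (hz : zc δ a = z) (hab : b - a < δ)
    (h1 : (a : ℝ) < val e) (h2 : val e < (b : ℝ)) : False := by
  obtain ⟨h3, h4⟩ := hg (by dsimp only; linarith)
  dsimp only at h3 h4
  have e1 : 3 * δ / 3 = δ := by ring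
  have e2 : 3 / (3 * δ) = 1 / δ := by field_simp
  rw [e1] at h4
  rw [e2] at h3
  -- bounds on `val e`
  have h5 := abs_le.1 (val_spec he 0)
  have h6 := abs_le.1 (val_spec he (Nof δ))
  have h7 := (Rat.cast_le (K := ℝ)).2 (Nof_spec hδ)
  push_cast at h7
  have hδ1 : δ ≤ 1 / 3 := by
    rw [le_div_iff₀ hδ] at h3
    have := abs_nonneg (e 0)
    nlinarith
  -- in rationals: bounds for `a`
  have ha1 : a < |e 0| + 2 := by
    have h8 : (a : ℝ) < (|e 0| : ℝ) + 2 := by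
      have := le_abs_self (e 0 : ℝ)
      linarith [h5.2]
    exact_mod_cast h8
  have ha2 : -(|e 0| + 2) < a := by
    have h8 : -((|e 0| : ℝ) + 2) < (a : ℝ) := by
      have h9 := neg_abs_le (e 0 : ℝ)
      have h10 : (b : ℝ) - (a : ℝ) < (δ : ℝ) := by exact_mod_cast hab
      have h11 : (δ : ℝ) ≤ 1 / 3 := by
        have := (Rat.cast_le (K := ℝ)).2 hδ1
        push_cast at this; exact this
      linarith [h5.1]
    exact_mod_cast h8
  have hB : 1 / (δ * δ) ≤ Bz δ := Int.le_ceil _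
  have h8 : (|e 0| + 3) / δ ≤ 1 / (δ * δ) := by
    rw [← div_div]
    exact div_le_div_of_nonneg_right h3 hδ.le
  have h9 : a / δ ≤ (Bz δ : ℚ) := by
    refine le_trans ?_ (h8.trans hB)
    exact div_le_div_of_nonneg_right (by linarith) hδ.le
  have h10 : -(Bz δ : ℚ) ≤ a / δ - 1 := by
    have h11 : -((|e 0| + 3) / δ) ≤ a / δ - 1 := by
      rw [le_sub_iff_add_le, ← neg_div, le_div_iff₀ hδ, add_mul, div_mul_cancel₀ _ hδ.ne']
      linarith
    linarith
  have h11 : ⌊a / δ⌋ ≤ Bz δ := by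
    have := Int.floor_le (a / δ)
    exact_mod_cast this.trans h9
  have h12 : -Bz δ ≤ ⌊a / δ⌋ := by
    have := Int.sub_one_lt_floor (a / δ)
    have h13 : (-(Bz δ : ℤ) : ℚ) ≤ (⌊a / δ⌋ : ℚ) := by linarith
    exact_mod_cast h13
  have hz' : z = ⌊a / δ⌋ := by
    rw [← hz]; unfold zc
    rw [min_eq_right h11, max_eq_right h12]
  have h13 : (z : ℚ) * δ ≤ a := by
    have := Int.floor_le (a / δ)
    rw [← hz', le_div_iff₀ hδ] at this
    exact this
  have h14 : a < (z + 1) * δ := by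
    have := Int.lt_floor_add_one (a / δ)
    rw [← hz', div_lt_iff₀ hδ] at this
    exact this
  have h13' : (z : ℝ) * (δ : ℝ) ≤ (a : ℝ) := by exact_mod_cast h13
  have h14' : (a : ℝ) < ((z : ℝ) + 1) * (δ : ℝ) := by exact_mod_cast h14
  have h15 : (b : ℝ) - (a : ℝ) < (δ : ℝ) := by exact_mod_cast hab
  have h4' : 2 * (δ : ℝ) < |(e (Nof δ) : ℝ) - ((z : ℝ) + 1) * (δ : ℝ)| := by exact_mod_cast h4
  have h16 : |(e (Nof δ) : ℝ) - ((z : ℝ) + 1) * (δ : ℝ)| ≤ 2 * (δ : ℝ) := by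
    rw [abs_le]
    constructor
    · nlinarith [h6.1, h6.2]
    · nlinarith [h6.1, h6.2]
  linarith

end Pool.Agent.H652R2
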