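import Mathlib
import Pool.Agent.H652R2.Comb

/-!
# Lower parts, upper parts, pruning
-/

namespace Pool.Agent.H652R2

set_option linter.unusedSectionVars false
set_option linter.unusedVariables false

section

variable {J : Type} [LinearOrder J]

open Classical in
/-- the part of a condition below `α` -/
noncomputable def low (α : J) (p : Cond J) : Cond J where
  t β x s := if β < α then p.t β x s else s
  miller β x := by
    by_cases h : β < α
    · simp only [h, if_true]; exact p.miller β x
    · simp only [h, if_false]; exact isM_id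
  loc β x y s h := by rw [p.loc β x y s h]
  lc β s := by
    by_cases h : β < α
    · simp only [h, if_true]; exact p.lc β s
    · simp only [h, if_false]; exact LC.const _
  supp := ⟨p.S, p.S_countable, fun β hβ x s => by rw [p.t_of_notMem hβ]; simp,
    fun β x y s h => by rw [p.t_congr s h]⟩

open Classical in
/-- the part of a condition from `α` on -/
noncomputable def up (α : J) (p : Cond J) : Cond J where
  t β x s := if β < α then s else p.t β x s
  miller β x := by
    by_cases h : β < α
    · simp only [h, if_true]; exact isM_id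
    · simp only [h, if_false]; exact p.miller β x
  loc β x y s h := by rw [p.loc β x y s h]
  lc β s := by
    by_cases h : β < α
    · simp only [h, if_true]; exact LC.const _
    · simp only [h, if_false]; exact p.lc β s
  supp := ⟨p.S, p.S_countable, fun β hβ x s => by rw [p.t_of_notMem hβ]; simp,
    fun β x y s h => by rw [p.t_congr s h]⟩

theorem low_t_of_lt {α β : J} (h : β < α) (p : Cond J) (x : X J) (s : List ℕ) :
    (low α p).t β x s = p.t β x s := by simp [low, h]

theorem low_t_of_not {α β : J} (h : ¬ β < α) (p : Cond J) (x : X J) (s : List ℕ) :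
    (low α p).t β x s = s := by simp [low, h]

theorem up_t_of_lt {α β : J} (h : β < α) (p : Cond J) (x : X J) (s : List ℕ) :
    (up α p).t β x s = s := by simp [up, h]

theorem up_t_of_not {α β : J} (h : ¬ β < α) (p : Cond J) (x : X J) (s : List ℕ) :
    (up α p).t β x s = p.t β x s := by simp [up, h]

theorem low_H_of_lt {α β : J} (h : β < α) (p : Cond J) (x : X J) :
    (low α p).H x β = p.H x β := by
  have h1 : (low α p).t β x = p.t β x := funext fun s => low_t_of_lt h p x s
  show Br ((low α p).t β x) (x β) = _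
  rw [h1]; rfl

theorem low_H_of_not {α β : J} (h : ¬ β < α) (p : Cond J) (x : X J) :
    (low α p).H x β = x β := by
  have h1 : (low α p).t β x = fun s => s := funext fun s => low_t_of_not h p x s
  show Br ((low α p).t β x) (x β) = _
  rw [h1, Br_id]

theorem up_H_of_lt {α β : J} (h : β < α) (p : Cond J) (x : X J) :
    (up α p).H x β = x β := by
  have h1 : (up α p).t β x = fun s => s := funext fun s => up_t_of_lt h p x s
  show Br ((up α p).t β x) (x β) = _
  rw [h1, Br_id]

theorem low_mul_up (α : J) (p : Cond J) : low α p * up α p = p := by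
  ext1 β x s
  rw [Cond.mul_t]
  by_cases h : β < α
  · rw [up_t_of_lt h, low_t_of_lt h]
    exact p.loc _ _ _ _ fun γ hγ => up_H_of_lt (hγ.trans h) p x
  · rw [low_t_of_not h, up_t_of_not h]

theorem low_mul {α : J} {q r : Cond J} {S : Set J} (hr : SuppOn r S) (hS : S ⊆ Set.Iio α) :
    low α (q * r) = low α q * r := by
  ext1 β x s
  rw [Cond.mul_t]
  by_cases h : β < α
  · rw [low_t_of_lt h, low_t_of_lt h, Cond.mul_t]
  · rw [low_t_of_not h, low_t_of_not h, hr.1 β fun h' => h (hS h')]

/-- the lower part of `q * r` -/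
theorem mul_eq_low {α : J} {q r : Cond J} {S : Set J} (hr : SuppOn r S) (hS : S ⊆ Set.Iio α) :
    q * r = low α q * r * up α (q * r) := by
  rw [← low_mul hr hS, low_mul_up]

theorem low_supp (α : J) (p : Cond J) : SuppOn (low α p) (p.S ∩ Set.Iio α) := by
  refine ⟨fun β hβ x s => ?_, fun β x y s h => ?_⟩
  · by_cases h : β < α
    · rw [low_t_of_lt h]
      exact p.t_of_notMem (fun h' => hβ ⟨h', h⟩) x s
    · exact low_t_of_not h p x s
  · by_cases hβ : β < α
    · rw [low_t_of_lt hβ, low_t_of_lt hβ]
      exact p.t_congr_of (S := p.S) (fun β x y s h => p.t_congr s h) s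
        fun γ hγ hγβ => h γ ⟨hγ, hγβ.trans hβ⟩
    · rw [low_t_of_not hβ, low_t_of_not hβ]

/-! ### enumeration -/

open Classical in
/-- the enumeration of an unbounded set of numbers -/
noncomputable def gg (p : ℕ → Prop) (h : ∀ m, ∃ j, m ≤ j ∧ p j) : ℕ → ℕ
  | 0 => Nat.find (h 0)
  | n + 1 => Nat.find (h (gg p h n + 1))

theorem gg_spec (p : ℕ → Prop) (h : ∀ m, ∃ j, m ≤ j ∧ p j) : ∀ n, p (gg p h n)
  | 0 => by
    classical
    exact (Nat.find_spec (h 0)).2
  | n + 1 => by
    classical
    exact (Nat.find_spec (h (gg p h n + 1))).2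

theorem gg_strictMono (p : ℕ → Prop) (h : ∀ m, ∃ j, m ≤ j ∧ p j) : StrictMono (gg p h) := by
  classical
  exact strictMono_nat_of_lt_succ fun n => (Nat.find_spec (h (gg p h n + 1))).1

theorem gg_congr {p p' : ℕ → Prop} (hp : p = p') (h : ∀ m, ∃ j, m ≤ j ∧ p j)
    (h' : ∀ m, ∃ j, m ≤ j ∧ p' j) : gg p h = gg p' h' := by
  subst hp; rfl

theorem lc_gg {p : X J → ℕ → Prop} (hp : ∀ j, LC fun x => p x j)
    (h : ∀ x m, ∃ j, m ≤ j ∧ p x j) : ∀ n, LC fun x => gg (p x) (h x) n
  | 0 => by
    classical
    exact LC.find (p := fun j x => 0 ≤ j ∧ p x j) (fun j => (hp j).map fun q => 0 ≤ j ∧ q)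
      fun x => h x 0
  | n + 1 => by
    classical
    exact (lc_gg hp h n).bind (g := fun m x => Nat.find (h x (m + 1))) fun m =>
      LC.find (p := fun j x => m + 1 ≤ j ∧ p x j) (fun j => (hp j).map fun q => m + 1 ≤ j ∧ q)
      fun x => h x (m + 1)

/-! ### pruning -/

/-- the pruned node -/
def prn (g : ℕ → ℕ → ℕ) (s : List ℕ) : List ℕ :=
  s.foldl (fun acc j => acc ++ [g (code acc) j]) []

@[simp] theorem prn_nil (g : ℕ → ℕ → ℕ) : prn g [] = [] := rfl

theorem prn_append (g : ℕ → ℕ → ℕ) (s : List ℕ) (j : ℕ) :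
    prn g (s ++ [j]) = prn g s ++ [g (code (prn g s)) j] := by
  simp [prn, List.foldl_append]

@[simp] theorem length_prn (g : ℕ → ℕ → ℕ) (s : List ℕ) : (prn g s).length = s.length := by
  induction s using List.reverseRecOn with
  | nil => rfl
  | append_singleton s j ih => rw [prn_append]; simp [ih]

theorem isM_prn {g : ℕ → ℕ → ℕ} (hg : ∀ c, StrictMono (g c)) : IsM (prn g) := fun s =>
  ⟨g (code (prn g s)), hg _, fun j => by rw [prn_append]⟩

theorem pre_Br_prn {g : ℕ → ℕ → ℕ} (hg : ∀ c, StrictMono (g c)) (z : ℕ → ℕ) (n : ℕ) :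
    pre (Br (prn g) z) n = prn g (pre z n) := by
  have h := (isM_prn hg).Pf_Br z n
  unfold Pf at h
  rwa [length_prn, length_pre] at h

theorem Br_prn {g : ℕ → ℕ → ℕ} (hg : ∀ c, StrictMono (g c)) (z : ℕ → ℕ) (n : ℕ) :
    Br (prn g) z n = g (code (pre (Br (prn g) z) n)) (z n) := by
  have h1 := pre_Br_prn hg z (n + 1)
  rw [pre_succ, pre_succ, prn_append, ← pre_Br_prn hg z n] at h1
  have h2 := List.append_cancel_left h1
  simpa using h2

theorem lc_prn {g : X J → ℕ → ℕ → ℕ} (hg : ∀ c j, LC fun x => g x c j) (s : List ℕ) :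
    LC fun x => prn (g x) s := by
  induction s using List.reverseRecOn with
  | nil => exact LC.const _
  | append_singleton s j ih =>
    have he : (fun x => prn (g x) (s ++ [j])) = fun x => prn (g x) s ++ [g x (code (prn (g x) s)) j] := by
      funext x; exact prn_append _ _ _
    rw [he]
    exact ih.bind (g := fun l x => l ++ [g x (code l) j]) fun l =>
      (hg (code l) j).map fun m => l ++ [m]

open Classical in
/-- pruning at the coordinate `α` -/
noncomputable def prune (α : J) (g : X J → ℕ → ℕ → ℕ) (h1 : ∀ x c, StrictMono (g x c))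
    (h2 : ∀ c j, LC fun x => g x c j) (S : Set J) (hS : S.Countable) (h3 : DepOn g S)
    (hSα : S ⊆ Set.Iio α) : Cond J where
  t β x s := if β = α then prn (g x) s else s
  miller β x := by
    by_cases h : β = α
    · simp only [h, if_true]; exact isM_prn (h1 x)
    · simp only [h, if_false]; exact isM_id
  loc β x y s h := by
    by_cases hβ : β = α
    · simp only [hβ, if_true]
      rw [h3 x y fun γ hγ => h γ (by rw [hβ]; exact hSα hγ)]
    · simp only [hβ, if_false]
  lc β s := by
    by_cases h : β = α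
    · simp only [h, if_true]; exact lc_prn h2 s
    · simp only [h, if_false]; exact LC.const _
  supp := by
    refine ⟨insert α S, hS.insert α, fun β hβ x s => ?_, fun β x y s h => ?_⟩
    · have : β ≠ α := fun h => hβ (by rw [h]; exact Set.mem_insert _ _)
      simp [this]
    · rw [h3 x y fun γ hγ => h γ (Set.mem_insert_of_mem _ hγ)]

theorem prune_H_self {α : J} {g : X J → ℕ → ℕ → ℕ} {h1 : ∀ x c, StrictMono (g x c)}
    {h2 : ∀ c j, LC fun x => g x c j} {S : Set J} {hS : S.Countable} {h3 : DepOn g S}
    {hSα : S ⊆ Set.Iio α} (x : X J) :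
    (prune α g h1 h2 S hS h3 hSα).H x α = Br (prn (g x)) (x α) := by
  have : (prune α g h1 h2 S hS h3 hSα).t α x = prn (g x) := by
    funext s; simp [prune]
  show Br ((prune α g h1 h2 S hS h3 hSα).t α x) (x α) = _
  rw [this]

theorem prune_H_ne {α β : J} {g : X J → ℕ → ℕ → ℕ} {h1 : ∀ x c, StrictMono (g x c)}
    {h2 : ∀ c j, LC fun x => g x c j} {S : Set J} {hS : S.Countable} {h3 : DepOn g S}
    {hSα : S ⊆ Set.Iio α} (h : β ≠ α) (x : X J) :
    (prune α g h1 h2 S hS h3 hSα).H x β = x β := by
  have : (prune α g h1 h2 S hS h3 hSα).t β x = fun s => s := by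
    funext s; simp [prune, h]
  show Br ((prune α g h1 h2 S hS h3 hSα).t β x) (x β) = _
  rw [this, Br_id]

end

end Pool.Agent.H652R2
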