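import Mathlib
import Pool.Agent.H652R2.Names

/-!
# The maximal principle for names of relations
-/

namespace Pool.Agent.H652R2

open Pool.Agent.Helper669.Forcing

universe u v w

set_option linter.unusedVariables false

variable {P : Type u} [Preorder P]

/-- the two sentences are equivalent below `r` -/
def EqB (r : P) (φ ψ : Set P) : Prop := ∀ s ≤ r, (s ∈ φ ↔ s ∈ ψ)

theorem EqB.refl (r : P) (φ : Set P) : EqB r φ φ := fun _ _ => Iff.rfl

theorem EqB.symm {r : P} {φ ψ : Set P} (h : EqB r φ ψ) : EqB r ψ φ := fun s hs => (h s hs).symm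

theorem EqB.fnot {r : P} {φ ψ : Set P} (h : EqB r φ ψ) :
    EqB r (Pool.Agent.Helper669.Forcing.fnot φ) (Pool.Agent.Helper669.Forcing.fnot ψ) :=
  fun s hs => ⟨fun h1 q hq hc => h1 q hq ((h q (hq.trans hs)).2 hc),
    fun h1 q hq hc => h1 q hq ((h q (hq.trans hs)).1 hc)⟩

theorem EqB.fand {r : P} {φ ψ φ' ψ' : Set P} (h : EqB r φ φ') (h' : EqB r ψ ψ') :
    EqB r (Pool.Agent.Helper669.Forcing.fand φ ψ) (Pool.Agent.Helper669.Forcing.fand φ' ψ') :=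
  fun s hs => and_congr (h s hs) (h' s hs)

theorem EqB.fall {r : P} {ι : Sort v} {φ ψ : ι → Set P} (h : ∀ i, EqB r (φ i) (ψ i)) :
    EqB r (Pool.Agent.Helper669.Forcing.fall φ) (Pool.Agent.Helper669.Forcing.fall ψ) :=
  fun s hs => forall_congr' fun i => h i s hs

theorem EqB.fex {r : P} {ι : Sort v} {φ ψ : ι → Set P} (h : ∀ i, EqB r (φ i) (ψ i)) :
    EqB r (Pool.Agent.Helper669.Forcing.fex φ) (Pool.Agent.Helper669.Forcing.fex ψ) :=
  (EqB.fall fun i => (h i).fnot).fnot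

theorem EqB.fimp {r : P} {φ ψ φ' ψ' : Set P} (h : EqB r φ φ') (h' : EqB r ψ ψ') :
    EqB r (Pool.Agent.Helper669.Forcing.fimp φ ψ) (Pool.Agent.Helper669.Forcing.fimp φ' ψ') :=
  (h.fand h'.fnot).fnot

/-- the maximal principle -/
theorem mix {ι : Type v} {φ : (ι → Set P) → Set P} (hD : ∀ σ, Down (φ σ))
    (hR : ∀ σ, Rgl (φ σ))
    (hL : ∀ r σ σ', (∀ i, EqB r (meets (σ i)) (meets (σ' i))) → r ∈ φ σ → r ∈ φ σ')
    {p : P} (hp : p ∈ fex φ) : ∃ σ, p ∈ φ σ := by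
  classical
  let C : Set P := {r | r ≤ p ∧ ∃ σ, r ∈ φ σ}
  let AC : Set (Set P) := {A | A ⊆ C ∧ ∀ r ∈ A, ∀ r' ∈ A, (∃ s, s ≤ r ∧ s ≤ r') → r = r'}
  obtain ⟨A, hA⟩ := zorn_subset AC (by
    intro c hc hchain
    refine ⟨⋃₀ c, ⟨Set.sUnion_subset fun B hB => (hc hB).1, ?_⟩, fun B hB =>
      Set.subset_sUnion_of_mem hB⟩
    rintro r ⟨B, hB, hr⟩ r' ⟨B', hB', hr'⟩ hs
    rcases hchain.total hB hB' with h | h
    · exact (hc hB').2 r (h hr) r' hr' hs
    · exact (hc hB).2 r hr r' (h hr') hs)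
  obtain ⟨hA1, hA2⟩ := hA.prop
  have hpre : ∀ q ≤ p, ∃ r ∈ A, ∃ s, s ≤ q ∧ s ≤ r := by
    intro q hq
    by_contra hno
    push Not at hno
    obtain ⟨q', hq', σ, hσ⟩ := mem_fex.1 hp q hq
    have hq'A : q' ∉ A := fun h => hno q' h q' hq' le_rfl
    have hins : insert q' A ∈ AC := by
      refine ⟨Set.insert_subset ⟨hq'.trans hq, σ, hσ⟩ hA1, ?_⟩
      rintro r (rfl | hr) r' (rfl | hr') ⟨s, hs1, hs2⟩
      · rfl
      · exact absurd hs2 (hno r' hr' s (hs1.trans hq'))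
      · exact absurd hs1 (hno r hr s (hs2.trans hq'))
      · exact hA2 r hr r' hr' ⟨s, hs1, hs2⟩
    exact hq'A (hA.le_of_ge hins (Set.subset_insert q' A) (Set.mem_insert q' A))
  have hex : ∀ r : P, ∃ σ : ι → Set P, r ∈ A → r ∈ φ σ := by
    intro r
    by_cases hr : r ∈ A
    · obtain ⟨_, σ, hσ⟩ := hA1 hr
      exact ⟨σ, fun _ => hσ⟩
    · exact ⟨fun _ => ∅, fun h => absurd h hr⟩
  choose σ hσ using hex
  let τ : ι → Set P := fun i => {s | ∃ r ∈ A, s ≤ r ∧ s ∈ meets (σ r i)}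
  have key : ∀ r ∈ A, ∀ i, EqB r (meets (σ r i)) (meets (τ i)) := by
    intro r hr i s hs
    constructor
    · intro h
      exact meets_of_mem ⟨r, hr, hs, h⟩
    · intro h
      apply rgl_meets
      intro q hq
      obtain ⟨q', hq', t, ⟨r', hr', ht1, ht2⟩, hqt⟩ := h q hq
      have : r = r' := hA2 r hr r' hr' ⟨q', (hq'.trans hq).trans hs, hqt.trans ht1⟩
      subst this
      exact ⟨q', hq', down_meets _ t ht2 q' hqt⟩
  refine ⟨τ, hR τ p fun q hq => ?_⟩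
  obtain ⟨r, hr, s, hs1, hs2⟩ := hpre q hq
  refine ⟨s, hs1, hL s (σ r) τ (fun i t ht => key r hr i t (ht.trans hs2)) ?_⟩
  exact hD _ r (hσ r hr) s hs2

end Pool.Agent.H652R2
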