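import Mathlib
import Pool.Agent.H652R2.Low
import Pool.Agent.H652R2.Mix

/-!
# Deciding finitely many intervals up to finitely many possibilities
-/

namespace Pool.Agent.H652R2

open Pool.Agent.Helper669.Forcing Pool.Agent.H652R2.Defs

set_option linter.unusedSectionVars false
set_option linter.unusedVariables false

variable {J : Type} [LinearOrder J] [WellFoundedLT J] {K : Type} [Preorder K]

/-- the lengths of the intervals -/
noncomputable def en (T : ℕ × ℚ × ℚ → X J → ℚ × ℚ) (α : J) (n : ℕ) (x : X J) : ℚ :=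
  eps (fun i => T i x) (Ff (Sg (x α) n)) / 8

theorem lc_en {T : ℕ × ℚ × ℚ → X J → ℚ × ℚ} (hT : ∀ i, LC (T i)) (α : J) (n : ℕ) :
    LC (en T α n) :=
  (lc_Sg α n).bind (g := fun k x => eps (fun i => T i x) (Ff k) / 8) fun k =>
    (lc_eps (T := fun x i => T i x) hT (Ff k)).map fun d => d / 8

/-- the conditions deciding the grid positions of the first intervals to be `v` -/
def SS (p0 : Cond J) (ε : ℕ → X J → ℚ) (I : ℕ → ℚ × ℚ → Set (K × Cond J)) (v : List (ℚ × ℤ)) :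
    Set (K × Cond J) :=
  {p | ∀ n, n < v.length → (∀ x, ε n (p.2.H x) = (v.getD n (0, 0)).1) ∧
    ∀ a : ℚ × ℚ, (p.1, p0 * p.2) ∈ fimp (meets (I n a))
      (fground (zc (v.getD n (0, 0)).1 a.1 = (v.getD n (0, 0)).2))}

theorem down_SS (p0 : Cond J) (ε : ℕ → X J → ℚ) (I : ℕ → ℚ × ℚ → Set (K × Cond J))
    (v : List (ℚ × ℤ)) : Down (SS p0 ε I v) := by
  rintro ⟨c, p⟩ hp ⟨c', q⟩ ⟨hc, r, hr⟩
  change q = p * r at hr
  subst hr
  intro n hn
  obtain ⟨h1, h2⟩ := hp n hn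
  refine ⟨fun x => ?_, fun a => ?_⟩
  · show ε n ((p * r).H x) = _
    rw [Cond.mul_H]; exact h1 _
  · refine down_fimp _ _ _ (h2 a) _ ⟨hc, r, ?_⟩
    show p0 * (p * r) = p0 * p * r
    rw [mul_assoc]

theorem rgl_SS (p0 : Cond J) {ε : ℕ → X J → ℚ} (hε : ∀ n, LC (ε n))
    (I : ℕ → ℚ × ℚ → Set (K × Cond J)) (v : List (ℚ × ℤ)) : Rgl (SS p0 ε I v) := by
  rintro ⟨c, p⟩ h n hn
  refine ⟨fun x => ?_, fun a => ?_⟩
  · obtain ⟨F, N, h1⟩ := exists_tupOf ((hε n).comp p.H_cont) x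
    obtain ⟨⟨c', q⟩, ⟨_, r, hr⟩, hq⟩ := h (c, p * cone (tupOf F N x)) ⟨le_rfl, Cond.mul_le _ _⟩
    change q = p * cone (tupOf F N x) * r at hr
    have h2 := (hq n hn).1 x
    change ε n (q.H x) = _ at h2
    rw [hr, mul_assoc, Cond.mul_H, Cond.mul_H] at h2
    rw [← h2]
    exact (h1 _).symm
  · apply rgl_fimp (down_meets _)
    rintro ⟨c', q⟩ ⟨hc, r, hr⟩
    change q = p0 * p * r at hr
    obtain ⟨⟨c'', q'⟩, ⟨hc', r', hr'⟩, hq⟩ := h (c', p * r) ⟨hc, r, rfl⟩
    change q' = p * r * r' at hr'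
    refine ⟨(c'', p0 * q'), ⟨hc', r', ?_⟩, (hq n hn).2 a⟩
    show p0 * q' = q * r'
    rw [hr', hr]
    simp only [mul_assoc]

/-- deciding finitely many values -/
theorem decide_fin {I : ℕ → ℚ × ℚ → Set (K × Cond J)} {c0 : K} {p0 : Cond J}
    (hI : (c0, p0) ∈ IsFun I) (m : ℕ) (p : K × Cond J) (hp : p.1 ≤ c0) :
    ∃ q ≤ p, ∃ f : ℕ → ℚ × ℚ, ∀ n < m, (q.1, p0 * q.2) ∈ meets (I n (f n)) := by
  induction m with
  | zero => exact ⟨p, le_rfl, fun _ => (0, 0), fun n hn => absurd hn (Nat.not_lt_zero n)⟩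
  | succ m ih =>
    obtain ⟨q, hq, f, hf⟩ := ih
    have hle : ((q.1, p0 * q.2) : K × Cond J) ≤ (c0, p0) := ⟨hq.1.trans hp, q.2, rfl⟩
    obtain ⟨⟨c', q'⟩, ⟨hc', r, hr⟩, a, ha⟩ := mem_fex.1 (hI.1 m) (q.1, p0 * q.2) hle
    change q' = p0 * q.2 * r at hr
    have hqq : ((c', q.2 * r) : K × Cond J) ≤ q := ⟨hc', r, rfl⟩
    refine ⟨(c', q.2 * r), hqq.trans hq, fun n => if n < m then f n else a,
      fun n hn => ?_⟩
    by_cases h : n < m
    · simp only [h, if_true]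
      refine down_meets _ _ (hf n h) _ ⟨hc', r, ?_⟩
      show p0 * (q.2 * r) = p0 * q.2 * r
      rw [mul_assoc]
    · obtain rfl : n = m := by omega
      simp only [h, if_false]
      show (c', p0 * (q.2 * r)) ∈ _
      rw [← mul_assoc, ← hr]
      exact ha

theorem hyp_SS {T : ℕ × ℚ × ℚ → X J → ℚ × ℚ} {α : J} (hT : ∀ i, LC (T i))
    (hTα : ∀ i, DepOn (T i) (Set.Iio α)) (hok : ∀ x, TC.Ok fun i => T i x)
    {I : ℕ → ℚ × ℚ → Set (K × Cond J)} {c0 : K} {p0 : Cond J}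
    (hI : (c0, p0) ∈ IsFun I) (l : ℕ) (c' : K) (hc' : c' ≤ c0) (u : Cond J) :
    ∃ (a : Tup J) (V : Finset (List (ℚ × ℤ))), (∀ γ, α ≤ γ → a.a γ = []) ∧
      (∀ v ∈ V, ∀ x, ((u * cone a).t α x (dec l)).length = v.length) ∧
      ∀ p ≤ ((c', u * cone a * cone (sg α (dec l))) : K × Cond J),
        ∃ q ≤ p, ∃ v ∈ V, q ∈ SS p0 (en T α) I v := by
  classical
  let hh : X J → List ℚ := fun x => (List.range (u.t α x (dec l)).length).map fun n =>
    eps (fun i => T i (u.H x)) (Ff (SgL (u.t α x (dec l)) n)) / 8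
  have hlc : LC hh := (u.lc α (dec l)).bind
    (g := fun L x => (List.range L.length).map fun n =>
      eps (fun i => T i (u.H x)) (Ff (SgL L n)) / 8) fun L =>
      LC.rangeMap (fun n => (lc_eps (T := fun x i => T i (u.H x))
        (fun i => (hT i).comp u.H_cont) (Ff (SgL L n))).map fun d => d / 8) _
  have hlow : ∀ x y, (∀ γ < α, x γ = y γ) → hh x = hh y := by
    intro x y hxy
    have h1 : u.t α x (dec l) = u.t α y (dec l) := u.loc _ _ _ _ hxy
    have h2 : (fun i => T i (u.H x)) = fun i => T i (u.H y) := funext fun i =>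
      hTα i _ _ fun γ hγ => u.H_loc fun δ hδ => hxy δ (lt_of_le_of_lt hδ hγ)
    simp only [hh, h1, h2]
  obtain ⟨F, N, hFN⟩ := hlc x0
  set a : Tup J := tupOf (F.filter (· < α)) N x0 with ha
  have hga : ∀ γ, α ≤ γ → a.a γ = [] := by
    intro γ hγ
    have : γ ∉ F.filter (· < α) := by simp [hγ]
    simp only [ha, tupOf, this, if_false]
  have hconst : ∀ y ∈ a.box, hh y = hh x0 := by
    intro y hy
    rw [← hFN (fun γ => if γ < α then y γ else x0 γ) ?_]
    · refine hlow _ _ fun γ hγ => ?_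
      simp only [hγ, if_true]
    · intro γ hγ k hk
      by_cases h : γ < α
      · simp only [h, if_true]
        exact agr_of_mem_tupOf hy γ (Finset.mem_filter.2 ⟨hγ, h⟩) k hk
      · simp only [h, if_false]
  set m := (u.t α x0 (dec l)).length with hm
  have hlen : ∀ y ∈ a.box, (u.t α y (dec l)).length = m := by
    intro y hy
    have := congrArg List.length (hconst y hy)
    simpa [hh] using this
  let δ : ℕ → ℚ := fun n => eps (fun i => T i (u.H x0)) (Ff (SgL (u.t α x0 (dec l)) n)) / 8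
  have hδ : ∀ y ∈ a.box, ∀ n < m,
      eps (fun i => T i (u.H y)) (Ff (SgL (u.t α y (dec l)) n)) / 8 = δ n := by
    intro y hy n hn
    have h1 := congrArg (fun l => l.getD n 0) (hconst y hy)
    have h2 := hlen y hy
    simp only [hh] at h1
    rw [List.getD_eq_getElem _ _ (by simp; omega), List.getD_eq_getElem _ _ (by simp; omega)] at h1
    show _ = _ / 8
    rw [show eps (fun i => T i (u.H y)) (Ff (SgL (u.t α y (dec l)) n)) =
      eps (fun i => T i (u.H x0)) (Ff (SgL (u.t α x0 (dec l)) n)) by simpa using h1]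
  have hδpos : ∀ n, 0 < δ n := fun n => by
    have := eps_pos (hok (u.H x0)) (Ff (SgL (u.t α x0 (dec l)) n))
    show 0 < _ / 8
    linarith
  refine ⟨a, (Fintype.piFinset fun n : Fin m => Finset.Icc (-Bz (δ n)) (Bz (δ n))).image
    (fun f => List.ofFn fun n : Fin m => (δ n, f n)), hga, ?_, ?_⟩
  · intro v hv x
    obtain ⟨f, _, rfl⟩ := Finset.mem_image.1 hv
    rw [List.length_ofFn, Cond.mul_t, cone_t, hga α le_rfl, List.nil_append]
    exact hlen _ (cone_H_mem a x)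
  · rintro ⟨c1, p⟩ ⟨hc1, w, hw⟩
    change p = u * cone a * cone (sg α (dec l)) * w at hw
    obtain ⟨⟨c2, q⟩, ⟨hc2, w', hw'⟩, f, hf⟩ := decide_fin hI m (c1, p) (hc1.trans hc')
    change q = p * w' at hw'
    refine ⟨(c2, q), ⟨hc2, w', hw'⟩, List.ofFn fun n : Fin m => (δ n, zc (δ n) (f n).1),
      Finset.mem_image.2 ⟨fun n => zc (δ n) (f n).1, ?_, rfl⟩, ?_⟩
    · rw [Fintype.mem_piFinset]
      exact fun n => zc_mem (hδpos n) _
    · intro n hn
      rw [List.length_ofFn] at hn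
      have hget : (List.ofFn fun n : Fin m => (δ n, zc (δ n) (f n).1)).getD n (0, 0) =
          (δ n, zc (δ n) (f n).1) := by
        rw [List.getD_eq_getElem _ _ (by simpa using hn)]
        simp
      rw [hget]
      refine ⟨fun x => ?_, fun b => ?_⟩
      · show en T α n (q.H x) = δ n
        obtain ⟨ξ, hξ1, hξ2, hξ3⟩ : ∃ ξ, q.H x = u.H ξ ∧ ξ ∈ a.box ∧ Pf (dec l) (ξ α) := by
          refine ⟨(cone a).H ((cone (sg α (dec l))).H (w.H (w'.H x))), ?_, cone_H_mem _ _, ?_⟩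
          · rw [hw', hw]; simp only [Cond.mul_H]
          · rw [cone_H, hga α le_rfl, app_nil, cone_H, sg_self]
            exact Pf_app _ _
        rw [hξ1, ← hδ ξ hξ2 n hn]
        unfold en
        rw [Sg_eq (u.Pf_H hξ3) (by rw [hlen ξ hξ2]; exact hn)]
      · refine fimp_of fun r hr hrb => ?_
        show zc (δ n) b.1 = zc (δ n) (f n).1
        have h1 := down_meets _ _ (hf n hn) _ hr
        have h2 : r ≤ (c0, p0) := hr.trans ⟨(hc2.trans hc1).trans hc', q, rfl⟩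
        rw [IsFun.unique (down_IsFun _ _ hI _ h2) hrb h1]

end Pool.Agent.H652R2
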