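import Mathlib
import Pool.Agent.H652R2.Dec

/-!
# The blocks of intervals obtained from a fusion
-/

namespace Pool.Agent.H652R2

open Pool.Agent.Helper669.Forcing Pool.Agent.H652R2.Defs

set_option linter.unusedSectionVars false
set_option linter.unusedVariables false

variable {J : Type} [LinearOrder J] [WellFoundedLT J] {K : Type} [Preorder K]

/-- the result of a fusion with finitely many values in the tail -/
structure TF (S : List (ℚ × ℤ) → Set (K × Cond J)) (α : J) where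
  c' : K
  q : Cond J
  i : J → WithTop ℕ
  a : ℕ → Tup J
  lv : ℕ → ℕ
  fin : Fn i
  iα : i α = ((0 : ℕ) : WithTop ℕ)
  inj : ∀ β γ, i β = i γ → i β ≠ ⊤ → β = γ
  stem : ∀ x, q.t α x [] = []
  ge : ∀ n γ, α ≤ γ → (a n).a γ = []
  cov : ∀ x l, ∃ n, lv n = l ∧ x ∈ (a n).box
  dcs : ∀ n, ∀ φ : Fin (lv n + 1) → Fin (lv n + 1), Valid (lv n) (extφ _ φ) →
    extφ _ φ 0 = lv n → ∃ v : List (ℚ × ℤ),
      (∀ x, ((q * cone (a n)).t α x (dec (lv n))).length = v.length) ∧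
      DD i (Set.Iio α) (lv n) (extφ _ φ) (S v) c' (q * cone (a n))

theorem sub_open {i : J → WithTop ℕ} (hi : Fn i) {L : Set J} {l : ℕ} {φ : ℕ → ℕ} {x : X J}
    (hx : x ∈ Sub i L l φ) : ∃ (F : Finset J) (N : ℕ), ∀ y, agr F N x y → y ∈ Sub i L l φ := by
  obtain ⟨F, N, h⟩ := (rgφ i hi L l φ).agr_rz
  refine ⟨F, N, fun y hy => ?_⟩
  rw [← rgφ_box (hi := hi)] at hx ⊢
  exact fun β => (h x y hy β).1 (hx β)

theorem strip_of_nil {a : J → List ℕ} {γ : J} (h : a γ = []) (x : X J) : strip a x γ = x γ := by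
  simp [strip, h]

namespace TF

variable {S : List (ℚ × ℤ) → Set (K × Cond J)} {α : J} (F : TF S α)

/-- the time at which the level `l` is treated -/
noncomputable def nf (l : ℕ) (x : X J) : ℕ := by
  classical
  exact Nat.find (F.cov x l)

theorem nf_spec (l : ℕ) (x : X J) : F.lv (F.nf l x) = l ∧ x ∈ (F.a (F.nf l x)).box := by
  classical
  exact Nat.find_spec (F.cov x l)

theorem lc_nf (l : ℕ) : LC (F.nf l) := by
  classical
  exact LC.find (p := fun n x => F.lv n = l ∧ x ∈ (F.a n).box)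
    (fun n => (LC.box (F.a n)).map fun p => F.lv n = l ∧ p) fun x => F.cov x l

/-- a countable set below `α` supporting everything -/
def S0 : Set J := (F.q.S ∩ Set.Iio α) ∪ ⋃ n, {β | (F.a n).a β ≠ []}

theorem S0_countable : F.S0.Countable :=
  (F.q.S_countable.mono Set.inter_subset_left).union
    (Set.countable_iUnion fun n => (F.a n).countable)

theorem S0_sub : F.S0 ⊆ Set.Iio α := by
  rintro γ (h | h)
  · exact h.2
  · obtain ⟨n, hn⟩ := Set.mem_iUnion.1 h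
    by_contra hc
    exact hn (F.ge n γ (not_lt.1 hc))

theorem dep_nf (l : ℕ) : DepOn (F.nf l) F.S0 := by
  classical
  intro x y hxy
  have h : ∀ n, x ∈ (F.a n).box ↔ y ∈ (F.a n).box := by
    intro n
    have : ∀ β, Pf ((F.a n).a β) (x β) ↔ Pf ((F.a n).a β) (y β) := by
      intro β
      by_cases hβ : (F.a n).a β = []
      · rw [hβ]; simp
      · rw [hxy β (Or.inr (Set.mem_iUnion.2 ⟨n, hβ⟩))]
    exact ⟨fun h β => (this β).1 (h β), fun h β => (this β).2 (h β)⟩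
  unfold nf
  simp only [h]

theorem dep_t (s : List ℕ) : DepOn (fun x => F.q.t α x s) F.S0 := fun x y hxy =>
  F.q.t_congr_of (S := F.q.S) (fun β x y s h => F.q.t_congr s h) s
    fun γ hγ hγα => hxy γ (Or.inl ⟨hγ, hγα⟩)

open Classical in
/-- the values -/
noncomputable def vv (n : ℕ) (ψ : ℕ → ℕ) : List (ℚ × ℤ) :=
  if h : Valid (F.lv n) ψ ∧ ψ 0 = F.lv n ∧ ∃ v : List (ℚ × ℤ),
      (∀ x, ((F.q * cone (F.a n)).t α x (dec (F.lv n))).length = v.length) ∧
      DD F.i (Set.Iio α) (F.lv n) ψ (S v) F.c' (F.q * cone (F.a n))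
  then Classical.choose h.2.2 else []

theorem vv_spec {n : ℕ} {ψ : ℕ → ℕ} (h : F.vv n ψ ≠ []) :
    Valid (F.lv n) ψ ∧ ψ 0 = F.lv n ∧
      (∀ x, ((F.q * cone (F.a n)).t α x (dec (F.lv n))).length = (F.vv n ψ).length) ∧
      DD F.i (Set.Iio α) (F.lv n) ψ (S (F.vv n ψ)) F.c' (F.q * cone (F.a n)) := by
  by_cases h' : Valid (F.lv n) ψ ∧ ψ 0 = F.lv n ∧ ∃ v : List (ℚ × ℤ),
      (∀ x, ((F.q * cone (F.a n)).t α x (dec (F.lv n))).length = v.length) ∧
      DD F.i (Set.Iio α) (F.lv n) ψ (S v) F.c' (F.q * cone (F.a n))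
  · have he : F.vv n ψ = Classical.choose h'.2.2 := by unfold vv; rw [dif_pos h']
    have := Classical.choose_spec h'.2.2
    rw [← he] at this
    exact ⟨h'.1, h'.2.1, this⟩
  · exact absurd (by unfold vv; rw [dif_neg h']) h

theorem vv_spec' {n l : ℕ} (hl : F.lv n = l) {φ : Fin (l + 1) → Fin (l + 1)}
    (h1 : Valid l (extφ l φ)) (h2 : extφ l φ 0 = l) :
    (∀ x, ((F.q * cone (F.a n)).t α x (dec l)).length = (F.vv n (extφ l φ)).length) ∧
      DD F.i (Set.Iio α) l (extφ l φ) (S (F.vv n (extφ l φ))) F.c' (F.q * cone (F.a n)) := by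
  subst hl
  have h' : Valid (F.lv n) (extφ _ φ) ∧ extφ _ φ 0 = F.lv n ∧ ∃ v : List (ℚ × ℤ),
      (∀ x, ((F.q * cone (F.a n)).t α x (dec (F.lv n))).length = v.length) ∧
      DD F.i (Set.Iio α) (F.lv n) (extφ _ φ) (S v) F.c' (F.q * cone (F.a n)) :=
    ⟨h1, h2, F.dcs n φ h1 h2⟩
  have he : F.vv n (extφ _ φ) = Classical.choose h'.2.2 := by unfold vv; rw [dif_pos h']
  have := Classical.choose_spec h'.2.2
  rw [← he] at this
  exact this

/-- the entry of a block -/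
def ent (v : List (ℚ × ℤ)) (m : ℕ) : ℚ × ℚ :=
  (((v.getD m (0, 0)).2 + 1) * (v.getD m (0, 0)).1, 3 * (v.getD m (0, 0)).1)

/-- a block with given parameters -/
noncomputable def bk0 (n a0 a1 l : ℕ) : List (ℚ × ℚ) :=
  (List.range ((a1 - a0) * Nn l)).map fun t => ent (F.vv n (fnm l (t % Nn l))) (a0 + t / Nn l)

/-- the block at the node `dec c` for the successor `j` -/
noncomputable def bk (x : X J) (c j : ℕ) : List (ℚ × ℚ) :=
  F.bk0 (F.nf (code (dec c ++ [j])) x) (F.q.t α x (dec c)).length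
    (F.q.t α x (dec c ++ [j])).length (code (dec c ++ [j]))

theorem lc_bk (c j : ℕ) : LC fun x => F.bk x c j := by
  have h := ((F.lc_nf (code (dec c ++ [j]))).prod ((F.q.lc α (dec c)).prod
    (F.q.lc α (dec c ++ [j])))).map fun p => F.bk0 p.1 p.2.1.length p.2.2.length
      (code (dec c ++ [j]))
  exact h

theorem dep_bk : DepOn F.bk F.S0 := by
  intro x y hxy
  funext c j
  unfold bk
  rw [F.dep_nf _ x y hxy, show F.q.t α x (dec c) = F.q.t α y (dec c) from F.dep_t _ x y hxy,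
    show F.q.t α x (dec c ++ [j]) = F.q.t α y (dec c ++ [j]) from F.dep_t _ x y hxy]

theorem bk_ne (x : X J) (c j : ℕ) : F.bk x c j ≠ [] := by
  have h1 := (F.q.miller α x).length_lt (dec c) j
  have h2 : 0 < ((F.q.t α x (dec c ++ [j])).length - (F.q.t α x (dec c)).length) *
      Nn (code (dec c ++ [j])) := Nat.mul_pos (by omega) (Nn_pos _)
  intro h
  have := congrArg List.length h
  simp only [bk, bk0, List.length_map, List.length_range, List.length_nil] at this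
  omega

variable {F}

theorem exists_pt {p0 : Cond J} {ε : ℕ → X J → ℚ} {I : ℕ → ℚ × ℚ → Set (K × Cond J)}
    {F : TF (SS p0 ε I) α} {n1 : ℕ} {ψ : ℕ → ℕ} (hψ : Valid (F.lv n1) ψ)
    (hψ0 : ψ 0 = F.lv n1) {x : X J} (hx : x ∈ (F.a n1).box) {v : List (ℚ × ℤ)}
    (hD : DD F.i (Set.Iio α) (F.lv n1) ψ (SS p0 ε I v) F.c' (F.q * cone (F.a n1))) {m : ℕ}
    (hm : m < v.length) : ∃ y : X J, (∀ γ < α, y γ = x γ) ∧ Pf (dec (F.lv n1)) (y α) ∧
      ε m (F.q.H y) = (v.getD m (0, 0)).1 := by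
  classical
  set l := F.lv n1 with hl
  let y : X J := fun γ => if γ < α then x γ else
    app (dec (ψ ((F.i γ).untopD 0)) ++ [fb (l - (F.i γ).untopD 0) (dec (ψ ((F.i γ).untopD 0)))])
      (fun _ => 0)
  have hylt : ∀ γ < α, y γ = x γ := fun γ hγ => by simp only [y, hγ, if_true]
  have hySub : y ∈ Sub F.i (Set.Iio α) l ψ := by
    intro γ hγ k hk hik
    have h1 : ¬ γ < α := hγ
    have h2 : (F.i γ).untopD 0 = k := by rw [hik]; rfl
    have h3 : Pf (dec (ψ k) ++ [fb (l - k) (dec (ψ k))]) (y γ) := by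
      simp only [y, h1, if_false, h2]
      exact Pf_app _ _
    obtain ⟨h4, h5⟩ := Pf_append_singleton.1 h3
    exact ⟨h4, h5.ge⟩
  have hybox : y ∈ (F.a n1).box := fun γ => by
    by_cases h : γ < α
    · rw [hylt γ h]; exact hx γ
    · rw [F.ge n1 γ (not_lt.1 h)]; exact Pf_nil _
  have hyα : Pf (dec l) (y α) := by
    have h1 := (hySub α (by simp) 0 (Nat.zero_le _) F.iα).1
    rwa [hψ0] at h1
  have hstrip : strip (F.a n1).a y ∈ Sub F.i (Set.Iio α) l ψ := fun γ hγ k hk hik => by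
    rw [strip_of_nil (F.ge n1 γ (not_lt.1 hγ))]
    exact hySub γ hγ k hk hik
  obtain ⟨G, N, hG⟩ := sub_open F.fin hstrip
  have h1 := hD (cone (tupOf G N (strip (F.a n1).a y))) fun x' => hG _ (tupOf_agr _ _ _ _)
  have h2 := (h1 m hm).1 (strip (tupOf G N (strip (F.a n1).a y)).a (strip (F.a n1).a y))
  change ε m ((F.q * cone (F.a n1) * cone (tupOf G N (strip (F.a n1).a y))).H _) = _ at h2
  rw [Cond.mul_H, cone_strip _ (tupOf_mem _ _ _), Cond.mul_H, cone_strip _ hybox] at h2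
  exact ⟨y, hylt, hyα, h2⟩

theorem bk_small {p0 : Cond J} {T : ℕ × ℚ × ℚ → X J → ℚ × ℚ}
    {I : ℕ → ℚ × ℚ → Set (K × Cond J)} (F : TF (SS p0 (en T α) I) α)
    (hTα : ∀ i, DepOn (T i) (Set.Iio α)) (hok : ∀ x, TC.Ok fun i => T i x) (x : X J)
    {c j : ℕ} (hcj : c ≤ j) {t : ℕ} (ht : t < (F.bk x c j).length) :
    ((F.bk x c j).getD t (0, 0)).2 ≤ eps (fun i => T i ((low α F.q).H x)) (j + t) := by
  obtain ⟨l, hl⟩ : ∃ l, l = code (dec c ++ [j]) := ⟨_, rfl⟩
  set a0 := (F.q.t α x (dec c)).length with ha0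
  set a1 := (F.q.t α x (dec c ++ [j])).length with ha1
  have hbk : F.bk x c j = (List.range ((a1 - a0) * Nn l)).map fun t =>
      ent (F.vv (F.nf l x) (fnm l (t % Nn l))) (a0 + t / Nn l) := by
    subst hl; rfl
  rw [hbk] at ht ⊢
  simp only [List.length_map, List.length_range] at ht
  have hget : ((List.range ((a1 - a0) * Nn l)).map fun t =>
      ent (F.vv (F.nf l x) (fnm l (t % Nn l))) (a0 + t / Nn l)).getD t (0, 0) =
      ent (F.vv (F.nf l x) (fnm l (t % Nn l))) (a0 + t / Nn l) := by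
    rw [List.getD_eq_getElem _ _ (by simpa using ht)]
    simp
  rw [hget]
  have hpos := eps_pos (hok ((low α F.q).H x)) (j + t)
  by_cases hv : F.vv (F.nf l x) (fnm l (t % Nn l)) = []
  · rw [hv]
    simp only [ent, List.getD_nil]
    linarith
  obtain ⟨h1, h2, h3, h4⟩ := F.vv_spec hv
  obtain ⟨h5, h6⟩ := F.nf_spec l x
  obtain ⟨v, hvv⟩ : ∃ v, v = F.vv (F.nf l x) (fnm l (t % Nn l)) := ⟨_, rfl⟩
  obtain ⟨m, hm⟩ : ∃ m, m = a0 + t / Nn l := ⟨_, rfl⟩
  rw [← hvv, ← hm]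
  rw [← hvv] at h3 h4
  have hvlen : v.length = a1 := by
    rw [← h3 (strip (F.a (F.nf l x)).a x), Cond.mul_t, cone_strip _ h6, cone_t,
      F.ge _ _ le_rfl, List.nil_append, h5, hl, dec_code]
  have hdiv : t / Nn l < a1 - a0 := (Nat.div_lt_iff_lt_mul (Nn_pos l)).2 ht
  obtain ⟨dd, hdd⟩ : ∃ d, d = t / Nn l := ⟨_, rfl⟩
  have hm' : m = a0 + dd := by rw [hdd]; exact hm
  rw [← hdd] at hdiv
  have hm1 : m < a1 := by omega
  obtain ⟨y, hy1, hy2, hy3⟩ := exists_pt h1 h2 h6 h4 (by rw [hvlen]; exact hm1)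
  simp only [ent]
  rw [← hy3]
  rw [h5] at hy2
  -- the lengths
  have hTeq : (fun i => T i (F.q.H y)) = fun i => T i ((low α F.q).H x) := funext fun i =>
    hTα i _ _ fun γ hγ => by
      rw [low_H_of_lt hγ]
      exact F.q.H_loc fun δ hδ => hy1 δ (lt_of_le_of_lt hδ hγ)
  have hty : F.q.t α y = F.q.t α x := funext fun s => F.q.loc _ _ _ _ hy1
  obtain ⟨Kf, hK1, hK2⟩ := F.q.miller α x (dec c)
  have h7 : Pf (F.q.t α x (dec c ++ [j])) (F.q.H y α) := by
    have := F.q.Pf_H hy2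
    rw [hty, hl, dec_code] at this
    exact this
  have h8 := Pf_append_singleton.1 (h7.mono (hK2 j))
  have h9 : m + 1 + j ≤ Sg (F.q.H y α) m := by
    have h10 := le_Sg (z := F.q.H y α) (k := a0) (n := m) (by omega)
    rw [h8.2] at h10
    have := hK1.le_apply (x := j)
    omega
  have h10 : j + t ≤ Ff (Sg (F.q.H y α) m) := by
    subst hl
    exact le_Ff hcj h9 hm
  show 3 * (eps (fun i => T i (F.q.H y)) (Ff (Sg (F.q.H y α) m)) / 8) ≤ _
  rw [hTeq]
  have h11 := eps_anti (hok ((low α F.q).H x)) h10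
  have h12 := eps_pos (hok ((low α F.q).H x)) (Ff (Sg (F.q.H y α) m))
  linarith

end TF

end Pool.Agent.H652R2
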