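import Mathlib
import Pool.Agent.H652R2.Blocks

/-!
# Strong measure zero sets are meager-additive
-/

namespace Pool.Agent.H652R2

open Pool.Agent.Helper669.Forcing Pool.Agent.H652R2.Defs Cardinal

set_option linter.unusedSectionVars false
set_option linter.unusedVariables false

/-! ### the name of the covering sequence -/

section
variable {P : Type} [Preorder P]

/-- the statement that the intervals named by `I` have lengths less than `ε` and cover `E` -/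
def CovBy {Y : Type} (E : Y → ℕ → ℚ → Set P) (ε : ℕ → ℚ → Set P) (I : ℕ → ℚ × ℚ → Set P) :
    Set P :=
  fand (IsFun I)
    (fand (fall fun n => fall fun e : ℚ => fall fun J : ℚ × ℚ =>
        fimp (fand (meets (ε n e)) (meets (I n J))) (fground (J.2 - J.1 < e)))
      (fall fun y => fex fun n => fex fun J : ℚ × ℚ =>
        fand (meets (I n J)) (InIoo (E y) J.1 J.2)))

theorem down_CovBy {Y : Type} (E : Y → ℕ → ℚ → Set P) (ε : ℕ → ℚ → Set P)
    (I : ℕ → ℚ × ℚ → Set P) : Down (CovBy E ε I) :=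
  down_fand (down_IsFun _) (down_fand (down_fall fun _ => down_fall fun _ => down_fall fun _ =>
    down_fimp _ _) (down_fall fun _ => down_fex _))

theorem rgl_IsFun {ι A : Type*} (I : ι → A → Set P) : Rgl (IsFun I) :=
  rgl_fand (rgl_fall fun _ => rgl_fex _) (rgl_fall fun _ => rgl_fall fun _ => rgl_fall fun _ =>
    rgl_fimp (down_fand (down_meets _) (down_meets _)))

theorem rgl_CovBy {Y : Type} (E : Y → ℕ → ℚ → Set P) (ε : ℕ → ℚ → Set P)
    (I : ℕ → ℚ × ℚ → Set P) : Rgl (CovBy E ε I) :=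
  rgl_fand (rgl_IsFun _) (rgl_fand (rgl_fall fun _ => rgl_fall fun _ => rgl_fall fun _ =>
    rgl_fimp (down_fand (down_meets _) (down_meets _))) (rgl_fall fun _ => rgl_fex _))

theorem EqB_IsFun {ι A : Type*} {r : P} {I I' : ι → A → Set P}
    (h : ∀ n a, EqB r (meets (I n a)) (meets (I' n a))) : EqB r (IsFun I) (IsFun I') :=
  EqB.fand (EqB.fall fun n => EqB.fex fun a => h n a)
    (EqB.fall fun n => EqB.fall fun a => EqB.fall fun a' =>
      EqB.fimp (EqB.fand (h n a) (h n a')) (EqB.refl _ _))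

theorem EqB_CovBy {Y : Type} (E : Y → ℕ → ℚ → Set P) (ε : ℕ → ℚ → Set P) {r : P}
    {I I' : ℕ → ℚ × ℚ → Set P} (h : ∀ n a, EqB r (meets (I n a)) (meets (I' n a))) :
    EqB r (CovBy E ε I) (CovBy E ε I') :=
  EqB.fand (EqB_IsFun h) (EqB.fand
    (EqB.fall fun n => EqB.fall fun e => EqB.fall fun J =>
      EqB.fimp (EqB.fand (EqB.refl _ _) (h n J)) (EqB.refl _ _))
    (EqB.fall fun y => EqB.fex fun n => EqB.fex fun J => EqB.fand (h n J) (EqB.refl _ _)))

theorem exists_CovBy {Y : Type} {E : Y → ℕ → ℚ → Set P} {ε : ℕ → ℚ → Set P} {p : P}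
    (hE : p ∈ IsSMZ E) (hε : p ∈ IsFun ε)
    (hpos : p ∈ fall fun n => fall fun e : ℚ => fimp (meets (ε n e)) (fground (0 < e))) :
    ∃ I : ℕ → ℚ × ℚ → Set P, p ∈ CovBy E ε I := by
  have h1 : p ∈ fex fun I : ℕ → ℚ × ℚ → Set P => CovBy E ε I :=
    mem_of_fimp (hE ε) (down_fand (down_IsFun _) (down_fall fun _ => down_fall fun _ =>
      down_fimp _ _)) (rgl_fex _) ⟨hε, hpos⟩
  have h2 : p ∈ fex fun σ : ℕ × (ℚ × ℚ) → Set P => CovBy E ε fun n J => σ (n, J) := by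
    rw [mem_fex] at h1 ⊢
    intro q hq
    obtain ⟨r, hr, I, hI⟩ := h1 q hq
    exact ⟨r, hr, fun i => I i.1 i.2, hI⟩
  obtain ⟨σ, hσ⟩ := mix (fun σ => down_CovBy E ε _) (fun σ => rgl_CovBy E ε _)
    (fun r σ σ' h hr => (EqB_CovBy E ε (fun n a => h (n, a)) r le_rfl).1 hr) h2
  exact ⟨_, hσ⟩

end

variable {J : Type} [LinearOrder J] [WellFoundedLT J] {K : Type} [Preorder K]

/-! ### reading the code of the meager set -/

theorem readCode (hK : SC K) {T : ℕ → ℚ × ℚ → Set (K × Cond J)} {c : K} {u : Cond J}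
    (hT : (c, u) ∈ IsCode T) : ∃ c0 ≤ c, ∃ (q : Cond J) (Tf : ℕ × ℚ × ℚ → X J → ℚ × ℚ),
      (∀ i, LC (Tf i)) ∧ (∀ i, CS (Tf i)) ∧ (∀ x, TC.Ok fun i => Tf i x) ∧
      ∀ k a b r I, a < b → (∀ x, Tf (k, a, b) (r.H x) = I) →
        (c0, u * q * r) ∈ meets (T k I) := by
  classical
  let D : ℕ × ℚ × ℚ → ℚ × ℚ → Set (K × Cond J) := fun i I =>
    fand (fground (i.2.1 < i.2.2 → max i.2.1 I.1 < min i.2.2 I.2))
      {p | i.2.1 < i.2.2 → p ∈ meets (T i.1 I)}
  have hDd : ∀ i I, Down (D i I) := fun i I => down_fand (down_fground _)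
    fun p hp q hq h => down_meets _ p (hp h) q hq
  have hDr : ∀ i I, Rgl (D i I) := fun i I => rgl_fand (rgl_fground _)
    fun p hp h => rgl_meets _ p fun q hq => by
      obtain ⟨r, hr, h1⟩ := hp q hq
      exact ⟨r, hr, h1 h⟩
  obtain ⟨c0, hc0, q, f, hf1, hf2, hf3⟩ := read hK D hDd hDr c u (by
    rintro ⟨k, a, b⟩ p hp
    by_cases hab : a < b
    · obtain ⟨r, hr, I, h1, h2⟩ := mem_fex.1 (hT k a b hab) p hp
      exact ⟨r, hr, I, fun _ => h1, fun _ => h2⟩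
    · exact ⟨p, le_rfl, (0, 0), fun h => absurd h hab, fun h => absurd h hab⟩)
  refine ⟨c0, hc0, q, f, hf1, hf2, ?_, ?_⟩
  · intro x k a b hab
    obtain ⟨F, N, h1⟩ := exists_tupOf (hf1 (k, a, b)) x
    exact (hf3 (k, a, b) (cone (tupOf F N x)) _ h1).1 hab
  · intro k a b r I hab h
    exact (hf3 (k, a, b) r I h).2 hab

/-! ### the fusion -/

theorem exists_TF (hK : SC K) {T : ℕ × ℚ × ℚ → X J → ℚ × ℚ} {α : J} (hT : ∀ i, LC (T i))
    (hTα : ∀ i, DepOn (T i) (Set.Iio α)) (hok : ∀ x, TC.Ok fun i => T i x)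
    {I : ℕ → ℚ × ℚ → Set (K × Cond J)} {c0 : K} {p0 : Cond J}
    (hI : (c0, p0) ∈ IsFun I) : ∃ F : TF (SS p0 (en T α) I) α, F.c' ≤ c0 := by
  obtain ⟨c', hc', q, i, a, lv, h1, h2, h3, h4, h5, h6, h7⟩ := tail_fusion hK
    (fun _ v => SS p0 (en T α) I v) (fun _ v => down_SS _ _ _ _)
    (fun _ v => rgl_SS _ (fun n => lc_en hT α n) _ _) α c0
    (fun l u v => ∀ x, (u.t α x (dec l)).length = v.length)
    (fun l u R v hR hu x => by rw [Cond.mul_t, hR]; exact hu _)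
    (fun l c' hc' u => hyp_SS hT hTα hok hI l c' hc' u)
  exact ⟨⟨c', q, i, a, lv, h1, h2, h3, h4, h5, h6, h7⟩, hc'⟩

end Pool.Agent.H652R2
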