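import Mathlib
import Pool.Agent.H652R2.Main

/-!
# Strong measure zero sets are meager-additive: the argument
-/

namespace Pool.Agent.H652R2

open Pool.Agent.Helper669.Forcing Pool.Agent.H652R2.Defs Cardinal

set_option linter.unusedSectionVars false
set_option linter.unusedVariables false

variable {J : Type} [LinearOrder J] [WellFoundedLT J] {K : Type} [Preorder K]

/-- the real number `E y` is not captured -/
structure NC {Y : Type} (E : Y → ℕ → ℚ → Set (K × Cond J)) (p0 : Cond J) (c2 : K) (w : Cond J)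
    (cap : X J → Cap) (S' : Set J) where
  r : Cond J
  y : Y
  e : ℕ → X J → ℚ
  supp : SuppOn r S'
  dep : ∀ n, DepOn (e n) S'
  lc : ∀ n, LC (e n)
  reads : Reads c2 (p0 * w * r) (E y) e
  isR : ∀ x, IsR fun n => e n x
  ncap : ∀ x, ¬ Cpt (cap (r.H x)) (val fun n => e n x)

theorem lc_gd {e : ℕ → X J → ℚ} (he : ∀ n, LC (e n)) (I : ℚ × ℚ) :
    LC fun x => gd (fun n => e n x) I := by
  have h := ((he 0).prod (he (Nof (I.2 / 3)))).map fun p =>
    (0 < I.2 → |p.1| + 3 ≤ 3 / I.2 ∧ 2 * (I.2 / 3) < |p.2 - I.1|)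
  exact h

/-- The contradiction. -/
theorem core {T : ℕ × ℚ × ℚ → X J → ℚ × ℚ} {α : J} (hT : ∀ i, LC (T i))
    (hTα : ∀ i, DepOn (T i) (Set.Iio α)) (hok : ∀ x, TC.Ok fun i => T i x)
    {Y : Type} {E : Y → ℕ → ℚ → Set (K × Cond J)} {I : ℕ → ℚ × ℚ → Set (K × Cond J)}
    {c0 : K} {p0 : Cond J} (hE : ∀ y, (c0, p0) ∈ IsReal (E y))
    (hI : (c0, p0) ∈ CovBy E (fun n e => nm p0 (en T α n) e) I)
    (F : TF (SS p0 (en T α) I) α) (hF : F.c' ≤ c0) {c2 : K} (hc2 : c2 ≤ F.c') {S' : Set J}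
    (hS' : S'.Countable) (hS'α : S' ⊆ Set.Iio α)
    (R : NC E p0 c2 (low α F.q) (fun x => comb (F.bk x)) S') : False := by
  classical
  let good : X J → ℕ → ℕ → Prop := fun x c j =>
    ∀ I ∈ F.bk (R.r.H x) c j, gd (fun n => R.e n x) I
  have hgood : ∀ x c m, ∃ j, m ≤ j ∧ good x c j := by
    intro x c m
    obtain ⟨j1, hj1⟩ := exists_half (show (0 : ℚ) < 3 / (|R.e 0 x| + 3) by positivity)
    have h1 : ¬ ∃ j0, ∀ j, j0 ≤ j → ∃ I ∈ F.bk (R.r.H x) c j,
        |val (fun n => R.e n x) - (I.1 : ℝ)| ≤ (I.2 : ℝ) := fun h => R.ncap x (comb_cpt h)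
    push Not at h1
    obtain ⟨j, hj, h2⟩ := h1 (max m (max c j1))
    refine ⟨j, (le_max_left _ _).trans hj, fun I' hI' => gd_of (R.isR x) (h2 I' hI') fun hpos => ?_⟩
    have hcj : c ≤ j := ((le_max_left _ _).trans (le_max_right _ _)).trans hj
    have hj1j : j1 ≤ j := ((le_max_right _ _).trans (le_max_right _ _)).trans hj
    obtain ⟨t, ht, hget⟩ := List.mem_iff_getElem.1 hI'
    have h3 := F.bk_small hTα hok (R.r.H x) hcj ht
    rw [List.getD_eq_getElem _ _ ht, hget] at h3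
    have h4 : I'.2 ≤ 3 / (|R.e 0 x| + 3) := by
      refine (h3.trans (eps_le _ _)).trans (le_trans ?_ hj1)
      exact pow_le_pow_of_le_one (by norm_num) (by norm_num) (by omega)
    rw [le_div_iff₀ hpos]
    rw [le_div_iff₀ (by positivity)] at h4
    linarith
  let SU : Set J := F.S0 ∪ S'
  have hSU : SU.Countable := F.S0_countable.union hS'
  have hSUα : SU ⊆ Set.Iio α := Set.union_subset F.S0_sub hS'α
  have hgooddep : ∀ x y, (∀ γ ∈ SU, x γ = y γ) → good x = good y := by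
    intro x y hxy
    have h1 : F.bk (R.r.H x) = F.bk (R.r.H y) := F.dep_bk _ _ fun γ hγ =>
      (R.supp.mono (T := SU) Set.subset_union_right).H_congr hxy γ (Or.inl hγ)
    have h2 : (fun n => R.e n x) = fun n => R.e n y := funext fun n =>
      R.dep n x y fun γ hγ => hxy γ (Or.inr hγ)
    funext c j
    simp only [good]
    rw [h1, h2]
  have hgoodlc : ∀ c j, LC fun x => good x c j := fun c j =>
    ((F.lc_bk c j).comp R.r.H_cont).bind
      (g := fun l x => ∀ I ∈ l, gd (fun n => R.e n x) I) fun l =>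
      LC.ballList (fun I => lc_gd R.lc I) l
  let g : X J → ℕ → ℕ → ℕ := fun x c => gg (good x c) (hgood x c)
  have hgmono : ∀ x c, StrictMono (g x c) := fun x c => gg_strictMono _ _
  have hglc : ∀ c j, LC fun x => g x c j := fun c j =>
    lc_gg (p := fun x => good x c) (hgoodlc c) (fun x => hgood x c) j
  have hgdep : DepOn g SU := fun x y hxy => funext fun c =>
    gg_congr (congrFun (hgooddep x y hxy) c) _ _
  let pr : Cond J := prune α g hgmono hglc SU hSU hgdep hSUα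
  -- the extension
  have hle : ((c2, p0 * (F.q * (R.r * pr))) : K × Cond J) ≤ (c0, p0) := le_mk (hc2.trans hF)
  obtain ⟨p1, hp1, n, h1⟩ := mem_fex.1 (hI.2.2 R.y) _ hle
  obtain ⟨p2, hp2, I', h2, h3⟩ := mem_fex.1 h1 p1 le_rfl
  obtain ⟨p3, hp3, N0, h4⟩ := mem_fex.1 h3 p2 le_rfl
  obtain ⟨⟨c3, u3⟩, hp4, cc, ⟨h5, h5'⟩, h6⟩ := mem_fex.1 h4 p3 le_rfl
  obtain ⟨hc3, w3, hw3⟩ := hp4.trans (hp3.trans (hp2.trans hp1))
  change c3 ≤ c2 at hc3
  change u3 = p0 * (F.q * (R.r * pr)) * w3 at hw3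
  have h7 := down_meets _ _ h2 _ (hp4.trans hp3)
  obtain ⟨Rr, hRr⟩ : ∃ Rr, Rr = R.r * pr * w3 := ⟨_, rfl⟩
  have hu3 : u3 = p0 * (F.q * Rr) := by rw [hw3, hRr]; simp only [mul_assoc]
  obtain ⟨ξ, hξ⟩ : ∃ ξ, ξ = pr.H (w3.H x0) := ⟨_, rfl⟩
  obtain ⟨ζ, hζ⟩ : ∃ ζ, ζ = R.r.H ξ := ⟨_, rfl⟩
  have hRζ : Rr.H x0 = ζ := by rw [hRr, hζ, hξ]; simp only [Cond.mul_H]
  have hξlt : ∀ γ < α, ξ γ = w3.H x0 γ := fun γ hγ => by
    rw [hξ]; exact prune_H_ne hγ.ne _
  have hζge : ∀ γ, ¬ γ < α → ζ γ = ξ γ := fun γ hγ => by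
    rw [hζ]; exact R.supp.H_eq (fun h => hγ (hS'α h)) _
  -- the value of `E y`
  have heξ : R.e N0 ξ = cc := by
    obtain ⟨U, hU, hfac⟩ : ∃ U : Cond J, (∀ γ < α, ∀ x, U.H x γ = x γ) ∧
        F.q * R.r = low α F.q * R.r * U :=
      ⟨up α (F.q * R.r), fun γ hγ x => up_H_of_lt hγ _ _, mul_eq_low R.supp hS'α⟩
    have hu3' : u3 = p0 * low α F.q * R.r * (U * pr * w3) := by
      rw [hw3]
      calc p0 * (F.q * (R.r * pr)) * w3 = p0 * (F.q * R.r) * pr * w3 := by simp only [mul_assoc]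
        _ = _ := by rw [hfac]; simp only [mul_assoc]
    have h8 := R.reads.unique (c' := c3) hc3 (r := U * pr * w3)
      (by rw [← hu3']; exact (down_IsReal _ _ (hE R.y) _
        ⟨hc3.trans (hc2.trans hF), _, hu3⟩).1) (R.lc N0)
      (by rw [← hu3']; exact h6) x0
    rw [← h8]
    refine R.dep N0 _ _ fun γ hγ => ?_
    have hγα : γ < α := hS'α hγ
    rw [Cond.mul_H, Cond.mul_H, hU γ hγα]
    rw [hξ]
  have hval := abs_le.1 (val_spec (R.isR ξ) N0)
  rw [heξ] at hval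
  have hlo : (I'.1 : ℝ) < val fun n => R.e n ξ := by
    have := (Rat.cast_lt (K := ℝ)).2 h5
    push_cast at this
    linarith
  have hhi : (val fun n => R.e n ξ) < (I'.2 : ℝ) := by
    have := (Rat.cast_lt (K := ℝ)).2 h5'
    push_cast at this
    linarith
  -- the branch at `α`
  obtain ⟨z', hz'⟩ : ∃ z', z' = ζ α := ⟨_, rfl⟩
  have hz'' : z' = Br (prn (g ξ)) (w3.H x0 α) := by
    rw [hz', hζge α (lt_irrefl α), hξ]
    rw [prune_H_self]
    have : g (w3.H x0) = g (pr.H (w3.H x0)) := hgdep _ _ fun γ hγ =>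
      (prune_H_ne (ne_of_lt (hSUα hγ)) _).symm
    rw [this]
  have hex : ∃ m, n < (F.q.t α ζ (pre z' m)).length := by
    refine ⟨n + 1, ?_⟩
    have := (F.q.miller α ζ).length_le (pre z' (n + 1))
    rw [length_pre] at this
    omega
  obtain ⟨m', hm1, hm2⟩ : ∃ m', n < (F.q.t α ζ (pre z' (m' + 1))).length ∧
      (F.q.t α ζ (pre z' m')).length ≤ n := by
    have h8 := Nat.find_spec hex
    have h9 : Nat.find hex ≠ 0 := by
      intro h
      rw [h, pre_zero, F.stem] at h8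
      simp at h8
    obtain ⟨m', hm'⟩ := Nat.exists_eq_succ_of_ne_zero h9
    refine ⟨m', by rw [← Nat.succ_eq_add_one, ← hm']; exact h8, ?_⟩
    have := Nat.find_min hex (m := m') (by omega)
    omega
  obtain ⟨s, hs⟩ : ∃ s, s = pre z' m' := ⟨_, rfl⟩
  obtain ⟨j, hj⟩ : ∃ j, j = z' m' := ⟨_, rfl⟩
  have hsj : pre z' (m' + 1) = s ++ [j] := by rw [pre_succ, hs, hj]
  rw [hsj] at hm1
  rw [← hs] at hm2
  obtain ⟨c, hc⟩ : ∃ c, c = code s := ⟨_, rfl⟩
  have hsc : s = dec c := by rw [hc, dec_code]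
  have hgj : good ξ c j := by
    have : j = g ξ c (w3.H x0 α m') := by
      rw [hj, hc, hs, hz'']
      exact Br_prn (hgmono ξ) _ _
    rw [this]
    exact gg_spec _ _ _
  rw [hsc] at hm1 hm2
  obtain ⟨l, hl⟩ : ∃ l, l = code (dec c ++ [j]) := ⟨_, rfl⟩
  have hdl : dec l = dec c ++ [j] := by rw [hl, dec_code]
  have hPfl : Pf (dec l) (ζ α) := by
    rw [hdl, ← hsc, ← hsj, ← hz']; exact Pf_pre _ _
  -- the description of the frozen nodes
  let φ : Fin (l + 1) → Fin (l + 1) := fun k =>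
    if h : ∃ γ, ¬ γ < α ∧ F.i γ = ((k : ℕ) : WithTop ℕ) then
      ⟨code (pre (ζ (Classical.choose h)) (lastf (l - k) (ζ (Classical.choose h)))), by
        have := lastf_spec (l - k) (ζ (Classical.choose h))
        omega⟩ else 0
  have hφ : ∀ γ, ¬ γ < α → ∀ k ≤ l, F.i γ = (k : WithTop ℕ) →
      extφ l φ k = code (pre (ζ γ) (lastf (l - k) (ζ γ))) := by
    intro γ hγ k hk hik
    have hk' : k < l + 1 := by omega
    have h : ∃ γ, ¬ γ < α ∧ F.i γ = ((k : ℕ) : WithTop ℕ) := ⟨γ, hγ, hik⟩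
    have h8 := Classical.choose_spec h
    have h9 : Classical.choose h = γ := F.inj _ _ (by rw [h8.2, hik]) (by
      rw [h8.2]; exact WithTop.natCast_ne_top k)
    simp only [extφ, hk', dif_pos, φ, h]
    rw [h9]
  have hφval : Valid l (extφ l φ) := by
    intro k hk
    have hk' : k < l + 1 := by omega
    by_cases h : ∃ γ, ¬ γ < α ∧ F.i γ = ((k : ℕ) : WithTop ℕ)
    · obtain ⟨γ, h8, h9⟩ := h
      rw [hφ γ h8 k hk h9]
      have := lastf_spec (l - k) (ζ γ)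
      omega
    · simp only [extφ, hk', dif_pos, φ, h, dif_neg, not_false_iff]
      simpa using hk
  have hφ0 : extφ l φ 0 = l := by
    rw [hφ α (lt_irrefl α) 0 (Nat.zero_le _) F.iα]
    rw [lastf_of_Pf hPfl (by rw [code_dec]; rfl), code_dec]
  have hζSub : ζ ∈ Sub F.i (Set.Iio α) l (extφ l φ) := by
    intro γ hγ k hk hik
    rw [hφ γ hγ k hk hik, dec_code]
    exact rz_lastf _ _
  obtain ⟨hnf1, hnf2⟩ := F.nf_spec l ζ
  obtain ⟨hΘ, hDD⟩ := F.vv_spec' hnf1 hφval hφ0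
  obtain ⟨v, hv⟩ : ∃ v, v = F.vv (F.nf l ζ) (extφ l φ) := ⟨_, rfl⟩
  rw [← hv] at hΘ hDD
  have hvlen : v.length = (F.q.t α ζ (dec l)).length := by
    rw [← hΘ (strip (F.a (F.nf l ζ)).a ζ), Cond.mul_t, cone_strip _ hnf2, cone_t,
      F.ge _ _ le_rfl, List.nil_append]
  have hnv : n < v.length := by rw [hvlen, hdl]; exact hm1
  -- localisation
  obtain ⟨G1, N1, hG1⟩ := (F.a (F.nf l ζ)).box_open hnf2
  obtain ⟨G2, N2, hG2⟩ := sub_open F.fin hζSub
  obtain ⟨G3, N3, hG3⟩ := Rr.H_cont.agr G1 N1 x0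
  obtain ⟨G4, N4, hG4⟩ := Rr.H_cont.agr G2 N2 x0
  obtain ⟨a', ha'⟩ : ∃ a', a' = tupOf (G3 ∪ G4) (max N3 N4) (x0 : X J) := ⟨_, rfl⟩
  have hR1 : ∀ x, (Rr * cone a').H x ∈ (F.a (F.nf l ζ)).box := by
    intro x
    rw [Cond.mul_H]
    refine hG1 _ ?_
    rw [← hRζ]
    refine hG3 _ ?_
    rw [ha']
    exact (tupOf_agr _ _ _ _).mono Finset.subset_union_left (le_max_left _ _)
  have hR2 : ∀ x, (Rr * cone a').H x ∈ Sub F.i (Set.Iio α) l (extφ l φ) := by
    intro x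
    rw [Cond.mul_H]
    refine hG2 _ ?_
    rw [← hRζ]
    refine hG4 _ ?_
    rw [ha']
    exact (tupOf_agr _ _ _ _).mono Finset.subset_union_right (le_max_right _ _)
  obtain ⟨w', hw', -⟩ := exists_factor' (Rr * cone a') (F.a (F.nf l ζ)) hR1
  have hmem : (F.c', F.q * (Rr * cone a')) ∈ SS p0 (en T α) I v := by
    rw [hw', ← mul_assoc]
    refine hDD w' fun x γ hγ k hk hik => ?_
    have h8 := hR2 x γ hγ k hk hik
    rw [hw', Cond.mul_H, cone_H, F.ge _ γ (not_lt.1 hγ), app_nil] at h8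
    exact h8
  obtain ⟨h8, h9⟩ := hmem n hnv
  obtain ⟨δ, hδ⟩ : ∃ δ, δ = (v.getD n (0, 0)).1 := ⟨_, rfl⟩
  obtain ⟨z, hz⟩ : ∃ z, z = (v.getD n (0, 0)).2 := ⟨_, rfl⟩
  rw [← hδ] at h8 h9
  rw [← hz] at h9
  have hlast : ((c3, p0 * (F.q * (Rr * cone a'))) : K × Cond J) ≤ (c3, u3) := by
    refine ⟨le_rfl, cone a', ?_⟩
    show _ = u3 * cone a'
    rw [hu3]; simp only [mul_assoc]
  have h10 := down_meets _ _ h7 _ hlast
  have hzc : zc δ I'.1 = z := ground_of_fimp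
    (down_fimp _ _ _ (h9 I') (c3, p0 * (F.q * (Rr * cone a'))) ⟨hc3.trans hc2, 1, (mul_one _).symm⟩)
    h10
  have hε : ((c3, p0 * (F.q * (Rr * cone a'))) : K × Cond J) ∈
      meets (nm (K := K) p0 (en T α n) δ) := meets_of_mem ⟨_, rfl, h8⟩
  have hlen : I'.2 - I'.1 < δ := ground_of_fimp
    (down_fimp _ _ _ (hI.2.1 n δ I') (c3, p0 * (F.q * (Rr * cone a')))
      ⟨hc3.trans (hc2.trans hF), _, rfl⟩) ⟨hε, h10⟩
  have hδpos : 0 < δ := by
    have h11 := h8 x0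
    rw [← h11]
    have := eps_pos (hok ((F.q * (Rr * cone a')).H x0)) (Ff (Sg ((F.q * (Rr * cone a')).H x0 α) n))
    show 0 < _ / 8
    linarith
  -- the interval is in the block
  have hin : (((z : ℚ) + 1) * δ, 3 * δ) ∈ F.bk ζ c j := by
    obtain ⟨t0, ht0, hft0⟩ := exists_fnm l φ
    have hNl : 0 < Nn l := Nn_pos l
    obtain ⟨d, hd⟩ : ∃ d, d = n - (F.q.t α ζ (dec c)).length := ⟨_, rfl⟩
    have hdlt : d < (F.q.t α ζ (dec c ++ [j])).length - (F.q.t α ζ (dec c)).length := by omega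
    have htlt : d * Nn l + t0 <
        ((F.q.t α ζ (dec c ++ [j])).length - (F.q.t α ζ (dec c)).length) * Nn l := by
      have h11 : (d + 1) * Nn l ≤
        ((F.q.t α ζ (dec c ++ [j])).length - (F.q.t α ζ (dec c)).length) * Nn l :=
        Nat.mul_le_mul_right _ hdlt
      rw [add_mul, one_mul] at h11
      omega
    unfold TF.bk TF.bk0
    rw [← hl]
    refine List.mem_map.2 ⟨d * Nn l + t0, List.mem_range.2 htlt, ?_⟩
    have e1 : (d * Nn l + t0) % Nn l = t0 := by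
      rw [Nat.mul_comm, Nat.mul_add_mod, Nat.mod_eq_of_lt ht0]
    have e2 : (d * Nn l + t0) / Nn l = d := by
      rw [Nat.mul_comm, Nat.mul_add_div hNl, Nat.div_eq_of_lt ht0, add_zero]
    rw [e1, e2, hft0, ← hv]
    have e3 : (F.q.t α ζ (dec c)).length + d = n := by omega
    rw [e3]
    simp only [TF.ent]
    rw [← hδ, ← hz]
  have hgI := hgj _ (by rw [← hζ]; exact hin)
  exact gd_false (R.isR ξ) hδpos hgI hzc hlen hlo hhi

end Pool.Agent.H652R2
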