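import Mathlib
import Pool.Agent.H652R2.Core

/-!
# Statement (H) is forced
-/

namespace Pool.Agent.H652R2

open Pool.Agent.Helper669.Forcing Pool.Agent.H652R2.Defs Cardinal

set_option linter.unusedSectionVars false
set_option linter.unusedVariables false

theorem not_fex {P : Type} [Preorder P] {ι : Type*} {φ : ι → Set P} {p : P} (h : p ∉ fex φ) :
    ∃ q ≤ p, ∀ r ≤ q, ∀ i, r ∉ φ i := by
  by_contra hc
  push Not at hc
  exact h (mem_fex.2 hc)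

variable {J : Type} [LinearOrder J] [WellFoundedLT J] {K : Type} [Preorder K]

theorem H_false (hJ : Big J) (hKc : #K ≤ 2 ^ 𝔠) (hK : SC K) {Y Z : Type}
    {E : Y → ℕ → ℚ → Set (K × Cond J)} {M : Z → ℕ → ℚ → Set (K × Cond J)}
    {T : ℕ → ℚ × ℚ → Set (K × Cond J)} {c1 : K} {u1 : Cond J}
    (hE : ∀ y, (c1, u1) ∈ IsReal (E y)) (hsmz : (c1, u1) ∈ IsSMZ E)
    (hM : ∀ z, (c1, u1) ∈ IsReal (M z)) (hT : (c1, u1) ∈ IsCode T)
    (hMT : ∀ z, (c1, u1) ∈ InMeager (M z) T)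
    (hno : ∀ p ≤ (c1, u1), ∀ T', p ∉ fand (IsCode T')
      (fall fun y => fall fun z => SumInMeager (E y) (M z) T')) : False := by
  classical
  obtain ⟨c0, hc0, q0, Tf, hT1, hT2, hT3, hT4⟩ := readCode hK hT
  obtain ⟨p0, hp0⟩ : ∃ p0, p0 = u1 * q0 := ⟨_, rfl⟩
  rw [← hp0] at hT4
  have hle : ((c0, p0) : K × Cond J) ≤ (c1, u1) := by rw [hp0]; exact le_mk hc0
  have hE' : ∀ y, (c0, p0) ∈ IsReal (E y) := fun y => down_IsReal _ _ (hE y) _ hle
  have hM' : ∀ z, (c0, p0) ∈ IsReal (M z) := fun z => down_IsReal _ _ (hM z) _ hle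
  have hMT' : ∀ z, (c0, p0) ∈ Pool.Agent.H652R2.Defs.InMeager (M z) T := fun z =>
    down_fex _ _ (hMT z) _ hle
  have hno' : ∀ p ≤ (c0, p0), ∀ T', p ∉ fand (IsCode T')
      (fall fun y => fall fun z => SumInMeager (E y) (M z) T') := fun p hp => hno p (hp.trans hle)
  obtain ⟨S1, hS1, hS1'⟩ := CS.forall hT2
  let Q : K → Cond J → (X J → Cap) → Set J → Prop := fun c w cap S' =>
    c ≤ c0 → (∀ b, LC fun x => cap x b) → (∀ x b, cap x b ≠ []) →
      (∀ x, Small (fun i => Tf i (w.H x)) (cap x)) →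
      ∃ c'' ≤ c, Nonempty (NC E p0 c'' w cap S')
  obtain ⟨α, hα1, hα2⟩ := reflect hJ hKc Q (by
    intro c w cap S _ _ _
    by_cases h : c ≤ c0 ∧ (∀ b, LC fun x => cap x b) ∧ (∀ x b, cap x b ≠ []) ∧
      (∀ x, Small (fun i => Tf i (w.H x)) (cap x))
    · obtain ⟨h1, h2, h3, h4⟩ := h
      obtain ⟨c'', hc'', r, y, e, h5, h6, h7, h8, h9⟩ :=
        stepR hK Tf hT1 hT3 hT4 hE' hM' hMT' hno' h1 w cap h2 h3 h4
      obtain ⟨Se, hSe, hSe'⟩ := CS.forall h6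
      refine ⟨r.S ∪ Se, r.S_countable.union hSe, fun _ _ _ _ => ⟨c'', hc'',
        ⟨⟨r, y, e, (suppOn_S r).mono Set.subset_union_left, fun n x y hxy =>
          hSe' n x y fun γ hγ => hxy γ (Or.inr hγ), h5, h7, h8, h9⟩⟩⟩⟩
    · exact ⟨∅, Set.countable_empty, fun h1 h2 h3 h4 => absurd ⟨h1, h2, h3, h4⟩ h⟩) S1 hS1
  have hTα : ∀ i, DepOn (Tf i) (Set.Iio α) := fun i x y hxy =>
    hS1' i x y fun γ hγ => hxy γ (hα1 hγ)
  have hε : ((c0, p0) : K × Cond J) ∈ IsFun fun n e => nm (K := K) p0 (en Tf α n) e := by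
    have := isFun_nm (K := K) (u := p0) (f := fun n : ℕ => en Tf α n) (fun n => lc_en hT1 α n)
      (c := c0) (r := 1)
    rwa [mul_one] at this
  have hpos : ((c0, p0) : K × Cond J) ∈ fall fun n : ℕ => fall fun e : ℚ =>
      fimp (meets (nm (K := K) p0 (en Tf α n) e)) (fground (0 < e)) := by
    intro n e
    refine fimp_of ?_
    rintro ⟨c, p⟩ ⟨_, w, hw⟩ h
    change p = p0 * w at hw
    rw [hw, mem_meets_nm (lc_en hT1 α n)] at h
    show 0 < e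
    rw [← h x0]
    have := eps_pos (hT3 (w.H x0)) (Ff (Sg (w.H x0 α) n))
    show 0 < _ / 8
    linarith
  obtain ⟨I, hI⟩ := exists_CovBy (E := E) (ε := fun n e => nm (K := K) p0 (en Tf α n) e)
    (p := (c0, p0)) (fun ε => down_fimp _ _ _ (hsmz ε) _ hle) hε hpos
  obtain ⟨F, hF⟩ := exists_TF hK hT1 hTα hT3 hI.1
  obtain ⟨S', hS'α, hS', hQ⟩ := hα2 F.c' (low α F.q) (fun x => comb (F.bk x)) F.S0 F.S0_countable
    F.S0_sub ((low_supp α F.q).mono Set.subset_union_left)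
    (fun x y hxy => by
      show comb (F.bk x) = comb (F.bk y)
      rw [F.dep_bk x y hxy])
  obtain ⟨c2, hc2, ⟨R⟩⟩ := hQ hF (fun b => lc_comb F.lc_bk b)
    (fun x b => comb_ne (fun j => F.bk_ne x 0 j) b)
    (fun x => comb_small (hT3 _) fun c j hcj t ht => F.bk_small hTα hT3 x hcj ht)
  exact core hT1 hTα hT3 hE' hI F hF hc2 hS' hS'α R

theorem forces_H (hJ : Big J) (hKc : #K ≤ 2 ^ 𝔠) (hK : SC K) (p : K × Cond J) :
    p ∈ StatementH (K × Cond J) := by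
  intro Y E
  refine fimp_of fun q hq hq' => ?_
  obtain ⟨hE, hsmz⟩ := hq'
  intro Z M
  refine fimp_of fun q1 hq1 hq1' => ?_
  obtain ⟨hM, hTex⟩ := hq1'
  by_contra hc
  obtain ⟨q2, hq2, hno⟩ := not_fex hc
  obtain ⟨⟨c1, u1⟩, hq3, T, hT, hMT⟩ := mem_fex.1 hTex q2 hq2
  have h1 : ((c1, u1) : K × Cond J) ≤ q := hq3.trans (hq2.trans hq1)
  have h2 : ((c1, u1) : K × Cond J) ≤ q1 := hq3.trans hq2
  refine H_false hJ hKc hK (E := E) (M := M) (T := T) (c1 := c1) (u1 := u1)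
    (fun y => down_IsReal _ _ (hE y) _ h1)
    (fun ε => down_fimp _ _ _ (hsmz ε) _ h1)
    (fun z => down_IsReal _ _ (hM z) _ h2) hT (fun z => hMT z)
    (fun p hp T' h => hno p (hp.trans hq3) T' h)

end Pool.Agent.H652R2
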