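import Mathlib
import Pool.Agent.H652R2.Plain

/-!
# Adding a sequence of length `ω₁`; the real numbers coded by functions
-/

namespace Pool.Agent.H652R2

open Cardinal Set

set_option linter.unusedSectionVars false
set_option linter.unusedVariables false

/-! ### the real numbers -/

/-- the exponents -/
def Bs (b : ℕ → ℕ) (k : ℕ) : ℕ := ∑ i ∈ Finset.range (k + 1), (b i + 1)

/-- the approximations -/
def ap (b : ℕ → ℕ) (n : ℕ) : ℚ := ∑ k ∈ Finset.range n, (1 / 4) ^ Bs b k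

theorem Bs_succ (b : ℕ → ℕ) (k : ℕ) : Bs b (k + 1) = Bs b k + (b (k + 1) + 1) := by
  unfold Bs; rw [Finset.sum_range_succ]

theorem Bs_congr {b b' : ℕ → ℕ} {k : ℕ} (h : ∀ i ≤ k, b i = b' i) : Bs b k = Bs b' k :=
  Finset.sum_congr rfl fun i hi => by rw [h i (by have := Finset.mem_range.1 hi; omega)]

theorem ap_congr {b b' : ℕ → ℕ} {n : ℕ} (h : ∀ i < n, b i = b' i) : ap b n = ap b' n :=
  Finset.sum_congr rfl fun k hk => by
    rw [Bs_congr fun i hi => h i (by have := Finset.mem_range.1 hk; omega)]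

theorem lt_Bs (b : ℕ → ℕ) (k : ℕ) : b k < Bs b k := by
  unfold Bs
  have : b k + 1 ≤ ∑ i ∈ Finset.range (k + 1), (b i + 1) :=
    Finset.single_le_sum (f := fun i => b i + 1) (fun _ _ => Nat.zero_le _)
      (Finset.mem_range.2 (Nat.lt_succ_self k))
  omega

theorem lt_Bs' (b : ℕ → ℕ) (k : ℕ) : k < Bs b k := by
  induction k with
  | zero => have := lt_Bs b 0; omega
  | succ k ih => rw [Bs_succ]; omega

theorem ap_succ (b : ℕ → ℕ) (n : ℕ) : ap b (n + 1) = ap b n + (1 / 4) ^ Bs b n := by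
  unfold ap; rw [Finset.sum_range_succ]

theorem ap_mono (b : ℕ → ℕ) {m n : ℕ} (h : m ≤ n) : ap b m ≤ ap b n := by
  induction h with
  | refl => exact le_rfl
  | @step n _ ih =>
    rw [ap_succ]
    have : (0 : ℚ) < (1 / 4) ^ Bs b n := by positivity
    exact ih.trans (le_add_of_nonneg_right this.le)

theorem ap_upper (b : ℕ → ℕ) {m n : ℕ} (h : m ≤ n) :
    ap b n + 4 / 3 * (1 / 4) ^ Bs b n ≤ ap b m + 4 / 3 * (1 / 4) ^ Bs b m := by
  induction h with
  | refl => exact le_rfl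
  | @step n _ ih =>
    refine le_trans ?_ ih
    rw [ap_succ]
    have h1 : (1 / 4 : ℚ) ^ Bs b (n + 1) ≤ (1 / 4) ^ (Bs b n + 1) :=
      pow_le_pow_of_le_one (by norm_num) (by norm_num) (by rw [Bs_succ]; omega)
    rw [pow_succ] at h1
    linarith

theorem ap_le (b : ℕ → ℕ) {m n : ℕ} (h : m ≤ n) :
    ap b n ≤ ap b m + 4 / 3 * (1 / 4) ^ Bs b m := by
  have h1 := ap_upper b h
  have : (0 : ℚ) < (1 / 4) ^ Bs b n := by positivity
  linarith

theorem quarter_le_half (n : ℕ) : (1 / 4 : ℚ) ^ n ≤ (1 / 2) ^ n :=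
  pow_le_pow_left₀ (by norm_num) (by norm_num) n

theorem ap_cauchy (b : ℕ → ℕ) {m n : ℕ} (h : m ≤ n) : |ap b m - ap b n| ≤ (1 / 2) ^ m := by
  have h1 := ap_mono b h
  have h2 := ap_le b h
  have h3 : (1 / 4 : ℚ) ^ Bs b m ≤ (1 / 4) ^ (m + 1) :=
    pow_le_pow_of_le_one (by norm_num) (by norm_num) (lt_Bs' b m)
  have h4 := quarter_le_half m
  have h5 : (0 : ℚ) < (1 / 4) ^ m := by positivity
  rw [pow_succ] at h3
  rw [abs_le]
  constructor <;> linarith

/-- different functions code different real numbers -/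
theorem ap_inj {b b' : ℕ → ℕ} (h : ∀ n, |ap b n - ap b' n| ≤ 4 * (1 / 2) ^ n) : b = b' := by
  by_contra hne
  obtain ⟨k, hk⟩ : ∃ k, b k ≠ b' k := by
    by_contra hc
    push Not at hc
    exact hne (funext hc)
  classical
  have hex : ∃ k, b k ≠ b' k := ⟨k, hk⟩
  set m := Nat.find hex with hm
  have h1 : b m ≠ b' m := Nat.find_spec hex
  have h2 : ∀ i < m, b i = b' i := fun i hi => by
    have := Nat.find_min hex hi
    push Not at this
    exact this
  have key : ∀ b b' : ℕ → ℕ, (∀ i < m, b i = b' i) → b m < b' m → ∀ n, m < n →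
      1 / 4 * (1 / 4) ^ Bs b m ≤ |ap b n - ap b' n| := by
    intro b b' h2 hlt n hn
    have e1 := ap_mono b (show m + 1 ≤ n from hn)
    have e2 := ap_le b' (show m ≤ n from hn.le)
    rw [ap_succ] at e1
    rw [ap_congr h2] at e1
    have e3 : Bs b m + 1 ≤ Bs b' m := by
      rcases Nat.eq_zero_or_pos m with h0 | h0
      · rw [h0] at hlt ⊢
        simp only [Bs, zero_add, Finset.range_one, Finset.sum_singleton]
        omega
      · obtain ⟨m', hm'⟩ : ∃ m', m = m' + 1 := ⟨m - 1, by omega⟩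
        rw [hm'] at hlt h2 ⊢
        rw [Bs_succ, Bs_succ, Bs_congr (k := m') (b := b) (b' := b') fun i hi => h2 i (by omega)]
        omega
    have e4 : (1 / 4 : ℚ) ^ Bs b' m ≤ (1 / 4) ^ (Bs b m + 1) :=
      pow_le_pow_of_le_one (by norm_num) (by norm_num) e3
    rw [pow_succ] at e4
    refine le_trans ?_ (le_abs_self _)
    have e5 : (0 : ℚ) < (1 / 4) ^ Bs b m := by positivity
    linarith
  have key2 : ∃ c : ℚ, 0 < c ∧ ∀ n, m < n → c ≤ |ap b n - ap b' n| := by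
    rcases lt_or_gt_of_ne h1 with h3 | h3
    · exact ⟨1 / 4 * (1 / 4) ^ Bs b m, by positivity, key b b' h2 h3⟩
    · refine ⟨1 / 4 * (1 / 4) ^ Bs b' m, by positivity, fun n hn => ?_⟩
      rw [abs_sub_comm]
      exact key b' b (fun i hi => (h2 i hi).symm) h3 n hn
  obtain ⟨c, hc, hc'⟩ := key2
  obtain ⟨N, hN⟩ := exists_pow_lt_of_lt_one (show (0 : ℚ) < c / 4 by linarith)
    (show (1 / 2 : ℚ) < 1 by norm_num)
  have h5 := h (max N (m + 1))
  have h6 := hc' (max N (m + 1)) (lt_of_lt_of_le (Nat.lt_succ_self m) (le_max_right _ _))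
  have h7 : (1 / 2 : ℚ) ^ max N (m + 1) ≤ (1 / 2) ^ N :=
    pow_le_pow_of_le_one (by norm_num) (by norm_num) (le_max_left _ _)
  linarith

/-! ### the forcing `K` -/

/-- well-orders of type `ω₁` -/
structure Om (W : Type) [LinearOrder W] : Prop where
  cnt : ∀ ξ : W, (Iio ξ).Countable
  bd : ∀ A : Set W, A.Countable → ∃ b, ∀ a ∈ A, a < b
  card : #W ≤ 𝔠

abbrev WW : Type := (ℵ₁ : Cardinal.{0}).ord.ToType

theorem om_WW : Om WW := by
  have hreg : Cardinal.IsRegular (ℵ₁ : Cardinal.{0}) := isRegular_aleph_one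
  have hcof : Order.cof WW = (ℵ₁ : Cardinal.{0}) := by
    have := hreg.cof_ord
    rwa [← Ordinal.cof_toType] at this
  refine ⟨fun b => ?_, fun A hA => ?_, ?_⟩
  · have h1 : #(Iio b) < #WW := mk_Iio_lt b (by simp)
    rw [mk_toType, card_ord] at h1
    have h2 : #(Iio b) < Order.succ ℵ₀ := h1.trans_eq succ_aleph0.symm
    exact le_aleph0_iff_set_countable.1 (Order.lt_succ_iff.1 h2)
  · by_contra hc
    push Not at hc
    have h1 : IsCofinal A := fun b => by
      obtain ⟨a, ha, hb⟩ := hc b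
      exact ⟨a, ha, hb⟩
    have h2 := Order.cof_le h1
    rw [hcof] at h2
    exact absurd (h2.trans (le_aleph0_iff_set_countable.2 hA)) (not_le.2 aleph0_lt_aleph_one)
  · rw [mk_toType, card_ord, ← succ_aleph0]
    exact Order.succ_le_of_lt (cantor _ |>.trans_eq two_power_aleph0)

/-- the conditions: initial segments of a sequence of functions -/
structure KK (W : Type) where
  d : W
  f : W → ℕ → ℕ

instance (W : Type) [LinearOrder W] : Preorder (KK W) where
  le k' k := k.d ≤ k'.d ∧ ∀ η < k.d, k'.f η = k.f η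
  le_refl k := ⟨le_rfl, fun _ _ => rfl⟩
  le_trans k1 k2 k3 h h' := ⟨h'.1.trans h.1, fun η hη =>
    (h.2 η (lt_of_lt_of_le hη h'.1)).trans (h'.2 η hη)⟩

variable {W : Type} [LinearOrder W]

theorem card_KK (hW : Om W) : #(KK W) ≤ 2 ^ 𝔠 := by
  have h1 : Function.Injective fun k : KK W => (k.d, k.f) := by
    rintro ⟨d, f⟩ ⟨d', f'⟩ h
    simp only [Prod.mk.injEq] at h
    rw [h.1, h.2]
  refine (mk_le_of_injective h1).trans ?_
  rw [mk_prod]
  simp only [Cardinal.lift_id]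
  have h2 : #(W → ℕ → ℕ) ≤ 2 ^ 𝔠 := by
    rw [← power_def]
    have h3 : #(ℕ → ℕ) = 𝔠 := by simp
    rw [h3, ← power_self_eq aleph0_le_continuum]
    exact power_le_power_left (by exact continuum_ne_zero) hW.card
  have hinf : ℵ₀ ≤ (2 : Cardinal.{0}) ^ 𝔠 := aleph0_le_continuum.trans (cantor _).le
  calc _ ≤ (2 : Cardinal.{0}) ^ 𝔠 * 2 ^ 𝔠 :=
        mul_le_mul' (hW.card.trans (cantor _).le) h2
    _ = 2 ^ 𝔠 := mul_eq_self hinf

theorem SC_KK (hW : Om W) : SC (KK W) := by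
  classical
  intro c hc
  have hle : ∀ {m n : ℕ}, m ≤ n → c n ≤ c m := fun h => c_le_of_le hc h
  obtain ⟨d, hd⟩ := hW.bd (range fun n => (c n).d) (countable_range _)
  refine ⟨⟨d, fun η => if h : ∃ n, η < (c n).d then (c (Nat.find h)).f η else fun _ => 0⟩, fun n =>
    ⟨(hd _ ⟨n, rfl⟩).le, fun η hη => ?_⟩⟩
  have h : ∃ n, η < (c n).d := ⟨n, hη⟩
  simp only [h, dif_pos]
  exact ((hle (Nat.find_min' h hη)).2 η (Nat.find_spec h)).symm

/-! ### the dominating functions -/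

theorem exists_dom (hW : Om W) (ξ : W) (f : W → ℕ → ℕ) :
    ∃ b : ℕ → ℕ, ∀ η < ξ, ∃ N, ∀ n, N ≤ n → f η n ≤ b n := by
  obtain ⟨e, he⟩ := Set.countable_iff_exists_injOn.1 (hW.cnt ξ)
  classical
  have hfin : ∀ n, {η | η < ξ ∧ e η ≤ n}.Finite := fun n => by
    have : Set.Finite (e '' {η | η < ξ ∧ e η ≤ n}) :=
      (Set.finite_Iic n).subset (by rintro _ ⟨β, hβ, rfl⟩; exact hβ.2)
    exact Set.Finite.of_finite_image this fun β hβ γ hγ hbg => he hβ.1 hγ.1 hbg
  refine ⟨fun n => (hfin n).toFinset.sup fun η => f η n, fun η hη => ⟨e η, fun n hn => ?_⟩⟩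
  exact Finset.le_sup (f := fun η => f η n) (by
    rw [Set.Finite.mem_toFinset]; exact ⟨hη, hn⟩)

open Classical in
noncomputable def trunc (ξ : W) (f : W → ℕ → ℕ) (η : W) : ℕ → ℕ :=
  if η < ξ then f η else fun _ => 0

theorem trunc_congr {ξ : W} {f f' : W → ℕ → ℕ} (h : ∀ η < ξ, f η = f' η) :
    trunc ξ f = trunc ξ f' := by
  funext η
  unfold trunc
  split_ifs with h1
  · rw [h η h1]
  · rfl

/-- the function `b ξ` -/
noncomputable def Φ (hW : Om W) (ξ : W) (f : W → ℕ → ℕ) : ℕ → ℕ :=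
  Classical.choose (exists_dom hW ξ (trunc ξ f))

theorem Φ_spec (hW : Om W) {ξ η : W} (f : W → ℕ → ℕ) (h : η < ξ) :
    ∃ N, ∀ n, N ≤ n → f η n ≤ Φ hW ξ f n := by
  obtain ⟨N, hN⟩ := Classical.choose_spec (exists_dom hW ξ (trunc ξ f)) η h
  refine ⟨N, fun n hn => ?_⟩
  have := hN n hn
  rw [show trunc ξ f η = f η by simp [trunc, h]] at this
  exact this

theorem Φ_congr (hW : Om W) {ξ : W} {f f' : W → ℕ → ℕ} (h : ∀ η < ξ, f η = f' η) :
    Φ hW ξ f = Φ hW ξ f' := by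
  unfold Φ
  simp only [trunc_congr h]

/-- extending a condition by one more function -/
theorem KK.exists_ext (hW : Om W) (k : KK W) (g : ℕ → ℕ) (ξ : W) :
    ∃ k' ≤ k, ξ < k'.d ∧ k.d < k'.d ∧ k'.f k.d = g := by
  classical
  obtain ⟨d, hd⟩ := hW.bd {k.d, ξ} (by simp)
  refine ⟨⟨d, Function.update k.f k.d g⟩, ⟨(hd k.d (by simp)).le, fun η hη => ?_⟩,
    hd ξ (by simp), hd k.d (by simp), ?_⟩
  · exact Function.update_of_ne hη.ne _ _
  · exact Function.update_self _ _ _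

end Pool.Agent.H652R2
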