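import Mathlib
import Pool.Agent.H652R2.Omega
import Pool.Agent.H652R2.ForceH

/-!
# An uncountable set of strong measure zero
-/

namespace Pool.Agent.H652R2

open Pool.Agent.Helper669.Forcing Pool.Agent.H652R2.Defs Cardinal

set_option linter.unusedSectionVars false
set_option linter.unusedVariables false

variable {J : Type} [LinearOrder J] [WellFoundedLT J] {W : Type} [LinearOrder W]

/-- the names of the real numbers -/
def EN (J : Type) [LinearOrder J] (hW : Om W) (ξ : W) (n : ℕ) (a : ℚ) : Set (KK W × Cond J) :=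
  {p | ξ < p.1.d ∧ ap (Φ hW ξ p.1.f) n = a}

theorem Φ_of_le (hW : Om W) {ξ : W} {k k' : KK W} (h : k' ≤ k) (hξ : ξ < k.d) :
    Φ hW ξ k'.f = Φ hW ξ k.f := Φ_congr hW fun η hη => h.2 η (hη.trans hξ)

theorem mem_EN (hW : Om W) {ξ : W} {n : ℕ} {a : ℚ} {p : KK W × Cond J} (hp : ξ < p.1.d) :
    p ∈ meets (EN J hW ξ n a) ↔ ap (Φ hW ξ p.1.f) n = a := by
  constructor
  · intro h
    obtain ⟨r, hr, s, ⟨hs1, hs2⟩, hrs⟩ := h p le_rfl
    rw [← Φ_of_le hW hr.1 hp, Φ_of_le hW hrs.1 hs1]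
    exact hs2
  · intro h
    exact meets_of_mem ⟨hp, h⟩

theorem exists_long (hW : Om W) (p : KK W × Cond J) (ξ : W) : ∃ q ≤ p, ξ < q.1.d ∧ q.2 = p.2 := by
  obtain ⟨k, hk, h1, _, _⟩ := p.1.exists_ext hW (fun _ => 0) ξ
  exact ⟨(k, p.2), ⟨hk, le_rfl⟩, h1, rfl⟩

theorem isReal_EN (hW : Om W) (ξ : W) (p : KK W × Cond J) : p ∈ IsReal (EN J hW ξ) := by
  refine ⟨⟨fun n => mem_fex.2 fun q _ => ?_, fun n a a' => fimp_of fun r _ hr => ?_⟩,
    fun m n hmn a b => fimp_of fun r _ hr => ?_⟩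
  · obtain ⟨r, hr, h1, _⟩ := exists_long hW q ξ
    exact ⟨r, hr, ap (Φ hW ξ r.1.f) n, (mem_EN hW h1).2 rfl⟩
  · obtain ⟨s, hs, h1, _⟩ := exists_long hW r ξ
    have h2 := (mem_EN hW h1).1 (down_meets _ _ hr.1 _ hs)
    have h3 := (mem_EN hW h1).1 (down_meets _ _ hr.2 _ hs)
    show a = a'
    rw [← h2, h3]
  · obtain ⟨s, hs, h1, _⟩ := exists_long hW r ξ
    have h2 := (mem_EN hW h1).1 (down_meets _ _ hr.1 _ hs)
    have h3 := (mem_EN hW h1).1 (down_meets _ _ hr.2 _ hs)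
    show |a - b| ≤ _
    rw [← h2, ← h3]
    exact ap_cauchy _ hmn

theorem inIoo_EN (hW : Om W) {ξ : W} {p : KK W × Cond J} (hp : ξ < p.1.d) {a b : ℚ} {N : ℕ}
    (h1 : a + (1 / 2) ^ N < ap (Φ hW ξ p.1.f) N) (h2 : ap (Φ hW ξ p.1.f) N + (1 / 2) ^ N < b) :
    p ∈ InIoo (EN J hW ξ) a b :=
  mem_fex_of_mem N (down_fex _) (mem_fex_of_mem _ (down_fand (down_fground _) (down_meets _))
    ⟨⟨h1, h2⟩, (mem_EN hW hp).2 rfl⟩)

/-! ### uncountability -/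

/-- the real number named by `R` is the one coded by `b` -/
def Eqb {P : Type} [Preorder P] (R : ℕ → ℚ → Set P) (b : ℕ → ℕ) : Set P :=
  fall fun k => fall fun a => fimp (meets (R k a)) (fground (|a - ap b k| ≤ 2 * (1 / 2) ^ k))

theorem down_Eqb {P : Type} [Preorder P] (R : ℕ → ℚ → Set P) (b : ℕ → ℕ) : Down (Eqb R b) :=
  down_fall fun _ => down_fall fun _ => down_fimp _ _

theorem not_countable (hW : Om W) (p : KK W × Cond J) : p ∉ IsCountable (EN J hW) := by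
  classical
  intro h
  obtain ⟨⟨c1, u1⟩, _, S, hS1, hS2⟩ := mem_fex.1 h p le_rfl
  let D : ℕ → Set (KK W × Cond J) := fun m => {p | ∀ n ≤ m, (∃ b, p ∈ Eqb (S n) b) ∨
    (∀ b, ∀ r ≤ p, r ∉ Eqb (S n) b)}
  have hD1 : ∀ n p q, q ≤ p → ((∃ b, p ∈ Eqb (S n) b) ∨ (∀ b, ∀ r ≤ p, r ∉ Eqb (S n) b)) →
      ((∃ b, q ∈ Eqb (S n) b) ∨ (∀ b, ∀ r ≤ q, r ∉ Eqb (S n) b)) := by
    rintro n p q hq (⟨b, hb⟩ | h)
    · exact Or.inl ⟨b, down_Eqb _ _ _ hb _ hq⟩
    · exact Or.inr fun b r hr => h b r (hr.trans hq)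
  have hD2 : ∀ n p, ∃ q ≤ p, ((∃ b, q ∈ Eqb (S n) b) ∨ (∀ b, ∀ r ≤ q, r ∉ Eqb (S n) b)) := by
    intro n p
    by_cases h : ∃ b, ∃ r ≤ p, r ∈ Eqb (S n) b
    · obtain ⟨b, r, hr, hb⟩ := h
      exact ⟨r, hr, Or.inl ⟨b, hb⟩⟩
    · push Not at h
      exact ⟨p, le_rfl, Or.inr h⟩
  have hDd : ∀ m, Down (D m) := fun m p hp q hq n hn => hD1 n p q hq (hp n hn)
  have hdense : ∀ m p, ∃ q ≤ p, q ∈ D m := by
    intro m
    induction m with
    | zero =>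
      intro p
      obtain ⟨q, hq, h1⟩ := hD2 0 p
      exact ⟨q, hq, fun n hn => by
        obtain rfl : n = 0 := by omega
        exact h1⟩
    | succ m ih =>
      intro p
      obtain ⟨q, hq, h1⟩ := ih p
      obtain ⟨q', hq', h2⟩ := hD2 (m + 1) q
      refine ⟨q', hq'.trans hq, fun n hn => ?_⟩
      rcases Nat.lt_or_ge m n with h3 | h3
      · obtain rfl : n = m + 1 := by omega
        exact h2
      · exact hDd m q h1 q' hq' n h3
  obtain ⟨c2, hc2, q, a, ha1, ha2⟩ := fuse (SC_KK hW) D hDd c1 u1 fun m p _ => hdense m p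
  have hbf : ∀ m n, ∃ b, (∃ b, (c2, u1 * q * cone (a m)) ∈ Eqb (S n) b) →
      (c2, u1 * q * cone (a m)) ∈ Eqb (S n) b := by
    intro m n
    by_cases h : ∃ b, (c2, u1 * q * cone (a m)) ∈ Eqb (S n) b
    · obtain ⟨b, hb⟩ := h
      exact ⟨b, fun _ => hb⟩
    · exact ⟨fun _ => 0, fun h' => absurd h' h⟩
  choose bf hbf using hbf
  let G : ℕ → ℕ := fun k => 1 + ∑ m ∈ Finset.range (k + 1), ∑ n ∈ Finset.range (k + 1), bf m n k
  have hG : ∀ m n k, m ≤ k → n ≤ k → bf m n k < G k := by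
    intro m n k hm hn
    have h1 : bf m n k ≤ ∑ n ∈ Finset.range (k + 1), bf m n k :=
      Finset.single_le_sum (f := fun n => bf m n k) (fun _ _ => Nat.zero_le _)
        (Finset.mem_range.2 (by omega))
    have h2 : ∑ n ∈ Finset.range (k + 1), bf m n k ≤
        ∑ m ∈ Finset.range (k + 1), ∑ n ∈ Finset.range (k + 1), bf m n k :=
      Finset.single_le_sum (f := fun m => ∑ n ∈ Finset.range (k + 1), bf m n k)
        (fun _ _ => Nat.zero_le _) (Finset.mem_range.2 (by omega))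
    show bf m n k < 1 + _
    omega
  obtain ⟨c3, hc3, _, hd3, hf3⟩ := c2.exists_ext hW G c2.d
  obtain ⟨c4, hc4, _, hd4, _⟩ := c3.exists_ext hW (fun _ => 0) c3.d
  obtain ⟨b, hb⟩ : ∃ b, b = Φ hW c3.d c4.f := ⟨_, rfl⟩
  have hbne : ∀ m n, b ≠ bf m n := by
    intro m n hbeq
    obtain ⟨N, hN⟩ := Φ_spec hW c4.f hd3
    rw [hc4.2 _ hd3, hf3, ← hb] at hN
    have h1 := hN (max N (max m n)) (le_max_left _ _)
    have h2 := hG m n (max N (max m n)) ((le_max_left _ _).trans (le_max_right _ _))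
      ((le_max_right _ _).trans (le_max_right _ _))
    rw [hbeq] at h1
    omega
  have hle4 : ((c4, u1 * q) : KK W × Cond J) ≤ (c1, u1) := le_mk ((hc4.trans hc3).trans hc2)
  obtain ⟨⟨c5, u5⟩, ⟨hc5, w, hw⟩, n, hn⟩ := mem_fex.1 (hS2 c3.d) _ hle4
  change c5 ≤ c4 at hc5
  change u5 = u1 * q * w at hw
  obtain ⟨m, hmn, hm⟩ := ha2 (w.H x0) n
  obtain ⟨F, N, hFN⟩ := exists_cone_le w (a m) hm
  obtain ⟨r, hr⟩ : ∃ r : KK W × Cond J, r = (c5, u1 * q * (w * cone (tupOf F N x0))) := ⟨_, rfl⟩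
  have hr5 : r ≤ (c5, u5) := by
    rw [hr, hw, ← mul_assoc]; exact ⟨le_rfl, Cond.mul_le _ _⟩
  have hr2 : r ≤ (c2, u1 * q * cone (a m)) := by
    rw [hr]
    exact ⟨(hc5.trans hc4).trans hc3, Cond.mul_le_mul _ hFN⟩
  have hr1 : r ≤ (c1, u1) := hr2.trans ⟨hc2, q * cone (a m), by simp only [mul_assoc]⟩
  have hEq : r ∈ Eqb (S n) b := by
    intro k x
    refine fimp_of fun t ht htx => ?_
    have ht5 : t.1 ≤ c4 := ((ht.trans hr5).1).trans hc5
    have h1 : c3.d < t.1.d := lt_of_lt_of_le hd4 ht5.1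
    have h2 : t ∈ meets (EN J hW c3.d k (ap b k)) := by
      rw [mem_EN hW h1, hb, Φ_of_le hW ht5 hd4]
    have h3 := ground_of_fimp (down_fimp _ _ _ (hn k (ap b k) x) t (ht.trans hr5)) ⟨h2, htx⟩
    show |x - ap b k| ≤ _
    rwa [abs_sub_comm]
  rcases ha1 m n hmn with h1 | h1
  · have h2 := down_Eqb _ _ _ (hbf m n h1) r hr2
    refine hbne m n (ap_inj fun k => ?_)
    obtain ⟨t, ht, x, hx⟩ := IsFun.total (down_IsFun _ _ (hS1 n).1 _ hr1) k
    have h3 := abs_le.1 (ground_of_fimp (down_fimp _ _ _ (hEq k x) t ht) hx)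
    have h4 := abs_le.1 (ground_of_fimp (down_fimp _ _ _ (h2 k x) t ht) hx)
    rw [abs_le]
    constructor <;> linarith
  · exact h1 b r hr2 hEq

end Pool.Agent.H652R2
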