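import Mathlib
import Pool.Agent.H652R2.NotBC

/-!
# The set has strong measure zero
-/

namespace Pool.Agent.H652R2

open Pool.Agent.Helper669.Forcing Pool.Agent.H652R2.Defs Cardinal

set_option linter.unusedSectionVars false
set_option linter.unusedVariables false

/-! ### the bounds -/

/-- the maximal value of `h` -/
def HHl (h : List ℕ → ℕ) (l : List (List ℕ)) : ℕ := (l.map h).foldr max 0

theorem le_HHl (h : List ℕ → ℕ) : ∀ (l : List (List ℕ)), ∀ s ∈ l, h s ≤ HHl h l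
  | [], s, hs => absurd hs (List.not_mem_nil)
  | t :: l, s, hs => by
    simp only [HHl, List.map_cons, List.foldr_cons]
    rcases List.mem_cons.1 hs with rfl | hs
    · exact le_max_left _ _
    · exact (le_HHl h l s hs).trans (le_max_right _ _)

/-- the sequences of length `n` bounded by the bounds -/
def LL (h : List ℕ → ℕ) : ℕ → List (List ℕ)
  | 0 => [[]]
  | n + 1 => (LL h n).flatMap fun s => (List.range (HHl h (LL h n))).map fun j => s ++ [j]

/-- the bounds -/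
def Hb (h : List ℕ → ℕ) (n : ℕ) : ℕ := HHl h (LL h n)

theorem pre_mem_LL {h : List ℕ → ℕ} {b : ℕ → ℕ} (hb : ∀ n, b n < h (pre b n)) :
    ∀ n, pre b n ∈ LL h n
  | 0 => by simp [LL]
  | n + 1 => by
    have ih := pre_mem_LL hb n
    rw [pre_succ]
    simp only [LL]
    refine List.mem_flatMap.2 ⟨pre b n, ih, List.mem_map.2 ⟨b n, List.mem_range.2 ?_, rfl⟩⟩
    exact lt_of_lt_of_le (hb n) (le_HHl h _ _ ih)

theorem lt_Hb {h : List ℕ → ℕ} {b : ℕ → ℕ} (hb : ∀ n, b n < h (pre b n)) (n : ℕ) :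
    b n < Hb h n := lt_of_lt_of_le (hb n) (le_HHl h _ _ (pre_mem_LL hb n))

section
variable {J : Type} {h : X J → List ℕ → ℕ} (hh : ∀ s, LC fun x => h x s)
include hh

theorem lc_HHl : ∀ l, LC fun x => HHl (h x) l
  | [] => LC.const _
  | s :: l => ((hh s).prod (lc_HHl l)).map fun p => max p.1 p.2

theorem lc_LL : ∀ n, LC fun x => LL (h x) n
  | 0 => LC.const _
  | n + 1 => (lc_LL n).bind
      (g := fun l x => l.flatMap fun s => (List.range (HHl (h x) l)).map fun j => s ++ [j])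
      fun l => (lc_HHl hh l).map fun m => l.flatMap fun s => (List.range m).map fun j => s ++ [j]

theorem lc_Hb (n : ℕ) : LC fun x => Hb (h x) n :=
  (lc_LL hh n).bind (g := fun l x => HHl (h x) l) fun l => lc_HHl hh l

end

/-! ### lengths -/

theorem exists_hq {e : ℚ} (h : 0 < e) : ∃ N : ℕ, (1 / 4 : ℚ) ^ N < e / 6 ∧ (1 / 2 : ℚ) ^ N < e / 6 := by
  obtain ⟨N, hN⟩ := exists_pow_lt_of_lt_one (show 0 < e / 6 by linarith)
    (show (1 / 2 : ℚ) < 1 by norm_num)
  exact ⟨N, (quarter_le_half N).trans_lt hN, hN⟩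

open Classical in
noncomputable def hq (e : ℚ) : ℕ := if h : 0 < e then Nat.find (exists_hq h) else 0

theorem hq_spec {e : ℚ} (h : 0 < e) : (1 / 4 : ℚ) ^ hq e < e / 6 ∧ (1 / 2 : ℚ) ^ hq e < e / 6 := by
  classical
  simp only [hq, h, dif_pos]
  exact Nat.find_spec (exists_hq h)

/-- the point given by a finite sequence -/
def dS (s : List ℕ) : ℚ := ap (fun i => s.getD i 0) s.length

theorem dS_pre (b : ℕ → ℕ) (n : ℕ) : dS (pre b n) = ap b n := by
  unfold dS
  rw [length_pre]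
  exact ap_congr fun i hi => getD_pre b hi

/-- the intervals, given the lengths -/
noncomputable def ivf (r : ℕ → ℕ → ℕ) (n : ℕ) (e : ℚ) : ℚ × ℚ :=
  if n % 2 = 0 then (dS (dec (n / 2)) - e / 3, dS (dec (n / 2)) + e / 3)
  else (ap (r (n / 2)) (hq e) - e / 3, ap (r (n / 2)) (hq e) + e / 3)

theorem ivf_len (r : ℕ → ℕ → ℕ) (n : ℕ) {e : ℚ} (he : 0 < e) :
    (ivf r n e).2 - (ivf r n e).1 < e := by
  unfold ivf
  split_ifs <;> dsimp only <;> linarith

theorem ivf_odd (r : ℕ → ℕ → ℕ) (k : ℕ) {e : ℚ} (he : 0 < e) :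
    (ivf r (2 * k + 1) e).1 + (1 / 2) ^ hq e < ap (r k) (hq e) ∧
      ap (r k) (hq e) + (1 / 2) ^ hq e < (ivf r (2 * k + 1) e).2 := by
  have h1 : (2 * k + 1) % 2 ≠ 0 := by omega
  have h2 : (2 * k + 1) / 2 = k := by omega
  have h3 := (hq_spec he).2
  simp only [ivf, h1, if_false, h2]
  constructor <;> linarith

theorem ivf_even (r : ℕ → ℕ → ℕ) (b : ℕ → ℕ) (n : ℕ) {e : ℚ} (he : 0 < e) (hb : hq e ≤ b n) :
    ∃ N, (ivf r (2 * code (pre b n)) e).1 + (1 / 2) ^ N < ap b N ∧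
      ap b N + (1 / 2) ^ N < (ivf r (2 * code (pre b n)) e).2 := by
  have h1 : (2 * code (pre b n)) % 2 = 0 := by omega
  have h2 : (2 * code (pre b n)) / 2 = code (pre b n) := by omega
  obtain ⟨h3, h4⟩ := hq_spec he
  refine ⟨max n (hq e), ?_⟩
  have h5 : (1 / 2 : ℚ) ^ max n (hq e) ≤ (1 / 2) ^ hq e :=
    pow_le_pow_of_le_one (by norm_num) (by norm_num) (le_max_right _ _)
  have h6 := ap_mono b (le_max_left n (hq e))
  have h7 := ap_le b (le_max_left n (hq e))
  have h8 : (1 / 4 : ℚ) ^ Bs b n ≤ (1 / 4) ^ (hq e + 1) :=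
    pow_le_pow_of_le_one (by norm_num) (by norm_num) (by have := lt_Bs b n; omega)
  rw [pow_succ] at h8
  simp only [ivf, h1, if_true, h2, dec_code, dS_pre]
  constructor <;> linarith

variable {J : Type} [LinearOrder J] [WellFoundedLT J] {W : Type} [LinearOrder W]

theorem smz_EN (hW : Om W) (p : KK W × Cond J) : p ∈ IsSMZ (EN J hW) := by
  classical
  intro ε
  refine fimp_of fun q0 hq0 hq0' => ?_
  obtain ⟨hε, hpos⟩ := hq0'
  show q0 ∈ fex fun I : ℕ → ℚ × ℚ → Set (KK W × Cond J) => CovBy (EN J hW) ε I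
  refine mem_fex.2 fun p1 hp1 => ?_
  obtain ⟨c1, u1⟩ := p1
  have hε1 := down_IsFun _ _ hε _ hp1
  have hpos1 : ∀ n e, ((c1, u1) : KK W × Cond J) ∈ fimp (meets (ε n e)) (fground (0 < e)) :=
    fun n e => down_fimp _ _ _ (hpos n e) _ hp1
  -- reading the lengths
  obtain ⟨c2, hc2, q1, e, he1, he2, he3⟩ := read (SC_KK hW)
    (fun n a => fand (meets (ε n a)) (fground (0 < a)))
    (fun n a => down_fand (down_meets _) (down_fground _))
    (fun n a => rgl_fand (rgl_meets _) (rgl_fground _)) c1 u1 (by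
      intro n q hq
      obtain ⟨r, hr, a, ha⟩ := IsFun.total (down_IsFun _ _ hε1 _ hq) n
      exact ⟨r, hr, a, ha, ground_of_fimp (down_fimp _ _ _ (hpos1 n a) _ (hr.trans hq)) ha⟩)
  have hreads : Reads c2 (u1 * q1) ε e := fun n r a h => (he3 n r a h).1
  have hepos : ∀ n x, 0 < e n x := by
    intro n x
    obtain ⟨F, N, h1⟩ := exists_tupOf (he1 n) x
    exact (he3 n _ _ h1).2
  let h : X J → List ℕ → ℕ := fun x s => hq (e (2 * code s) x)
  have hlc : ∀ s, LC fun x => h x s := fun s => (he1 _).map hq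
  -- deciding the bounds
  let D : ℕ → Set (KK W × Cond J) := fun m => {p | ∃ v, ∀ x, Hb (h (p.2.H x)) m = v}
  obtain ⟨c3, hc3, q2, a, ha1, ha2⟩ := fuse (SC_KK hW) D (by
      rintro m ⟨c, p⟩ ⟨v, hv⟩ ⟨c', q⟩ ⟨_, r, hr⟩
      change q = p * r at hr
      exact ⟨v, fun x => by rw [show ((c', q) : KK W × Cond J).2 = p * r from hr, Cond.mul_H]
                            exact hv _⟩) c2 1 (by
      rintro m ⟨c, p⟩ _
      obtain ⟨F, N, h1⟩ := exists_tupOf ((lc_Hb hlc m).comp p.H_cont) x0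
      exact ⟨(c, p * cone (tupOf F N x0)), ⟨le_rfl, Cond.mul_le _ _⟩, _, fun x => by
        show Hb (h ((p * cone (tupOf F N x0)).H x)) m = _
        rw [Cond.mul_H]; exact h1 x⟩)
  choose g hg using ha1
  have hg' : ∀ x m, x ∈ (a m).box → Hb (h (q2.H x)) m = g m := by
    intro x m hx
    have := hg m (strip (a m).a x)
    change Hb (h ((1 * q2 * cone (a m)).H _)) m = _ at this
    rwa [one_mul, Cond.mul_H, cone_strip _ hx] at this
  obtain ⟨c4, hc4, _, hd4, hf4⟩ := c3.exists_ext hW g c3.d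
  have hIic : (Set.Iic c3.d).Countable := by
    rw [← Set.Iio_insert]; exact (hW.cnt _).insert _
  obtain ⟨enum, henum⟩ := hIic.exists_eq_range ⟨c3.d, le_rfl⟩
  let r : ℕ → ℕ → ℕ := fun k => Φ hW (enum k) c4.f
  let p4 : Cond J := u1 * q1 * q2
  let iv : ℕ → X J → ℚ × ℚ := fun n x => ivf r n (e n (q2.H x))
  have hiv : ∀ n, LC (iv n) := fun n => ((he1 n).comp q2.H_cont).map (ivf r n)
  have hle : ((c4, p4) : KK W × Cond J) ≤ (c1, u1) :=
    ⟨(hc4.trans hc3).trans hc2, q1 * q2, by show u1 * q1 * q2 = _; rw [mul_assoc]⟩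
  refine ⟨(c4, p4), hle, fun n I => nm p4 (iv n) I, ?_, ?_, ?_⟩
  · have := isFun_nm (K := KK W) (u := p4) (f := iv) hiv (c := c4) (r := 1)
    rwa [mul_one] at this
  · intro n e' I
    refine fimp_of ?_
    rintro ⟨c, p⟩ ⟨hc, w, hw⟩ ⟨h1, h2⟩
    change p = p4 * w at hw
    change c ≤ c4 at hc
    rw [hw, mem_meets_nm (hiv n)] at h2
    have hw' : p = u1 * q1 * (q2 * w) := by
      rw [hw]; show u1 * q1 * q2 * w = _; simp only [mul_assoc]
    have hle' : ((c, p) : KK W × Cond J) ≤ (c1, u1) :=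
      ⟨hc.trans hle.1, q1 * (q2 * w), by
        show p = u1 * (q1 * (q2 * w))
        rw [hw']; simp only [mul_assoc]⟩
    have h3 := hreads.unique (c' := c) (hc.trans (hc4.trans hc3)) (r := q2 * w)
      (by rw [← hw']; exact down_IsFun _ _ hε1 _ hle') (he1 n)
      (by rw [← hw']; exact h1) x0
    have h4 := h2 x0
    rw [Cond.mul_H] at h3
    show I.2 - I.1 < e'
    rw [← h4, ← h3]
    exact ivf_len r n (hepos _ _)
  · intro ξ
    refine mem_fex.2 ?_
    rintro ⟨c5, u5⟩ ⟨hc5, w, hw⟩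
    change u5 = p4 * w at hw
    change c5 ≤ c4 at hc5
    obtain ⟨c6, hc6, hξ6, _, _⟩ := c5.exists_ext hW (fun _ => 0) ξ
    have hc64 : c6 ≤ c4 := hc6.trans hc5
    -- it suffices to find an interval containing the number at the point `w.H x0`
    suffices hsuff : ∃ n N, (iv n (w.H x0)).1 + (1 / 2) ^ N < ap (Φ hW ξ c6.f) N ∧
        ap (Φ hW ξ c6.f) N + (1 / 2) ^ N < (iv n (w.H x0)).2 by
      obtain ⟨n, N, h1, h2⟩ := hsuff
      obtain ⟨F, M, h3⟩ := exists_tupOf ((hiv n).comp w.H_cont) x0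
      refine ⟨(c6, u5 * cone (tupOf F M x0)), ⟨hc6, Cond.mul_le _ _⟩, n,
        mem_fex_of_mem (iv n (w.H x0)) (down_fand (down_meets _) (down_fex _)) ⟨?_, ?_⟩⟩
      · rw [hw, mul_assoc, mem_meets_nm (hiv n)]
        intro x
        rw [Cond.mul_H]; exact h3 x
      · exact inIoo_EN hW hξ6 h1 h2
    rcases le_or_gt ξ c3.d with hξ | hξ
    · -- the countably many first elements
      have hmem : ξ ∈ Set.range enum := by rw [← henum]; exact hξ
      obtain ⟨k, hk⟩ := hmem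
      have hΦ : r k = Φ hW ξ c6.f := by
        show Φ hW (enum k) c4.f = _
        rw [hk]
        exact (Φ_of_le hW hc64 (lt_of_le_of_lt hξ hd4)).symm
      have := ivf_odd r k (hepos (2 * k + 1) (q2.H (w.H x0)))
      rw [hΦ] at this
      exact ⟨2 * k + 1, _, this⟩
    · -- the other elements
      obtain ⟨N, hN⟩ := Φ_spec hW c6.f hξ
      rw [hc64.2 _ hd4, hf4] at hN
      obtain ⟨b, hb⟩ : ∃ b, b = Φ hW ξ c6.f := ⟨_, rfl⟩
      rw [← hb] at hN ⊢
      have hex : ∃ n, h (q2.H (w.H x0)) (pre b n) ≤ b n := by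
        by_contra hc
        push Not at hc
        obtain ⟨m, hm1, hm2⟩ := ha2 (w.H x0) N
        have h1 := lt_Hb hc m
        rw [hg' _ m hm2] at h1
        have := hN m hm1
        omega
      obtain ⟨n, hn⟩ := hex
      obtain ⟨M, hM⟩ := ivf_even r b n (hepos (2 * code (pre b n)) (q2.H (w.H x0))) hn
      exact ⟨2 * code (pre b n), M, hM⟩

/-- Borel's Conjecture fails. -/
theorem forces_not_BC (hW : Om W) (p : KK W × Cond J) :
    p ∈ fnot (BorelConjecture (KK W × Cond J)) := by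
  intro q _ hq
  obtain ⟨r, _, hr⟩ := mem_fimp.1 (hq W (EN J hW)) q le_rfl
    ⟨fun ξ => isReal_EN hW ξ q, smz_EN hW q⟩
  exact not_countable hW r hr

end Pool.Agent.H652R2
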